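import Pool.Agent.KSE.CentE
import Pool.Agent.KSP.IsoF

/-!
Module ProjE. Projections onto rational subspaces stable under the rational symmetries. This is the first
part of the proof of `KSP.no_isotropicF` (`Pool/Agent/KSP/IsoF.lean`), up to `hpdrb`.
-/

open scoped ComplexConjugate

namespace Pool.Agent.KSE

open Module Matrix NumberField Pool.Agent.Helper7 Pool.Agent.KS Pool.Agent.Ball
  Pool.Agent.Helper28.GPC

variable {I : Type} [Fintype I] [DecidableEq I] (n : I → ℕ) {κ : I → Type}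
    [∀ i, Fintype (κ i)] [∀ i, DecidableEq (κ i)] {ϖ : ℂ} (hϖ : ϖ ≠ 0) (P : ∀ i, PData (κ i) ϖ)
    (i : I) {k : ℕ} (γ : MultilinearMap ℂ (fun _ : Fin (2 * k) => HW κ n) ℂ)
    (hB : ∀ v : Fin (2 * k) → HW κ n, (∀ r, IsRatP n P (v r)) → ∃ q : ℚ, γ v = ϖ ^ k * q)
    (hA : ∀ v : Fin (2 * k) → HW κ n, (∀ r i m j, IsAlgebraic ℚ (v r i m j)) →
      IsAlgebraic ℚ (γ v))

include hϖ hB hA in
theorem exists_projE (hP : HNd (P i)) (U : Submodule ℚ (κ i → ℂ)) (hU : U ≤ (P i).Q)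
    (hst : ∀ Y : GG κ, IsInv n P γ Y → IsRatl P Y → ∀ v ∈ U, Y.1 i v ∈ U) :
    ∃ p : Module.End ℂ (κ i → ℂ), IsDRB (P i) (P i) p ∧ (∀ v ∈ U, p v = v) ∧
      ∀ v, p v ∈ Submodule.span ℂ (U : Set (κ i → ℂ)) := by
  classical
  obtain ⟨S, hSU⟩ : ∃ S : Submodule ℚ (κ i → ℂ), S = U := ⟨U, rfl⟩
  rw [← hSU]
  have hSQ : S ≤ (P i).Q := by rw [hSU]; exact hU
  have hSst : ∀ Y : GG κ, IsInv n P γ Y → IsRatl P Y → ∀ v ∈ S, Y.1 i v ∈ S := by
    rw [hSU]; exact hst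
  have hSnd := hP S hSQ (algebraic_of_stable n P γ hϖ hB hA i
    (S : Set (κ i → ℂ)) (fun v hv => hSQ hv)
    (fun Y hY hYr v hv => Submodule.subset_span (hSst Y hY hYr v hv)))
  -- the orthogonal complement
  obtain ⟨S', hcompl, hS'⟩ := isCompl_of_nondeg (P i) hϖ (S.comap (P i).Q.subtype)
    (fun u hu h => by
      apply Subtype.ext
      exact hSnd u hu (fun v hv => h ⟨v, hSQ hv⟩ hv))
  obtain ⟨pQ, hpQ⟩ : ∃ pQ : Module.End ℚ (P i).Q, pQ = (S.comap (P i).Q.subtype).projection S' hcompl :=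
    ⟨_, rfl⟩
  have hpS : ∀ v, ((pQ v : (P i).Q) : κ i → ℂ) ∈ S := fun v => by
    have h1 : pQ v ∈ S.comap (P i).Q.subtype := by
      rw [hpQ]; exact Submodule.projection_apply_mem hcompl v
    exact h1
  have hpid : ∀ v : (P i).Q, (v : κ i → ℂ) ∈ S → pQ v = v := fun v hv => by
    rw [hpQ]; exact Submodule.projection_apply_of_mem_left hcompl hv
  have hp0 : ∀ v ∈ S', pQ v = 0 := fun v hv => by
    rw [hpQ]; exact (Submodule.projection_apply_eq_zero_iff hcompl).mpr hv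
  have hpx : ∀ v, v - pQ v ∈ S' := by
    intro v
    rw [← Submodule.projection_apply_eq_zero_iff hcompl, ← hpQ, map_sub, hpid _ (hpS v), sub_self]
  -- the complex projector
  obtain ⟨p, hp⟩ : ∃ p : Module.End ℂ (κ i → ℂ), p = (P i).bB.constr ℂ
      (fun j => ((pQ ⟨(P i).bB j, (P i).basis_mem j⟩ : (P i).Q) : κ i → ℂ)) := ⟨_, rfl⟩
  have hpb : ∀ j, p ((P i).bB j) = ((pQ ⟨(P i).bB j, (P i).basis_mem j⟩ : (P i).Q) : κ i → ℂ) := by
    intro j; rw [hp]; exact Basis.constr_basis _ _ _ _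
  have hpv : ∀ v : (P i).Q, p v = ((pQ v : (P i).Q) : κ i → ℂ) := by
    rintro ⟨v, hv⟩
    have hv' : v ∈ Submodule.span ℚ (Set.range (P i).bB) := hv
    have key : ∀ v ∈ Submodule.span ℚ (Set.range (P i).bB), ∀ hv : v ∈ (P i).Q,
        p v = ((pQ ⟨v, hv⟩ : (P i).Q) : κ i → ℂ) := by
      intro v hv'
      induction hv' using Submodule.span_induction with
      | mem x hx =>
        obtain ⟨j, rfl⟩ := hx
        intro hv
        exact hpb j
      | zero =>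
        intro hv
        rw [map_zero]
        have h1 : (⟨0, hv⟩ : (P i).Q) = 0 := rfl
        rw [h1, map_zero]; rfl
      | add x y hx' hy' hx hy =>
        intro hv
        rw [map_add, hx hx', hy hy']
        have h1 : (⟨x + y, hv⟩ : (P i).Q) = ⟨x, hx'⟩ + ⟨y, hy'⟩ := rfl
        rw [h1, map_add]; rfl
      | smul c x hx' hx =>
        intro hv
        have h2 : ∀ w : κ i → ℂ, c • w = (c : ℂ) • w := by
          intro w
          rw [← algebraMap_smul ℂ c w]; rfl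
        have h3 : p (c • x) = c • p x := by rw [h2, h2, map_smul]
        have h1 : pQ (⟨c • x, hv⟩ : (P i).Q) = c • pQ ⟨x, hx'⟩ := by
          rw [← map_smul]; rfl
        rw [h3, h1, hx hx']; rfl
    exact key v hv' hv
  have hprat : ∀ v ∈ (P i).Q, p v ∈ (P i).Q := fun v hv => by
    rw [hpv ⟨v, hv⟩]; exact (pQ ⟨v, hv⟩).2
  have hpspan : ∀ v, p v ∈ Submodule.span ℂ (S : Set (κ i → ℂ)) := by
    intro v
    rw [← (P i).bB.sum_repr v, map_sum]
    refine Submodule.sum_mem _ fun j _ => ?_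
    rw [map_smul, hpb]
    exact Submodule.smul_mem _ _ (Submodule.subset_span (hpS _))
  have hpc : ∀ Y : GG κ, IsInv n P γ Y →
      IsRatl P Y → ∀ v, Y.1 i (p v) = p (Y.1 i v) := by
    intro Y hY hYr
    have h1 : Y.1 i ∘ₗ p = p ∘ₗ Y.1 i := by
      apply (P i).bB.ext
      intro j
      rw [LinearMap.comp_apply, LinearMap.comp_apply]
      obtain ⟨v, hv⟩ : ∃ v : (P i).Q, v = ⟨(P i).bB j, (P i).basis_mem j⟩ := ⟨_, rfl⟩
      have hvi : (P i).bB j = (v : κ i → ℂ) := by rw [hv]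
      obtain ⟨b, hb⟩ : ∃ b : (P i).Q, b = v - pQ v := ⟨_, rfl⟩
      have hbS' : b ∈ S' := by rw [hb]; exact hpx v
      have hYb : (⟨Y.1 i b, hYr.1 i _ b.2⟩ : (P i).Q) ∈ S' := by
        rw [hS']
        intro u hu
        have h2 := hY.pol i (u : κ i → ℂ) (b : κ i → ℂ)
        have h3 : (P i).ψ (Y.1 i (u : κ i → ℂ)) (b : κ i → ℂ) = 0 :=
          (hS' b).mp hbS' ⟨Y.1 i u, hYr.1 i _ u.2⟩ (hSst Y hY hYr u hu)
        have h4 : (P i).ψ (u : κ i → ℂ) (b : κ i → ℂ) = 0 := (hS' b).mp hbS' u hu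
        rw [h3, h4, zero_add, mul_zero] at h2
        exact h2
      have hYa := hSst Y hY hYr _ (hpS v)
      have h5 : (v : κ i → ℂ) = (pQ v : (P i).Q) + (b : κ i → ℂ) := by
        rw [hb]
        show (v : κ i → ℂ) = (pQ v : (P i).Q) + ((v : κ i → ℂ) - (pQ v : (P i).Q))
        abel
      have h6 : p (Y.1 i (b : κ i → ℂ)) = 0 := by
        have h7 := hpv ⟨Y.1 i b, hYr.1 i _ b.2⟩
        rw [hp0 _ hYb] at h7
        exact h7
      have h8 : p (Y.1 i ((pQ v : (P i).Q) : κ i → ℂ)) = Y.1 i ((pQ v : (P i).Q) : κ i → ℂ) := by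
        have h9 := hpv ⟨Y.1 i ((pQ v : (P i).Q) : κ i → ℂ), hSQ hYa⟩
        rw [hpid ⟨Y.1 i ((pQ v : (P i).Q) : κ i → ℂ), hSQ hYa⟩ hYa] at h9
        exact h9
      rw [hvi, hpv v]
      conv_rhs => rw [h5, map_add, map_add, h6, h8, add_zero]
    exact fun v => congrArg (fun g => g v) h1
  have hpdrb : IsDRB (P i) (P i) p :=
    isDRB_of_rat_comm n P γ hϖ hB hA i i p hprat hpc
  refine ⟨p, hpdrb, fun v hv => ?_, hpspan⟩
  have h1 := hpv ⟨v, hSQ hv⟩
  rw [hpid ⟨v, hSQ hv⟩ hv] at h1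
  exact h1

end Pool.Agent.KSE
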