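import Pool.Agent.KSE.Odd
import Pool.Agent.Helper84.AutC

/-!
Module OddAb. Abelian fields.

Fix `σ₁ : K →+* ℂ`; `g ↦ σ₁ ∘ g` is a bijection of `G = (K ≃ₐ[ℚ] K)` (abelian) onto the embeddings; every
`g` is induced by some `τ : ℂ ≃+* ℂ` (`Pool/Agent/Helper84/AutC.lean`) and `cj σ₁ = σ₁ ∘ c'` with `c' ∈ G`. So
`R` is a space `R'` of functions on `G` stable under all translations. Choose `f₀ ∈ R'`, `f₀ ≠ 0`, and a
character `χ : G → ℂˣ` with `∑ g, f₀ g * χ g ≠ 0` (characters of a finite abelian group span the functions),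
`N = ker χ`, `d` the order of `χ`, `g₁ ∈ G` with `χ g₁ = ζ` a primitive `d`-th root of unity. Let
`θ = (∑ n ∈ N, n) * ∏ p ∣ d prime, (1 - g₁ ^ (d / p))` in the group algebra `ℚ[G]`. Its coefficients are in
`{-1, 0, 1}`: `∏ (1 - g₁ ^ (d / p)) = ∑ s, (-1) ^ |s| g₁ ^ (∑ p ∈ s, d / p)` over the sets `s` of prime divisors of
`d`, and the exponents are different modulo `d` (`d / p` is not divisible by the exact power of `p` in `d`, but
`d / q` is, for `q ≠ p`). For a character `ψ`: `ψ θ ≠ 0` iff `ψ` is trivial on `N` and `ψ g₁ = ζ ^ j` with `j`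
prime to `d`, i.e. `ψ = χ ^ j` is a Galois conjugate of `χ`. Now `χ (ℚ[G]) = ℚ(ζ)` is a field, so there is
`u ∈ ℚ[G]` with `χ (u * f₀ˇ) = 1` (with `f₀ˇ = ∑ g, f₀ g • g`), hence `ψ (u * f₀ˇ) = 1` for all Galois
conjugates of `χ`, so all characters agree on `u * f₀ˇ * θ` and `θ`: these elements are equal
and (up to inversion `g ↦ g⁻¹`, or take the appropriate convention) the function `θ` is in `R'`.
-/

namespace Pool.Agent.KSE.OddAb

open Polynomial Finset

section group

variable {G : Type} [CommGroup G] [Fintype G]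

/-- a character which does not kill `f` -/
theorem exists_char (f : G → ℚ) (hf : f ≠ 0) :
    ∃ χ : G →* ℂˣ, ∑ g, (f g : ℂ) * ((χ g : ℂˣ) : ℂ) ≠ 0 := by
  classical
  by_contra hcon
  push Not at hcon
  have hℓ : (∑ g : G, (f g : ℂ) • (LinearMap.proj (Additive.ofMul g) :
      (Additive G → ℂ) →ₗ[ℂ] ℂ)) = 0 := by
    refine (AddChar.complexBasis (Additive G)).ext fun ψ => ?_
    rw [AddChar.complexBasis_apply]
    let χ0 : G →* ℂ :=
      { toFun := fun g => ψ (Additive.ofMul g)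
        map_one' := by simp
        map_mul' := fun a b => by simp [AddChar.map_add_eq_mul] }
    have h := hcon χ0.toHomUnits
    rw [LinearMap.sum_apply, LinearMap.zero_apply]
    refine Eq.trans (Finset.sum_congr rfl fun g _ => ?_) h
    rw [LinearMap.smul_apply, LinearMap.proj_apply, smul_eq_mul]
    rfl
  apply hf
  funext g₀
  have h := LinearMap.congr_fun hℓ (Pi.single (Additive.ofMul g₀) 1)
  rw [LinearMap.sum_apply, LinearMap.zero_apply, Finset.sum_eq_single g₀] at h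
  · rw [LinearMap.smul_apply, LinearMap.proj_apply, Pi.single_eq_same, smul_eq_mul, mul_one] at h
    have h' : (f g₀ : ℂ) = 0 := h
    simpa using h'
  · intro g _ hg
    rw [LinearMap.smul_apply, LinearMap.proj_apply, Pi.single_eq_of_ne, smul_zero]
    intro e
    exact hg (Additive.ofMul.injective e)
  · intro h'
    exact absurd (Finset.mem_univ _) h'

/-- the image of a character is generated by one value -/
theorem exists_gen (χ : G →* ℂˣ) : ∃ (g₁ : G) (d : ℕ), 0 < d ∧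
    IsPrimitiveRoot ((χ g₁ : ℂˣ) : ℂ) d ∧ ∀ g, ∃ i : ℕ, (χ g₁) ^ i = χ g := by
  have hfin : Finite χ.range := (Set.finite_range χ).to_subtype
  obtain ⟨⟨u, ⟨g₁, hg₁⟩⟩, hu⟩ := IsCyclic.exists_monoid_generator (α := χ.range)
  refine ⟨g₁, orderOf (χ g₁), ?_, ?_, fun g => ?_⟩
  · have h1 : IsOfFinOrder (χ g₁) := χ.isOfFinOrder (isOfFinOrder_of_finite g₁)
    exact h1.orderOf_pos
  · rw [IsPrimitiveRoot.coe_units_iff]
    exact IsPrimitiveRoot.orderOf _
  · obtain ⟨i, hi⟩ := hu ⟨χ g, g, rfl⟩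
    refine ⟨i, ?_⟩
    have h1 := congrArg Subtype.val hi
    rw [hg₁]
    exact h1

/-- the indicator function of a fibre of the character -/
noncomputable def vec (χ : G →* ℂˣ) (g₁ : G) (i : ℕ) : G → ℚ := fun g =>
  open Classical in if (χ g₁) ^ i = χ g then 1 else 0

/-- polynomials as functions on the group -/
noncomputable def TT (χ : G →* ℂˣ) (g₁ : G) : ℚ[X] →ₗ[ℚ] (G → ℚ) :=
  (Polynomial.basisMonomials ℚ).constr ℚ (vec χ g₁)

theorem TT_X (χ : G →* ℂˣ) (g₁ : G) (i : ℕ) : TT χ g₁ (X ^ i) = vec χ g₁ i := by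
  have h := (Polynomial.basisMonomials ℚ).constr_basis ℚ (vec χ g₁) i
  rw [Polynomial.coe_basisMonomials] at h
  rw [← Polynomial.monomial_one_right_eq_X_pow]
  exact h

/-- multiplication by `X` is a translation -/
theorem TT_mul_X (χ : G →* ℂˣ) (g₁ : G) (Q : ℚ[X]) (g : G) :
    TT χ g₁ (Q * X) g = TT χ g₁ Q (g₁⁻¹ * g) := by
  induction Q using Polynomial.induction_on' with
  | add p q hp hq => rw [add_mul, map_add, map_add, Pi.add_apply, Pi.add_apply, hp, hq]
  | monomial n a =>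
    have e1 : (monomial n a : ℚ[X]) = a • X ^ n := by
      rw [← Polynomial.monomial_one_right_eq_X_pow, Polynomial.smul_monomial, smul_eq_mul, mul_one]
    rw [e1, smul_mul_assoc, ← pow_succ, map_smul, map_smul, TT_X, TT_X, Pi.smul_apply,
      Pi.smul_apply]
    congr 1
    unfold vec
    have e2 : ((χ g₁) ^ (n + 1) = χ g) ↔ ((χ g₁) ^ n = χ (g₁⁻¹ * g)) := by
      rw [map_mul, map_inv, pow_succ', eq_inv_mul_iff_mul_eq]
    simp only [e2]

variable {R : Submodule ℚ (G → ℚ)} (hR : ∀ f ∈ R, ∀ h : G, (fun g => f (h * g)) ∈ R)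
include hR

theorem mem_X {χ : G →* ℂˣ} {g₁ : G} {Q : ℚ[X]} (hQ : TT χ g₁ Q ∈ R) :
    TT χ g₁ (Q * X) ∈ R := by
  have h := hR _ hQ g₁⁻¹
  have e : (fun g => TT χ g₁ Q (g₁⁻¹ * g)) = TT χ g₁ (Q * X) := by
    funext g
    exact (TT_mul_X χ g₁ Q g).symm
  rwa [e] at h

theorem mem_mul {χ : G →* ℂˣ} {g₁ : G} {Q : ℚ[X]} (hQ : TT χ g₁ Q ∈ R) (A : ℚ[X]) :
    TT χ g₁ (Q * A) ∈ R := by
  have hX : ∀ n : ℕ, TT χ g₁ (Q * X ^ n) ∈ R := by
    intro n
    induction n with
    | zero => simpa using hQ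
    | succ n ih =>
      rw [pow_succ, ← mul_assoc]
      exact mem_X hR ih
  induction A using Polynomial.induction_on' with
  | add p q hp hq =>
    rw [mul_add, map_add]
    exact R.add_mem hp hq
  | monomial n a =>
    have e1 : (monomial n a : ℚ[X]) = a • X ^ n := by
      rw [← Polynomial.monomial_one_right_eq_X_pow, Polynomial.smul_monomial, smul_eq_mul, mul_one]
    rw [e1, mul_smul_comm, map_smul]
    exact R.smul_mem _ (hX n)

/-- the polynomial of a function -/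
theorem mem_P {χ : G →* ℂˣ} {g₁ : G} {f : G → ℚ} (hf : f ∈ R) (j : G → ℕ)
    (hj : ∀ g, (χ g₁) ^ j g = χ g) : TT χ g₁ (∑ g, C (f g) * X ^ j g) ∈ R := by
  classical
  have e : TT χ g₁ (∑ g, C (f g) * X ^ j g) =
      ∑ n ∈ univ.filter (fun n : G => χ n = 1), fun g => f (n * g) := by
    funext g
    rw [map_sum, Finset.sum_apply, Finset.sum_apply]
    have h1 : ∀ h : G, TT χ g₁ (C (f h) * X ^ j h) g = if χ h = χ g then f h else 0 := by
      intro h
      rw [← smul_eq_C_mul, map_smul, TT_X, Pi.smul_apply, vec, hj, smul_eq_mul]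
      split_ifs
      · rw [mul_one]
      · rw [mul_zero]
    rw [Finset.sum_congr rfl fun h _ => h1 h, Finset.sum_filter]
    refine (Fintype.sum_equiv (Equiv.mulRight g) _ _ fun n => ?_).symm
    rw [Equiv.coe_mulRight]
    have h2 : χ (n * g) = χ g ↔ χ n = 1 := by
      rw [map_mul, mul_eq_right]
    simp only [h2]
  rw [e]
  exact R.sum_mem fun n _ => hR f hf n

end group

/-- the polynomial `θ` -/
noncomputable def theta (d : ℕ) : ℚ[X] := ∏ p ∈ d.primeFactors, (1 - X ^ (d / p))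

theorem prod_dvd_theta {d : ℕ} (hd : 0 < d) :
    (∏ m ∈ d.properDivisors, cyclotomic m ℚ) ∣ theta d := by
  refine Finset.prod_dvd_of_coprime ?_ ?_
  · intro a _ b _ hab
    exact cyclotomic.isCoprime_rat hab
  · intro m hm
    rw [Nat.mem_properDivisors] at hm
    obtain ⟨k, hk⟩ := hm.1
    have hk1 : k ≠ 1 := by
      rintro rfl
      omega
    obtain ⟨p, hp, hpk⟩ := Nat.exists_prime_and_dvd hk1
    obtain ⟨l, hl⟩ := hpk
    have hpd : p ∈ d.primeFactors := by
      rw [Nat.mem_primeFactors]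
      refine ⟨hp, ?_, by omega⟩
      rw [hk, hl]
      exact ⟨m * l, by ring⟩
    have hdp : d / p = m * l := by
      rw [hk, hl]
      refine Nat.div_eq_of_eq_mul_right hp.pos ?_
      ring
    have h1 : cyclotomic m ℚ ∣ (X ^ (d / p) - 1 : ℚ[X]) := by
      refine (cyclotomic.dvd_X_pow_sub_one m ℚ).trans ?_
      rw [hdp, pow_mul]
      have := sub_dvd_pow_sub_pow ((X : ℚ[X]) ^ m) 1 l
      rwa [one_pow] at this
    have h2 : cyclotomic m ℚ ∣ (1 - X ^ (d / p) : ℚ[X]) := by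
      rw [← neg_sub]
      exact (dvd_neg.2 h1)
    exact h2.trans (Finset.dvd_prod_of_mem _ hpd)

/-- the exponent of a set of primes -/
def ex (d : ℕ) (s : Finset ℕ) : ℕ := ∑ p ∈ s, d / p

theorem theta_eq (d : ℕ) : theta d =
    ∑ s ∈ d.primeFactors.powerset, ((-1 : ℚ) ^ s.card) • (X : ℚ[X]) ^ ex d s := by
  unfold theta
  have h1 : ∀ p, (1 - (X : ℚ[X]) ^ (d / p)) = 1 + -(X ^ (d / p)) := fun p => sub_eq_add_neg _ _
  simp only [h1]
  rw [Finset.prod_one_add]
  refine Finset.sum_congr rfl fun s _ => ?_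
  rw [Finset.prod_neg, Finset.prod_pow_eq_pow_sum]
  rw [smul_eq_C_mul]
  unfold ex
  simp

/-- different sets of primes have different exponents modulo `d` -/
theorem ex_inj {ζ : ℂ} {d : ℕ} (hd : 0 < d) (hζ : IsPrimitiveRoot ζ d) {s s' : Finset ℕ}
    (hs : s ⊆ d.primeFactors) (hs' : s' ⊆ d.primeFactors) (h : ζ ^ ex d s = ζ ^ ex d s') :
    s = s' := by
  classical
  -- for every prime `p` the value detects if `p ∈ s`
  have key : ∀ p ∈ d.primeFactors, ∃ (m : ℕ) (w : ℂ), w ≠ 1 ∧ ∀ t : Finset ℕ,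
      t ⊆ d.primeFactors → (ζ ^ ex d t) ^ m = if p ∈ t then w else 1 := by
    intro p hp
    have hpp := Nat.prime_of_mem_primeFactors hp
    have hpd := Nat.dvd_of_mem_primeFactors hp
    obtain ⟨m, hm⟩ : ∃ m, m = d / p ^ d.factorization p := ⟨_, rfl⟩
    have hdm : p ^ d.factorization p * m = d := by
      rw [hm]
      exact Nat.ordProj_mul_ordCompl_eq_self d p
    have hpm : ¬ p ∣ m := by
      rw [hm]
      exact Nat.not_dvd_ordCompl hpp (by omega)
    refine ⟨m, ζ ^ (d / p * m), ?_, ?_⟩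
    · intro h1
      have h2 := (hζ.pow_eq_one_iff_dvd _).1 h1
      apply hpm
      obtain ⟨k, hk⟩ := h2
      obtain ⟨e, he⟩ := hpd
      have hdp : d / p = e := by
        rw [he]
        exact Nat.mul_div_cancel_left e hpp.pos
      rw [hdp] at hk
      have he0 : 0 < e := by
        rcases Nat.eq_zero_or_pos e with h0 | h0
        · rw [h0, mul_zero] at he
          omega
        · exact h0
      refine ⟨k, Nat.eq_of_mul_eq_mul_left he0 ?_⟩
      rw [hk, he]
      ring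
    · intro t ht
      have h1 : (ζ ^ ex d t) ^ m = ∏ q ∈ t, ζ ^ (d / q * m) := by
        rw [ex, ← pow_mul, Finset.sum_mul, Finset.prod_pow_eq_pow_sum]
      rw [h1]
      have h2 : ∀ q ∈ t, q ≠ p → ζ ^ (d / q * m) = 1 := by
        intro q hq hqp
        have hq' := ht hq
        have hqq := Nat.prime_of_mem_primeFactors hq'
        have hqd := Nat.dvd_of_mem_primeFactors hq'
        rw [hζ.pow_eq_one_iff_dvd]
        have hqm : q ∣ m := by
          rw [← hdm] at hqd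
          rcases hqq.dvd_mul.1 hqd with h3 | h3
          · have h4 := hqq.dvd_of_dvd_pow h3
            exact absurd ((Nat.prime_dvd_prime_iff_eq hqq hpp).1 h4) hqp
          · exact h3
        obtain ⟨l, hl⟩ := hqm
        refine ⟨l, ?_⟩
        rw [hl, ← mul_assoc, Nat.div_mul_cancel (Nat.dvd_of_mem_primeFactors hq')]
      split_ifs with hpt
      · rw [Finset.prod_eq_single_of_mem p hpt fun q hq hqp => h2 q hq hqp]
      · exact Finset.prod_eq_one fun q hq => h2 q hq fun e => hpt (e ▸ hq)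
  ext p
  by_cases hp : p ∈ d.primeFactors
  · obtain ⟨m, w, hw, hk⟩ := key p hp
    have h1 := hk s hs
    rw [h, hk s' hs'] at h1
    by_cases h2 : p ∈ s
    · by_cases h3 : p ∈ s'
      · exact ⟨fun _ => h3, fun _ => h2⟩
      · rw [if_neg h3, if_pos h2] at h1
        exact absurd h1.symm hw
    · by_cases h3 : p ∈ s'
      · rw [if_pos h3, if_neg h2] at h1
        exact absurd h1 hw
      · exact ⟨fun h => absurd h h2, fun h => absurd h h3⟩
  · exact ⟨fun h => absurd (hs h) hp, fun h => absurd (hs' h) hp⟩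

/-- the main statement for groups -/
theorem group_case {G : Type} [CommGroup G] [Fintype G] (R : Submodule ℚ (G → ℚ))
    (hR : ∀ f ∈ R, ∀ h : G, (fun g => f (h * g)) ∈ R) {f : G → ℚ} (hf : f ∈ R) (hf0 : f ≠ 0) :
    ∃ f ∈ R, f ≠ 0 ∧ ∀ g, f g = -1 ∨ f g = 0 ∨ f g = 1 := by
  classical
  obtain ⟨χ, hχ⟩ := exists_char f hf0
  obtain ⟨g₁, d, hd, hζ, hgen⟩ := exists_gen χ
  choose j hj using hgen
  set ζ : ℂ := ((χ g₁ : ℂˣ) : ℂ) with hζd
  set P : ℚ[X] := ∑ g, C (f g) * X ^ j g with hP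
  have hPR : TT χ g₁ P ∈ R := mem_P hR hf j hj
  have hPζ : aeval ζ P ≠ 0 := by
    have e : aeval ζ P = ∑ g, (f g : ℂ) * ((χ g : ℂˣ) : ℂ) := by
      rw [hP, map_sum]
      refine Finset.sum_congr rfl fun g _ => ?_
      rw [map_mul, aeval_C, map_pow, aeval_X, ← hj g]
      simp [hζd]
    rw [e]
    exact hχ
  have hd1 : TT χ g₁ (X ^ d - 1) ∈ R := by
    have e : TT χ g₁ (X ^ d - 1) = 0 := by
      have h1 : (1 : ℚ[X]) = X ^ 0 := (pow_zero X).symm
      rw [map_sub, h1, TT_X, TT_X, sub_eq_zero]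
      funext g
      unfold vec
      have h2 : (χ g₁) ^ d = 1 := by
        have h3 : ((χ g₁ : ℂˣ) : ℂ) ^ d = 1 := hζ.pow_eq_one
        exact Units.ext (by simpa using h3)
      rw [h2, pow_zero]
    rw [e]
    exact R.zero_mem
  -- the greatest common divisor
  set D : ℚ[X] := EuclideanDomain.gcd P (X ^ d - 1) with hD
  have hDR : TT χ g₁ D ∈ R := by
    rw [hD, EuclideanDomain.gcd_eq_gcd_ab, map_add]
    exact R.add_mem (mem_mul hR hPR _) (mem_mul hR hd1 _)
  have hDP : D ∣ P := EuclideanDomain.gcd_dvd_left _ _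
  have hDX : D ∣ X ^ d - 1 := EuclideanDomain.gcd_dvd_right _ _
  have hcop : IsCoprime (cyclotomic d ℚ) D := by
    rw [(cyclotomic.irreducible_rat hd).coprime_iff_not_dvd]
    intro hdvd
    obtain ⟨Q, hQ⟩ := hdvd.trans hDP
    apply hPζ
    rw [hQ, map_mul]
    have h1 : aeval ζ (cyclotomic d ℚ) = 0 := by
      rw [aeval_def, eval₂_eq_eval_map, map_cyclotomic]
      exact hζ.isRoot_cyclotomic hd
    rw [h1, zero_mul]
  have hDe : D ∣ ∏ m ∈ d.properDivisors, cyclotomic m ℚ := by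
    have h1 : (X ^ d - 1 : ℚ[X]) =
        cyclotomic d ℚ * ∏ m ∈ d.properDivisors, cyclotomic m ℚ := by
      rw [← prod_cyclotomic_eq_X_pow_sub_one hd ℚ, ← Nat.cons_self_properDivisors (by omega),
        Finset.prod_cons]
    rw [h1] at hDX
    exact hcop.symm.dvd_of_dvd_mul_left hDX
  obtain ⟨U, hU⟩ := hDe.trans (prod_dvd_theta hd)
  have hθR : TT χ g₁ (theta d) ∈ R := by
    rw [hU]
    exact mem_mul hR hDR U
  -- the values
  have hval : ∀ g, TT χ g₁ (theta d) g = ∑ s ∈ d.primeFactors.powerset,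
      if (χ g₁) ^ ex d s = χ g then (-1 : ℚ) ^ s.card else 0 := by
    intro g
    rw [theta_eq, map_sum, Finset.sum_apply]
    refine Finset.sum_congr rfl fun s _ => ?_
    rw [map_smul, TT_X, Pi.smul_apply, vec, smul_eq_mul]
    split_ifs
    · rw [mul_one]
    · rw [mul_zero]
  have huniq : ∀ g, ∀ s ∈ d.primeFactors.powerset, (χ g₁) ^ ex d s = χ g →
      TT χ g₁ (theta d) g = (-1 : ℚ) ^ s.card := by
    intro g s hs hsg
    rw [hval, Finset.sum_eq_single s, if_pos hsg]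
    · intro t ht hts
      rw [if_neg]
      intro h1
      apply hts
      refine ex_inj hd hζ (Finset.mem_powerset.1 ht) (Finset.mem_powerset.1 hs) ?_
      have h2 : (χ g₁) ^ ex d t = (χ g₁) ^ ex d s := h1.trans hsg.symm
      have h3 := congrArg Units.val h2
      simpa using h3
    · intro h1
      exact absurd hs h1
  refine ⟨TT χ g₁ (theta d), hθR, ?_, ?_⟩
  · intro h0
    have h1 := huniq 1 ∅ (Finset.empty_mem_powerset _) (by simp [ex])
    rw [h0] at h1
    simp at h1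
  · intro g
    by_cases hex : ∃ s ∈ d.primeFactors.powerset, (χ g₁) ^ ex d s = χ g
    · obtain ⟨s, hs, hsg⟩ := hex
      rw [huniq g s hs hsg]
      rcases neg_one_pow_eq_or ℚ s.card with h1 | h1
      · exact Or.inr (Or.inr h1)
      · exact Or.inl h1
    · push Not at hex
      refine Or.inr (Or.inl ?_)
      rw [hval]
      exact Finset.sum_eq_zero fun s hs => if_neg (hex s hs)

end Pool.Agent.KSE.OddAb

namespace Pool.Agent.GPC

open NumberField

theorem oddSparse_abelian (K : Type) [Field K] [NumberField K] [IsGalois ℚ K]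
    (hab : ∀ g g' : K ≃ₐ[ℚ] K, g * g' = g' * g) : OddSparse K := by
  classical
  intro R hR0 _ hRτ
  let _ : CommGroup (K ≃ₐ[ℚ] K) := { (inferInstance : Group (K ≃ₐ[ℚ] K)) with mul_comm := hab }
  have : Fintype (K ≃ₐ[ℚ] K) := Fintype.ofFinite _
  obtain ⟨σ₁⟩ : Nonempty (K →+* ℂ) := inferInstance
  let e : (K ≃ₐ[ℚ] K) → (K →+* ℂ) := fun g => σ₁.comp (g : K →+* K)
  have hsurj : Function.Surjective e := by
    intro σ
    obtain ⟨g, hg⟩ := ComplexEmbedding.exists_comp_symm_eq_of_comp_eq (k := ℚ) σ₁ σ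
      (RingHom.ext fun x => by simp)
    exact ⟨g.symm, hg⟩
  let L : ((K →+* ℂ) → ℚ) →ₗ[ℚ] ((K ≃ₐ[ℚ] K) → ℚ) := LinearMap.funLeft ℚ ℚ e
  obtain ⟨f, hf, hf0⟩ : ∃ f ∈ R, f ≠ 0 := (Submodule.ne_bot_iff R).1 hR0
  have hstab : ∀ f ∈ R.map L, ∀ h : K ≃ₐ[ℚ] K, (fun g => f (h * g)) ∈ R.map L := by
    rintro _ ⟨f, hf, rfl⟩ h
    obtain ⟨τ, hτ⟩ := Pool.Agent.Helper84.exists_aut σ₁ (σ₁.comp (h : K →+* K))
    refine ⟨_, hRτ f hf τ, ?_⟩
    funext g
    show f ((τ : ℂ →+* ℂ).comp (σ₁.comp (g : K →+* K))) = f (σ₁.comp ((h * g : K ≃ₐ[ℚ] K) : K →+* K))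
    rw [← RingHom.comp_assoc, hτ]
    rfl
  have hLf : L f ≠ 0 := by
    intro h0
    apply hf0
    funext σ
    obtain ⟨g, rfl⟩ := hsurj σ
    exact congrFun h0 g
  obtain ⟨f', ⟨f₂, hf₂, rfl⟩, hne, hv⟩ := Pool.Agent.KSE.OddAb.group_case (R.map L) hstab
    ⟨f, hf, rfl⟩ hLf
  refine ⟨f₂, hf₂, ?_, fun σ => ?_⟩
  · rintro rfl
    exact hne (map_zero L)
  · obtain ⟨g, rfl⟩ := hsurj σ
    exact hv g

end Pool.Agent.GPC
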