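import Pool.Agent.KSE.Ts

/-!
Module BvA. Skew families and commutators of vectors in dual eigenspaces.

`exists_bvE`: `Z = (1/8) ∑ σ a b, (M σ * ((h.map σ)ᵀ)⁻¹) a b • [ts t σ a, ts t (cj σ) b]`.
`exists_act_of_mem`: `[[ts σ a, ts (cj σ) b], ts σ d] = 4 σ (h d b) ts σ a`,
`[[ts σ a, ts (cj σ) b], ts (cj σ) d] = - 4 σ (h a d) ts (cj σ) b` (for `cj σ = σ` the sum of the two), and the
other places commute.
-/

open scoped ComplexConjugate

namespace Pool.Agent.KSE

open Module Matrix NumberField Pool.Agent.Helper7 Pool.Agent.KS Pool.Agent.Ball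
  Pool.Agent.Helper28.GPC

section aux

variable {V : Type} [AddCommGroup V] [Module ℂ V] {K : Type} [Field K] [NumberField K]
  {c : K →+* K} {m : ℕ} {h : Matrix (Fin m) (Fin m) K} {t : Fin m → K → Module.End ℂ V}

private lemma bva_act {X : Module.End ℂ V} {M : (K →+* ℂ) → Matrix (Fin m) (Fin m) ℂ}
    (hX : ∀ σ d, X * ts t σ d - ts t σ d * X = ∑ a, M σ a d • ts t σ a) : ActM t X M := by
  intro σ x
  have h1 : X * tau (ts t σ) x - tau (ts t σ) x * X =
      ∑ d, x d • (X * ts t σ d - ts t σ d * X) := by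
    rw [tau_apply, Finset.mul_sum, Finset.sum_mul, ← Finset.sum_sub_distrib]
    refine Finset.sum_congr rfl fun d _ => ?_
    rw [mul_smul_comm, smul_mul_assoc, smul_sub]
  rw [h1, tau_apply, Finset.sum_congr rfl fun d _ => by rw [hX σ d]]
  simp only [Finset.smul_sum, smul_smul]
  rw [Finset.sum_comm]
  refine Finset.sum_congr rfl fun a _ => ?_
  rw [← Finset.sum_smul]
  congr 1
  rw [Matrix.mulVec, dotProduct]
  exact Finset.sum_congr rfl fun d _ => mul_comm _ _

private lemma bva_bracket [DecidableEq (K →+* ℂ)]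
    (hconj : ∀ (σ : K →+* ℂ) (x : K), cj σ x = σ (c x)) (hh : ∀ a b, c (h a b) = h b a)
    (hcl : ∀ a b x y, t a x * t b y + t b y * t a x =
      (2 * ((Algebra.trace ℚ K (x * c y * h a b) : ℚ) : ℂ)) • 1)
    (σ τ : K →+* ℂ) (a b d : Fin m) :
    (ts t σ a * ts t (cj σ) b - ts t (cj σ) b * ts t σ a) * ts t τ d -
      ts t τ d * (ts t σ a * ts t (cj σ) b - ts t (cj σ) b * ts t σ a) =
      (if τ = σ then 4 * σ (h d b) else 0 : ℂ) • ts t σ a -
        (if τ = cj σ then 4 * σ (h a d) else 0 : ℂ) • ts t (cj σ) b := by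
  have p1 := ts_cliff_sum hconj hcl (cj σ) τ b d
  have p2 := ts_cliff_sum hconj hcl σ τ a d
  have p3 := ts_pair hconj hcl σ a b
  rw [cj_cj] at p1
  have e1 : (cj σ) (h b d) = σ (h d b) := by
    rw [hconj, hh]
  rw [e1] at p1
  have e2 : (ts t σ a * ts t (cj σ) b - ts t (cj σ) b * ts t σ a) * ts t τ d -
      ts t τ d * (ts t σ a * ts t (cj σ) b - ts t (cj σ) b * ts t σ a) =
      (ts t σ a * (ts t (cj σ) b * ts t τ d + ts t τ d * ts t (cj σ) b) +
        ts t σ a * (ts t (cj σ) b * ts t τ d + ts t τ d * ts t (cj σ) b)) -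
      ((ts t σ a * ts t τ d + ts t τ d * ts t σ a) * ts t (cj σ) b +
        (ts t σ a * ts t τ d + ts t τ d * ts t σ a) * ts t (cj σ) b) -
      ((ts t σ a * ts t (cj σ) b + ts t (cj σ) b * ts t σ a) * ts t τ d -
        ts t τ d * (ts t σ a * ts t (cj σ) b + ts t (cj σ) b * ts t σ a)) := by
    noncomm_ring
  rw [e2, p1, p2, p3, mul_smul_comm, smul_mul_assoc, smul_mul_assoc, mul_smul_comm, mul_one,
    one_mul, one_mul, mul_one, sub_self, sub_zero, ← add_smul, ← add_smul]
  congr 2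
  · split_ifs
    · ring
    · ring
  · split_ifs
    · ring
    · ring

private lemma bva_det (hnd : h.det ≠ 0) (σ : K →+* ℂ) : (h.map σ).det ≠ 0 := by
  have e : (h.map σ).det = σ h.det := (RingHom.map_det σ h).symm
  rw [e]
  exact (map_ne_zero σ).mpr hnd

end aux

section alg

variable {V : Type} [AddCommGroup V] [Module ℂ V] {K : Type} [Field K] [NumberField K]
  {c : K →+* K} {m : ℕ} {h : Matrix (Fin m) (Fin m) K} {t : Fin m → K → Module.End ℂ V}
  (hconj : ∀ (σ : K →+* ℂ) (x : K), cj σ x = σ (c x)) (hh : ∀ a b, c (h a b) = h b a)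
  (hnd : h.det ≠ 0)
  (hcl : ∀ a b x y, t a x * t b y + t b y * t a x =
    (2 * ((Algebra.trace ℚ K (x * c y * h a b) : ℚ) : ℂ)) • 1)

include hconj hh hnd hcl in
theorem exists_bvE (M : (K →+* ℂ) → Matrix (Fin m) (Fin m) ℂ) (hM : SkewM h M) :
    ∃ Z ∈ bvS t, ActM t Z M := by
  classical
  let N : (K →+* ℂ) → Matrix (Fin m) (Fin m) ℂ := fun σ => M σ * ((h.map σ)ᵀ)⁻¹
  have hN1 : ∀ τ a d, ∑ b, N τ a b * τ (h d b) = M τ a d := by
    intro τ a d
    have hu : IsUnit ((h.map τ)ᵀ).det := by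
      rw [Matrix.det_transpose]
      exact (bva_det hnd τ).isUnit
    have e1 : N τ * (h.map τ)ᵀ = M τ := by
      show M τ * ((h.map τ)ᵀ)⁻¹ * (h.map τ)ᵀ = M τ
      rw [Matrix.mul_assoc, Matrix.nonsing_inv_mul _ hu, Matrix.mul_one]
    have e2 := congrFun (congrFun e1 a) d
    rw [Matrix.mul_apply] at e2
    exact e2
  have hN2 : ∀ τ b d, ∑ a, N (cj τ) a b * (cj τ) (h a d) = -M τ b d := by
    intro τ b d
    have hu : IsUnit (h.map (cj τ)).det := (bva_det hnd (cj τ)).isUnit
    have e0 := hM (cj τ)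
    rw [cj_cj] at e0
    have e1 : (N (cj τ))ᵀ * h.map (cj τ) = -M τ := by
      have e2 : (N (cj τ))ᵀ = (h.map (cj τ))⁻¹ * (M (cj τ))ᵀ := by
        show (M (cj τ) * ((h.map (cj τ))ᵀ)⁻¹)ᵀ = _
        rw [Matrix.transpose_mul, ← Matrix.transpose_nonsing_inv, Matrix.transpose_transpose]
      rw [e2, Matrix.mul_assoc, eq_neg_of_add_eq_zero_left e0, Matrix.mul_neg,
        ← Matrix.mul_assoc, Matrix.nonsing_inv_mul _ hu, Matrix.one_mul]
    have e2 := congrFun (congrFun e1 b) d
    rw [Matrix.mul_apply] at e2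
    exact e2
  let Z : Module.End ℂ V := ∑ σ : K →+* ℂ, ∑ a, ∑ b, (N σ a b / 8) •
    (ts t σ a * ts t (cj σ) b - ts t (cj σ) b * ts t σ a)
  refine ⟨Z, ?_, bva_act ?_⟩
  · refine Submodule.sum_mem _ fun σ _ => Submodule.sum_mem _ fun a _ =>
      Submodule.sum_mem _ fun b _ => Submodule.smul_mem _ _ (Submodule.subset_span ⟨σ, a, b, rfl⟩)
  intro τ d
  have e1 : Z * ts t τ d - ts t τ d * Z = ∑ σ : K →+* ℂ, ∑ a, ∑ b, (N σ a b / 8) •
      ((if τ = σ then 4 * σ (h d b) else 0 : ℂ) • ts t σ a -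
        (if τ = cj σ then 4 * σ (h a d) else 0 : ℂ) • ts t (cj σ) b) := by
    show (∑ σ : K →+* ℂ, ∑ a, ∑ b, (N σ a b / 8) •
      (ts t σ a * ts t (cj σ) b - ts t (cj σ) b * ts t σ a)) * ts t τ d - ts t τ d *
      (∑ σ : K →+* ℂ, ∑ a, ∑ b, (N σ a b / 8) •
        (ts t σ a * ts t (cj σ) b - ts t (cj σ) b * ts t σ a)) = _
    rw [Finset.sum_mul, Finset.mul_sum, ← Finset.sum_sub_distrib]
    refine Finset.sum_congr rfl fun σ _ => ?_
    rw [Finset.sum_mul, Finset.mul_sum, ← Finset.sum_sub_distrib]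
    refine Finset.sum_congr rfl fun a _ => ?_
    rw [Finset.sum_mul, Finset.mul_sum, ← Finset.sum_sub_distrib]
    refine Finset.sum_congr rfl fun b _ => ?_
    rw [smul_mul_assoc, mul_smul_comm, ← smul_sub, bva_bracket hconj hh hcl]
  have e2 : ∑ σ : K →+* ℂ, ∑ a, ∑ b, (N σ a b / 8) •
      (if τ = σ then 4 * σ (h d b) else 0 : ℂ) • ts t σ a =
      ∑ a, (M τ a d / 2) • ts t τ a := by
    rw [Finset.sum_eq_single τ]
    · refine Finset.sum_congr rfl fun a _ => ?_
      rw [← hN1 τ a d, Finset.sum_div, Finset.sum_smul]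
      refine Finset.sum_congr rfl fun b _ => ?_
      rw [if_pos rfl, smul_smul]
      congr 1
      ring
    · intro σ _ hσ
      refine Finset.sum_eq_zero fun a _ => Finset.sum_eq_zero fun b _ => ?_
      rw [if_neg (fun h => hσ h.symm), zero_smul, smul_zero]
    · intro h; exact absurd (Finset.mem_univ _) h
  have e3 : ∑ σ : K →+* ℂ, ∑ a, ∑ b, (N σ a b / 8) •
      (if τ = cj σ then 4 * σ (h a d) else 0 : ℂ) • ts t (cj σ) b =
      ∑ b, (-M τ b d / 2) • ts t τ b := by
    rw [Finset.sum_eq_single (cj τ)]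
    · rw [Finset.sum_comm]
      refine Finset.sum_congr rfl fun b _ => ?_
      rw [← hN2 τ b d, Finset.sum_div, Finset.sum_smul]
      refine Finset.sum_congr rfl fun a _ => ?_
      rw [cj_cj, if_pos rfl, smul_smul]
      congr 1
      ring
    · intro σ _ hσ
      refine Finset.sum_eq_zero fun a _ => Finset.sum_eq_zero fun b _ => ?_
      rw [if_neg (fun h => hσ (by rw [h, cj_cj])), zero_smul, smul_zero]
    · intro h; exact absurd (Finset.mem_univ _) h
  rw [e1]
  simp only [smul_sub, Finset.sum_sub_distrib]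
  rw [e2, e3, ← Finset.sum_sub_distrib]
  refine Finset.sum_congr rfl fun a _ => ?_
  rw [← sub_smul]
  congr 1
  ring

include hconj hh hnd hcl in
/-- the elements of `bvS t` act -/
theorem exists_act_of_mem (Z : Module.End ℂ V) (hZ : Z ∈ bvS t) : ∃ M, ActM t Z M ∧ SkewM h M := by
  classical
  rcases subsingleton_or_nontrivial V with hV | hV
  · refine ⟨0, ?_, ?_⟩
    · intro σ x
      apply LinearMap.ext
      intro v
      exact Subsingleton.elim _ _
    · intro σ
      rw [Pi.zero_apply, Pi.zero_apply, Matrix.transpose_zero, Matrix.zero_mul, Matrix.mul_zero,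
        add_zero]
  suffices h1 : ∃ M, ActM t Z M by
    obtain ⟨M, hM⟩ := h1
    exact ⟨M, hM, (skewM_iff M).mpr fun σ x y => hM.skew hconj hcl σ x y⟩
  unfold bvS at hZ
  induction hZ using Submodule.span_induction with
  | mem Z hZ =>
    obtain ⟨σ, a, b, rfl⟩ := hZ
    refine ⟨fun τ => Matrix.of fun e d => (if τ = σ then (if e = a then 4 * σ (h d b) else 0) else 0) -
      (if τ = cj σ then (if e = b then 4 * σ (h a d) else 0) else 0), bva_act ?_⟩
    intro τ d
    rw [bva_bracket hconj hh hcl]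
    simp only [Matrix.of_apply, sub_smul, Finset.sum_sub_distrib]
    congr 1
    · by_cases hτ : τ = σ
      · subst hτ
        simp only [if_pos]
        rw [Finset.sum_eq_single a]
        · rw [if_pos rfl]
        · intro e _ he
          rw [if_neg he, zero_smul]
        · intro h; exact absurd (Finset.mem_univ _) h
      · simp only [if_neg hτ, zero_smul, Finset.sum_const_zero]
    · by_cases hτ : τ = cj σ
      · rw [if_pos hτ, ← hτ]
        simp only [if_pos]
        rw [Finset.sum_eq_single b]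
        · rw [if_pos rfl]
        · intro e _ he
          rw [if_neg he, zero_smul]
        · intro h; exact absurd (Finset.mem_univ _) h
      · simp only [if_neg hτ, zero_smul, Finset.sum_const_zero]
  | zero => exact ⟨0, ActM.zero⟩
  | add x y _ _ hx hy =>
    obtain ⟨M, hM⟩ := hx
    obtain ⟨N, hN⟩ := hy
    exact ⟨M + N, hM.add hN⟩
  | smul r x _ hx =>
    obtain ⟨M, hM⟩ := hx
    exact ⟨r • M, hM.smul r⟩

end alg

end Pool.Agent.KSE
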