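import Pool.Agent.KSE.Defs

/-!
Kuga-Satake structures with multiplication: the operators at the places.
-/

open scoped ComplexConjugate

namespace Pool.Agent.KSE

open Module Matrix NumberField Pool.Agent.Helper7 Pool.Agent.KS Pool.Agent.Ball

section ts

variable {V : Type} [AddCommGroup V] [Module ℂ V] {K : Type} [Field K] [NumberField K]
  {c : K →+* K} {m : ℕ} {h : Matrix (Fin m) (Fin m) K} {t : Fin m → K → Module.End ℂ V}

lemma t_smul (hadd : ∀ a x y, t a (x + y) = t a x + t a y) (a : Fin m) (q : ℚ) (x : K) :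
    t a (q • x) = (q : ℂ) • t a x := by
  let _ : Module ℚ (Module.End ℂ V) := Module.compHom (Module.End ℂ V) (algebraMap ℚ ℂ)
  let f : K →+ Module.End ℂ V := AddMonoidHom.mk' (t a) (hadd a)
  have h1 := map_rat_smul f q x
  exact h1

lemma t_sum (hadd : ∀ a x y, t a (x + y) = t a x + t a y) (a : Fin m) {ι : Type*}
    (s : Finset ι) (x : ι → K) : t a (∑ j ∈ s, x j) = ∑ j ∈ s, t a (x j) := by
  let f : K →+ Module.End ℂ V := AddMonoidHom.mk' (t a) (hadd a)
  exact map_sum f x s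

/-- the operators of the vectors in terms of the operators at the places -/
lemma t_eq_sum (hadd : ∀ a x y, t a (x + y) = t a x + t a y) (a : Fin m) (x : K) :
    t a x = ∑ σ : K →+* ℂ, σ x • ts t σ a := by
  have h1 : ∀ σ : K →+* ℂ, σ x • ts t σ a = ∑ b, σ (x * dbas K b) • t a (bas K b) := by
    intro σ
    rw [ts, Finset.smul_sum]
    refine Finset.sum_congr rfl fun b _ => ?_
    rw [smul_smul, map_mul]
  rw [Finset.sum_congr rfl fun σ _ => h1 σ, Finset.sum_comm]
  have h2 : ∀ b, ∑ σ : K →+* ℂ, σ (x * dbas K b) • t a (bas K b) =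
      t a ((Algebra.trace ℚ K (x * dbas K b)) • bas K b) := by
    intro b
    rw [← Finset.sum_smul, sum_emb, t_smul hadd]
  rw [Finset.sum_congr rfl fun b _ => h2 b, ← t_sum hadd, sum_trace_dbas]

variable (hconj : ∀ (σ : K →+* ℂ) (x : K), cj σ x = σ (c x))
  (hadd : ∀ a x y, t a (x + y) = t a x + t a y)
  (hcl : ∀ a b x y, t a x * t b y + t b y * t a x =
    (2 * ((Algebra.trace ℚ K (x * c y * h a b) : ℚ) : ℂ)) • 1)

include hconj hcl in
lemma ts_cliff_sum [DecidableEq (K →+* ℂ)] (σ τ : K →+* ℂ) (a b : Fin m) :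
    ts t σ a * ts t τ b + ts t τ b * ts t σ a =
      (if τ = cj σ then 2 * σ (h a b) else 0 : ℂ) • 1 := by
  have h1 : ts t σ a * ts t τ b + ts t τ b * ts t σ a =
      ∑ d, ∑ e, (σ (dbas K d) * τ (dbas K e)) •
        (t a (bas K d) * t b (bas K e) + t b (bas K e) * t a (bas K d)) := by
    rw [ts, ts, Finset.sum_mul_sum, Finset.sum_mul_sum, Finset.sum_comm (f := fun i j =>
      τ (dbas K i) • t b (bas K i) * σ (dbas K j) • t a (bas K j)), ← Finset.sum_add_distrib]
    refine Finset.sum_congr rfl fun d _ => ?_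
    rw [← Finset.sum_add_distrib]
    refine Finset.sum_congr rfl fun e _ => ?_
    rw [smul_mul_smul_comm, smul_mul_smul_comm, mul_comm (τ _), smul_add]
  have h2 : ∀ d e, (σ (dbas K d) * τ (dbas K e)) •
      (t a (bas K d) * t b (bas K e) + t b (bas K e) * t a (bas K d)) =
      (∑ ρ : K →+* ℂ, 2 * ρ (h a b) * (σ (dbas K d) * ρ (bas K d)) *
        (τ (dbas K e) * cj ρ (bas K e))) • (1 : Module.End ℂ V) := by
    intro d e
    rw [hcl, smul_smul, ← sum_emb, Finset.mul_sum, Finset.mul_sum]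
    congr 1
    refine Finset.sum_congr rfl fun ρ _ => ?_
    rw [map_mul, map_mul, hconj]
    ring
  rw [h1, Finset.sum_congr rfl fun d _ => Finset.sum_congr rfl fun e _ => h2 d e]
  simp only [← Finset.sum_smul]
  congr 1
  have h3 : ∑ d, ∑ e, ∑ ρ : K →+* ℂ, 2 * ρ (h a b) * (σ (dbas K d) * ρ (bas K d)) *
        (τ (dbas K e) * cj ρ (bas K e)) =
      ∑ ρ : K →+* ℂ, 2 * ρ (h a b) * (if σ = ρ then 1 else 0) * (if τ = cj ρ then 1 else 0) := by
    have e1 : ∀ d, ∑ e, ∑ ρ : K →+* ℂ, 2 * ρ (h a b) * (σ (dbas K d) * ρ (bas K d)) *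
        (τ (dbas K e) * cj ρ (bas K e)) = ∑ ρ : K →+* ℂ, 2 * ρ (h a b) *
          (σ (dbas K d) * ρ (bas K d)) * (if τ = cj ρ then 1 else 0) := by
      intro d
      rw [Finset.sum_comm]
      refine Finset.sum_congr rfl fun ρ _ => ?_
      rw [← Finset.mul_sum, sum_dbas_bas]
    rw [Finset.sum_congr rfl fun d _ => e1 d, Finset.sum_comm]
    refine Finset.sum_congr rfl fun ρ _ => ?_
    rw [← Finset.sum_mul, ← Finset.mul_sum, sum_dbas_bas]
  rw [h3, Finset.sum_eq_single σ]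
  · rw [if_pos rfl, mul_one]
    split_ifs
    · rw [mul_one]
    · rw [mul_zero]
  · intro ρ _ hρ
    rw [if_neg (fun h => hρ h.symm)]
    ring
  · intro h; exact absurd (Finset.mem_univ _) h

include hconj hcl in
/-- the Clifford relations for dual places -/
lemma ts_pair (σ : K →+* ℂ) (a b : Fin m) :
    ts t σ a * ts t (cj σ) b + ts t (cj σ) b * ts t σ a = (2 * σ (h a b)) • 1 := by
  classical
  rw [ts_cliff_sum hconj hcl, if_pos rfl]

include hconj hcl in
/-- the Clifford relations for other places -/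
lemma ts_anti {σ τ : K →+* ℂ} (hτ : τ ≠ cj σ) (a b : Fin m) :
    ts t σ a * ts t τ b + ts t τ b * ts t σ a = 0 := by
  classical
  rw [ts_cliff_sum hconj hcl, if_neg hτ, zero_smul]

/-- products of operators of vectors -/
lemma tau_mul_tau (σ τ : K →+* ℂ) (x y : Fin m → ℂ) :
    tau (ts t σ) x * tau (ts t τ) y + tau (ts t τ) y * tau (ts t σ) x =
      ∑ a, ∑ b, (x a * y b) • (ts t σ a * ts t τ b + ts t τ b * ts t σ a) := by
  rw [tau_apply, tau_apply, Finset.sum_mul_sum, Finset.sum_mul_sum, Finset.sum_comm (f := fun i j =>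
    y i • ts t τ i * x j • ts t σ j), ← Finset.sum_add_distrib]
  refine Finset.sum_congr rfl fun d _ => ?_
  rw [← Finset.sum_add_distrib]
  refine Finset.sum_congr rfl fun e _ => ?_
  rw [smul_mul_smul_comm, smul_mul_smul_comm, mul_comm (y _), smul_add]

include hconj hcl in
/-- the Clifford relations for dual places, for vectors -/
lemma tau_pair (σ : K →+* ℂ) (x y : Fin m → ℂ) :
    tau (ts t σ) x * tau (ts t (cj σ)) y + tau (ts t (cj σ)) y * tau (ts t σ) x =
      (2 * pr h σ x y) • 1 := by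
  rw [tau_mul_tau]
  simp only [ts_pair hconj hcl, smul_smul, ← Finset.sum_smul]
  congr 1
  rw [pr, dotProduct, Finset.mul_sum]
  refine Finset.sum_congr rfl fun a _ => ?_
  rw [Matrix.mulVec, dotProduct, Finset.mul_sum, Finset.mul_sum]
  refine Finset.sum_congr rfl fun b _ => ?_
  rw [Matrix.map_apply]
  ring

include hconj hcl in
/-- the Clifford relations for other places, for vectors -/
lemma tau_anti {σ τ : K →+* ℂ} (hτ : τ ≠ cj σ) (x y : Fin m → ℂ) :
    tau (ts t σ) x * tau (ts t τ) y + tau (ts t τ) y * tau (ts t σ) x = 0 := by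
  rw [tau_mul_tau]
  simp only [ts_anti hconj hcl hτ, smul_zero, Finset.sum_const_zero]

lemma pr_nd (hnd : h.det ≠ 0) (σ : K →+* ℂ) (x : Fin m → ℂ) (hx : ∀ y, pr h σ x y = 0) :
    x = 0 := by
  have hdet : (h.map σ).det ≠ 0 := by
    have e : (h.map σ).det = σ h.det := (RingHom.map_det σ h).symm
    rw [e]
    exact (map_ne_zero σ).mpr hnd
  have h1 : x ᵥ* (h.map σ) = 0 := by
    funext b
    have h2 := hx (Pi.single b 1)
    rw [pr, Matrix.dotProduct_mulVec, dotProduct_single, mul_one] at h2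
    exact h2
  exact Matrix.eq_zero_of_vecMul_eq_zero hdet h1

lemma pr_nd' (hnd : h.det ≠ 0) (σ : K →+* ℂ) (y : Fin m → ℂ) (hy : ∀ x, pr h σ x y = 0) :
    y = 0 := by
  have hdet : (h.map σ).det ≠ 0 := by
    have e : (h.map σ).det = σ h.det := (RingHom.map_det σ h).symm
    rw [e]
    exact (map_ne_zero σ).mpr hnd
  have h1 : (h.map σ) *ᵥ y = 0 := by
    funext b
    have h2 := hy (Pi.single b 1)
    rw [pr, single_dotProduct, one_mul] at h2
    exact h2
  exact Matrix.eq_zero_of_mulVec_eq_zero hdet h1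

lemma cj_cj (σ : K →+* ℂ) : cj (cj σ) = σ := by
  ext x
  show conj (conj (σ x)) = σ x
  exact Complex.conj_conj _

/-- the pairing is symmetric -/
lemma pr_symm (hconj : ∀ (σ : K →+* ℂ) (x : K), cj σ x = σ (c x))
    (hh : ∀ a b, c (h a b) = h b a) (σ : K →+* ℂ) (x y : Fin m → ℂ) :
    pr h (cj σ) x y = pr h σ y x := by
  rw [pr, pr, dotProduct, dotProduct]
  simp only [Matrix.mulVec, dotProduct, Finset.mul_sum, Matrix.map_apply]
  rw [Finset.sum_comm]
  refine Finset.sum_congr rfl fun a _ => Finset.sum_congr rfl fun b _ => ?_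
  rw [hconj, hh]
  ring

lemma pr_smul_left (σ : K →+* ℂ) (r : ℂ) (x y : Fin m → ℂ) :
    pr h σ (r • x) y = r * pr h σ x y := by
  rw [pr, smul_dotProduct, smul_eq_mul]
  rfl

lemma pr_add_left (σ : K →+* ℂ) (x x' y : Fin m → ℂ) :
    pr h σ (x + x') y = pr h σ x y + pr h σ x' y := by
  rw [pr, add_dotProduct]
  rfl

lemma pr_smul_right (σ : K →+* ℂ) (r : ℂ) (x y : Fin m → ℂ) :
    pr h σ x (r • y) = r * pr h σ x y := by
  rw [pr, Matrix.mulVec_smul, dotProduct_smul, smul_eq_mul]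
  rfl

lemma pr_add_right (σ : K →+* ℂ) (x y y' : Fin m → ℂ) :
    pr h σ x (y + y') = pr h σ x y + pr h σ x y' := by
  rw [pr, Matrix.mulVec_add, dotProduct_add]
  rfl

include hconj hcl in
lemma tau_injE (hnd : h.det ≠ 0) [Nontrivial V] (σ : K →+* ℂ) :
    Function.Injective (tau (ts t σ)) := by
  rw [injective_iff_map_eq_zero]
  intro x hx
  apply pr_nd hnd σ
  intro y
  have h1 := tau_pair hconj hcl σ x y
  rw [hx, zero_mul, mul_zero, add_zero] at h1
  rcases smul_eq_zero.mp h1.symm with h2 | h2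
  · simpa using h2
  · exact absurd h2 one_ne_zero

lemma ActM.zero : ActM t (0 : Module.End ℂ V) (0 : (K →+* ℂ) → Matrix (Fin m) (Fin m) ℂ) := by
  intro σ x
  rw [zero_mul, mul_zero, sub_zero, Pi.zero_apply, Matrix.zero_mulVec, map_zero]

lemma ActM.add {X Y : Module.End ℂ V} {M N : (K →+* ℂ) → Matrix (Fin m) (Fin m) ℂ}
    (hX : ActM t X M) (hY : ActM t Y N) : ActM t (X + Y) (M + N) := by
  intro σ x
  rw [Pi.add_apply, Matrix.add_mulVec, map_add, ← hX σ x, ← hY σ x]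
  noncomm_ring

lemma ActM.smul {X : Module.End ℂ V} {M : (K →+* ℂ) → Matrix (Fin m) (Fin m) ℂ} (r : ℂ)
    (hX : ActM t X M) : ActM t (r • X) (r • M) := by
  intro σ x
  rw [Pi.smul_apply, Matrix.smul_mulVec, map_smul, ← hX σ x, smul_sub, smul_mul_assoc,
    mul_smul_comm]

lemma ActM.sub {X Y : Module.End ℂ V} {M N : (K →+* ℂ) → Matrix (Fin m) (Fin m) ℂ}
    (hX : ActM t X M) (hY : ActM t Y N) : ActM t (X - Y) (M - N) := by
  intro σ x
  rw [Pi.sub_apply, Matrix.sub_mulVec, map_sub, ← hX σ x, ← hY σ x]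
  noncomm_ring

lemma ActM.bracket {X Y : Module.End ℂ V} {M N : (K →+* ℂ) → Matrix (Fin m) (Fin m) ℂ}
    (hX : ActM t X M) (hY : ActM t Y N) : ActM t (X * Y - Y * X) (M * N - N * M) := by
  intro σ x
  have h1 := hX σ x
  have h2 := hY σ x
  have h3 := hX σ (N σ *ᵥ x)
  have h4 := hY σ (M σ *ᵥ x)
  rw [Matrix.mulVec_mulVec] at h3 h4
  rw [Pi.sub_apply, Pi.mul_apply, Pi.mul_apply, Matrix.sub_mulVec, map_sub, ← h3, ← h4, ← h1, ← h2]
  noncomm_ring

include hconj hcl in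
lemma ActM.unique (hnd : h.det ≠ 0) [Nontrivial V] {X : Module.End ℂ V}
    {M N : (K →+* ℂ) → Matrix (Fin m) (Fin m) ℂ} (hX : ActM t X M) (hY : ActM t X N) : M = N := by
  funext σ
  apply Matrix.toLin'.injective
  apply LinearMap.ext
  intro x
  rw [Matrix.toLin'_apply, Matrix.toLin'_apply]
  apply tau_injE hconj hcl hnd σ
  rw [← hX σ x, ← hY σ x]

include hconj hcl in
/-- the action is skew -/
lemma ActM.skew [Nontrivial V] {X : Module.End ℂ V}
    {M : (K →+* ℂ) → Matrix (Fin m) (Fin m) ℂ} (hX : ActM t X M) (σ : K →+* ℂ)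
    (x y : Fin m → ℂ) : pr h σ (M σ *ᵥ x) y + pr h σ x (M (cj σ) *ᵥ y) = 0 := by
  have h1 := tau_pair hconj hcl σ (M σ *ᵥ x) y
  have h2 := tau_pair hconj hcl σ x (M (cj σ) *ᵥ y)
  have h3 := tau_pair hconj hcl σ x y
  have h4 : (2 * pr h σ (M σ *ᵥ x) y) • (1 : Module.End ℂ V) +
      (2 * pr h σ x (M (cj σ) *ᵥ y)) • 1 = 0 := by
    rw [← h1, ← h2, ← hX σ x, ← hX (cj σ) y]
    have h5 : X * (tau (ts t σ) x * tau (ts t (cj σ)) y + tau (ts t (cj σ)) y * tau (ts t σ) x) -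
        (tau (ts t σ) x * tau (ts t (cj σ)) y + tau (ts t (cj σ)) y * tau (ts t σ) x) * X = 0 := by
      rw [h3, mul_smul_comm, smul_mul_assoc, mul_one, one_mul, sub_self]
    rw [← h5]
    noncomm_ring
  rw [← add_smul] at h4
  rcases smul_eq_zero.mp h4 with h5 | h5
  · linear_combination h5 / 2
  · exact absurd h5 one_ne_zero

/-- the two forms of skewness -/
lemma skewM_iff (M : (K →+* ℂ) → Matrix (Fin m) (Fin m) ℂ) : SkewM h M ↔
    ∀ σ x y, pr h σ (M σ *ᵥ x) y + pr h σ x (M (cj σ) *ᵥ y) = 0 := by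
  have e : ∀ σ (x y : Fin m → ℂ), pr h σ (M σ *ᵥ x) y + pr h σ x (M (cj σ) *ᵥ y) =
      x ⬝ᵥ (((M σ)ᵀ * h.map σ + h.map σ * M (cj σ)) *ᵥ y) := by
    intro σ x y
    have e1 : M σ *ᵥ x ⬝ᵥ h.map ⇑σ *ᵥ y = x ⬝ᵥ ((M σ)ᵀ * h.map ⇑σ) *ᵥ y := by
      rw [← Matrix.mulVec_mulVec, Matrix.dotProduct_mulVec x (M σ)ᵀ, Matrix.vecMul_transpose]
    rw [pr, pr, Matrix.add_mulVec, dotProduct_add, Matrix.mulVec_mulVec, e1]
  constructor
  · intro hM σ x y
    rw [e, hM σ, Matrix.zero_mulVec, dotProduct_zero]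
  · intro hM σ
    ext a b
    have h1 := hM σ (Pi.single a 1) (Pi.single b 1)
    rw [e, single_dotProduct, one_mul, Matrix.mulVec_single_one] at h1
    exact h1

end ts

section conjB

variable {κ : Type} [Fintype κ] [DecidableEq κ] {ϖ : ℂ} {K : Type} [Field K] [NumberField K]
  {m : ℕ} {P : PData κ ϖ} {c : K →+* K} {h : Matrix (Fin m) (Fin m) K}
  {t : Fin m → K → Module.End ℂ (κ → ℂ)}

lemma cB_ts (S : MD P c h t) (σ : K →+* ℂ) (a : Fin m) (v : κ → ℂ) :
    cB P (ts t σ a v) = ts t (cj σ) a (cB P v) := by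
  rw [ts, ts, LinearMap.sum_apply, LinearMap.sum_apply, cB_sum]
  refine Finset.sum_congr rfl fun b _ => ?_
  rw [LinearMap.smul_apply, LinearMap.smul_apply, cB_smul, cB_comm P _ (S.rat a _)]
  rfl

lemma cB_tauE (S : MD P c h t) (σ : K →+* ℂ) (x : Fin m → ℂ) (v : κ → ℂ) :
    cB P (tau (ts t σ) x v) = tau (ts t (cj σ)) (star x) (cB P v) := by
  rw [tau_apply, tau_apply, LinearMap.sum_apply, LinearMap.sum_apply, cB_sum]
  refine Finset.sum_congr rfl fun a _ => ?_
  rw [LinearMap.smul_apply, LinearMap.smul_apply, cB_smul, cB_ts S]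
  rfl

end conjB

end Pool.Agent.KSE
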