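import Pool.Agent.KSE.FftA

/-!
Module FftB. The first fundamental theorem for the unitary group of a Hermitian form over a CM field.

Choose `ε : (K →+* ℂ) → Bool` with `ε (cj σ) = ! ε σ` (a numbering `f` of the embeddings, `ε σ` the truth
value of `f σ < f (cj σ)`). For `s : Fin j → (K →+* ℂ)` let `F s` be the form `v ↦ F (fun r => component of v r
at s r)`; `F = ∑ s, F s` (multilinearity: `MultilinearMap.map_sum`), and every `F s` satisfies `hF` (the
families `M` act on each component separately). Fix `s` with `F s ≠ 0`. For `σ` with `ε σ` the family `M σ = 1`,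
`M (cj σ) = -1`, zero elsewhere is skew; `hF` for it says that the number of `r` with `s r = σ` is the number
of `r` with `s r = cj σ`. So there is a bijection of `{r | ε (s r)}` to `{r | ¬ ε (s r)}` with `s (φ r) = cj (s r)`
(`Fintype` equivalences on the fibres), and with a numbering of `{r | ε (s r)}` an `e₀ : Fin l × Fin 2 ≃ Fin j` and
`p a = s (e₀ (a, 0))` as in `fft_comp` (`hp` by `ε`).
-/

namespace Pool.Agent.KSE

open Module Matrix NumberField

namespace FftB

/-- the projection to the component of a place -/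
noncomputable def prj {T' : Type} [DecidableEq T'] (m : ℕ) (σ : T') :
    (T' → Fin m → ℂ) →ₗ[ℂ] (T' → Fin m → ℂ) :=
  (LinearMap.single ℂ (fun _ : T' => Fin m → ℂ) σ).comp (LinearMap.proj σ)

lemma prj_apply {T' : Type} [DecidableEq T'] {m : ℕ} (σ : T') (v : T' → Fin m → ℂ) :
    prj m σ v = Pi.single σ (v σ) := rfl

lemma sum_prj {T' : Type} [DecidableEq T'] [Fintype T'] {m : ℕ} (v : T' → Fin m → ℂ) :
    ∑ σ, prj m σ v = v := by
  simp only [prj_apply]
  exact Finset.univ_sum_single v

/-- a combinatorial lemma: the numbering of the slots -/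
lemma slots {S : Type} [Fintype S] [DecidableEq S] (ε : S → Prop) (κ : S → S)
    (hκ : ∀ σ, κ (κ σ) = σ) (hε : ∀ σ, ε (κ σ) ↔ ¬ ε σ) {j : ℕ} (s : Fin j → S)
    (hcard : ∀ σ, ε σ → (Finset.univ.filter fun r => s r = σ).card =
      (Finset.univ.filter fun r => s r = κ σ).card) :
    ∃ (l : ℕ) (e : Fin l × Fin 2 ≃ Fin j),
      (∀ a, ε (s (e (a, 0)))) ∧ ∀ a, s (e (a, 1)) = κ (s (e (a, 0))) := by
  classical
  have hfib : ∀ c : S, Nonempty ({r : {r : Fin j // ε (s r)} // κ (s r) = c} ≃
      {r : {r : Fin j // ¬ ε (s r)} // s r = c}) := by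
    intro c
    refine ⟨Fintype.equivOfCardEq ?_⟩
    by_cases hc : ε c
    · have h1 : IsEmpty {r : {r : Fin j // ε (s r)} // κ (s r) = c} := by
        refine ⟨fun r => ?_⟩
        have h2 := r.1.2
        have h3 := r.2
        rw [← h3] at hc
        exact (hε _).mp hc h2
      have h2 : IsEmpty {r : {r : Fin j // ¬ ε (s r)} // s r = c} := by
        refine ⟨fun r => ?_⟩
        have h2 := r.1.2
        have h3 := r.2
        rw [← h3] at hc
        exact h2 hc
      rw [Fintype.card_eq_zero_iff.mpr h1, Fintype.card_eq_zero_iff.mpr h2]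
    · have hc' : ε (κ c) := (hε c).mpr hc
      have h1 := hcard (κ c) hc'
      rw [hκ] at h1
      have e1 : Fintype.card {r : {r : Fin j // ε (s r)} // κ (s r) = c} =
          (Finset.univ.filter fun r => s r = κ c).card := by
        rw [← Fintype.card_subtype]
        refine Fintype.card_congr ⟨fun r => ⟨r.1.1, ?_⟩, fun r => ⟨⟨r.1, ?_⟩, ?_⟩, ?_, ?_⟩
        · have h2 := congrArg κ r.2
          rw [hκ] at h2
          exact h2
        · rw [r.2]; exact hc'
        · show κ (s r.1) = c
          rw [r.2, hκ]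
        · intro r; rfl
        · intro r; rfl
      have e2 : Fintype.card {r : {r : Fin j // ¬ ε (s r)} // s r = c} =
          (Finset.univ.filter fun r => s r = c).card := by
        rw [← Fintype.card_subtype]
        refine Fintype.card_congr ⟨fun r => ⟨r.1.1, r.2⟩, fun r => ⟨⟨r.1, ?_⟩, r.2⟩, ?_, ?_⟩
        · rw [r.2]; exact hc
        · intro r; rfl
        · intro r; rfl
      rw [e1, e2, h1]
  let φ : {r : Fin j // ε (s r)} ≃ {r : Fin j // ¬ ε (s r)} :=
    Equiv.ofFiberEquiv (f := fun r : {r : Fin j // ε (s r)} => κ (s r))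
      (g := fun r : {r : Fin j // ¬ ε (s r)} => s r) fun c => (hfib c).some
  have hφ : ∀ r, s (φ r) = κ (s r) := fun r =>
    Equiv.ofFiberEquiv_map (f := fun r : {r : Fin j // ε (s r)} => κ (s r))
      (g := fun r : {r : Fin j // ¬ ε (s r)} => s r) (fun c => (hfib c).some) r
  let g := (Fintype.equivFin {r : Fin j // ε (s r)}).symm
  let q : Fin (Fintype.card {r : Fin j // ε (s r)}) × Fin 2 → Fin j := fun x =>
    if x.2 = 0 then (g x.1).1 else (φ (g x.1)).1
  have hq0 : ∀ a, q (a, 0) = (g a).1 := fun a => if_pos rfl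
  have h10 : (1 : Fin 2) ≠ 0 := by decide
  have hq1 : ∀ a, q (a, 1) = (φ (g a)).1 := fun a => if_neg h10
  have hbij : Function.Bijective q := by
    constructor
    · rintro ⟨a, i⟩ ⟨b, i'⟩ hab
      have hi : i = 0 ∨ i = 1 := by omega
      have hi' : i' = 0 ∨ i' = 1 := by omega
      rcases hi with rfl | rfl <;> rcases hi' with rfl | rfl
      · rw [hq0, hq0] at hab
        rw [g.injective (Subtype.ext hab)]
      · rw [hq0, hq1] at hab
        exact absurd (hab ▸ (g a).2) (φ (g b)).2
      · rw [hq0, hq1] at hab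
        exact absurd (hab ▸ (g b).2) (φ (g a)).2
      · rw [hq1, hq1] at hab
        rw [g.injective (φ.injective (Subtype.ext hab))]
    · intro r
      by_cases hr : ε (s r)
      · refine ⟨(g.symm ⟨r, hr⟩, 0), ?_⟩
        rw [hq0, Equiv.apply_symm_apply]
      · refine ⟨(g.symm (φ.symm ⟨r, hr⟩), 1), ?_⟩
        rw [hq1, Equiv.apply_symm_apply, Equiv.apply_symm_apply]
  refine ⟨_, Equiv.ofBijective q hbij, ?_, ?_⟩
  · intro a
    rw [Equiv.ofBijective_apply, hq0]
    exact (g a).2
  · intro a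
    rw [Equiv.ofBijective_apply, Equiv.ofBijective_apply, hq0, hq1]
    exact hφ (g a)

/-- a half of the places -/
lemma exists_half {S : Type} [Fintype S] (κ : S → S) (hκ : ∀ σ, κ (κ σ) = σ)
    (hκ' : ∀ σ, κ σ ≠ σ) : ∃ ε : S → Prop, ∀ σ, ε (κ σ) ↔ ¬ ε σ := by
  classical
  let f := Fintype.equivFin S
  refine ⟨fun σ => f σ < f (κ σ), fun σ => ?_⟩
  show f (κ σ) < f (κ (κ σ)) ↔ ¬ f σ < f (κ σ)
  rw [hκ, not_lt]
  constructor
  · exact le_of_lt
  · intro h1
    exact lt_of_le_of_ne h1 fun h2 => hκ' σ (f.injective h2)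

end FftB

theorem fftC {K : Type} [Field K] [NumberField K] {c : K →+* K} {m : ℕ}
    {h : Matrix (Fin m) (Fin m) K}
    (hconj : ∀ (σ : K →+* ℂ) (x : K), cj σ x = σ (c x)) (hcm : ∀ σ : K →+* ℂ, cj σ ≠ σ)
    (hh : ∀ a b, c (h a b) = h b a) (hnd : h.det ≠ 0) {j : ℕ}
    (F : MultilinearMap ℂ (fun _ : Fin j => (K →+* ℂ) → Fin m → ℂ) ℂ)
    (hF : ∀ M : (K →+* ℂ) → Matrix (Fin m) (Fin m) ℂ, SkewM h M →
      ∀ v : Fin j → (K →+* ℂ) → Fin m → ℂ,
        ∑ r, F (Function.update v r fun σ => M σ *ᵥ v r σ) = 0) :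
    F ∈ Submodule.span ℂ {ω : MultilinearMap ℂ (fun _ : Fin j => (K →+* ℂ) → Fin m → ℂ) ℂ |
      ∃ (l : ℕ) (e : Fin l × Fin 2 ≃ Fin j) (s : Fin l → (K →+* ℂ)), ∀ v, ω v =
        ∏ a, pr h (s a) (v (e (a, 0)) (s a)) (v (e (a, 1)) (cj (s a)))} := by
  classical
  obtain ⟨ε, hε⟩ := FftB.exists_half (S := K →+* ℂ) cj cj_cj hcm
  let Fs : (Fin j → (K →+* ℂ)) → MultilinearMap ℂ (fun _ : Fin j => (K →+* ℂ) → Fin m → ℂ) ℂ :=
    fun s => F.compLinearMap fun r => FftB.prj m (s r)
  have hFs : ∀ s v, Fs s v = F fun r => FftB.prj m (s r) (v r) := fun s v => rfl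
  have hsum : F = ∑ s, Fs s := by
    refine MultilinearMap.ext fun v => ?_
    rw [_root_.sum_apply]
    have h1 : v = fun r => ∑ σ, FftB.prj m σ (v r) := by
      funext r
      rw [FftB.sum_prj]
    conv_lhs => rw [h1]
    rw [MultilinearMap.map_sum]
    rfl
  rw [hsum]
  refine Submodule.sum_mem _ fun s _ => ?_
  by_cases hz : Fs s = 0
  · rw [hz]
    exact Submodule.zero_mem _
  -- the action on one component
  have hupd : ∀ (M : (K →+* ℂ) → Matrix (Fin m) (Fin m) ℂ)
      (v : Fin j → (K →+* ℂ) → Fin m → ℂ) (r : Fin j),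
      Fs s (Function.update v r fun σ => M σ *ᵥ v r σ) =
        F (Function.update (fun r' => FftB.prj m (s r') (v r')) r
          fun σ => M σ *ᵥ FftB.prj m (s r) (v r) σ) := by
    intro M v r
    rw [hFs]
    congr 1
    funext r'
    by_cases hr : r' = r
    · subst hr
      rw [Function.update_self, Function.update_self]
      funext σ
      rw [FftB.prj_apply, FftB.prj_apply]
      by_cases hσ : σ = s r'
      · subst hσ
        rw [Pi.single_eq_same, Pi.single_eq_same]
      · rw [Pi.single_eq_of_ne hσ, Pi.single_eq_of_ne hσ, Matrix.mulVec_zero]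
    · rw [Function.update_of_ne hr, Function.update_of_ne hr]
  have hFsinv : ∀ M : (K →+* ℂ) → Matrix (Fin m) (Fin m) ℂ, SkewM h M →
      ∀ v : Fin j → (K →+* ℂ) → Fin m → ℂ,
        ∑ r, Fs s (Function.update v r fun σ => M σ *ᵥ v r σ) = 0 := by
    intro M hM v
    rw [Finset.sum_congr rfl fun r _ => hupd M v r]
    exact hF M hM fun r' => FftB.prj m (s r') (v r')
  -- the numbers of slots at dual places
  have hcard : ∀ σ, (Finset.univ.filter fun r => s r = σ).card =
      (Finset.univ.filter fun r => s r = cj σ).card := by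
    intro σ
    obtain ⟨v, hv⟩ : ∃ v, Fs s v ≠ 0 := by
      by_contra h1
      push Not at h1
      exact hz (MultilinearMap.ext h1)
    let M : (K →+* ℂ) → Matrix (Fin m) (Fin m) ℂ := fun τ =>
      ((if τ = σ then 1 else 0) - (if τ = cj σ then 1 else 0) : ℂ) • 1
    have hM : SkewM h M := by
      intro τ
      have e1 : (if cj τ = σ then (1 : ℂ) else 0) = if τ = cj σ then 1 else 0 := by
        refine if_congr ⟨fun h1 => ?_, fun h1 => ?_⟩ rfl rfl
        · rw [← h1, cj_cj]
        · rw [h1, cj_cj]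
      have e2 : (if cj τ = cj σ then (1 : ℂ) else 0) = if τ = σ then 1 else 0 := by
        refine if_congr ⟨fun h1 => ?_, fun h1 => ?_⟩ rfl rfl
        · rw [← cj_cj τ, h1, cj_cj]
        · rw [h1]
      show (((if τ = σ then 1 else 0) - (if τ = cj σ then 1 else 0) : ℂ) •
          (1 : Matrix (Fin m) (Fin m) ℂ))ᵀ * h.map τ +
        h.map τ * (((if cj τ = σ then 1 else 0) - (if cj τ = cj σ then 1 else 0) : ℂ) • 1) = 0
      rw [e1, e2, Matrix.transpose_smul, Matrix.transpose_one, smul_mul_assoc, one_mul,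
        mul_smul_comm, mul_one, ← add_smul]
      rw [show ((if τ = σ then 1 else 0) - (if τ = cj σ then 1 else 0) : ℂ) +
        ((if τ = cj σ then 1 else 0) - (if τ = σ then 1 else 0)) = 0 by ring, zero_smul]
    have h1 := hFsinv M hM v
    have h2 : ∀ r, Fs s (Function.update v r fun τ => M τ *ᵥ v r τ) =
        ((if s r = σ then 1 else 0) - (if s r = cj σ then 1 else 0) : ℂ) * Fs s v := by
      intro r
      rw [hupd]
      have e1 : (fun τ => M τ *ᵥ FftB.prj m (s r) (v r) τ) =
          ((if s r = σ then 1 else 0) - (if s r = cj σ then 1 else 0) : ℂ) •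
            FftB.prj m (s r) (v r) := by
        funext τ
        rw [Pi.smul_apply, FftB.prj_apply]
        by_cases hτ : τ = s r
        · subst hτ
          rw [Pi.single_eq_same]
          show (((if s r = σ then 1 else 0) - (if s r = cj σ then 1 else 0) : ℂ) •
            (1 : Matrix (Fin m) (Fin m) ℂ)) *ᵥ _ = _
          rw [Matrix.smul_mulVec, Matrix.one_mulVec]
        · rw [Pi.single_eq_of_ne hτ, Matrix.mulVec_zero, smul_zero]
      rw [e1, MultilinearMap.map_update_smul, smul_eq_mul, hFs]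
      congr 2
      exact Function.update_eq_self r fun r' => FftB.prj m (s r') (v r')
    rw [Finset.sum_congr rfl fun r _ => h2 r, ← Finset.sum_mul, Finset.sum_sub_distrib,
      Finset.sum_boole, Finset.sum_boole] at h1
    have h3 := (mul_eq_zero.mp h1).resolve_right hv
    have h4 := sub_eq_zero.mp h3
    exact_mod_cast h4
  obtain ⟨l, e, he0, he1⟩ := FftB.slots ε cj cj_cj hε s fun σ _ => hcard σ
  refine fft_comp hconj hcm hh hnd (Fs s) hFsinv e (fun a => s (e (a, 0))) ?_ ?_
  · intro a b hab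
    have h1 := he0 a
    rw [hab] at h1
    exact (hε _).mp h1 (he0 b)
  · intro v w h0 h1
    rw [hFs, hFs]
    congr 1
    funext r
    obtain ⟨⟨a, i⟩, rfl⟩ := e.surjective r
    rw [FftB.prj_apply, FftB.prj_apply]
    have hi : i = 0 ∨ i = 1 := by omega
    rcases hi with rfl | rfl
    · rw [h0 a]
    · rw [he1 a, h1 a]

end Pool.Agent.KSE
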