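import Pool.Agent.KSE.Odd
import Pool.Agent.Helper84.AutC

/-!
Module OddSm. Fields of degree at most six.

Let `f ∈ R` be nonzero. If some nonzero element of `R` is supported on one pair `σ, cj σ` we are
done. If all nonzero elements of `R` have full support, then `R` is a line, so `f ∘ τ = ± f` and
`|f|` is constant. Otherwise there are exactly three pairs and `f = (a, b, 0)`; with translates
`g = (0, g₂, g₃)`, `h = (h₁, 0, h₃)` one gets `a g₂ h₃ + b g₃ h₁ = 0` (else an element supported on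
the third pair exists), and `{g₂², g₃²} = {h₁², h₃²} = {a², b²}` gives `a² = b²`.
-/

namespace Pool.Agent.GPC

open NumberField

private theorem oddSm_single {K : Type} [Field K] [NumberField K]
    (R : Submodule ℚ ((K →+* ℂ) → ℚ))
    (hodd : ∀ f ∈ R, ∀ σ, f (ComplexEmbedding.conjugate σ) = - f σ)
    (f : (K →+* ℂ) → ℚ) (hf : f ∈ R) (σ₁ : K →+* ℂ) (h1 : f σ₁ ≠ 0)
    (h0 : ∀ σ, σ ≠ σ₁ → σ ≠ ComplexEmbedding.conjugate σ₁ → f σ = 0) :
    ∃ f ∈ R, f ≠ 0 ∧ ∀ σ, f σ = -1 ∨ f σ = 0 ∨ f σ = 1 := by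
  refine ⟨(f σ₁)⁻¹ • f, R.smul_mem _ hf, ?_, ?_⟩
  · intro h
    have := congrFun h σ₁
    simp only [Pi.smul_apply, smul_eq_mul, Pi.zero_apply] at this
    rw [inv_mul_cancel₀ h1] at this
    exact one_ne_zero this
  · intro σ
    simp only [Pi.smul_apply, smul_eq_mul]
    by_cases e1 : σ = σ₁
    · right; right
      rw [e1, inv_mul_cancel₀ h1]
    · by_cases e2 : σ = ComplexEmbedding.conjugate σ₁
      · left
        rw [e2, hodd f hf, mul_neg, inv_mul_cancel₀ h1]
      · right; left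
        rw [h0 σ e1 e2, mul_zero]

private theorem oddSm_sum {K : Type} [Field K] [NumberField K] (τ : ℂ ≃+* ℂ)
    (φ : (K →+* ℂ) → ℚ) : ∑ σ, φ ((τ : ℂ →+* ℂ).comp σ) = ∑ σ, φ σ := by
  have hb : Function.Bijective (fun σ : K →+* ℂ => (τ : ℂ →+* ℂ).comp σ) := by
    constructor
    · intro σ σ' h
      refine RingHom.ext fun x => τ.injective ?_
      exact RingHom.congr_fun h x
    · intro σ
      refine ⟨(τ.symm : ℂ →+* ℂ).comp σ, RingHom.ext fun x => ?_⟩
      exact τ.apply_symm_apply _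
  exact Function.Bijective.sum_comp hb φ

private theorem oddSm_arith (A B G2 G3 H1 H3 : ℚ) (hA : 0 < A) (hB : 0 < B)
    (h1 : G2 + G3 = A + B) (h2 : G2 ^ 2 + G3 ^ 2 = A ^ 2 + B ^ 2)
    (h3 : H1 + H3 = A + B) (h4 : H1 ^ 2 + H3 ^ 2 = A ^ 2 + B ^ 2)
    (h5 : B * G3 * H1 = A * G2 * H3) : A = B := by
  have e1 : (G2 - A) * (G2 - B) = 0 := by
    have : G3 = A + B - G2 := by linarith
    subst this
    nlinarith
  have e2 : (H1 - A) * (H1 - B) = 0 := by
    have : H3 = A + B - H1 := by linarith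
    subst this
    nlinarith
  have hAB : A * B ≠ 0 := by positivity
  have fin : ∀ t : ℚ, (A - B) * t = 0 → t ≠ 0 → A = B := by
    intro t ht h
    rcases mul_eq_zero.mp ht with h' | h'
    · linarith
    · exact absurd h' h
  rcases mul_eq_zero.mp e1 with e1 | e1 <;> rcases mul_eq_zero.mp e2 with e2 | e2
  · have g2 : G2 = A := by linarith
    have g3 : G3 = B := by linarith
    have k1 : H1 = A := by linarith
    have k3 : H3 = B := by linarith
    rw [g2, g3, k1, k3] at h5
    exact fin (A * B) (by linear_combination -h5) hAB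
  · have g2 : G2 = A := by linarith
    have g3 : G3 = B := by linarith
    have k1 : H1 = B := by linarith
    have k3 : H3 = A := by linarith
    rw [g2, g3, k1, k3] at h5
    exact fin (A ^ 2 + A * B + B ^ 2) (by linear_combination -h5) (by positivity)
  · have g2 : G2 = B := by linarith
    have g3 : G3 = A := by linarith
    have k1 : H1 = A := by linarith
    have k3 : H3 = B := by linarith
    rw [g2, g3, k1, k3] at h5
    exact fin (A * B) (by linear_combination h5) hAB
  · have g2 : G2 = B := by linarith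
    have g3 : G3 = A := by linarith
    have k1 : H1 = B := by linarith
    have k3 : H3 = A := by linarith
    rw [g2, g3, k1, k3] at h5
    exact fin (A * B) (by linear_combination -h5) hAB

theorem oddSparse_small (K : Type) [Field K] [NumberField K] (c : K →+* K)
    (hc : ∀ (σ : K →+* ℂ) (x : K), ComplexEmbedding.conjugate σ x = σ (c x))
    (hK : Module.finrank ℚ K ≤ 6) : OddSparse K := by
  classical
  intro R hR hodd hst
  have hcc : ∀ σ : K →+* ℂ,
      ComplexEmbedding.conjugate (ComplexEmbedding.conjugate σ) = σ := fun σ => star_star σ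
  have htr : ∀ σ σ' : K →+* ℂ, ∃ τ : ℂ ≃+* ℂ, (τ : ℂ →+* ℂ).comp σ = σ' :=
    fun σ σ' => Pool.Agent.Helper84.exists_aut σ σ'
  -- no fixed points
  obtain ⟨f, hf, hfne⟩ := Submodule.exists_mem_ne_zero_of_ne_bot hR
  have hfix : ∀ σ : K →+* ℂ, ComplexEmbedding.conjugate σ ≠ σ := by
    intro σ hσ
    obtain ⟨σ', hσ'⟩ := Function.ne_iff.mp hfne
    obtain ⟨τ, hτ⟩ := htr σ σ'
    have h1 := hodd _ (hst f hf τ) σ
    simp only [hσ, hτ] at h1
    have h2 : f σ' = 0 := by linarith
    exact hσ' h2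
  by_cases hfull : ∀ f ∈ R, f ≠ 0 → ∀ σ, f σ ≠ 0
  · -- R is a line
    have hfn := hfull f hf hfne
    have key : ∀ (τ : ℂ ≃+* ℂ) (σ : K →+* ℂ), |f ((τ : ℂ →+* ℂ).comp σ)| = |f σ| := by
      intro τ σ
      set g : (K →+* ℂ) → ℚ := fun σ => f ((τ : ℂ →+* ℂ).comp σ) with hg
      have hgR : g ∈ R := hst f hf τ
      set lam : ℚ := g σ / f σ with hlam
      have hz : g - lam • f = 0 := by
        by_contra hne
        refine hfull _ (R.sub_mem hgR (R.smul_mem lam hf)) hne σ ?_
        simp only [Pi.sub_apply, Pi.smul_apply, smul_eq_mul, hlam]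
        rw [div_mul_cancel₀ _ (hfn σ), sub_self]
      have hgf : ∀ s, g s = lam * f s := by
        intro s
        have := congrFun hz s
        simp only [Pi.sub_apply, Pi.smul_apply, smul_eq_mul, Pi.zero_apply] at this
        linarith
      have hs : ∑ s, (g s) ^ 2 = ∑ s, (f s) ^ 2 := oddSm_sum τ (fun s => (f s) ^ 2)
      have hs2 : ∑ s, (g s) ^ 2 = lam ^ 2 * ∑ s, (f s) ^ 2 := by
        rw [Finset.mul_sum]
        refine Finset.sum_congr rfl fun s _ => ?_
        rw [hgf s]; ring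
      have hpos : 0 < ∑ s, (f s) ^ 2 :=
        Finset.sum_pos (fun s _ => by have := hfn s; positivity) ⟨σ, Finset.mem_univ _⟩
      have hl : lam ^ 2 = 1 := by
        have h5 : (lam ^ 2 - 1) * ∑ s, (f s) ^ 2 = 0 := by rw [sub_mul, ← hs2, hs]; ring
        rcases mul_eq_zero.mp h5 with h6 | h6
        · linarith
        · exact absurd h6 hpos.ne'
      have hl' : |lam| = 1 := by
        rw [← sq_eq_sq₀ (abs_nonneg _) zero_le_one, sq_abs, hl, one_pow]
      show |g σ| = |f σ|
      rw [hgf σ, abs_mul, hl', one_mul]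
    obtain ⟨σ₁, hσ₁⟩ := Function.ne_iff.mp hfne
    have hσ₁' : f σ₁ ≠ 0 := hσ₁
    have habs : 0 < |f σ₁| := abs_pos.mpr hσ₁'
    refine ⟨|f σ₁|⁻¹ • f, R.smul_mem _ hf, ?_, ?_⟩
    · intro h
      have := congrFun h σ₁
      simp only [Pi.smul_apply, smul_eq_mul, Pi.zero_apply] at this
      rcases mul_eq_zero.mp this with h6 | h6
      · exact (inv_ne_zero habs.ne') h6
      · exact hσ₁' h6
    · intro σ
      obtain ⟨τ, hτ⟩ := htr σ₁ σ
      have h7 : |f σ| = |f σ₁| := by rw [← hτ]; exact key τ σ₁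
      simp only [Pi.smul_apply, smul_eq_mul]
      rcases abs_choice (f σ) with h8 | h8
      · right; right
        rw [← h7, h8, inv_mul_cancel₀ (hfn σ)]
      · left
        rw [← h7, h8, inv_neg, neg_mul, inv_mul_cancel₀ (hfn σ)]
  · -- three pairs
    push Not at hfull
    obtain ⟨f, hf, hfne, σ₃, hσ₃⟩ := hfull
    obtain ⟨σ₁, hσ₁⟩ := Function.ne_iff.mp hfne
    have h1 : f σ₁ ≠ 0 := hσ₁
    by_cases hsing : ∀ σ, σ ≠ σ₁ → σ ≠ ComplexEmbedding.conjugate σ₁ → f σ = 0
    · exact oddSm_single R hodd f hf σ₁ h1 hsing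
    push Not at hsing
    obtain ⟨σ₂, h21, h21', h2⟩ := hsing
    set c₁ := ComplexEmbedding.conjugate σ₁ with hc₁
    set c₂ := ComplexEmbedding.conjugate σ₂ with hc₂
    set c₃ := ComplexEmbedding.conjugate σ₃ with hc₃
    have f1 : f c₁ = - f σ₁ := hodd f hf σ₁
    have f2 : f c₂ = - f σ₂ := hodd f hf σ₂
    have f3 : f c₃ = 0 := by rw [hc₃, hodd f hf σ₃, hσ₃, neg_zero]
    have n1 : σ₁ ≠ c₁ := (hfix σ₁).symm
    have n2 : σ₂ ≠ c₂ := (hfix σ₂).symm
    have n3 : σ₃ ≠ c₃ := (hfix σ₃).symm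
    have n4 : c₂ ≠ c₁ := by
      intro h
      apply h21
      rw [← hcc σ₂, ← hcc σ₁]
      rw [← hc₂, ← hc₁, h]
    have n5 : c₂ ≠ σ₁ := by
      intro h
      apply h21'
      rw [hc₁, ← h, hc₂, hcc]
    have d1 : σ₃ ≠ σ₁ := by intro h; rw [h] at hσ₃; exact h1 hσ₃
    have d2 : σ₃ ≠ c₁ := by intro h; rw [h, f1] at hσ₃; exact h1 (neg_eq_zero.mp hσ₃)
    have d3 : σ₃ ≠ σ₂ := by intro h; rw [h] at hσ₃; exact h2 hσ₃
    have d4 : σ₃ ≠ c₂ := by intro h; rw [h, f2] at hσ₃; exact h2 (neg_eq_zero.mp hσ₃)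
    have d5 : c₃ ≠ σ₁ := by intro h; rw [h] at f3; exact h1 f3
    have d6 : c₃ ≠ c₁ := by intro h; rw [h, f1] at f3; exact h1 (neg_eq_zero.mp f3)
    have d7 : c₃ ≠ σ₂ := by intro h; rw [h] at f3; exact h2 f3
    have d8 : c₃ ≠ c₂ := by intro h; rw [h, f2] at f3; exact h2 (neg_eq_zero.mp f3)
    let v : Fin 6 → (K →+* ℂ) := ![σ₁, c₁, σ₂, c₂, σ₃, c₃]
    have hinj : Function.Injective v := by
      intro i j hij
      fin_cases i <;> fin_cases j <;> first
        | rfl
        | exact absurd hij n1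
        | exact absurd hij n1.symm
        | exact absurd hij n2
        | exact absurd hij n2.symm
        | exact absurd hij n3
        | exact absurd hij n3.symm
        | exact absurd hij n4
        | exact absurd hij n4.symm
        | exact absurd hij n5
        | exact absurd hij n5.symm
        | exact absurd hij h21
        | exact absurd hij h21.symm
        | exact absurd hij h21'
        | exact absurd hij h21'.symm
        | exact absurd hij d1
        | exact absurd hij d1.symm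
        | exact absurd hij d2
        | exact absurd hij d2.symm
        | exact absurd hij d3
        | exact absurd hij d3.symm
        | exact absurd hij d4
        | exact absurd hij d4.symm
        | exact absurd hij d5
        | exact absurd hij d5.symm
        | exact absurd hij d6
        | exact absurd hij d6.symm
        | exact absurd hij d7
        | exact absurd hij d7.symm
        | exact absurd hij d8
        | exact absurd hij d8.symm
    have hcard : Fintype.card (K →+* ℂ) ≤ 6 := by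
      rw [NumberField.Embeddings.card K ℂ]; exact hK
    have hbij : Function.Bijective v := by
      refine (Fintype.bijective_iff_injective_and_card v).mpr ⟨hinj, ?_⟩
      have := Fintype.card_le_of_injective v hinj
      rw [Fintype.card_fin] at this ⊢
      omega
    have hsum : ∀ φ : (K →+* ℂ) → ℚ,
        ∑ σ, φ σ = φ σ₁ + φ c₁ + φ σ₂ + φ c₂ + φ σ₃ + φ c₃ := by
      intro φ
      rw [← Function.Bijective.sum_comp hbij φ, Fin.sum_univ_six]
      rfl
    have hcases : ∀ σ, σ = σ₁ ∨ σ = c₁ ∨ σ = σ₂ ∨ σ = c₂ ∨ σ = σ₃ ∨ σ = c₃ := by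
      intro σ
      obtain ⟨i, hi⟩ := hbij.2 σ
      fin_cases i
      · left; exact hi.symm
      · right; left; exact hi.symm
      · right; right; left; exact hi.symm
      · right; right; right; left; exact hi.symm
      · right; right; right; right; left; exact hi.symm
      · right; right; right; right; right; exact hi.symm
    obtain ⟨τ₁, hτ₁⟩ := htr σ₁ σ₃
    obtain ⟨τ₂, hτ₂⟩ := htr σ₂ σ₃
    set g : (K →+* ℂ) → ℚ := fun σ => f ((τ₁ : ℂ →+* ℂ).comp σ) with hg
    set h : (K →+* ℂ) → ℚ := fun σ => f ((τ₂ : ℂ →+* ℂ).comp σ) with hh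
    have hgR : g ∈ R := hst f hf τ₁
    have hhR : h ∈ R := hst f hf τ₂
    have g1 : g σ₁ = 0 := by simp only [hg]; rw [hτ₁]; exact hσ₃
    have k2 : h σ₂ = 0 := by simp only [hh]; rw [hτ₂]; exact hσ₃
    have gc1 : g c₁ = - g σ₁ := hodd g hgR σ₁
    have gc2 : g c₂ = - g σ₂ := hodd g hgR σ₂
    have gc3 : g c₃ = - g σ₃ := hodd g hgR σ₃
    have hc1 : h c₁ = - h σ₁ := hodd h hhR σ₁
    have hc2 : h c₂ = - h σ₂ := hodd h hhR σ₂
    have hc3 : h c₃ = - h σ₃ := hodd h hhR σ₃
    have sg2 : ∑ s, (g s) ^ 2 = ∑ s, (f s) ^ 2 := oddSm_sum τ₁ (fun s => (f s) ^ 2)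
    have sg4 : ∑ s, (g s) ^ 4 = ∑ s, (f s) ^ 4 := oddSm_sum τ₁ (fun s => (f s) ^ 4)
    have sh2 : ∑ s, (h s) ^ 2 = ∑ s, (f s) ^ 2 := oddSm_sum τ₂ (fun s => (f s) ^ 2)
    have sh4 : ∑ s, (h s) ^ 4 = ∑ s, (f s) ^ 4 := oddSm_sum τ₂ (fun s => (f s) ^ 4)
    rw [hsum, hsum, gc1, gc2, gc3, f1, f2, f3, g1, hσ₃] at sg2 sg4
    rw [hsum, hsum, hc1, hc2, hc3, f1, f2, f3, k2, hσ₃] at sh2 sh4
    set k : (K →+* ℂ) → ℚ := h σ₁ • (g σ₂ • f - f σ₂ • g) - (f σ₁ * g σ₂) • h with hk
    have hkR : k ∈ R :=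
      R.sub_mem (R.smul_mem _ (R.sub_mem (R.smul_mem _ hf) (R.smul_mem _ hgR)))
        (R.smul_mem _ hhR)
    have kv : ∀ s, k s = h σ₁ * (g σ₂ * f s - f σ₂ * g s) - (f σ₁ * g σ₂) * h s := by
      intro s
      simp only [hk, Pi.sub_apply, Pi.smul_apply, smul_eq_mul]
    have k1' : k σ₁ = 0 := by rw [kv, g1]; ring
    have k2' : k σ₂ = 0 := by rw [kv, k2]; ring
    have k3' : k σ₃ = -(f σ₂ * g σ₃ * h σ₁ + f σ₁ * g σ₂ * h σ₃) := by
      rw [kv, hσ₃]; ring
    by_cases hk3 : k σ₃ = 0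
    · have hrel : f σ₂ * g σ₃ * h σ₁ = -(f σ₁ * g σ₂ * h σ₃) := by
        rw [k3'] at hk3; linarith
      have hA : 0 < (f σ₁) ^ 2 := by positivity
      have hB : 0 < (f σ₂) ^ 2 := by positivity
      have hAB : (f σ₁) ^ 2 = (f σ₂) ^ 2 := by
        refine oddSm_arith _ _ ((g σ₂) ^ 2) ((g σ₃) ^ 2) ((h σ₁) ^ 2) ((h σ₃) ^ 2) hA hB
          ?_ ?_ ?_ ?_ ?_
        · linarith
        · nlinarith
        · linarith
        · nlinarith
        · have e1 : (f σ₂ * g σ₃ * h σ₁) ^ 2 = (f σ₁ * g σ₂ * h σ₃) ^ 2 := by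
            rw [hrel]; ring
          linear_combination e1
      have habs : |f σ₂| = |f σ₁| := by
        rw [← sq_eq_sq₀ (abs_nonneg _) (abs_nonneg _), sq_abs, sq_abs, hAB]
      have hpos : |f σ₁| ≠ 0 := abs_ne_zero.mpr h1
      refine ⟨|f σ₁|⁻¹ • f, R.smul_mem _ hf, ?_, ?_⟩
      · intro h'
        have := congrFun h' σ₁
        simp only [Pi.smul_apply, smul_eq_mul, Pi.zero_apply] at this
        rcases mul_eq_zero.mp this with h6 | h6
        · exact (inv_ne_zero hpos) h6
        · exact h1 h6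
      · intro σ
        simp only [Pi.smul_apply, smul_eq_mul]
        have hval : ∀ y : ℚ, |y| = |f σ₁| →
            |f σ₁|⁻¹ * y = -1 ∨ |f σ₁|⁻¹ * y = 0 ∨ |f σ₁|⁻¹ * y = 1 := by
          intro y hy
          have hy0 : y ≠ 0 := by
            intro h0
            rw [h0, abs_zero] at hy
            exact hpos hy.symm
          rcases abs_choice y with h8 | h8
          · right; right
            rw [← hy, h8, inv_mul_cancel₀ hy0]
          · left
            rw [← hy, h8, inv_neg, neg_mul, inv_mul_cancel₀ hy0]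
        rcases hcases σ with e | e | e | e | e | e
        · rw [e]; exact hval _ rfl
        · rw [e, f1]; exact hval _ (abs_neg _)
        · rw [e]; exact hval _ habs
        · rw [e, f2]; exact hval _ (by rw [abs_neg, habs])
        · right; left; rw [e, hσ₃, mul_zero]
        · right; left; rw [e, f3, mul_zero]
    · refine oddSm_single R hodd k hkR σ₃ hk3 ?_
      intro σ hs1 hs2
      rcases hcases σ with e | e | e | e | e | e
      · rw [e]; exact k1'
      · rw [e, hc₁, hodd k hkR σ₁, k1', neg_zero]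
      · rw [e]; exact k2'
      · rw [e, hc₂, hodd k hkR σ₂, k2', neg_zero]
      · exact absurd e hs1
      · exact absurd e hs2

end Pool.Agent.GPC
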