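import Pool.Agent.KSE.SigE
import Pool.Agent.KS.SOMain2

/-!
Module SigR. The signature at a real place.

`k3_sig2`: `W` is spanned by the real and the imaginary part of `x` (linearly independent and orthogonal of the
same length, as `pr h σ₀ x x = 0` and `pr h σ₀ x (star x) ≠ 0`) and `W'` is the space of real vectors orthogonal to
`x` (dimension `m - 2`).
-/

open scoped ComplexConjugate

namespace Pool.Agent.KSE

open Module Matrix NumberField Pool.Agent.Helper7 Pool.Agent.KS Pool.Agent.Ball
  Pool.Agent.Helper28.GPC Pool.Agent.GPC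

namespace SigR

open Pool.Agent.KS.WittAux

/-- a form with an orthogonal pair of positive vectors and negative on its orthogonal complement -/
lemma sig2_of_pair {m : ℕ} {G : Matrix (Fin m) (Fin m) ℝ} (hG : Gᵀ = G) {p q : Fin m → ℝ}
    (hd : 0 < wbil G p p) (hpq : wbil G p q = 0) (hqq : wbil G q q = wbil G p p)
    (hneg : ∀ w, w ≠ 0 → wbil G p w = 0 → wbil G q w = 0 → wbil G w w < 0) : Sig2 G := by
  have hqp : wbil G q p = 0 := by rw [wbil_symm G hG, hpq]
  have hval : ∀ a b : ℝ, wbil G (a • p + b • q) (a • p + b • q) =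
      (a ^ 2 + b ^ 2) * wbil G p p := by
    intro a b
    simp only [map_add, map_smul, LinearMap.add_apply, LinearMap.smul_apply, smul_eq_mul, hpq, hqp,
      hqq]
    ring
  have hli : LinearIndependent ℝ ![p, q] := by
    rw [LinearIndependent.pair_iff]
    intro a b hab
    have h1 := hval a b
    rw [hab, map_zero] at h1
    have h2 : a ^ 2 + b ^ 2 = 0 := (mul_eq_zero.mp h1.symm).resolve_right hd.ne'
    have h3 : a ^ 2 = 0 := by nlinarith [sq_nonneg a, sq_nonneg b]
    have h4 : b ^ 2 = 0 := by nlinarith [sq_nonneg a, sq_nonneg b]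
    exact ⟨pow_eq_zero_iff two_ne_zero |>.mp h3, pow_eq_zero_iff two_ne_zero |>.mp h4⟩
  let L : (Fin m → ℝ) →ₗ[ℝ] ℝ × ℝ := (wbil G p).prod (wbil G q)
  have hL : ∀ w, L w = (wbil G p w, wbil G q w) := fun w => rfl
  refine ⟨Submodule.span ℝ (Set.range ![p, q]), LinearMap.ker L, ?_, ?_, ?_, ?_⟩
  · rw [finrank_span_eq_card hli, Fintype.card_fin]
  · have hsurj : LinearMap.range L = ⊤ := by
      rw [LinearMap.range_eq_top]
      rintro ⟨a, b⟩
      refine ⟨(a / wbil G p p) • p + (b / wbil G p p) • q, ?_⟩
      rw [hL]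
      simp only [map_add, map_smul, smul_eq_mul, hpq, hqp, hqq, mul_zero, add_zero, zero_add]
      rw [div_mul_cancel₀ _ hd.ne', div_mul_cancel₀ _ hd.ne']
    have h1 := LinearMap.finrank_range_add_finrank_ker L
    rw [hsurj, finrank_top, Module.finrank_prod, Module.finrank_self, Module.finrank_fin_fun] at h1
    omega
  · intro w hw hw0
    have hw' : w ∈ Submodule.span ℝ {p, q} := by
      have e : Set.range ![p, q] = {p, q} := by
        rw [Matrix.range_cons, Matrix.range_cons, Matrix.range_empty, Set.union_empty]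
        rfl
      rwa [e] at hw
    obtain ⟨a, b, rfl⟩ := Submodule.mem_span_pair.mp hw'
    rw [← wbil_apply, hval]
    refine mul_pos ?_ hd
    have h1 : a ≠ 0 ∨ b ≠ 0 := by
      by_contra hc
      push Not at hc
      apply hw0
      rw [hc.1, hc.2, zero_smul, zero_smul, add_zero]
    rcases h1 with h1 | h1
    · have := sq_pos_of_ne_zero h1
      nlinarith [sq_nonneg b]
    · have := sq_pos_of_ne_zero h1
      nlinarith [sq_nonneg a]
  · intro w hw hw0
    rw [LinearMap.mem_ker, hL, Prod.mk_eq_zero] at hw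
    rw [← wbil_apply]
    exact hneg w hw0 hw.1 hw.2

end SigR

open SigR Pool.Agent.KS.WittAux

variable {K : Type} [Field K] [NumberField K] {c : K →+* K} {m : ℕ}
  {h : Matrix (Fin m) (Fin m) K} (hconj : ∀ (σ : K →+* ℂ) (x : K), cj σ x = σ (c x))
  (hh : ∀ a b, c (h a b) = h b a) {σ₀ : K →+* ℂ} {x : Fin m → ℂ} (hx : IsK3Type h σ₀ x)

include hconj hh hx in
theorem k3_sig2 (hσ : cj σ₀ = σ₀) (hxx : pr h σ₀ x x = 0) :
    Sig2 (Matrix.of fun a b => (σ₀ (h a b)).re) ∨
      Sig2 (-(Matrix.of fun a b => (σ₀ (h a b)).re)) := by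
  classical
  set G : Matrix (Fin m) (Fin m) ℝ := Matrix.of fun a b => (σ₀ (h a b)).re with hGdef
  have hreal : ∀ z : K, conj (σ₀ z) = σ₀ z := by
    intro z
    have h1 : cj σ₀ z = σ₀ z := by rw [hσ]
    exact h1
  have hGc : ∀ a b, (G a b : ℂ) = σ₀ (h a b) := by
    intro a b
    rw [hGdef, Matrix.of_apply]
    exact Complex.conj_eq_iff_re.mp (hreal _)
  have hG : Gᵀ = G := by
    ext a b
    rw [Matrix.transpose_apply, hGdef, Matrix.of_apply, Matrix.of_apply, ← hh a b, ← hconj, hσ]
  -- the complex form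
  have hbil : ∀ u v : Fin m → ℂ, (∑ a, ∑ b, u a * σ₀ (h a b) * v b) = bil G u v := by
    intro u v
    rw [bil_apply]
    refine Finset.sum_congr rfl fun a _ => Finset.sum_congr rfl fun b _ => ?_
    rw [hGc]
  have hpr : pr h σ₀ x x = bil G x x := by
    rw [← hbil, pr, dotProduct]
    refine Finset.sum_congr rfl fun a _ => ?_
    rw [Matrix.mulVec, dotProduct, Finset.mul_sum]
    refine Finset.sum_congr rfl fun b _ => ?_
    rw [Matrix.map_apply]
    ring
  obtain ⟨p, hp⟩ : ∃ p, p = rev x := ⟨_, rfl⟩
  obtain ⟨q, hq⟩ : ∃ q, q = imv x := ⟨_, rfl⟩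
  have hxpq : x = cx p + Complex.I • cx q := by
    rw [hp, hq]
    exact rev_imv x
  have hqp : wbil G q p = wbil G p q := wbil_symm G hG q p
  have e1 : bil G x x = ((wbil G p p - wbil G q q : ℝ) : ℂ) +
      Complex.I * ((2 * wbil G p q : ℝ) : ℂ) := by
    rw [hxpq]
    simp only [map_add, map_smul, LinearMap.add_apply, LinearMap.smul_apply, smul_eq_mul, WittAux.bil_cx,
      hqp]
    push_cast
    linear_combination ((wbil G q q : ℝ) : ℂ) * Complex.I_sq
  rw [hpr, e1] at hxx
  have h1 : wbil G q q = wbil G p p := by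
    have := congrArg Complex.re hxx
    simp at this
    linarith
  have h2 : wbil G p q = 0 := by
    have := congrArg Complex.im hxx
    simp at this
    linarith
  obtain ⟨s, hs1, hs2⟩ := hx
  have e2 : (∑ a, ∑ b, x a * σ₀ (h a b) * conj (x b)).re = 2 * wbil G p p := by
    have e3 : (∑ a, ∑ b, x a * σ₀ (h a b) * conj (x b)) = bil G x (star x) := hbil x (star x)
    have e4 : star x = cx p - Complex.I • cx q := by
      rw [hxpq]
      funext i
      simp [cx]
      ring
    rw [e3, e4]
    conv_lhs => rw [hxpq]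
    simp only [map_add, map_sub, map_smul, LinearMap.add_apply, LinearMap.smul_apply, smul_eq_mul,
      WittAux.bil_cx, hqp, h2, h1]
    simp
    ring
  rw [e2] at hs1
  -- real vectors orthogonal to `x`
  have horth : ∀ w : Fin m → ℝ, w ≠ 0 → wbil G p w = 0 → wbil G q w = 0 →
      0 < s * wbil G w w := by
    intro w hw hpw hqw
    have h3 := hs2 (fun σ => if σ = σ₀ then cx w else 0) (by
      intro σ a
      by_cases hσ1 : σ = σ₀
      · subst hσ1
        have h4 : ComplexEmbedding.conjugate σ = σ := hσ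
        rw [h4, if_pos rfl]
        simp [cx]
      · have h4 : ComplexEmbedding.conjugate σ ≠ σ₀ := by
          intro h5
          apply hσ1
          have h6 : cj (cj σ) = cj σ₀ := by
            show ComplexEmbedding.conjugate (ComplexEmbedding.conjugate σ) = _
            rw [h5]
          rw [cj_cj, hσ] at h6
          exact h6
        rw [if_neg h4, if_neg hσ1]
        simp) (by
      intro h4
      have h5 := congrFun h4 σ₀
      simp only [if_pos, Pi.zero_apply] at h5
      apply hw
      funext i
      have h6 := congrFun h5 i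
      simpa [cx] using h6) (by
      have h4 : ComplexEmbedding.conjugate σ₀ = σ₀ := hσ
      rw [h4]
      simp only [if_pos]
      rw [hbil, hxpq]
      simp only [map_add, map_smul, LinearMap.add_apply, LinearMap.smul_apply, smul_eq_mul, WittAux.bil_cx,
        hpw, hqw]
      simp)
    have h5 : (∑ σ : K →+* ℂ, ∑ a, ∑ b, (if σ = σ₀ then cx w else 0 : Fin m → ℂ) a * σ (h a b) *
        conj ((if σ = σ₀ then cx w else 0 : Fin m → ℂ) b)) = ((wbil G w w : ℝ) : ℂ) := by
      rw [Finset.sum_eq_single σ₀]
      · simp only [if_pos]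
        rw [← WittAux.bil_cx, ← hbil]
        refine Finset.sum_congr rfl fun a _ => Finset.sum_congr rfl fun b _ => ?_
        simp [cx]
      · intro σ _ hσ1
        refine Finset.sum_eq_zero fun a _ => Finset.sum_eq_zero fun b _ => ?_
        rw [if_neg hσ1]
        simp
      · intro h6
        exact absurd (Finset.mem_univ _) h6
    rw [h5, Complex.ofReal_re] at h3
    exact h3
  rcases lt_trichotomy s 0 with hs | hs | hs
  · left
    refine sig2_of_pair hG (p := p) (q := q) ?_ h2 h1 ?_
    · nlinarith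
    · intro w hw hpw hqw
      have := horth w hw hpw hqw
      by_contra hc
      nlinarith
  · rw [hs, zero_mul] at hs1
    exact absurd hs1 (lt_irrefl _)
  · right
    have hneg : ∀ u v, wbil (-G) u v = -wbil G u v := by
      intro u v
      rw [wbil_apply, wbil_apply, Matrix.neg_mulVec, dotProduct_neg]
    have hG' : (-G)ᵀ = -G := by rw [Matrix.transpose_neg, hG]
    refine sig2_of_pair hG' (p := p) (q := q) ?_ ?_ ?_ ?_
    · rw [hneg]
      nlinarith
    · rw [hneg, h2, neg_zero]
    · rw [hneg, hneg, h1]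
    · intro w hw hpw hqw
      rw [hneg, neg_eq_zero] at hpw hqw
      have := horth w hw hpw hqw
      rw [hneg]
      by_contra hc
      nlinarith

end Pool.Agent.KSE
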