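import Pool.Agent.KSE.FinalE
import Pool.Agent.KSE.SigR
import Pool.Agent.KS.AV

/-!
Grothendieck classes on the powers of a Kuga-Satake variety with real or complex multiplication are
Hodge classes.
-/

namespace Pool.Agent.KSE

open Module Matrix NumberField Pool.Agent.Helper7 Pool.Agent.KS Pool.Agent.Ball
  Pool.Agent.Helper28.GPC
open Pool.Agent.GPC (AbVar IsHodge IsGrothendieck Form OddSparse)

section av

variable (A : AbVar) {K : Type} [Field K] [NumberField K] {c : K →+* K} {m : ℕ}
  (S : A.KugaSatakeMul K c m)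

/-- the operators of the structure, as linear maps -/
noncomputable def le (σ : K →+* ℂ) (a : Fin m) : Module.End ℂ A.H1 := (S.linear σ a).mk' (S.e σ a)

/-- the operators of the vectors of `T` -/
noncomputable def lt (a : Fin m) (x : K) : Module.End ℂ A.H1 := ∑ σ : K →+* ℂ, σ x • le A S σ a

lemma lt_apply (a : Fin m) (x : K) (v : A.H1) :
    lt A S a x v = ∑ σ : K →+* ℂ, σ x • S.e σ a v := by
  rw [lt, LinearMap.sum_apply]
  rfl

lemma ts_lt (σ : K →+* ℂ) (a : Fin m) : ts (lt A S) σ a = le A S σ a := by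
  classical
  have h1 : ts (lt A S) σ a = ∑ τ : K →+* ℂ, (if σ = τ then 1 else 0 : ℂ) • le A S τ a := by
    have e1 : ∀ b, σ (dbas K b) • lt A S a (bas K b) =
        ∑ τ : K →+* ℂ, (σ (dbas K b) * τ (bas K b)) • le A S τ a := by
      intro b
      rw [lt, Finset.smul_sum]
      refine Finset.sum_congr rfl fun τ _ => ?_
      rw [smul_smul]
    rw [ts, Finset.sum_congr rfl fun b _ => e1 b, Finset.sum_comm]
    refine Finset.sum_congr rfl fun τ _ => ?_
    rw [← Finset.sum_smul, sum_dbas_bas]
  rw [h1, Finset.sum_eq_single σ]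
  · rw [if_pos rfl, one_smul]
  · intro τ _ hτ
    rw [if_neg (fun h => hτ h.symm), zero_smul]
  · intro h; exact absurd (Finset.mem_univ _) h

lemma mde (hnd : S.h.det ≠ 0) : MD (pData A) c S.h (lt A S) where
  conj := S.conjugation
  herm := S.hermitian
  nd := hnd
  add a x y := by
    rw [lt, lt, lt, ← Finset.sum_add_distrib]
    refine Finset.sum_congr rfl fun σ _ => ?_
    rw [map_add, add_smul]
  rat a x v hv := by
    rw [lt_apply]
    exact (mem_pData_Q A _).mpr (S.betti a x v ((mem_pData_Q A v).mp hv))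
  alg σ := by
    obtain ⟨g, hg, h1⟩ := S.deRham σ
    refine ⟨g, hg, fun b i j => ?_⟩
    have h2 := h1 b (Pi.single i 1) (single_deRham A i) j
    simp only [ts_lt]
    rw [LinearMap.sum_apply]
    exact h2
  cliff a b x y := by
    have h1 : ∀ σ τ : K →+* ℂ, le A S σ a * le A S τ b + le A S τ b * le A S σ a =
        open Classical in (if τ = cj σ then 2 * σ (S.h a b) else 0 : ℂ) • 1 := by
      intro σ τ
      classical
      by_cases h2 : τ = cj σ
      · rw [if_pos h2, h2]
        apply LinearMap.ext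
        intro v
        exact S.clifford σ a b v
      · rw [if_neg h2, zero_smul]
        apply LinearMap.ext
        intro v
        exact S.orthogonal σ τ h2 a b v
    have h3 : lt A S a x * lt A S b y + lt A S b y * lt A S a x =
        ∑ σ : K →+* ℂ, ∑ τ : K →+* ℂ, (σ x * τ y) •
          (le A S σ a * le A S τ b + le A S τ b * le A S σ a) := by
      rw [lt, lt, Finset.sum_mul_sum, Finset.sum_mul_sum,
        Finset.sum_comm (f := fun i j => (i y • le A S i b) * (j x • le A S j a)),
        ← Finset.sum_add_distrib]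
      refine Finset.sum_congr rfl fun σ _ => ?_
      rw [← Finset.sum_add_distrib]
      refine Finset.sum_congr rfl fun τ _ => ?_
      rw [smul_mul_smul_comm, smul_mul_smul_comm, mul_comm (τ y), smul_add]
    rw [h3]
    have h4 : ∀ σ : K →+* ℂ, ∑ τ : K →+* ℂ, (σ x * τ y) •
        (le A S σ a * le A S τ b + le A S τ b * le A S σ a) =
        (2 * σ (x * c y * S.h a b)) • (1 : Module.End ℂ A.H1) := by
      intro σ
      classical
      rw [Finset.sum_eq_single (cj σ)]
      · rw [h1, if_pos rfl, smul_smul, map_mul, map_mul, S.conjugation]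
        congr 1
        ring
      · intro τ _ hτ
        rw [h1, if_neg hτ, zero_smul, smul_zero]
      · intro h; exact absurd (Finset.mem_univ _) h
    rw [Finset.sum_congr rfl fun σ _ => h4 σ, ← Finset.sum_smul, ← Finset.mul_sum, sum_emb]
  cent f := by
    constructor
    · intro hf
      refine ⟨hf.rat, fun σ a b => ?_⟩
      rw [ts_lt, ts_lt]
      apply LinearMap.ext
      intro v
      exact ((S.endo f).mp (isEnd_of_isDRB A f hf)).2.2 σ a b v
    · rintro ⟨h1, h2⟩
      apply isDRB_of_isEnd A f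
      rw [S.endo]
      refine ⟨f.isLinear, fun v hv => (mem_pData_Q A _).mp (h1 v ((mem_pData_Q A v).mpr hv)),
        fun σ a b v => ?_⟩
      have h3 := h2 σ a b
      rw [ts_lt, ts_lt] at h3
      exact LinearMap.congr_fun h3 v

/-- the Hodge projector in terms of the structure -/
lemma hod_eq (hnd : S.h.det ≠ 0) (σ₀ : K →+* ℂ) (x : Fin m → ℂ)
    (hx : pr S.h σ₀ x (star x) ≠ 0) (h1 : ∀ v, A.IsFil (∑ a, x a • S.e σ₀ a v))
    (h2 : ∀ v, A.IsFil v → ∑ a, x a • S.e σ₀ a v = 0) :
    hod A = (1 / 2 : ℂ) • (1 : Module.End ℂ A.H1) - (1 / (4 * pr S.h σ₀ x (star x)) : ℂ) •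
      (tau (ts (lt A S) σ₀) x * tau (ts (lt A S) (cj σ₀)) (star x) -
        tau (ts (lt A S) (cj σ₀)) (star x) * tau (ts (lt A S) σ₀) x) := by
  have M := mde A S hnd
  set q := pr S.h σ₀ x (star x) with hqd
  set e := tau (ts (lt A S) σ₀) x with he
  set e' := tau (ts (lt A S) (cj σ₀)) (star x) with he'
  have hev : ∀ v, e v = ∑ a, x a • S.e σ₀ a v := by
    intro v
    rw [he, tau_apply, LinearMap.sum_apply]
    refine Finset.sum_congr rfl fun a _ => ?_
    rw [LinearMap.smul_apply, ts_lt]
    rfl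
  have e1 : ∀ v, A.IsFil (e v) := fun v => by rw [hev]; exact h1 v
  have e2 : ∀ v, A.IsFil v → e v = 0 := fun v hv => by rw [hev]; exact h2 v hv
  have e3 : ∀ v, e' (cB (pData A) v) = cB (pData A) (e v) := by
    intro v
    rw [he, he', cB_tauE M]
  have e4 : ∀ v, A.IsFil v → e' (cB (pData A) v) = 0 := by
    intro v hv
    rw [e3, e2 v hv, cB_zero]
  have hcl : ∀ v, e (e' v) + e' (e v) = (2 * q) • v := by
    intro v
    have h3 := LinearMap.congr_fun (tau_pair M.conj M.cliff σ₀ x (star x)) v
    exact h3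
  apply LinearMap.ext
  intro v
  obtain ⟨u, u', hu, hu', rfl⟩ := exists_hodge A v
  rw [hod_add_cB A hu hu']
  show cB (pData A) u' = (1 / 2 : ℂ) • (u + cB (pData A) u') - (1 / (4 * q) : ℂ) •
    (e (e' (u + cB (pData A) u')) - e' (e (u + cB (pData A) u')))
  have h5 : e (e' u) = (2 * q) • u := by
    have h6 := hcl u
    rw [e2 u hu, map_zero, add_zero] at h6
    exact h6
  have h7 : e' (e (cB (pData A) u')) = (2 * q) • cB (pData A) u' := by
    have h6 := hcl (cB (pData A) u')
    rw [e4 u' hu', map_zero, zero_add] at h6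
    exact h6
  rw [map_add e', e4 u' hu', add_zero, h5, map_add e, e2 u hu, zero_add, h7, smul_sub, smul_smul,
    smul_smul]
  have h8 : 1 / (4 * q) * (2 * q) = 1 / 2 := by
    field_simp
    norm_num
  rw [h8]
  module

/-- commutators of vectors in dual eigenspaces are in `bvS` -/
lemma tau_mem_bvS {V : Type} [AddCommGroup V] [Module ℂ V] (t : Fin m → K → Module.End ℂ V)
    (σ : K →+* ℂ) (x y : Fin m → ℂ) :
    tau (ts t σ) x * tau (ts t (cj σ)) y - tau (ts t (cj σ)) y * tau (ts t σ) x ∈ bvS t := by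
  have e2 : tau (ts t σ) x * tau (ts t (cj σ)) y - tau (ts t (cj σ)) y * tau (ts t σ) x =
      ∑ a, ∑ b, (x a * y b) • (ts t σ a * ts t (cj σ) b - ts t (cj σ) b * ts t σ a) := by
    rw [tau_apply, tau_apply, Finset.sum_mul_sum, Finset.sum_mul_sum,
      Finset.sum_comm (f := fun i j => y i • ts t (cj σ) i * x j • ts t σ j),
      ← Finset.sum_sub_distrib]
    refine Finset.sum_congr rfl fun a _ => ?_
    rw [← Finset.sum_sub_distrib]
    refine Finset.sum_congr rfl fun b _ => ?_
    rw [smul_mul_smul_comm, smul_mul_smul_comm, mul_comm (y b), smul_sub]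
  rw [e2]
  exact Submodule.sum_mem _ fun a _ => Submodule.sum_mem _ fun b _ =>
    Submodule.smul_mem _ _ (Submodule.subset_span ⟨σ, a, b, rfl⟩)

include S in
theorem main_kse
    (hK : (c = RingHom.id K ∧ (m = 3 ∨ 6 ≤ m ∨ m = 4 ∧ finrank ℚ K = 1)) ∨
      (c ≠ RingHom.id K ∧ (m = 1 ∨ 0 < m ∧ Even m) ∧ OddSparse K))
    (n : Unit → ℕ) (k : ℕ) (α : Form (fun _ : Unit => A) n (2 * k))
    (hα : IsGrothendieck (fun _ : Unit => A) n k α) : IsHodge (fun _ : Unit => A) n k α := by
  classical
  obtain ⟨hα1, hα2⟩ := hα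
  refine ⟨hα2, fun v J hJ hv => ?_⟩
  obtain ⟨α', hα'⟩ : ∃ α' : MultilinearMap ℂ (fun _ : Fin (2 * k) =>
    HW (fun _ : Unit => Fin A.g ⊕ Fin A.g) n) ℂ, α' = (α : MultilinearMap ℂ
      (fun _ : Fin (2 * k) => HW (fun _ : Unit => Fin A.g ⊕ Fin A.g) n) ℂ) := ⟨_, rfl⟩
  -- the trivial case
  rcases isEmpty_or_nonempty (Fin A.g ⊕ Fin A.g) with hκ | hκ
  · have hJ0 : J.Nonempty := by
      rw [← Finset.card_pos]
      omega
    obtain ⟨r, -⟩ := hJ0
    have h0 : ∀ w : HW (fun _ : Unit => Fin A.g ⊕ Fin A.g) n, w = 0 := by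
      intro w
      funext i a j
      exact hκ.elim j
    have h1 : α' v = 0 := by
      have h2 : v = Function.update v r 0 := by
        rw [← h0 (v r), Function.update_eq_self]
      rw [h2]
      exact α'.map_update_zero _ _
    rw [hα'] at h1
    exact h1
  have hB : ∀ v : Fin (2 * k) → HW (fun _ : Unit => Fin A.g ⊕ Fin A.g) n,
      (∀ r, IsRatP n (fun _ : Unit => pData A) (v r)) →
      ∃ q : ℚ, α' v = (2 * Real.pi * Complex.I) ^ k * q := by
    intro v hv
    rw [hα']
    apply hα2
    intro r i m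
    exact (mem_pData_Q _ _).mp (hv r i m)
  have hA : ∀ v : Fin (2 * k) → HW (fun _ : Unit => Fin A.g ⊕ Fin A.g) n,
      (∀ r i m j, IsAlgebraic ℚ (v r i m j)) → IsAlgebraic ℚ (α' v) := by
    rw [hα']
    exact hα1
  have hϖ := Complex.two_pi_I_ne_zero
  obtain ⟨σ₀, x, hx, hx1, hx2⟩ := S.hodge
  have hnd := k3_nd S.conjugation S.hermitian hx
  have M := mde A S hnd
  have hx0 := k3_ne hx
  have hdef := fun σ => k3_def S.conjugation S.hermitian hx σ
  have hkill : ∀ Z ∈ bvS (lt A S), actForm (lift n (fun _ : Unit => Z)) α' = 0 := by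
    intro Z hZ
    rcases hK with ⟨hc, hm⟩ | ⟨hc, hm, hodd⟩
    · have hreal : ∀ σ : K →+* ℂ, cj σ = σ := by
        intro σ
        ext y
        rw [S.conjugation, hc]
        rfl
      have hxx : pr S.h σ₀ x x = 0 := by
        have h1 := tau_pair M.conj M.cliff σ₀ x x
        rw [hreal σ₀] at h1
        have h3 : tau (ts (lt A S) σ₀) x * tau (ts (lt A S) σ₀) x = 0 := by
          apply LinearMap.ext
          intro v
          have hev : ∀ v, tau (ts (lt A S) σ₀) x v = ∑ a, x a • S.e σ₀ a v := by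
            intro v
            rw [tau_apply, LinearMap.sum_apply]
            refine Finset.sum_congr rfl fun a _ => ?_
            rw [LinearMap.smul_apply, ts_lt]
            rfl
          show tau (ts (lt A S) σ₀) x (tau (ts (lt A S) σ₀) x v) = 0
          rw [hev (tau (ts (lt A S) σ₀) x v)]
          apply hx2
          rw [hev]
          exact hx1 v
        rw [h3, add_zero] at h1
        rcases smul_eq_zero.mp h1.symm with h4 | h4
        · simpa using h4
        · exact absurd h4 one_ne_zero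
      refine killR hϖ (pData A) (hnd_pData A) M α' hB hA hreal σ₀ ?_
        (k3_sig2 S.conjugation S.hermitian hx (hreal σ₀) hxx) (fun σ hσ => ?_) Z hZ
      · rcases hm with h1 | h1 | ⟨h1, h2⟩
        · exact Or.inl h1
        · exact Or.inr (Or.inl h1)
        · refine Or.inr (Or.inr ⟨h1, fun σ => ?_⟩)
          have h3 : Fintype.card (K →+* ℂ) = 1 := by
            rw [NumberField.Embeddings.card, h2]
          exact (Fintype.card_le_one_iff.mp h3.le) σ σ₀
      · exact hdef σ hσ (by rw [hreal σ₀]; exact hσ)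
    · have hcm : ∀ σ : K →+* ℂ, cj σ ≠ σ := by
        intro σ h1
        apply hc
        ext y
        have h2 := S.conjugation σ y
        have h3 : σ y = σ (c y) := by
          rw [← h2]
          exact (RingHom.congr_fun h1 y).symm
        exact (σ.injective h3).symm
      exact killC hϖ (pData A) (hnd_pData A) M α' hB hA hcm hm hodd σ₀
        (k3_lor S.conjugation S.hermitian hx (hcm σ₀)) hdef Z hZ
  have hhod := hod_eq A S hnd σ₀ x hx0 hx1 hx2
  -- the Hodge projector
  have hact : actForm (lift n (fun _ : Unit => hod A)) α' = (k : ℂ) • α' := by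
    obtain ⟨Z, hZd⟩ : ∃ Z : Module.End ℂ A.H1, Z = tau (ts (lt A S) σ₀) x *
      tau (ts (lt A S) (cj σ₀)) (star x) -
        tau (ts (lt A S) (cj σ₀)) (star x) * tau (ts (lt A S) σ₀) x := ⟨_, rfl⟩
    have hZ : Z ∈ bvS (lt A S) := by
      rw [hZd]
      exact tau_mem_bvS _ _ _ _
    rw [← hZd] at hhod
    have e1 : (fun _ : Unit => hod A) = ((fun _ : Unit => (1 / 2 : ℂ) • (1 : Module.End ℂ A.H1)) +
        (-(1 / (4 * pr S.h σ₀ x (star x))) : ℂ) • (fun _ : Unit => Z) :
          (i : Unit) → Module.End ℂ (Fin A.g ⊕ Fin A.g → ℂ)) := by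
      funext u
      show hod A = (1 / 2 : ℂ) • (1 : Module.End ℂ A.H1) +
        (-(1 / (4 * pr S.h σ₀ x (star x))) : ℂ) • Z
      rw [hhod]
      module
    rw [e1, lift_add, actForm_add, lift_smul, actForm_smul, hkill Z hZ, smul_zero, add_zero]
    have h3 := (Helper98.Ball.isInv_homothety n (fun _ : Unit => pData A) α').form
    rw [mul_one] at h3
    exact h3
  have h4 := Helper8.zero_of_type α' (lift n (fun _ : Unit => hod A)) (fun w => ?_) hact v J hJ
    (fun r hr => ?_)
  · rw [hα'] at h4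
    exact h4
  · funext i m
    rw [lift_apply, lift_apply]
    exact hod_idem A _
  · funext i m
    rw [lift_apply]
    exact (hod_fil A).mp (hv r hr i m)

end av

end Pool.Agent.KSE
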