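import Pool.Agent.KSE.Ts
import Pool.Agent.KS.Beta

/-!
Module BetaE. The analogue of `KS.exists_beta` (`Pool/Agent/KS/Beta.lean`) for `MD`.

With `g σ = (h.map σ)⁻¹` put `β_σ(v) = ∑ a d, g σ d a * ψ (ts t σ a (v 0)) (v 1) * ψ (ts t (cj σ) d (v 2)) (v 3)`
and `β d = ∑ σ, σ (bas K d) • β_σ`. Rational: `∑ σ, σ (x g_da) ts σ a ⊗ ts (cj σ) d` is
`∑ b e, Tr(x g_da (dbas b) c(dbas e)) t a (bas b) ⊗ t d (bas e)` (`sum_emb`). Algebraic: express
`ts t σ` by the algebraic operators of `S.alg σ`; the coefficient matrix is the inverse of the matrix of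
their Clifford pairings, which is algebraic. From `actForm X (β d) = (2 r) • β d` for all `d` one gets
the same for every `β_σ` (`sum_dbas_bas`), hence `∑ a, [X, ts σ a] ⊗ e_a^∨ + ts σ a ⊗ [X, e_a^∨] = 0`
with `e_a^∨ = ∑ d, g σ d a • ts (cj σ) d` linearly independent, so `[X, ts σ b]` is in the span of the
`ts σ a`. The same for `g` (as in Beta.lean).
-/

open scoped ComplexConjugate

namespace Pool.Agent.KSE

open Module Matrix NumberField Pool.Agent.Helper7 Pool.Agent.KS Pool.Agent.Ball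
  Pool.Agent.Helper28.GPC

section general

variable {V : Type} [AddCommGroup V] [Module ℂ V] {n : ℕ}

/-- the form of degree four of two families of operators -/
noncomputable def betaF (ψ : V →ₗ[ℂ] V →ₗ[ℂ] ℂ) (H : Matrix (Fin n) (Fin n) ℂ)
    (t s : Fin n → Module.End ℂ V) : MultilinearMap ℂ (fun _ : Fin 4 => V) ℂ :=
  ∑ a, ∑ b, H a b • betaQuad (ψ.comp (t a)) (ψ.comp (s b))

lemma betaF_apply (ψ : V →ₗ[ℂ] V →ₗ[ℂ] ℂ) (H : Matrix (Fin n) (Fin n) ℂ)
    (t s : Fin n → Module.End ℂ V) (v : Fin 4 → V) :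
    betaF ψ H t s v = ∑ a, ∑ b, H a b * (ψ (t a (v 0)) (v 1) * ψ (s b (v 2)) (v 3)) := by
  rw [betaF, _root_.sum_apply]
  refine Finset.sum_congr rfl fun a _ => ?_
  rw [_root_.sum_apply]
  refine Finset.sum_congr rfl fun b _ => ?_
  rw [_root_.smul_apply, smul_eq_mul, betaQuad_apply]
  rfl

/-- infinitesimal symmetries -/
lemma betaF_inf {ψ : V →ₗ[ℂ] V →ₗ[ℂ] ℂ} (hnd : ∀ u, (∀ v, ψ u v = 0) → u = 0)
    {H : Matrix (Fin n) (Fin n) ℂ} (hH : H.det ≠ 0) {t s : Fin n → Module.End ℂ V}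
    (hs : ∀ x : Fin n → ℂ, ∑ b, x b • s b = 0 → x = 0) {X : Module.End ℂ V} {c : ℂ}
    (hX : ∀ u v, ψ (X u) v + ψ u (X v) = c * ψ u v)
    (hβ : ∀ v, actForm X (betaF ψ H t s) v = (2 * c) * betaF ψ H t s v) (a : Fin n) :
    X * t a - t a * X ∈ LinearMap.range (tau t) := by
  have htS : ∀ a, t a ∈ LinearMap.range (tau t) := fun a => ⟨Pi.single a 1, tau_single a⟩
  revert a
  refine beta_span hnd hH (fun a => X * t a - t a * X) s hs _ ?_
  intro v2 v3
  have hop : ∑ a, ∑ b, (H a b * ψ (s b v2) v3) • (X * t a - t a * X) +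
      ∑ a, ∑ b, (H a b * ψ ((X * s b - s b * X) v2) v3) • t a = 0 := by
    apply beta_op_zero hnd
    intro v0 v1
    have h1 := hβ ![v0, v1, v2, v3]
    simp only [actForm_apply, Fin.sum_univ_four, betaF_apply] at h1
    simp only [Function.update_self, Function.update_of_ne, ne_eq, Fin.reduceEq,
      not_false_eq_true, Matrix.cons_val_zero, Matrix.cons_val_one, Matrix.cons_val] at h1
    have hX' : ∀ w y, ψ (X w) y = c * ψ w y - ψ w (X y) := fun w y => by
      rw [← hX w y]; ring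
    rw [LinearMap.add_apply, map_add, LinearMap.add_apply]
    simp only [LinearMap.sum_apply, map_sum, LinearMap.smul_apply, map_smul, smul_eq_mul,
      LinearMap.sub_apply, Module.End.mul_apply, map_sub, hX']
    rw [Finset.mul_sum] at h1
    simp only [Finset.mul_sum] at h1
    simp only [← Finset.sum_add_distrib] at h1 ⊢
    have h3 : ∀ x y : ℂ, x = y → y - x = 0 := fun x y h => by rw [h, sub_self]
    have h4 := h3 _ _ h1
    simp only [← Finset.sum_sub_distrib] at h4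
    rw [← h4]
    refine Finset.sum_congr rfl fun a _ => Finset.sum_congr rfl fun b _ => ?_
    ring
  have h2 : ∑ a, ∑ b, (H a b * ψ ((X * s b - s b * X) v2) v3) • t a ∈
      LinearMap.range (tau t) :=
    Submodule.sum_mem _ fun a _ => Submodule.sum_mem _ fun b _ =>
      Submodule.smul_mem _ _ (htS a)
  have h3 := eq_neg_of_add_eq_zero_left hop
  rw [h3]
  exact Submodule.neg_mem _ h2

/-- symmetries -/
lemma betaF_sym {ψ : V →ₗ[ℂ] V →ₗ[ℂ] ℂ} (hnd : ∀ u, (∀ v, ψ u v = 0) → u = 0)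
    {H : Matrix (Fin n) (Fin n) ℂ} (hH : H.det ≠ 0) {t s : Fin n → Module.End ℂ V}
    (hs : ∀ x : Fin n → ℂ, ∑ b, x b • s b = 0 → x = 0) {g g' : Module.End ℂ V}
    (hg : ∀ u v, ψ (g u) (g v) = ψ u v) (hgg' : ∀ x, g (g' x) = x) 
    (hβ : ∀ v : Fin 4 → V, betaF ψ H t s (fun r => g (v r)) = betaF ψ H t s v) (a : Fin n) :
    g' * t a * g ∈ LinearMap.range (tau t) := by
  have htS : ∀ a, t a ∈ LinearMap.range (tau t) := fun a => ⟨Pi.single a 1, tau_single a⟩
  have hψg : ∀ w y, ψ w (g y) = ψ (g' w) y := fun w y => by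
    rw [← hg (g' w) y, hgg']
  revert a
  refine beta_span hnd hH (fun a => g' * t a * g) (fun a => g' * s a * g) ?_ _ ?_
  · intro x hx
    apply hs
    apply LinearMap.ext
    intro v
    have h1 := congrArg g (LinearMap.congr_fun hx (g' v))
    simp only [LinearMap.sum_apply, LinearMap.smul_apply, Module.End.mul_apply, hgg', map_sum,
      map_smul, LinearMap.zero_apply, map_zero] at h1
    rw [LinearMap.sum_apply, LinearMap.zero_apply, ← h1]
    rfl
  · intro v2 v3
    have hop : ∑ a, ∑ b, (H a b * ψ ((g' * s b * g) v2) v3) • (g' * t a * g) -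
        ∑ a, ∑ b, (H a b * ψ (s b v2) v3) • t a = 0 := by
      apply beta_op_zero hnd
      intro v0 v1
      have h1 := hβ ![v0, v1, v2, v3]
      simp only [betaF_apply, Matrix.cons_val_zero, Matrix.cons_val_one, Matrix.cons_val,
        hψg] at h1
      rw [LinearMap.sub_apply, map_sub, LinearMap.sub_apply]
      simp only [LinearMap.sum_apply, map_sum, LinearMap.smul_apply, map_smul, smul_eq_mul,
        Module.End.mul_apply]
      rw [sub_eq_zero]
      calc _ = ∑ a, ∑ b, H a b * (ψ (g' (t a (g v0))) v1 * ψ (g' (s b (g v2))) v3) :=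
            Finset.sum_congr rfl fun a _ => Finset.sum_congr rfl fun b _ => by ring
        _ = _ := h1
        _ = _ := Finset.sum_congr rfl fun a _ => Finset.sum_congr rfl fun b _ => by ring
    rw [sub_eq_zero] at hop
    rw [hop]
    exact Submodule.sum_mem _ fun a _ => Submodule.sum_mem _ fun b _ =>
      Submodule.smul_mem _ _ (htS a)

/-- from spans to matrices -/
lemma betaF_mat {t : Fin n → Module.End ℂ V} (T : Fin n → Module.End ℂ V)
    (hT : ∀ a, T a ∈ LinearMap.range (tau t)) :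
    ∃ M : Matrix (Fin n) (Fin n) ℂ, ∀ x, tau t (M *ᵥ x) = tau T x := by
  choose m hm using hT
  refine ⟨LinearMap.toMatrix' (Fintype.linearCombination ℂ m), fun x => ?_⟩
  rw [LinearMap.toMatrix'_mulVec, Fintype.linearCombination_apply, map_sum, tau_apply]
  refine Finset.sum_congr rfl fun a _ => ?_
  rw [map_smul, hm]

end general

lemma betaF_reorder {n : ℕ} (c c' D : Matrix (Fin n) (Fin n) ℂ) (A B : Fin n → ℂ) :
    ∑ a, ∑ b, (∑ e, ∑ e', c a e * D e e' * c' b e') * (A a * B b) =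
      ∑ e, ∑ e', D e e' * ((∑ a, c a e * A a) * (∑ b, c' b e' * B b)) := by
  have h1 : ∀ a b, (∑ e, ∑ e', c a e * D e e' * c' b e') * (A a * B b) =
      ∑ e, ∑ e', (D e e' * (c a e * A a * (c' b e' * B b))) := by
    intro a b
    rw [Finset.sum_mul]
    refine Finset.sum_congr rfl fun e _ => ?_
    rw [Finset.sum_mul]
    refine Finset.sum_congr rfl fun e' _ => ?_
    ring
  have h2 : ∀ e e', D e e' * ((∑ a, c a e * A a) * (∑ b, c' b e' * B b)) =
      ∑ a, ∑ b, (D e e' * (c a e * A a * (c' b e' * B b))) := by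
    intro e e'
    rw [Finset.sum_mul_sum, Finset.mul_sum]
    refine Finset.sum_congr rfl fun a _ => ?_
    rw [Finset.mul_sum]
  simp only [h1, h2]
  calc ∑ a, ∑ b, ∑ e, ∑ e', (D e e' * (c a e * A a * (c' b e' * B b)))
      = ∑ a, ∑ e, ∑ b, ∑ e', (D e e' * (c a e * A a * (c' b e' * B b))) :=
        Finset.sum_congr rfl fun a _ => Finset.sum_comm
    _ = ∑ e, ∑ a, ∑ b, ∑ e', (D e e' * (c a e * A a * (c' b e' * B b))) := Finset.sum_comm
    _ = ∑ e, ∑ a, ∑ e', ∑ b, (D e e' * (c a e * A a * (c' b e' * B b))) :=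
        Finset.sum_congr rfl fun e _ => Finset.sum_congr rfl fun a _ => Finset.sum_comm
    _ = ∑ e, ∑ e', ∑ a, ∑ b, (D e e' * (c a e * A a * (c' b e' * B b))) :=
        Finset.sum_congr rfl fun e _ => Finset.sum_comm

theorem exists_betaE {κ : Type} [Fintype κ] [DecidableEq κ] [Nonempty κ] {ϖ : ℂ}
    (P : PData κ ϖ) {K : Type} [Field K] [NumberField K] {c : K →+* K} {m : ℕ}
    {h : Matrix (Fin m) (Fin m) K} {t : Fin m → K → Module.End ℂ (κ → ℂ)} (S : MD P c h t) :
    ∃ β : Fin (finrank ℚ K) → MultilinearMap ℂ (fun _ : Fin 4 => (κ → ℂ)) ℂ,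
      (∀ d, ∀ v : Fin 4 → κ → ℂ, (∀ r, v r ∈ P.Q) → ∃ q : ℚ, β d v = ϖ ^ 2 * q) ∧
      (∀ d, ∀ v : Fin 4 → κ → ℂ, (∀ r j, IsAlgebraic ℚ (v r j)) → IsAlgebraic ℚ (β d v)) ∧
      (∀ (X : Module.End ℂ (κ → ℂ)) (r : ℂ), (∀ u v, P.ψ (X u) v + P.ψ u (X v) = r * P.ψ u v) →
        (∀ d, actForm X (β d) = (2 * r) • β d) → ∃ M, ActM t X M) ∧
      ∀ g : Module.End ℂ (κ → ℂ), (∀ u v, P.ψ (g u) (g v) = P.ψ u v) →
        (∀ d, ∀ v : Fin 4 → κ → ℂ, β d (fun r => g (v r)) = β d v) →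
          ∃ A : (K →+* ℂ) → Matrix (Fin m) (Fin m) ℂ, ∀ σ x,
            g * tau (ts t σ) x = tau (ts t σ) (A σ *ᵥ x) * g := by
  classical
  set Q : (K →+* ℂ) → Matrix (Fin m) (Fin m) ℂ := fun σ => (h⁻¹)ᵀ.map σ with hQ
  have hQdet : ∀ σ, (Q σ).det ≠ 0 := by
    intro σ
    have e : (Q σ).det = σ ((h⁻¹)ᵀ).det := (RingHom.map_det σ (h⁻¹)ᵀ).symm
    rw [e, Matrix.det_transpose, Matrix.det_nonsing_inv]
    exact (map_ne_zero σ).mpr (by rw [Ring.inverse_eq_inv']; exact inv_ne_zero S.nd)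
  have hinj : ∀ σ, Function.Injective (tau (ts t σ)) := fun σ =>
    tau_injE S.conj S.cliff S.nd σ
  have hZ : ∀ σ, ∀ x : Fin m → ℂ, ∑ b, x b • ts t σ b = 0 → x = 0 := by
    intro σ x hx
    apply hinj σ
    rw [tau_apply, hx, map_zero]
  set bS : (K →+* ℂ) → MultilinearMap ℂ (fun _ : Fin 4 => (κ → ℂ)) ℂ :=
    fun σ => betaF P.ψ (Q σ) (ts t σ) (ts t (cj σ)) with hbS
  set β : Fin (finrank ℚ K) → MultilinearMap ℂ (fun _ : Fin 4 => (κ → ℂ)) ℂ :=
    fun d => ∑ σ : K →+* ℂ, σ (bas K d) • bS σ with hβ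
  have hβv : ∀ d v, β d v = ∑ σ : K →+* ℂ, σ (bas K d) * bS σ v := by
    intro d v
    rw [hβ]
    simp only [_root_.sum_apply, _root_.smul_apply, smul_eq_mul]
  have hrec : ∀ τ v, bS τ v = ∑ d, τ (dbas K d) * β d v := by
    intro τ v
    simp only [hβv, Finset.mul_sum]
    rw [Finset.sum_comm]
    have h1 : ∀ σ : K →+* ℂ, ∑ d, τ (dbas K d) * (σ (bas K d) * bS σ v) =
        (if τ = σ then 1 else 0) * bS σ v := by
      intro σ
      rw [← sum_dbas_bas, Finset.sum_mul]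
      exact Finset.sum_congr rfl fun d _ => by ring
    simp only [h1, ite_mul, one_mul, zero_mul, Finset.sum_ite_eq, Finset.mem_univ, if_true]
  refine ⟨β, ?_, ?_, ?_, ?_⟩
  · -- rationality
    intro d v hv
    have h1 : ∀ a e, ∃ q : ℚ, P.ψ (t a (bas K e) (v 0)) (v 1) = ϖ * q := fun a e =>
      P.hψQ _ (S.rat a _ _ (hv 0)) _ (hv 1)
    have h2 : ∀ b f, ∃ q : ℚ, P.ψ (t b (bas K f) (v 2)) (v 3) = ϖ * q := fun b f =>
      P.hψQ _ (S.rat b _ _ (hv 2)) _ (hv 3)
    choose q1 hq1 using h1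
    choose q2 hq2 using h2
    refine ⟨∑ a, ∑ b, ∑ e, ∑ f, Algebra.trace ℚ K (bas K d * (h⁻¹)ᵀ a b * dbas K e * c (dbas K f)) *
      (q1 a e * q2 b f), ?_⟩
    have h3 : ∀ σ : K →+* ℂ, σ (bas K d) * bS σ v = ∑ a, ∑ b, ∑ e, ∑ f,
        σ (bas K d * (h⁻¹)ᵀ a b * dbas K e * c (dbas K f)) * (ϖ ^ 2 * (q1 a e * q2 b f)) := by
      intro σ
      rw [hbS, betaF_apply, Finset.mul_sum]
      refine Finset.sum_congr rfl fun a _ => ?_
      rw [Finset.mul_sum]
      refine Finset.sum_congr rfl fun b _ => ?_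
      simp only [ts, LinearMap.sum_apply, map_sum, LinearMap.smul_apply, map_smul, smul_eq_mul,
        hq1, hq2]
      rw [Finset.sum_mul_sum, Finset.mul_sum, Finset.mul_sum]
      refine Finset.sum_congr rfl fun e _ => ?_
      rw [Finset.mul_sum, Finset.mul_sum]
      refine Finset.sum_congr rfl fun f _ => ?_
      have e1 : Q σ a b = σ ((h⁻¹)ᵀ a b) := rfl
      rw [map_mul, map_mul, map_mul, ← S.conj, e1]
      ring
    rw [hβv, Finset.sum_congr rfl fun σ _ => h3 σ, Finset.sum_comm]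
    push_cast
    rw [Finset.mul_sum]
    refine Finset.sum_congr rfl fun a _ => ?_
    rw [Finset.sum_comm, Finset.mul_sum]
    refine Finset.sum_congr rfl fun b _ => ?_
    rw [Finset.sum_comm, Finset.mul_sum]
    refine Finset.sum_congr rfl fun e _ => ?_
    rw [Finset.sum_comm, Finset.mul_sum]
    refine Finset.sum_congr rfl fun f _ => ?_
    rw [← Finset.sum_mul, sum_emb]
    ring
  · -- algebraicity
    intro d v hv
    rw [hβv]
    refine isAlg_sum _ _ fun σ _ => ?_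
    have hσ : IsAlgebraic ℚ (σ (bas K d)) :=
      IsAlgebraic.algHom σ.toRatAlgHom (Algebra.IsAlgebraic.isAlgebraic (R := ℚ) (bas K d))
    refine hσ.mul ?_
    obtain ⟨c1, hc1, ha1⟩ := S.alg σ
    obtain ⟨c2, hc2, ha2⟩ := S.alg (cj σ)
    set f1 : Fin m → Module.End ℂ (κ → ℂ) := fun b => ∑ a, c1 a b • ts t σ a with hf1
    set f2 : Fin m → Module.End ℂ (κ → ℂ) := fun b => ∑ a, c2 a b • ts t (cj σ) a with hf2
    set Hs : Matrix (Fin m) (Fin m) ℂ := h.map σ with hHs
    set C : Matrix (Fin m) (Fin m) ℂ := c1ᵀ * Hs * c2 with hCdef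
    have hHsdet : Hs.det ≠ 0 := by
      have e : Hs.det = σ h.det := (RingHom.map_det σ h).symm
      rw [e]
      exact (map_ne_zero σ).mpr S.nd
    have hd1 : c1.det ≠ 0 := isUnit_iff_ne_zero.1 ((Matrix.isUnit_iff_isUnit_det c1).1 hc1)
    have hd2 : c2.det ≠ 0 := isUnit_iff_ne_zero.1 ((Matrix.isUnit_iff_isUnit_det c2).1 hc2)
    have hCdet : C.det ≠ 0 := by
      rw [hCdef, Matrix.det_mul, Matrix.det_mul, Matrix.det_transpose]
      exact mul_ne_zero (mul_ne_zero hd1 hHsdet) hd2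
    have hff : ∀ b b', f1 b * f2 b' + f2 b' * f1 b = (2 * C b b') • 1 := by
      intro b b'
      have hfb : f1 b = tau (ts t σ) (fun a => c1 a b) := by rw [tau_apply]
      have hfb' : f2 b' = tau (ts t (cj σ)) (fun a => c2 a b') := by rw [tau_apply]
      rw [hfb, hfb', tau_pair S.conj S.cliff]
      have e1 : pr h σ (fun a => c1 a b) (fun a => c2 a b') = C b b' := by
        rw [hCdef, Matrix.mul_assoc, Matrix.mul_apply, pr, dotProduct]
        rfl
      rw [e1]
    obtain ⟨k⟩ := (inferInstance : Nonempty κ)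
    have hsingle : ∀ i j : κ, IsAlgebraic ℚ ((Pi.single i (1 : ℂ) : κ → ℂ) j) := by
      intro i j
      by_cases h : j = i
      · subst h; rw [Pi.single_eq_same]; exact isAlgebraic_one
      · rw [Pi.single_eq_of_ne h]; exact isAlgebraic_zero
    have hCalg : ∀ b b', IsAlgebraic ℚ (C b b') := by
      intro b b'
      have h1 := congrFun (LinearMap.congr_fun (hff b b') (Pi.single k 1)) k
      rw [LinearMap.add_apply, Pi.add_apply, LinearMap.smul_apply, Pi.smul_apply, smul_eq_mul,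
        Module.End.one_apply, Pi.single_eq_same, mul_one, Module.End.mul_apply,
        Module.End.mul_apply] at h1
      have h2 : IsAlgebraic ℚ (2 * C b b') := by
        rw [← h1]
        exact (beta_apply_alg (f1 b) (ha1 b) _ (fun i => beta_apply_alg (f2 b') (ha2 b') _
          (hsingle k) i) k).add (beta_apply_alg (f2 b') (ha2 b') _
            (fun i => beta_apply_alg (f1 b) (ha1 b) _ (hsingle k) i) k)
      have h3 : C b b' = (2 : ℂ)⁻¹ * (2 * C b b') := by ring
      rw [h3]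
      have h4 : IsAlgebraic ℚ (2 : ℂ) := by
        have := isAlgebraic_algebraMap (R := ℚ) (A := ℂ) 2
        simpa using this
      exact h4.inv.mul h2
    have hCu : IsUnit C.det := isUnit_iff_ne_zero.2 hCdet
    have hCinv : ∀ b b', IsAlgebraic ℚ (C⁻¹ b b') := by
      intro b b'
      refine beta_alg_solve C hCalg hCdet (fun i => (1 : Matrix (Fin m) (Fin m) ℂ) i b')
        (fun l => C⁻¹ l b') ?_ ?_ b
      · intro i
        by_cases h : i = b'
        · subst h; rw [Matrix.one_apply_eq]; exact isAlgebraic_one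
        · rw [Matrix.one_apply_ne h]; exact isAlgebraic_zero
      · intro i
        rw [← Matrix.mul_nonsing_inv C hCu, Matrix.mul_apply]
    have hQ1 : Q σ = (c2 * C⁻¹ * c1ᵀ)ᵀ := by
      have e1 : (Q σ)ᵀ = (h⁻¹).map σ := rfl
      have e2 : (h⁻¹).map σ * Hs = 1 := by
        have h1 : σ.mapMatrix (h⁻¹ * h) = 1 := by
          rw [Matrix.nonsing_inv_mul h (isUnit_iff_ne_zero.2 S.nd), map_one]
        rw [map_mul] at h1
        exact h1
      have hu2 : IsUnit c2.det := isUnit_iff_ne_zero.2 hd2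
      have h2 : Hs * (c2 * C⁻¹ * c1ᵀ) = 1 := by
        have hu1 : IsUnit c1ᵀ.det := by rw [Matrix.det_transpose]; exact isUnit_iff_ne_zero.2 hd1
        have h3 : Hs * c2 = (c1ᵀ)⁻¹ * C := by
          rw [hCdef, Matrix.mul_assoc c1ᵀ Hs c2, ← Matrix.mul_assoc (c1ᵀ)⁻¹ c1ᵀ,
            Matrix.nonsing_inv_mul _ hu1, Matrix.one_mul]
        calc Hs * (c2 * C⁻¹ * c1ᵀ) = (Hs * c2) * C⁻¹ * c1ᵀ := by simp only [Matrix.mul_assoc]
          _ = (c1ᵀ)⁻¹ * (C * C⁻¹) * c1ᵀ := by rw [h3]; simp only [Matrix.mul_assoc]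
          _ = 1 := by
              rw [Matrix.mul_nonsing_inv _ hCu, Matrix.mul_one, Matrix.nonsing_inv_mul _ hu1]
      have h4 : (Q σ)ᵀ = c2 * C⁻¹ * c1ᵀ := by
        calc (Q σ)ᵀ = (h⁻¹).map σ * (Hs * (c2 * C⁻¹ * c1ᵀ)) := by rw [h2, Matrix.mul_one, e1]
          _ = ((h⁻¹).map σ * Hs) * (c2 * C⁻¹ * c1ᵀ) := (Matrix.mul_assoc _ Hs _).symm
          _ = c2 * C⁻¹ * c1ᵀ := by rw [e2, Matrix.one_mul]
      rw [← h4, Matrix.transpose_transpose]
    have hQab : ∀ a b, Q σ a b = ∑ e, ∑ e', c1 a e * (C⁻¹)ᵀ e e' * c2 b e' := by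
      intro a b
      rw [hQ1, Matrix.transpose_mul, Matrix.transpose_mul, Matrix.transpose_transpose,
        Matrix.mul_apply]
      rw [← Matrix.mul_apply, ← Matrix.mul_assoc, Matrix.mul_apply]
      simp only [Matrix.mul_apply, Finset.sum_mul]
      rw [Finset.sum_comm]
      rfl
    have hbv : bS σ v = ∑ e, ∑ e', (C⁻¹)ᵀ e e' * (P.ψ (f1 e (v 0)) (v 1) *
        P.ψ (f2 e' (v 2)) (v 3)) := by
      have hf1e : ∀ (e : Fin m) (x y : κ → ℂ), P.ψ (f1 e x) y =
          ∑ a, c1 a e * P.ψ (ts t σ a x) y := by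
        intro e x y
        rw [hf1]
        simp only [LinearMap.sum_apply, map_sum, LinearMap.smul_apply, map_smul, smul_eq_mul]
      have hf2e : ∀ (e : Fin m) (x y : κ → ℂ), P.ψ (f2 e x) y =
          ∑ a, c2 a e * P.ψ (ts t (cj σ) a x) y := by
        intro e x y
        rw [hf2]
        simp only [LinearMap.sum_apply, map_sum, LinearMap.smul_apply, map_smul, smul_eq_mul]
      rw [hbS, betaF_apply]
      simp only [hf1e, hf2e, hQab]
      exact betaF_reorder c1 c2 (C⁻¹)ᵀ (fun a => P.ψ (ts t σ a (v 0)) (v 1))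
        (fun b => P.ψ (ts t (cj σ) b (v 2)) (v 3))
    rw [hbv]
    refine isAlg_sum _ _ fun e _ => isAlg_sum _ _ fun e' _ => ?_
    exact (hCinv e' e).mul ((psi_alg P.ψ P.hψalg _ _ (beta_apply_alg (f1 e) (ha1 e) _ (hv 0))
      (hv 1)).mul (psi_alg P.ψ P.hψalg _ _ (beta_apply_alg (f2 e') (ha2 e') _ (hv 2)) (hv 3)))
  · -- infinitesimal symmetries
    intro X r hX hβX
    have hX1 : ∀ σ v, actForm X (bS σ) v = (2 * r) * bS σ v := by
      intro σ v
      rw [hrec σ v, actForm_apply]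
      simp only [hrec σ]
      rw [Finset.sum_comm, Finset.mul_sum]
      refine Finset.sum_congr rfl fun d _ => ?_
      rw [← Finset.mul_sum, ← actForm_apply, hβX d, _root_.smul_apply, smul_eq_mul]
      ring
    have h1 : ∀ σ, ∃ M : Matrix (Fin m) (Fin m) ℂ, ∀ x,
        tau (ts t σ) (M *ᵥ x) = tau (fun a => X * ts t σ a - ts t σ a * X) x := fun σ =>
      betaF_mat _ fun a => betaF_inf P.hψnd (hQdet σ) (hZ (cj σ)) hX (hX1 σ) a
    choose M hM using h1
    refine ⟨M, fun σ x => ?_⟩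
    rw [hM, tau_apply, tau_apply, Finset.mul_sum, Finset.sum_mul, ← Finset.sum_sub_distrib]
    refine Finset.sum_congr rfl fun a _ => ?_
    rw [mul_smul_comm, smul_mul_assoc, smul_sub]
  · -- symmetries
    intro g hg hβg
    have hginj : Function.Injective g := by
      rw [injective_iff_map_eq_zero]
      intro u hu
      apply P.hψnd
      intro v
      rw [← hg u v, hu, map_zero, LinearMap.zero_apply]
    have hgsurj : Function.Surjective g := LinearMap.surjective_of_injective hginj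
    set ge : (κ → ℂ) ≃ₗ[ℂ] (κ → ℂ) := LinearEquiv.ofBijective g ⟨hginj, hgsurj⟩ with hge
    set g' : Module.End ℂ (κ → ℂ) := (ge.symm : (κ → ℂ) →ₗ[ℂ] (κ → ℂ)) with hg'def
    have hgg' : ∀ x, g (g' x) = x := fun x => ge.apply_symm_apply x
    have hg'g : ∀ x, g' (g x) = x := fun x => ge.symm_apply_apply x
    have hg1 : ∀ σ (v : Fin 4 → κ → ℂ), bS σ (fun r => g (v r)) = bS σ v := by
      intro σ v
      rw [hrec σ v, hrec σ]
      exact Finset.sum_congr rfl fun d _ => by rw [hβg d]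
    have h1 : ∀ σ, ∃ M : Matrix (Fin m) (Fin m) ℂ, ∀ x,
        tau (ts t σ) (M *ᵥ x) = tau (fun a => g' * ts t σ a * g) x := fun σ =>
      betaF_mat _ fun a => betaF_sym P.hψnd (hQdet σ) (hZ (cj σ)) hg hgg' (hg1 σ) a
    choose B hB using h1
    have hBt : ∀ σ x, tau (ts t σ) (B σ *ᵥ x) = g' * tau (ts t σ) x * g := by
      intro σ x
      rw [hB, tau_apply, tau_apply, Finset.mul_sum, Finset.sum_mul]
      refine Finset.sum_congr rfl fun a _ => ?_
      rw [mul_smul_comm, smul_mul_assoc]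
    have hBinj : ∀ σ, Function.Injective (B σ).mulVec := by
      intro σ
      have h2 : ∀ x, B σ *ᵥ x = 0 → x = 0 := by
        intro x hx
        apply hinj σ
        rw [map_zero]
        apply LinearMap.ext
        intro v
        have h1 := hBt σ x
        rw [hx, map_zero] at h1
        have h2 := congrArg g (LinearMap.congr_fun h1 (g' v))
        rw [LinearMap.zero_apply, map_zero, Module.End.mul_apply, Module.End.mul_apply, hgg',
          hgg'] at h2
        rw [← h2, LinearMap.zero_apply]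
      intro x y hxy
      have h3 := h2 (x - y) (by rw [Matrix.mulVec_sub]; exact sub_eq_zero.2 hxy)
      exact sub_eq_zero.1 h3
    have hBu : ∀ σ, IsUnit (B σ) := fun σ => Matrix.mulVec_injective_iff_isUnit.1 (hBinj σ)
    refine ⟨fun σ => (B σ)⁻¹, fun σ x => ?_⟩
    have h1 : B σ *ᵥ ((B σ)⁻¹ *ᵥ x) = x := by
      rw [Matrix.mulVec_mulVec, Matrix.mul_nonsing_inv _ ((Matrix.isUnit_iff_isUnit_det _).1 (hBu σ)),
        Matrix.one_mulVec]
    have h2 := hBt σ ((B σ)⁻¹ *ᵥ x)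
    rw [h1] at h2
    apply LinearMap.ext
    intro v
    have h3 := congrArg g (LinearMap.congr_fun h2 v)
    rw [Module.End.mul_apply, Module.End.mul_apply, hgg'] at h3
    rw [Module.End.mul_apply, h3, Module.End.mul_apply]

end Pool.Agent.KSE
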