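import Pool.Agent.KSE.CentE
import Pool.Agent.KSE.BvA
import Pool.Agent.KSP.Avg

/-!
Module BvE. Symmetries without multiplier are combinations of commutators of vectors in dual eigenspaces.

`eq_zero_of_act`: `D` commutes with all `tau (ts t σ) x`. Apply `KSP.avg` (see the proof of `KSP.eq_bv` in
`Pool/Agent/KSP/Fam2.lean`) to the whole space `T` (`Fin N ≃ (K →+* ℂ) × Fin m`, form: the pairing of
`σ` and `cj σ`) to see that `D` commutes with everything, so it is a scalar, and the trace is zero.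
`mem_bvE`: `D = X.1 i - Z` commutes with the `f` commuting with the products `ts σ a * ts (cj σ) b`
(`comm_of_productsE`); its trace is zero: `X.1 i` is skew for `ψ` (`hψnd`), `Z` is a sum of commutators.
-/

open scoped ComplexConjugate

namespace Pool.Agent.KSE

open Module Matrix NumberField Pool.Agent.Helper7 Pool.Agent.KS Pool.Agent.Ball
  Pool.Agent.Helper28.GPC

namespace BvE

section alg

variable {V : Type} [AddCommGroup V] [Module ℂ V] {K : Type} [Field K] [NumberField K]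
  {c : K →+* K} {m : ℕ} {h : Matrix (Fin m) (Fin m) K} {t : Fin m → K → Module.End ℂ V}

/-- the conjugation of the embeddings as a permutation -/
def cjE (K : Type) [Field K] [NumberField K] : Equiv.Perm (K →+* ℂ) :=
  Function.Involutive.toPerm cj (fun σ => cj_cj σ)

lemma cjE_apply (σ : K →+* ℂ) : cjE K σ = cj σ := rfl

/-- the dimension of `T` -/
noncomputable abbrev NN (K : Type) [Field K] [NumberField K] (m : ℕ) : ℕ :=
  Fintype.card ((K →+* ℂ) × Fin m)

/-- the places and coordinates -/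
noncomputable def ee (K : Type) [Field K] [NumberField K] (m : ℕ) :
    (K →+* ℂ) × Fin m ≃ Fin (NN K m) := Fintype.equivFin _

/-- the component at a place -/
noncomputable def pc (σ : K →+* ℂ) : (Fin (NN K m) → ℂ) →ₗ[ℂ] (Fin m → ℂ) :=
  LinearMap.funLeft ℂ ℂ (fun a => ee K m (σ, a))

lemma pc_apply (σ : K →+* ℂ) (x : Fin (NN K m) → ℂ) (a : Fin m) :
    pc σ x a = x (ee K m (σ, a)) := rfl

/-- the form on `T ⊗ ℂ` -/
noncomputable def qq (h : Matrix (Fin m) (Fin m) K) : LinearMap.BilinForm ℂ (Fin (NN K m) → ℂ) :=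
  LinearMap.mk₂ ℂ (fun x y => ∑ σ : K →+* ℂ, pr h σ (pc σ x) (pc (cj σ) y))
    (by
      intro x x' y
      rw [← Finset.sum_add_distrib]
      exact Finset.sum_congr rfl fun σ _ => by rw [map_add, pr_add_left])
    (by
      intro r x y
      rw [smul_eq_mul, Finset.mul_sum]
      exact Finset.sum_congr rfl fun σ _ => by rw [map_smul, pr_smul_left])
    (by
      intro x y y'
      rw [← Finset.sum_add_distrib]
      exact Finset.sum_congr rfl fun σ _ => by rw [map_add, pr_add_right])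
    (by
      intro r x y
      rw [smul_eq_mul, Finset.mul_sum]
      exact Finset.sum_congr rfl fun σ _ => by rw [map_smul, pr_smul_right])

lemma qq_apply (x y : Fin (NN K m) → ℂ) :
    qq h x y = ∑ σ : K →+* ℂ, pr h σ (pc σ x) (pc (cj σ) y) := rfl

lemma qq_symm (hconj : ∀ (σ : K →+* ℂ) (x : K), cj σ x = σ (c x))
    (hh : ∀ a b, c (h a b) = h b a) (x y : Fin (NN K m) → ℂ) : qq h x y = qq h y x := by
  rw [qq_apply, qq_apply, ← Equiv.sum_comp (cjE K)]
  refine Finset.sum_congr rfl fun σ _ => ?_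
  rw [cjE_apply, pr_symm hconj hh, cj_cj]

/-- vectors at one place -/
lemma exists_pc (σ : K →+* ℂ) (y : Fin m → ℂ) : ∃ v : Fin (NN K m) → ℂ, pc σ v = y ∧
    ∀ τ, τ ≠ σ → pc τ v = 0 := by
  classical
  refine ⟨fun j => if ((ee K m).symm j).1 = σ then y ((ee K m).symm j).2 else 0, ?_, ?_⟩
  · funext a
    rw [pc_apply, Equiv.symm_apply_apply, if_pos rfl]
  · intro τ hτ
    funext a
    rw [pc_apply, Equiv.symm_apply_apply, if_neg hτ, Pi.zero_apply]

lemma ext_pc {x : Fin (NN K m) → ℂ} (hx : ∀ σ : K →+* ℂ, pc σ x = 0) : x = 0 := by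
  funext j
  have e1 := congrFun (hx ((ee K m).symm j).1) ((ee K m).symm j).2
  rw [pc_apply, Prod.mk.eta, Equiv.apply_symm_apply] at e1
  exact e1

lemma qq_nd (hconj : ∀ (σ : K →+* ℂ) (x : K), cj σ x = σ (c x))
    (hh : ∀ a b, c (h a b) = h b a) (hnd : h.det ≠ 0) : (qq h).Nondegenerate := by
  have h1 : ∀ x, (∀ y, qq h x y = 0) → x = 0 := by
    intro x hx
    apply ext_pc
    intro σ
    apply pr_nd hnd σ
    intro y
    obtain ⟨v, hv1, hv2⟩ := exists_pc (K := K) (cj σ) y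
    have e1 := hx v
    rw [qq_apply, Finset.sum_eq_single σ, hv1] at e1
    · exact e1
    · intro τ _ hτ
      rw [hv2 (cj τ) (fun h => hτ (by rw [← cj_cj τ, h, cj_cj])), pr, Matrix.mulVec_zero,
        dotProduct_zero]
    · intro h; exact absurd (Finset.mem_univ _) h
  refine ⟨h1, fun y hy => h1 y fun x => ?_⟩
  rw [qq_symm hconj hh]
  exact hy x

/-- the operators of the vectors -/
noncomputable def tt (t : Fin m → K → Module.End ℂ V) :
    (Fin (NN K m) → ℂ) →ₗ[ℂ] Module.End ℂ V :=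
  ∑ σ : K →+* ℂ, tau (ts t σ) ∘ₗ pc σ

lemma tt_apply (x : Fin (NN K m) → ℂ) : tt t x = ∑ σ : K →+* ℂ, tau (ts t σ) (pc σ x) := by
  rw [tt, LinearMap.sum_apply]
  rfl

lemma tt_cliff (hconj : ∀ (σ : K →+* ℂ) (x : K), cj σ x = σ (c x))
    (hcl : ∀ a b x y, t a x * t b y + t b y * t a x =
      (2 * ((Algebra.trace ℚ K (x * c y * h a b) : ℚ) : ℂ)) • 1) (x y : Fin (NN K m) → ℂ) :
    tt t x * tt t y + tt t y * tt t x = (2 * qq h x y) • 1 := by
  rw [tt_apply, tt_apply, Finset.sum_mul_sum, Finset.sum_mul_sum, Finset.sum_comm (f := fun i j =>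
    tau (ts t i) (pc i y) * tau (ts t j) (pc j x)), ← Finset.sum_add_distrib, qq_apply,
    Finset.mul_sum, Finset.sum_smul]
  refine Finset.sum_congr rfl fun σ _ => ?_
  rw [← Finset.sum_add_distrib, Finset.sum_eq_single (cj σ)]
  · exact tau_pair hconj hcl σ _ _
  · intro τ _ hτ
    exact tau_anti hconj hcl hτ _ _
  · intro h; exact absurd (Finset.mem_univ _) h

lemma tt_ex (σ : K →+* ℂ) (a : Fin m) : ∃ x : Fin (NN K m) → ℂ, tt t x = ts t σ a := by
  obtain ⟨v, hv1, hv2⟩ := exists_pc (K := K) σ (Pi.single a 1)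
  refine ⟨v, ?_⟩
  rw [tt_apply, Finset.sum_eq_single σ, hv1, tau_single]
  · intro τ _ hτ
    rw [hv2 τ hτ, map_zero]
  · intro h; exact absurd (Finset.mem_univ _) h

/-- commutators have trace zero -/
lemma trace_bvS {Z : Module.End ℂ V} (hZ : Z ∈ bvS t) : LinearMap.trace ℂ V Z = 0 := by
  refine Submodule.span_induction (p := fun Z _ => LinearMap.trace ℂ V Z = 0) ?_ ?_ ?_ ?_ hZ
  · rintro Z ⟨σ, a, b, rfl⟩
    rw [map_sub, LinearMap.trace_mul_comm, sub_self]
  · exact map_zero _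
  · intro Z Z' _ _ e1 e2
    rw [map_add, e1, e2, add_zero]
  · intro r Z _ e1
    rw [map_smul, e1, smul_zero]

lemma comm_bvS {Z : Module.End ℂ V} (hZ : Z ∈ bvS t) (f : Module.End ℂ V)
    (hf : ∀ σ a b, f * (ts t σ a * ts t (cj σ) b) = ts t σ a * ts t (cj σ) b * f) :
    Z * f = f * Z := by
  refine Submodule.span_induction (p := fun Z _ => Z * f = f * Z) ?_ ?_ ?_ ?_ hZ
  · rintro Z ⟨σ, a, b, rfl⟩
    have e1 := hf σ a b
    have e2 := hf (cj σ) b a
    rw [cj_cj] at e2
    rw [sub_mul, mul_sub, e1, e2]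
  · rw [zero_mul, mul_zero]
  · intro Z Z' _ _ e1 e2
    rw [add_mul, mul_add, e1, e2]
  · intro r Z _ e1
    rw [smul_mul_assoc, mul_smul_comm, e1]

/-- skew endomorphisms have trace zero -/
lemma trace_skew [FiniteDimensional ℂ V] (ψ : V →ₗ[ℂ] V →ₗ[ℂ] ℂ)
    (hψ : ∀ u, (∀ v, ψ u v = 0) → u = 0) (X : Module.End ℂ V)
    (hX : ∀ u v, ψ (X u) v + ψ u (X v) = 0) : LinearMap.trace ℂ V X = 0 := by
  have hinj : Function.Injective (ψ : V →ₗ[ℂ] Module.Dual ℂ V) := by
    rw [injective_iff_map_eq_zero]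
    intro u hu
    exact hψ u fun v => by rw [hu]; rfl
  let e : V ≃ₗ[ℂ] Module.Dual ℂ V := LinearEquiv.ofInjectiveOfFinrankEq (ψ : V →ₗ[ℂ] Module.Dual ℂ V) hinj
    (Subspace.dual_finrank_eq).symm
  have he : ∀ u, e u = ψ u := fun u => rfl
  have h1 : e.conj X = -(Module.Dual.transpose (R := ℂ) X) := by
    apply LinearMap.ext
    intro g
    obtain ⟨u, rfl⟩ := e.surjective g
    rw [LinearEquiv.conj_apply_apply, LinearEquiv.symm_apply_apply]
    apply LinearMap.ext
    intro v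
    rw [he, he]
    exact eq_neg_of_add_eq_zero_left (hX u v)
  have h2 : LinearMap.trace ℂ _ (e.conj X) = LinearMap.trace ℂ V X := LinearMap.trace_conj' X e
  have h3 : LinearMap.trace ℂ _ (Module.Dual.transpose (R := ℂ) X) = LinearMap.trace ℂ V X :=
    LinearMap.trace_transpose' X
  rw [h1, map_neg, h3] at h2
  have h4 : 2 * LinearMap.trace ℂ V X = 0 := by linear_combination -h2
  exact (mul_eq_zero.mp h4).resolve_left two_ne_zero

end alg

end BvE

open BvE

section alg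

variable {V : Type} [AddCommGroup V] [Module ℂ V] {K : Type} [Field K] [NumberField K]
  {c : K →+* K} {m : ℕ} {h : Matrix (Fin m) (Fin m) K} {t : Fin m → K → Module.End ℂ V}
  (hconj : ∀ (σ : K →+* ℂ) (x : K), cj σ x = σ (c x)) (hh : ∀ a b, c (h a b) = h b a)
  (hnd : h.det ≠ 0)
  (hcl : ∀ a b x y, t a x * t b y + t b y * t a x =
    (2 * ((Algebra.trace ℚ K (x * c y * h a b) : ℚ) : ℂ)) • 1)

include hconj hh hnd hcl in
theorem eq_zero_of_act [FiniteDimensional ℂ V] (D : Module.End ℂ V)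
    (h1 : ∀ σ x, D * tau (ts t σ) x = tau (ts t σ) x * D)
    (h2 : ∀ f : Module.End ℂ V, (∀ σ τ a b, f * (ts t σ a * ts t τ b) = ts t σ a * ts t τ b * f) →
      D * f = f * D) (h3 : LinearMap.trace ℂ V D = 0) : D = 0 := by
  have h1' : ∀ x, D * tt t x = tt t x * D := by
    intro x
    rw [tt_apply, Finset.mul_sum, Finset.sum_mul]
    exact Finset.sum_congr rfl fun σ _ => h1 σ _
  let Φ : (V →ₗ[ℂ] V) →ₗ[ℂ] (V →ₗ[ℂ] V) := LinearMap.mulLeft ℂ D - LinearMap.mulRight ℂ D
  have hΦ : ∀ f, Φ f = D * f - f * D := fun _ => rfl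
  have h4 : Φ = 0 := by
    by_contra h0
    obtain ⟨f, hf, hf0⟩ := KSP.avg (qq h) (qq_symm hconj hh) (qq_nd hconj hh hnd) (tt t) (tt t)
      (tt_cliff hconj hcl) (tt_cliff hconj hcl) Φ
      (by
        intro x f
        show D * (tt t x * f) - (tt t x * f) * D = tt t x * (D * f - f * D)
        rw [mul_sub, ← mul_assoc, h1', mul_assoc, mul_assoc])
      (by
        intro x f
        show D * (f * tt t x) - (f * tt t x) * D = (D * f - f * D) * tt t x
        rw [sub_mul, ← mul_assoc, mul_assoc f, ← h1', mul_assoc f]) h0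
    apply hf0
    rw [hΦ, h2 f, sub_self]
    intro σ τ a b
    obtain ⟨x, hx⟩ := tt_ex (t := t) σ a
    obtain ⟨y, hy⟩ := tt_ex (t := t) τ b
    have e1 := hf x y
    rw [hx, hy] at e1
    exact e1
  have h5 : ∀ f : Module.End ℂ V, D * f = f * D := by
    intro f
    have e1 := hΦ f
    rw [h4, LinearMap.zero_apply] at e1
    exact sub_eq_zero.mp e1.symm
  obtain ⟨z, hz⟩ : ∃ z : ℂ, D = z • (1 : Module.End ℂ V) := by
    obtain ⟨z, hα, hz⟩ := Module.End.mem_center_iff.mp
      (Subring.mem_center_iff.mpr fun f => (h5 f).symm)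
    refine ⟨z, ?_⟩
    rw [hz]
    rfl
  rcases subsingleton_or_nontrivial V with hV | hV
  · apply LinearMap.ext
    intro v
    exact Subsingleton.elim _ _
  · rw [hz, map_smul, LinearMap.trace_one, smul_eq_mul] at h3
    rcases mul_eq_zero.mp h3 with h6 | h6
    · rw [hz, h6, zero_smul]
    · exact absurd (Nat.cast_eq_zero.mp h6) (Module.finrank_pos (R := ℂ) (M := V)).ne'

include hconj hh hnd hcl in
/-- the elements of `bvS t` are determined by their action -/
theorem eq_of_act [FiniteDimensional ℂ V] {Z Z' : Module.End ℂ V} (hZ : Z ∈ bvS t)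
    (hZ' : Z' ∈ bvS t) {M : (K →+* ℂ) → Matrix (Fin m) (Fin m) ℂ} (h1 : ActM t Z M)
    (h2 : ActM t Z' M) : Z = Z' := by
  apply sub_eq_zero.mp
  refine eq_zero_of_act hconj hh hnd hcl (Z - Z') ?_ ?_ ?_
  · intro σ x
    have e1 := h1 σ x
    have e2 := h2 σ x
    rw [← e2, sub_eq_sub_iff_add_eq_add] at e1
    rw [sub_mul, mul_sub, sub_eq_sub_iff_add_eq_add, e1, add_comm]
  · intro f hf
    rw [sub_mul, mul_sub, comm_bvS hZ f fun σ a b => hf σ (cj σ) a b,
      comm_bvS hZ' f fun σ a b => hf σ (cj σ) a b]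
  · rw [map_sub, trace_bvS hZ, trace_bvS hZ', sub_zero]

end alg

variable {I : Type} [Fintype I] [DecidableEq I] (n : I → ℕ) {κ : I → Type}
    [∀ i, Fintype (κ i)] [∀ i, DecidableEq (κ i)] {ϖ : ℂ} (hϖ : ϖ ≠ 0) (P : ∀ i, PData (κ i) ϖ)
    (i : I) {K : Type} [Field K] [NumberField K] {c : K →+* K} {m : ℕ}
    {h : Matrix (Fin m) (Fin m) K} {t : Fin m → K → Module.End ℂ (κ i → ℂ)}
    (S : MD (P i) c h t) {k : ℕ} (γ : MultilinearMap ℂ (fun _ : Fin (2 * k) => HW κ n) ℂ)
    (hB : ∀ v : Fin (2 * k) → HW κ n, (∀ r, IsRatP n P (v r)) → ∃ q : ℚ, γ v = ϖ ^ k * q)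
    (hA : ∀ v : Fin (2 * k) → HW κ n, (∀ r i m j, IsAlgebraic ℚ (v r i m j)) →
      IsAlgebraic ℚ (γ v))

include S in
theorem mem_bvE (X : GG κ) (hX : IsInv n P γ X) (hX2 : X.2 = 0)
    (M : (K →+* ℂ) → Matrix (Fin m) (Fin m) ℂ) (hM : ActM t (X.1 i) M) : X.1 i ∈ bvS t := by
  rcases subsingleton_or_nontrivial (κ i → ℂ) with hV | hV
  · have e1 : X.1 i = 0 := by
      apply LinearMap.ext
      intro v
      exact Subsingleton.elim _ _
    rw [e1]
    exact Submodule.zero_mem _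
  have hsk : SkewM h M := (skewM_iff M).mpr (ActM.skew S.conj S.cliff hM)
  obtain ⟨Z, hZ, hZM⟩ := exists_bvE S.conj S.herm S.nd S.cliff M hsk
  have h0 : X.1 i - Z = 0 := by
    refine eq_zero_of_act S.conj S.herm S.nd S.cliff (X.1 i - Z) ?_ ?_ ?_
    · intro σ x
      have e1 := hM σ x
      have e2 := hZM σ x
      rw [← e2, sub_eq_sub_iff_add_eq_add] at e1
      rw [sub_mul, mul_sub, sub_eq_sub_iff_add_eq_add, e1, add_comm]
    · intro f hf
      rw [sub_mul, mul_sub, comm_bvS hZ f fun σ a b => hf σ (cj σ) a b,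
        comm_of_productsE n P i S γ f (fun σ a b => hf σ (cj σ) a b) X hX]
    · rw [map_sub, trace_bvS hZ, sub_zero]
      refine trace_skew (P i).ψ (P i).hψnd (X.1 i) ?_
      intro u v
      have e1 := hX.pol i u v
      rw [hX2, zero_mul] at e1
      exact e1
  rw [sub_eq_zero.mp h0]
  exact hZ

end Pool.Agent.KSE
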