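import Mathlib

/-!
Odd rational functions on the embeddings of a number field.
-/

namespace Pool.Agent.GPC

open NumberField

/-- Every nonzero space of odd rational functions on the complex embeddings of `K` which is stable
under the automorphisms of `ℂ` contains a nonzero function with values in `{-1, 0, 1}`. -/
def OddSparse (K : Type) [Field K] : Prop :=
  ∀ R : Submodule ℚ ((K →+* ℂ) → ℚ), R ≠ ⊥ →
    (∀ f ∈ R, ∀ σ, f (ComplexEmbedding.conjugate σ) = - f σ) →
    (∀ f ∈ R, ∀ τ : ℂ ≃+* ℂ, (fun σ => f ((τ : ℂ →+* ℂ).comp σ)) ∈ R) →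
      ∃ f ∈ R, f ≠ 0 ∧ ∀ σ, f σ = -1 ∨ f σ = 0 ∨ f σ = 1

end Pool.Agent.GPC
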