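import Pool.Agent.KSE.Defs
import Pool.Agent.KSE.Odd

/-!
Module CenC. A space of odd functions with the properties proved in the other modules is the space of all
odd functions.

Let `C₀` be the set of all `z : (K →+* ℂ) → ℚ` with `(fun σ => (z σ : ℂ)) ∈ C` (odd functions) and `R` the
space of the odd `f : (K →+* ℂ) → ℚ` with `∑ σ, f σ * z σ = 0` for all `z ∈ C₀`; `C₀` and `R` are stable under
the automorphisms of `ℂ` (`htw`; they fix rational numbers). Every `z ∈ C` is a complex combination of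
elements of `C₀`: write `z σ = ∑ j, ρ j (z σ) * ω j` with `ω` a `ℚ`-basis of the span of the `z σ` and
`ρ j : ℂ →ₗ[ℚ] ℚ`, and use `hrep`. If `R ≠ ⊥` take `f ∈ R` by `hodd` and `F = {σ | f σ = 1}`: it is not empty
since `f` is odd and not zero, and `cj σ ∉ F` for `σ ∈ F`. For `z ∈ C` we have
`0 = ∑ σ, f σ * z σ = 2 * ∑ σ ∈ F, z σ`; this contradicts `hvol`. So `R = ⊥`, and `C₀` is the space of all odd
rational functions (the form `∑ σ, f σ * z σ` is positive definite on the odd rational functions). The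
odd complex functions are combinations of the `δ_σ - δ_{cj σ}`.
-/

namespace Pool.Agent.KSE

open Module Matrix NumberField Pool.Agent.GPC

private theorem cenC_invol {K : Type} [Field K] (σ : K →+* ℂ) : cj (cj σ) = σ :=
  ComplexEmbedding.involutive_conjugate K σ

/-- sums over the embeddings and the conjugation -/
private theorem cenC_sum {K : Type} [Field K] [NumberField K] {A : Type} [AddCommMonoid A]
    (g : (K →+* ℂ) → A) : ∑ σ, g (cj σ) = ∑ σ, g σ :=
  Equiv.sum_comp (Function.Involutive.toPerm _ (ComplexEmbedding.involutive_conjugate K)) g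

/-- the bijection of the embeddings given by an automorphism of `ℂ` -/
private def cenCPerm {K : Type} [Field K] (τ : ℂ ≃+* ℂ) : (K →+* ℂ) ≃ (K →+* ℂ) where
  toFun σ := (τ : ℂ →+* ℂ).comp σ
  invFun σ := (τ.symm : ℂ →+* ℂ).comp σ
  left_inv σ := by
    refine RingHom.ext fun x => ?_
    simp
  right_inv σ := by
    refine RingHom.ext fun x => ?_
    simp

/-- expansion of a complex function in rational functions -/
private theorem cenC_expand {S : Type} [Fintype S] (C : Set (S → ℂ))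
    (hrep : ∀ z ∈ C, ∀ ρ : ℂ →+ ℂ, (fun σ => ρ (z σ)) ∈ C) (z : S → ℂ) (hz : z ∈ C) :
    ∃ (J : Finset (Basis.ofVectorSpaceIndex ℚ ℂ)) (w : Basis.ofVectorSpaceIndex ℚ ℂ → ℂ)
      (y : Basis.ofVectorSpaceIndex ℚ ℂ → S → ℚ), (∀ j, (fun σ => ((y j σ : ℚ) : ℂ)) ∈ C) ∧
        ∀ σ, z σ = ∑ j ∈ J, w j * ((y j σ : ℚ) : ℂ) := by
  classical
  set B := Basis.ofVectorSpace ℚ ℂ with hB
  refine ⟨Finset.univ.biUnion fun σ => (B.repr (z σ)).support, fun j => B j,
    fun j σ => B.repr (z σ) j, fun j => ?_, fun σ => ?_⟩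
  · have h1 := hrep z hz (((Rat.castHom ℂ : ℚ →+* ℂ) : ℚ →+ ℂ).comp
      ((B.coord j : ℂ →ₗ[ℚ] ℚ).toAddMonoidHom))
    exact h1
  · have h1 : z σ = ∑ j ∈ (B.repr (z σ)).support, (B.repr (z σ) j) • B j := by
      have h2 := B.linearCombination_repr (z σ)
      rw [Finsupp.linearCombination_apply, Finsupp.sum] at h2
      exact h2.symm
    have h3 : (B.repr (z σ)).support ⊆ Finset.univ.biUnion fun σ => (B.repr (z σ)).support :=
      Finset.subset_biUnion_of_mem (fun σ => (B.repr (z σ)).support) (Finset.mem_univ σ)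
    rw [Finset.sum_subset h3 (fun j _ hj => by
      rw [Finsupp.notMem_support_iff.1 hj, zero_smul])] at h1
    rw [h1]
    refine Finset.sum_congr rfl fun j _ => ?_
    rw [Rat.smul_def, mul_comm]

theorem center_mem {K : Type} [Field K] [NumberField K] (hcm : ∀ σ : K →+* ℂ, cj σ ≠ σ)
    (C : Set ((K →+* ℂ) → ℂ)) (h0 : 0 ∈ C) (hadd : ∀ z ∈ C, ∀ w ∈ C, z + w ∈ C)
    (hsmul : ∀ (r : ℂ), ∀ z ∈ C, r • z ∈ C) (hCo : ∀ z ∈ C, ∀ σ, z (cj σ) = - z σ)
    (htw : ∀ z ∈ C, ∀ τ : ℂ ≃+* ℂ, (fun σ => τ (z ((τ.symm : ℂ →+* ℂ).comp σ))) ∈ C)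
    (hrep : ∀ z ∈ C, ∀ ρ : ℂ →+ ℂ, (fun σ => ρ (z σ)) ∈ C)
    (hvol : ∀ F : Finset (K →+* ℂ), F.Nonempty → (∀ σ ∈ F, cj σ ∉ F) →
      ¬ ∀ z ∈ C, ∑ σ ∈ F, z σ = 0)
    (hodd : OddSparse K) (z : (K →+* ℂ) → ℂ) (hz : ∀ σ, z (cj σ) = - z σ) : z ∈ C := by
  classical
  -- embeddings are separated by `C`
  have hsep : ∀ σ₁ σ₂ : K →+* ℂ, (∀ z ∈ C, z σ₁ = z σ₂) → σ₁ = σ₂ := by
    intro σ₁ σ₂ h
    by_contra hne
    have hne2 : σ₁ ≠ cj σ₂ := by
      intro he
      -- `z σ₂ = 0` for all `z ∈ C`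
      refine hvol {σ₂} (Finset.singleton_nonempty _) (fun σ hσ => ?_) fun z hz => ?_
      · rw [Finset.mem_singleton] at hσ ⊢
        rw [hσ]
        exact hcm σ₂
      · rw [Finset.sum_singleton]
        have h1 := h z hz
        rw [he, hCo z hz] at h1
        have h2 : (2 : ℂ) * z σ₂ = 0 := by
          linear_combination (-1 : ℂ) * h1
        rcases mul_eq_zero.1 h2 with h3 | h3
        · exact absurd h3 two_ne_zero
        · exact h3
    refine hvol {σ₁, cj σ₂} ⟨σ₁, Finset.mem_insert_self _ _⟩ (fun σ hσ => ?_) fun z hz => ?_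
    · rw [Finset.mem_insert, Finset.mem_singleton] at hσ
      rw [Finset.mem_insert, Finset.mem_singleton, not_or]
      rcases hσ with hσ | hσ
      · rw [hσ]
        refine ⟨hcm σ₁, fun h1 => hne ?_⟩
        rw [← cenC_invol σ₁, h1, cenC_invol]
      · rw [hσ, cenC_invol]
        exact ⟨fun h1 => hne h1.symm, fun h1 => hcm σ₂ h1.symm⟩
    · rw [Finset.sum_pair hne2, hCo z hz, h z hz, add_neg_cancel]
  -- the automorphisms of `ℂ` commute with the conjugation
  have hcomm : ∀ (τ : ℂ ≃+* ℂ) (σ : K →+* ℂ),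
      (τ : ℂ →+* ℂ).comp (cj σ) = cj ((τ : ℂ →+* ℂ).comp σ) := by
    intro τ σ
    refine hsep _ _ fun z hz => ?_
    have h1 := hCo _ (htw z hz τ.symm) σ
    simp only [RingEquiv.symm_symm] at h1
    rw [← map_neg, ← hCo z hz] at h1
    exact τ.symm.injective h1
  -- the rational functions in `C`
  set C₀ : Submodule ℚ ((K →+* ℂ) → ℚ) :=
    { carrier := {y | (fun σ => ((y σ : ℚ) : ℂ)) ∈ C}
      add_mem' := by
        intro a b ha hb
        have h1 := hadd _ ha _ hb
        have h2 : (fun σ => (((a + b) σ : ℚ) : ℂ)) =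
            (fun σ => ((a σ : ℚ) : ℂ)) + fun σ => ((b σ : ℚ) : ℂ) := by
          funext σ
          simp
        show (fun σ => (((a + b) σ : ℚ) : ℂ)) ∈ C
        rw [h2]
        exact h1
      zero_mem' := by
        have h2 : (fun σ : K →+* ℂ => (((0 : (K →+* ℂ) → ℚ) σ : ℚ) : ℂ)) = 0 := by
          funext σ
          simp
        show (fun σ : K →+* ℂ => (((0 : (K →+* ℂ) → ℚ) σ : ℚ) : ℂ)) ∈ C
        rw [h2]
        exact h0
      smul_mem' := by
        intro r a ha
        have h1 := hsmul (r : ℂ) _ ha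
        have h2 : (fun σ => (((r • a) σ : ℚ) : ℂ)) = (r : ℂ) • fun σ => ((a σ : ℚ) : ℂ) := by
          funext σ
          simp
        show (fun σ => (((r • a) σ : ℚ) : ℂ)) ∈ C
        rw [h2]
        exact h1 } with hC₀
  have hC₀mem : ∀ y, y ∈ C₀ ↔ (fun σ => ((y σ : ℚ) : ℂ)) ∈ C := fun y => Iff.rfl
  have hC₀odd : ∀ y ∈ C₀, ∀ σ, y (cj σ) = - y σ := by
    intro y hy σ
    have h1 := hCo _ ((hC₀mem y).1 hy) σ
    have h2 : ((y (cj σ) : ℚ) : ℂ) = ((- y σ : ℚ) : ℂ) := by
      rw [Rat.cast_neg]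
      exact h1
    exact Rat.cast_injective h2
  have hC₀tw : ∀ y ∈ C₀, ∀ τ : ℂ ≃+* ℂ, (fun σ => y ((τ.symm : ℂ →+* ℂ).comp σ)) ∈ C₀ := by
    intro y hy τ
    have h1 := htw _ ((hC₀mem y).1 hy) τ
    have h2 : (fun σ => τ ((y ((τ.symm : ℂ →+* ℂ).comp σ) : ℚ) : ℂ)) =
        fun σ => ((y ((τ.symm : ℂ →+* ℂ).comp σ) : ℚ) : ℂ) := by
      funext σ
      exact map_ratCast τ _
    rw [hC₀mem, ← h2]
    exact h1
  -- the orthogonal space
  set R : Submodule ℚ ((K →+* ℂ) → ℚ) :=
    { carrier := {f | (∀ σ, f (cj σ) = - f σ) ∧ ∀ y ∈ C₀, ∑ σ, f σ * y σ = 0}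
      add_mem' := by
        rintro a b ⟨ha, ha'⟩ ⟨hb, hb'⟩
        refine ⟨fun σ => ?_, fun y hy => ?_⟩
        · rw [Pi.add_apply, Pi.add_apply, ha, hb]
          ring
        · simp only [Pi.add_apply, add_mul, Finset.sum_add_distrib]
          rw [ha' y hy, hb' y hy, add_zero]
      zero_mem' := by
        refine ⟨fun σ => by simp, fun y _ => by simp⟩
      smul_mem' := by
        rintro r a ⟨ha, ha'⟩
        refine ⟨fun σ => ?_, fun y hy => ?_⟩
        · rw [Pi.smul_apply, Pi.smul_apply, ha]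
          simp
        · simp only [Pi.smul_apply, smul_eq_mul, mul_assoc, ← Finset.mul_sum]
          rw [ha' y hy, mul_zero] } with hR
  have hRmem : ∀ f, f ∈ R ↔ ((∀ σ, f (cj σ) = - f σ) ∧ ∀ y ∈ C₀, ∑ σ, f σ * y σ = 0) :=
    fun f => Iff.rfl
  have hRbot : R = ⊥ := by
    by_contra hne
    obtain ⟨f, hfR, hf0, hf⟩ := hodd R hne (fun f hf σ => ((hRmem f).1 hf).1 σ) (by
      intro f hf τ
      rw [hRmem] at hf ⊢
      refine ⟨fun σ => ?_, fun y hy => ?_⟩
      · rw [hcomm τ σ]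
        exact hf.1 _
      · have h1 := hf.2 _ (hC₀tw y hy τ)
        rw [← Equiv.sum_comp (cenCPerm τ)] at h1
        rw [← h1]
        refine Finset.sum_congr rfl fun σ _ => ?_
        have h2 : (τ.symm : ℂ →+* ℂ).comp (cenCPerm τ σ) = σ := (cenCPerm τ).left_inv σ
        rw [h2]
        rfl)
    obtain ⟨hfo, hfy⟩ := (hRmem f).1 hfR
    refine hvol (Finset.univ.filter fun σ => f σ = 1) ?_ ?_ ?_
    · obtain ⟨σ, hσ⟩ : ∃ σ, f σ ≠ 0 := by
        by_contra hcon
        push Not at hcon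
        exact hf0 (funext hcon)
      rcases hf σ with h1 | h1 | h1
      · refine ⟨cj σ, ?_⟩
        rw [Finset.mem_filter]
        refine ⟨Finset.mem_univ _, ?_⟩
        rw [hfo, h1, neg_neg]
      · exact absurd h1 hσ
      · exact ⟨σ, Finset.mem_filter.2 ⟨Finset.mem_univ _, h1⟩⟩
    · intro σ hσ hσ'
      rw [Finset.mem_filter] at hσ hσ'
      have h1 := hσ'.2
      rw [hfo, hσ.2] at h1
      norm_num at h1
    · -- first for the elements of `C₀`
      have key : ∀ y ∈ C₀, ∑ σ ∈ Finset.univ.filter (fun σ => f σ = 1), y σ = 0 := by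
        intro y hy
        have h1 := hfy y hy
        have h2 : ∀ σ, f σ * y σ = (if f σ = 1 then y σ else 0) +
            (if f (cj σ) = 1 then y (cj σ) else 0) := by
          intro σ
          rw [hfo σ, hC₀odd y hy σ]
          rcases hf σ with h3 | h3 | h3 <;> rw [h3] <;> norm_num
        simp only [h2, Finset.sum_add_distrib] at h1
        rw [cenC_sum (fun σ => if f σ = 1 then y σ else 0), ← Finset.sum_filter] at h1
        linarith
      intro z hz
      obtain ⟨J, w, y, hy, hzy⟩ := cenC_expand C hrep z hz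
      simp only [hzy]
      rw [Finset.sum_comm]
      refine Finset.sum_eq_zero fun j _ => ?_
      rw [← Finset.mul_sum, ← Rat.cast_sum, key (y j) (hy j), Rat.cast_zero, mul_zero]
  -- all odd rational functions are in `C₀`
  have hall : ∀ y : (K →+* ℂ) → ℚ, (∀ σ, y (cj σ) = - y σ) → y ∈ C₀ := by
    intro y hy
    by_contra hcon
    obtain ⟨φ, hφ, hφC⟩ := Submodule.exists_dual_map_eq_bot_of_notMem hcon inferInstance
    have hφ' : ∀ x : (K →+* ℂ) → ℚ, φ x = ∑ σ, φ (Pi.single σ 1) * x σ := by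
      intro x
      have h1 : x = ∑ σ, x σ • (Pi.single σ (1 : ℚ) : (K →+* ℂ) → ℚ) := by
        funext σ
        simp [Finset.sum_apply, Pi.single_apply]
      conv_lhs => rw [h1]
      rw [map_sum]
      refine Finset.sum_congr rfl fun σ _ => ?_
      rw [map_smul, smul_eq_mul, mul_comm]
    set f : (K →+* ℂ) → ℚ := fun σ => (φ (Pi.single σ 1) - φ (Pi.single (cj σ) 1)) / 2 with hfdef
    have hfx : ∀ x : (K →+* ℂ) → ℚ, (∀ σ, x (cj σ) = - x σ) → ∑ σ, f σ * x σ = φ x := by
      intro x hx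
      have h1 : ∑ σ, f σ * x σ = (∑ σ, φ (Pi.single σ 1) * x σ) / 2 +
          (∑ σ, φ (Pi.single (cj σ) 1) * x (cj σ)) / 2 := by
        rw [← add_div, ← Finset.sum_add_distrib, Finset.sum_div]
        refine Finset.sum_congr rfl fun σ _ => ?_
        rw [hx σ, hfdef]
        ring
      rw [h1, cenC_sum (fun σ => φ (Pi.single σ 1) * x σ), ← hφ' x]
      ring
    have hfR : f ∈ R := by
      rw [hRmem]
      refine ⟨fun σ => ?_, fun x hx => ?_⟩
      · simp only [hfdef, cenC_invol]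
        ring
      · rw [hfx x (hC₀odd x hx)]
        have h1 : φ x ∈ C₀.map φ := Submodule.mem_map_of_mem hx
        rw [hφC, Submodule.mem_bot] at h1
        exact h1
    rw [hRbot, Submodule.mem_bot] at hfR
    refine hφ ?_
    rw [← hfx y hy, hfR]
    simp
  -- complex functions
  set C' : Submodule ℂ ((K →+* ℂ) → ℂ) :=
    { carrier := C
      add_mem' := fun ha hb => hadd _ ha _ hb
      zero_mem' := h0
      smul_mem' := fun r _ ha => hsmul r _ ha } with hC'
  have hmem : ∀ σ, (fun ρ => (((Pi.single σ 1 - Pi.single (cj σ) 1 : (K →+* ℂ) → ℚ) ρ : ℚ) : ℂ))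
      ∈ C' := by
    intro σ
    refine (hC₀mem _).1 (hall _ fun ρ => ?_)
    have h1 : (cj ρ = σ) ↔ (ρ = cj σ) := by
      constructor
      · intro h
        rw [← h, cenC_invol]
      · intro h
        rw [h, cenC_invol]
    have h2 : (cj ρ = cj σ) ↔ (ρ = σ) := by
      constructor
      · intro h
        rw [← cenC_invol ρ, h, cenC_invol]
      · intro h
        rw [h]
    simp only [Pi.sub_apply, Pi.single_apply, h1, h2]
    ring
  have hzz : z = ∑ σ, (z σ / 2) •
      (fun ρ => (((Pi.single σ 1 - Pi.single (cj σ) 1 : (K →+* ℂ) → ℚ) ρ : ℚ) : ℂ)) := by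
    funext ρ
    rw [Finset.sum_apply]
    have h1 : ∀ σ, ((z σ / 2) •
        (fun ρ => (((Pi.single σ 1 - Pi.single (cj σ) 1 : (K →+* ℂ) → ℚ) ρ : ℚ) : ℂ))) ρ =
        (if ρ = σ then z σ / 2 else 0) + (if ρ = cj σ then z (cj σ) / 2 else 0) := by
      intro σ
      rw [hz σ]
      simp only [Pi.smul_apply, Pi.sub_apply, Pi.single_apply, smul_eq_mul]
      split_ifs <;> push_cast <;> ring
    simp only [h1, Finset.sum_add_distrib]
    rw [cenC_sum (fun σ => if ρ = σ then z σ / 2 else 0)]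
    simp
  have hfin : z ∈ C' := by
    rw [hzz]
    exact Submodule.sum_mem _ fun σ _ => Submodule.smul_mem _ _ (hmem σ)
  exact hfin

end Pool.Agent.KSE
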