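import Pool.Agent.KSE.Ts
import Pool.Agent.KSP.CentF

/-!
Module CentE. The analogues of `KSP.comm_productsF`, `KSP.comm_of_productsF` (`Pool/Agent/KSP/CentF.lean`)
for `MD`. For the second one: the operators `∑ σ, σ x • (ts t σ a * ts t (cj σ) b)`, `x : K`, are rational
(`sum_emb`, `S.rat`), and `ts t σ a * ts t (cj σ) b` is a combination of them (`sum_dbas_bas`).
-/

open scoped ComplexConjugate

namespace Pool.Agent.KSE

open Module Matrix NumberField Pool.Agent.Helper7 Pool.Agent.KS Pool.Agent.Ball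
  Pool.Agent.Helper28.GPC

private lemma cente_rat_expand {V : Type} [AddCommGroup V] [Module ℂ V] {K : Type} [Field K]
    [NumberField K] {c : K →+* K} {m : ℕ} {t : Fin m → K → Module.End ℂ V}
    (hconj : ∀ (σ : K →+* ℂ) (x : K), cj σ x = σ (c x)) (x : K) (a b : Fin m) :
    ∑ σ : K →+* ℂ, σ x • (ts t σ a * ts t (cj σ) b) =
      ∑ d, ∑ e, ((Algebra.trace ℚ K (x * dbas K d * c (dbas K e)) : ℚ) : ℂ) •
        (t a (bas K d) * t b (bas K e)) := by
  have h1 : ∀ σ : K →+* ℂ, σ x • (ts t σ a * ts t (cj σ) b) =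
      ∑ d, ∑ e, σ (x * dbas K d * c (dbas K e)) • (t a (bas K d) * t b (bas K e)) := by
    intro σ
    rw [ts, ts, Finset.sum_mul_sum, Finset.smul_sum]
    refine Finset.sum_congr rfl fun d _ => ?_
    rw [Finset.smul_sum]
    refine Finset.sum_congr rfl fun e _ => ?_
    rw [smul_mul_smul_comm, smul_smul, map_mul, map_mul, hconj, mul_assoc]
  rw [Finset.sum_congr rfl fun σ _ => h1 σ, Finset.sum_comm]
  refine Finset.sum_congr rfl fun d _ => ?_
  rw [Finset.sum_comm]
  refine Finset.sum_congr rfl fun e _ => ?_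
  rw [← Finset.sum_smul, sum_emb]

private lemma cente_recover {V : Type} [AddCommGroup V] [Module ℂ V] {K : Type} [Field K]
    [NumberField K] {m : ℕ} {t : Fin m → K → Module.End ℂ V}
    (σ : K →+* ℂ) (a b : Fin m) : ts t σ a * ts t (cj σ) b =
      ∑ d, σ (dbas K d) • ∑ τ : K →+* ℂ, τ (bas K d) • (ts t τ a * ts t (cj τ) b) := by
  classical
  simp only [Finset.smul_sum, smul_smul]
  rw [Finset.sum_comm]
  simp only [← Finset.sum_smul, sum_dbas_bas]
  rw [Finset.sum_eq_single σ]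
  · rw [if_pos rfl, one_smul]
  · intro τ _ hτ
    rw [if_neg (fun h => hτ h.symm), zero_smul]
  · intro h; exact absurd (Finset.mem_univ _) h

private lemma cente_rat {κ : Type} [Fintype κ] [DecidableEq κ] {ϖ : ℂ} {P : PData κ ϖ} {K : Type}
    [Field K] [NumberField K] {c : K →+* K} {m : ℕ} {h : Matrix (Fin m) (Fin m) K}
    {t : Fin m → K → Module.End ℂ (κ → ℂ)} (S : MD P c h t) (x : K) (a b : Fin m) (v : κ → ℂ)
    (hv : v ∈ P.Q) : (∑ σ : K →+* ℂ, σ x • (ts t σ a * ts t (cj σ) b)) v ∈ P.Q := by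
  rw [cente_rat_expand S.conj, LinearMap.sum_apply]
  refine Submodule.sum_mem _ fun d _ => ?_
  rw [LinearMap.sum_apply]
  refine Submodule.sum_mem _ fun e _ => ?_
  rw [LinearMap.smul_apply]
  exact P.rat_smul_mem _ _ (S.rat a _ _ (S.rat b _ v hv))

variable {I : Type} [Fintype I] [DecidableEq I] (n : I → ℕ) {κ : I → Type}
    [∀ i, Fintype (κ i)] [∀ i, DecidableEq (κ i)] {ϖ : ℂ} (hϖ : ϖ ≠ 0) (P : ∀ i, PData (κ i) ϖ)
    (i : I) {K : Type} [Field K] [NumberField K] {c : K →+* K} {m : ℕ}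
    {h : Matrix (Fin m) (Fin m) K} {t : Fin m → K → Module.End ℂ (κ i → ℂ)}
    (S : MD (P i) c h t) {k : ℕ} (γ : MultilinearMap ℂ (fun _ : Fin (2 * k) => HW κ n) ℂ)
    (hB : ∀ v : Fin (2 * k) → HW κ n, (∀ r, IsRatP n P (v r)) → ∃ q : ℚ, γ v = ϖ ^ k * q)
    (hA : ∀ v : Fin (2 * k) → HW κ n, (∀ r i m j, IsAlgebraic ℚ (v r i m j)) →
      IsAlgebraic ℚ (γ v))

include hϖ S hB hA in
theorem comm_productsE (f : Module.End ℂ (κ i → ℂ))
    (hf : ∀ X : GG κ, IsInv n P γ X → X.1 i * f = f * X.1 i) (σ : K →+* ℂ) (a b : Fin m) :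
    f * (ts t σ a * ts t (cj σ) b) = ts t σ a * ts t (cj σ) b * f := by
  obtain ⟨m, c, F, hF, hβ⟩ := bilin_of_inv n P γ hϖ hB hA i i
    ((P i).ψ ∘ₗ f) (by
      intro X hX u v
      have h1 := hX.pol i (f u) v
      have h2 : X.1 i (f u) = f (X.1 i u) := LinearMap.congr_fun (hf X hX) u
      rw [h2] at h1
      exact h1)
  have hsum : f = ∑ l, c l • F l := by
    apply LinearMap.ext
    intro u
    rw [← sub_eq_zero]
    apply (P i).hψnd
    intro v
    have h3 : (P i).ψ (f u) v = ∑ l, c l * (P i).ψ (F l u) v := hβ u v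
    rw [map_sub, LinearMap.sub_apply, h3, LinearMap.sum_apply, map_sum, LinearMap.sum_apply]
    simp only [LinearMap.smul_apply, map_smul, smul_eq_mul, sub_self]
  rw [hsum, Finset.sum_mul, Finset.mul_sum]
  refine Finset.sum_congr rfl fun l _ => ?_
  rw [smul_mul_assoc, mul_smul_comm, ((S.cent (F l)).1 (hF l)).2 σ a b]

include S in
theorem comm_of_productsE (f : Module.End ℂ (κ i → ℂ))
    (hf : ∀ σ a b, f * (ts t σ a * ts t (cj σ) b) = ts t σ a * ts t (cj σ) b * f) (X : GG κ)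
    (hX : IsInv n P γ X) : X.1 i * f = f * X.1 i := by
  obtain ⟨m', c', F, hc, hF, hsum⟩ := cent_decomp (P i) f
  have hFr : ∀ l (x : K) a b, F l * (∑ σ : K →+* ℂ, σ x • (ts t σ a * ts t (cj σ) b)) =
      (∑ σ : K →+* ℂ, σ x • (ts t σ a * ts t (cj σ) b)) * F l := by
    intro l x a b
    refine cent_comm (P i) hc hF ?_ ?_ l
    · intro v hv
      exact cente_rat S x a b v hv
    · rw [← hsum, Finset.mul_sum, Finset.sum_mul]
      refine Finset.sum_congr rfl fun σ _ => ?_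
      rw [mul_smul_comm, smul_mul_assoc, hf]
  have hFc : ∀ l σ a b, F l * (ts t σ a * ts t (cj σ) b) = ts t σ a * ts t (cj σ) b * F l := by
    intro l σ a b
    rw [cente_recover σ a b, Finset.mul_sum, Finset.sum_mul]
    refine Finset.sum_congr rfl fun d _ => ?_
    rw [mul_smul_comm, smul_mul_assoc, hFr]
  have hD : ∀ l, IsDRB (P i) (P i) (F l) := fun l => (S.cent (F l)).2 ⟨hF l, hFc l⟩
  rw [hsum, Finset.sum_mul, Finset.mul_sum]
  refine Finset.sum_congr rfl fun l _ => ?_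
  rw [smul_mul_assoc, mul_smul_comm]
  congr 1
  apply LinearMap.ext
  intro v
  exact hX.comm i i (F l) (hD l) v

include S in
/-- rational combinations of the products of vectors in dual eigenspaces -/
theorem rat_products (x : K) (a b : Fin m) (v : κ i → ℂ) (hv : v ∈ (P i).Q) :
    (∑ σ : K →+* ℂ, σ x • (ts t σ a * ts t (cj σ) b)) v ∈ (P i).Q :=
  cente_rat S x a b v hv

end Pool.Agent.KSE
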