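import Pool.Agent.KSE.DenseE
import Pool.Agent.Helper98.Ball.M2

/-!
Module IrrE. The eigenspaces are irreducible.

`sub_aux`: if `X` is a symmetry acting by `M` then `M ∈ HH` (subtract the homothety
`X.2 / 2`, see `hX0i` in `KSP.hypF_irr`).

`irrC` (`cj σ ≠ σ`): let `W` be stable, `W ≠ 0`. The subspace `U = {v | ∀ w ∈ W, tau (ts σ) w v = 0}` is
stable under the symmetries, so (`stable_productsE`) under `tau (ts σ) x * tau (ts (cj σ)) y`. For
`v ∈ U`, `w ∈ W`: `0 = w x y v = - x w y v = - 2 pr(w, y) x v`, so `tau (ts σ) x v = 0` for all `x`.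
There is a vector `v₀ ≠ 0` which is killed by all `tau (ts σ) x` (they anticommute and are
nilpotent). If `W ≠ ⊤` take `x ∉ W` and `y` with `pr(w, y) = 0` for all `w ∈ W`, `pr(x, y) ≠ 0`.
Then `y v₀ ∈ U`, but `x y v₀ = 2 pr(x, y) v₀ ≠ 0`.
-/

open scoped ComplexConjugate

namespace Pool.Agent.KSE

open Module Matrix NumberField Pool.Agent.Helper7 Pool.Agent.KS Pool.Agent.Ball
  Pool.Agent.Helper28.GPC

variable {I : Type} [Fintype I] [DecidableEq I] (n : I → ℕ) {κ : I → Type}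
    [∀ i, Fintype (κ i)] [∀ i, DecidableEq (κ i)] {ϖ : ℂ} (hϖ : ϖ ≠ 0) (P : ∀ i, PData (κ i) ϖ)
    (i : I) {K : Type} [Field K] [NumberField K] {c : K →+* K} {m : ℕ}
    {h : Matrix (Fin m) (Fin m) K} {t : Fin m → K → Module.End ℂ (κ i → ℂ)}
    (S : MD (P i) c h t) {k : ℕ} (γ : MultilinearMap ℂ (fun _ : Fin (2 * k) => HW κ n) ℂ)
    (hB : ∀ v : Fin (2 * k) → HW κ n, (∀ r, IsRatP n P (v r)) → ∃ q : ℚ, γ v = ϖ ^ k * q)
    (hA : ∀ v : Fin (2 * k) → HW κ n, (∀ r i m j, IsAlgebraic ℚ (v r i m j)) →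
      IsAlgebraic ℚ (γ v))
    (hP : HNd (P i)) (hne : Nonempty (κ i))
    (hT : ∀ X : GG κ, IsInv n P γ X → ∃ M, ActM t (X.1 i) M)

theorem sub_aux (X : GG κ) (hX : IsInv n P γ X) (M : (K →+* ℂ) → Matrix (Fin m) (Fin m) ℂ)
    (hM : ActM t (X.1 i) M) : M ∈ HH n P i t γ := by
  refine ⟨X + (-X.2) • ((fun _ => (1 / 2 : ℂ) • (1 : Module.End ℂ _), 1) : GG κ),
    hX.add _ _ γ ((Helper98.Ball.isInv_homothety _ _ γ).smul _ _ γ _), ?_, ?_⟩
  · show X.2 + (-X.2) * 1 = 0
    ring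
  · intro σ x
    have e : (X + (-X.2) • ((fun _ => (1 / 2 : ℂ) • (1 : Module.End ℂ _), 1) : GG κ)).1 i =
        X.1 i + (-X.2) • ((1 / 2 : ℂ) • (1 : Module.End ℂ (κ i → ℂ))) := rfl
    rw [e, ← hM σ x, add_mul, mul_add, smul_smul, smul_mul_assoc, mul_smul_comm, one_mul, mul_one]
    abel

namespace IrrE

/-- the pairing represents every functional -/
private lemma exists_dual (hnd : h.det ≠ 0) (σ : K →+* ℂ) (W : Submodule ℂ (Fin m → ℂ))
    (x : Fin m → ℂ) (hx : x ∉ W) : ∃ y, (∀ w ∈ W, pr h σ w y = 0) ∧ pr h σ x y ≠ 0 := by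
  obtain ⟨f, hfx, hfW⟩ := Submodule.exists_le_ker_of_notMem hx
  have hdet : IsUnit (h.map σ).det := by
    have e : (h.map σ).det = σ h.det := (RingHom.map_det σ h).symm
    rw [e]
    exact ((map_ne_zero σ).mpr hnd).isUnit
  refine ⟨(h.map σ)⁻¹ *ᵥ (fun a => f (Pi.single a 1)), ?_⟩
  have key : ∀ u : Fin m → ℂ, pr h σ u ((h.map σ)⁻¹ *ᵥ (fun a => f (Pi.single a 1))) = f u := by
    intro u
    rw [pr, Matrix.mulVec_mulVec, Matrix.mul_nonsing_inv _ hdet, Matrix.one_mulVec]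
    conv_rhs => rw [pi_eq_sum_univ' u]
    rw [map_sum, dotProduct]
    refine Finset.sum_congr rfl fun a _ => ?_
    rw [map_smul, smul_eq_mul]
  exact ⟨fun w hw => by rw [key]; exact hfW hw, by rw [key]; exact hfx⟩

variable {V : Type} [AddCommGroup V] [Module ℂ V]

/-- anticommuting operators with square zero have a common kernel -/
private lemma exists_kill [Nontrivial V] {r : ℕ} (f : Fin r → Module.End ℂ V)
    (hf : ∀ a b, f a * f b + f b * f a = 0) (s : Finset (Fin r)) :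
    ∃ v : V, v ≠ 0 ∧ ∀ a ∈ s, f a v = 0 := by
  induction s using Finset.induction_on with
  | empty =>
    obtain ⟨v, hv⟩ := exists_ne (0 : V)
    exact ⟨v, hv, fun a ha => absurd ha (Finset.notMem_empty a)⟩
  | insert b s hb ih =>
    obtain ⟨v, hv, hs⟩ := ih
    by_cases h0 : f b v = 0
    · refine ⟨v, hv, fun a ha => ?_⟩
      rcases Finset.mem_insert.1 ha with rfl | ha
      · exact h0
      · exact hs a ha
    · refine ⟨f b v, h0, fun a ha => ?_⟩
      have h1 : ∀ a, f a (f b v) + f b (f a v) = 0 := fun a => by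
        have := congrArg (fun g : Module.End ℂ V => g v) (hf a b)
        exact this
      rcases Finset.mem_insert.1 ha with rfl | ha
      · have h2 := h1 a
        rw [← two_smul ℂ] at h2
        exact (smul_eq_zero.1 h2).resolve_left two_ne_zero
      · have h2 := h1 a
        rw [hs a ha, map_zero, add_zero] at h2
        exact h2

end IrrE

include hϖ S hB hA hP hne hT in
theorem irrC (σ : K →+* ℂ) (hσ : cj σ ≠ σ) (W : Submodule ℂ (Fin m → ℂ))
    (hW : ∀ M ∈ HH n P i t γ, ∀ v ∈ W, M σ *ᵥ v ∈ W) : W = ⊥ ∨ W = ⊤ := by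
  by_cases hW0 : W = ⊥
  · exact Or.inl hW0
  by_cases hW1 : W = ⊤
  · exact Or.inr hW1
  exfalso
  have hanti : ∀ x y : Fin m → ℂ, tau (ts t σ) x * tau (ts t σ) y +
      tau (ts t σ) y * tau (ts t σ) x = 0 := fun x y => tau_anti S.conj S.cliff (Ne.symm hσ) x y
  have hpair : ∀ (x y : Fin m → ℂ) (v : κ i → ℂ), tau (ts t σ) x (tau (ts t (cj σ)) y v) +
      tau (ts t (cj σ)) y (tau (ts t σ) x v) = (2 * pr h σ x y) • v := by
    intro x y v
    have := congrArg (fun g : Module.End ℂ (κ i → ℂ) => g v) (tau_pair S.conj S.cliff σ x y)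
    exact this
  have hanti' : ∀ (x y : Fin m → ℂ) (v : κ i → ℂ), tau (ts t σ) x (tau (ts t σ) y v) +
      tau (ts t σ) y (tau (ts t σ) x v) = 0 := by
    intro x y v
    have := congrArg (fun g : Module.End ℂ (κ i → ℂ) => g v) (hanti x y)
    exact this
  -- the kernel of `W`
  let U : Submodule ℂ (κ i → ℂ) :=
    { carrier := {v | ∀ w ∈ W, tau (ts t σ) w v = 0}
      zero_mem' := fun w _ => map_zero _
      add_mem' := fun {u v} hu hv w hw => by rw [map_add, hu w hw, hv w hw, add_zero]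
      smul_mem' := fun r v hv w hw => by rw [map_smul, hv w hw, smul_zero] }
  have hUst : ∀ X : GG κ, IsInv n P γ X → ∀ v ∈ U, X.1 i v ∈ U := by
    intro X hX v hv w hw
    obtain ⟨M, hM⟩ := hT X hX
    have hMH := sub_aux n P i γ X hX M hM
    have h1 := congrArg (fun g : Module.End ℂ (κ i → ℂ) => g v) (hM σ w)
    have h2 : X.1 i (tau (ts t σ) w v) - tau (ts t σ) w (X.1 i v) = tau (ts t σ) (M σ *ᵥ w) v := h1
    rw [hv w hw, hv _ (hW M hMH w hw), map_zero, zero_sub, neg_eq_zero] at h2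
    exact h2
  have hprod : ∀ (x y : Fin m → ℂ) (v : κ i → ℂ), v ∈ U →
      tau (ts t σ) x (tau (ts t (cj σ)) y v) ∈ U := by
    intro x y v hv
    rw [tau_apply, tau_apply, LinearMap.sum_apply]
    refine U.sum_mem fun a _ => ?_
    rw [LinearMap.smul_apply, LinearMap.sum_apply, map_sum]
    refine U.smul_mem _ (U.sum_mem fun b _ => ?_)
    rw [LinearMap.smul_apply, map_smul]
    exact U.smul_mem _ (stable_productsE n hϖ P i S γ hB hA hP U hUst σ a b v hv)
  -- all vectors kill `U`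
  obtain ⟨w0, hw0, hw0'⟩ := (Submodule.ne_bot_iff W).1 hW0
  obtain ⟨y0, hy0⟩ : ∃ y, pr h σ w0 y ≠ 0 := by
    by_contra hcon
    push Not at hcon
    exact hw0' (pr_nd S.nd σ w0 hcon)
  have hkill : ∀ (v : κ i → ℂ), v ∈ U → ∀ x, tau (ts t σ) x v = 0 := by
    intro v hv x
    have h1 : tau (ts t σ) w0 (tau (ts t σ) x (tau (ts t (cj σ)) y0 v)) = 0 :=
      hprod x y0 v hv w0 hw0
    have h2 := hanti' w0 x (tau (ts t (cj σ)) y0 v)
    rw [h1, zero_add] at h2
    have h3 := hpair w0 y0 v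
    rw [hv w0 hw0, map_zero, add_zero] at h3
    rw [h3, map_smul] at h2
    exact (smul_eq_zero.1 h2).resolve_left (mul_ne_zero two_ne_zero hy0)
  -- a vector killed by everything
  have : Nontrivial (κ i → ℂ) := by
    obtain ⟨j⟩ := hne
    exact ⟨⟨0, Pi.single j 1, fun h0 => by
      have := congrFun h0 j
      simp at this⟩⟩
  obtain ⟨v0, hv0, hv0'⟩ := IrrE.exists_kill (ts t σ) (fun a b => by
    have := hanti (Pi.single a 1) (Pi.single b 1)
    rwa [tau_single, tau_single] at this) Finset.univ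
  have hv0k : ∀ x, tau (ts t σ) x v0 = 0 := by
    intro x
    rw [tau_apply, LinearMap.sum_apply]
    refine Finset.sum_eq_zero fun a _ => ?_
    rw [LinearMap.smul_apply, hv0' a (Finset.mem_univ a), smul_zero]
  obtain ⟨x, hx⟩ : ∃ x, x ∉ W := by
    by_contra hcon
    push Not at hcon
    exact hW1 (Submodule.eq_top_iff'.2 hcon)
  obtain ⟨y, hy1, hy2⟩ := IrrE.exists_dual S.nd σ W x hx
  have hmem : tau (ts t (cj σ)) y v0 ∈ U := by
    intro w hw
    have h1 := hpair w y v0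
    rw [hv0k w, map_zero, add_zero, hy1 w hw, mul_zero, zero_smul] at h1
    exact h1
  have h1 := hpair x y v0
  rw [hkill _ hmem x, hv0k x, map_zero, add_zero] at h1
  rcases smul_eq_zero.1 h1.symm with h2 | h2
  · exact (mul_ne_zero two_ne_zero hy2) h2
  · exact hv0 h2

end Pool.Agent.KSE
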