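import Pool.Agent.KSE.DenseE
import Pool.Agent.KS.Volume

/-!
Module StarC. For even `m` the symmetries do not preserve a symmetric form up to scalars at a place with
`cj σ₀ ≠ σ₀`.

Put `e a = U *ᵥ Pi.single a 1`, `f b` the dual basis for `pr h σ₀` (the columns of `(h.map σ₀)⁻¹ * Vᵀ`),
`A a = tau (ts t σ₀) (e a)`, `B b = tau (ts t (cj σ₀)) (f b)`. Then `A a A b + A b A a = 0`,
`B a B b + B b B a = 0`, `A a B b + B b A a = 2 δ`. If `X` acts by `M` and `V * M σ₀ * U = R + z` with
`Rᵀ = - R`, then `[X, A b] = ∑ a, R a b • A a + z A b`, `[X, B b] = ∑ a, R a b • B a - z B b`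
(`ActM.skew`). Let `N a = A a * B a`, `Nt = ∑ a, N a`: `N a * N a = 2 N a`, `[Nt, A b] = 2 A b`,
`[Nt, B b] = - 2 B b`, `[X, Nt] = 0`. Let `ω` be the volume element (`KS.volume`, for
`t' : Fin (m + m) → End` given by the `A a` and `B b`) of `W = {(x, x)}`: `ω` commutes with `X - (z / 2) Nt`,
and it anticommutes with `(A a + B a) (A a - B a) = - 2 (N a - 1)`, so with `N a - 1` and `Nt - m`. Let
`U0 = ker (Nt - m)`; `U0 ≠ ⊥` as `m` is even (take `u` with `B a u = 0` for all `a`, `u ≠ 0`, and apply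
`m / 2` of the `A a`). `ω` preserves `U0`; take an eigenvalue `l ≠ 0` and
`U1 = {v ∈ U0 | ω v = l v} ≠ ⊥`. `U1` is stable under the symmetries, so (`stable_productsE`) under
`N 0`. For `v ∈ U1`, `w = N 0 v - v ∈ U1` and `l w = ω w = - (N 0 - 1) ω v = - l w`, so `w = 0`,
`v = N 0 v = N 0 (N 0 v) = 2 N 0 v = 2 v`, `v = 0`: contradiction.
-/

open scoped ComplexConjugate

namespace Pool.Agent.KSE

open Module Matrix NumberField Pool.Agent.Helper7 Pool.Agent.KS Pool.Agent.Ball
  Pool.Agent.Helper28.GPC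

namespace StarC

section abs

variable {V : Type} [AddCommGroup V] [Module ℂ V] {m : ℕ}

/-- the pairing of two copies -/
noncomputable def qq (m : ℕ) : LinearMap.BilinForm ℂ (Fin (m + m) → ℂ) :=
  LinearMap.mk₂ ℂ (fun p p' => (fun a : Fin m => p (Fin.castAdd m a)) ⬝ᵥ
      (fun a : Fin m => p' (Fin.natAdd m a)) +
    (fun a : Fin m => p (Fin.natAdd m a)) ⬝ᵥ (fun a : Fin m => p' (Fin.castAdd m a)))
    (by
      intro x y z
      simp only [dotProduct, Pi.add_apply, add_mul, Finset.sum_add_distrib]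
      ring)
    (by
      intro r x y
      simp only [dotProduct, Pi.smul_apply, smul_eq_mul, mul_add, Finset.mul_sum, mul_assoc])
    (by
      intro x y z
      simp only [dotProduct, Pi.add_apply, mul_add, Finset.sum_add_distrib]
      ring)
    (by
      intro r x y
      simp only [dotProduct, Pi.smul_apply, smul_eq_mul, mul_add, Finset.mul_sum]
      congr 1 <;> exact Finset.sum_congr rfl fun a _ => by ring)

lemma qq_apply (p p' : Fin (m + m) → ℂ) : qq m p p' =
    (fun a : Fin m => p (Fin.castAdd m a)) ⬝ᵥ (fun a : Fin m => p' (Fin.natAdd m a)) +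
    (fun a : Fin m => p (Fin.natAdd m a)) ⬝ᵥ (fun a : Fin m => p' (Fin.castAdd m a)) := rfl

lemma qq_symm (p p' : Fin (m + m) → ℂ) : qq m p p' = qq m p' p := by
  rw [qq_apply, qq_apply, dotProduct_comm, add_comm, dotProduct_comm]

lemma append_l (x y : Fin m → ℂ) :
    (fun a : Fin m => (Fin.append x y : Fin (m + m) → ℂ) (Fin.castAdd m a)) = x := by
  funext a
  exact Fin.append_left x y a

lemma append_r (x y : Fin m → ℂ) :
    (fun a : Fin m => (Fin.append x y : Fin (m + m) → ℂ) (Fin.natAdd m a)) = y := by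
  funext a
  exact Fin.append_right x y a

lemma ext2 {p p' : Fin (m + m) → ℂ} (h1 : ∀ a, p (Fin.castAdd m a) = p' (Fin.castAdd m a))
    (h2 : ∀ a, p (Fin.natAdd m a) = p' (Fin.natAdd m a)) : p = p' := by
  funext i
  refine Fin.addCases (fun a => ?_) (fun a => ?_) i
  · exact h1 a
  · exact h2 a

lemma qq_nd' (p : Fin (m + m) → ℂ) (hp : ∀ p', qq m p p' = 0) : p = 0 := by
  apply ext2
  · intro a
    have h1 := hp (Fin.append 0 (Pi.single a 1))
    rw [qq_apply, append_l, append_r, dotProduct_zero, add_zero, dotProduct_single, mul_one] at h1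
    exact h1
  · intro a
    have h1 := hp (Fin.append (Pi.single a 1) 0)
    rw [qq_apply, append_l, append_r, dotProduct_zero, zero_add, dotProduct_single, mul_one] at h1
    exact h1

lemma qq_nd : (qq m).Nondegenerate := by
  constructor
  · intro p hp
    exact qq_nd' p hp
  · intro p hp
    exact qq_nd' p fun p' => by rw [qq_symm]; exact hp p'

/-- the diagonal -/
def WW (m : ℕ) : Submodule ℂ (Fin (m + m) → ℂ) where
  carrier := {p | ∀ a : Fin m, p (Fin.castAdd m a) = p (Fin.natAdd m a)}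
  add_mem' := by
    intro p p' h h' a
    rw [Pi.add_apply, Pi.add_apply, h a, h' a]
  zero_mem' := fun _ => rfl
  smul_mem' := by
    intro r p h a
    rw [Pi.smul_apply, Pi.smul_apply, h a]

lemma WW_nd (p : Fin (m + m) → ℂ) (hp : p ∈ WW m) (h : ∀ p' ∈ WW m, qq m p p' = 0) : p = 0 := by
  have key : ∀ a, p (Fin.natAdd m a) = 0 := by
    intro a
    have h1 := h (Fin.append (Pi.single a 1) (Pi.single a 1)) (by
      intro b
      rw [Fin.append_left, Fin.append_right])
    rw [qq_apply, append_l, append_r, dotProduct_single, dotProduct_single, mul_one, mul_one,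
      hp a] at h1
    linear_combination h1 / 2
  apply ext2
  · intro a
    rw [hp a, key a]
    rfl
  · intro a
    rw [key a]
    rfl

lemma tau_app (A B : Fin m → Module.End ℂ V) (p : Fin (m + m) → ℂ) :
    tau (Fin.append A B) p = tau A (fun a => p (Fin.castAdd m a)) +
      tau B (fun a => p (Fin.natAdd m a)) := by
  rw [tau_apply, tau_apply, tau_apply, Fin.sum_univ_add]
  simp only [Fin.append_left, Fin.append_right]

/-- the action by a matrix on two copies -/
noncomputable def MM (R : Matrix (Fin m) (Fin m) ℂ) : Module.End ℂ (Fin (m + m) → ℂ) where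
  toFun p := Fin.append (R *ᵥ (fun a => p (Fin.castAdd m a))) (R *ᵥ (fun a => p (Fin.natAdd m a)))
  map_add' := by
    intro p p'
    apply ext2
    · intro a
      rw [Pi.add_apply, Fin.append_left, Fin.append_left, Fin.append_left]
      have e : (fun a => (p + p') (Fin.castAdd m a)) = (fun a => p (Fin.castAdd m a)) +
        (fun a => p' (Fin.castAdd m a)) := rfl
      rw [e, Matrix.mulVec_add, Pi.add_apply]
    · intro a
      rw [Pi.add_apply, Fin.append_right, Fin.append_right, Fin.append_right]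
      have e : (fun a => (p + p') (Fin.natAdd m a)) = (fun a => p (Fin.natAdd m a)) +
        (fun a => p' (Fin.natAdd m a)) := rfl
      rw [e, Matrix.mulVec_add, Pi.add_apply]
  map_smul' := by
    intro r p
    apply ext2
    · intro a
      rw [RingHom.id_apply, Pi.smul_apply, Fin.append_left, Fin.append_left]
      have e : (fun a => (r • p) (Fin.castAdd m a)) = r • (fun a => p (Fin.castAdd m a)) := rfl
      rw [e, Matrix.mulVec_smul, Pi.smul_apply]
    · intro a
      rw [RingHom.id_apply, Pi.smul_apply, Fin.append_right, Fin.append_right]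
      have e : (fun a => (r • p) (Fin.natAdd m a)) = r • (fun a => p (Fin.natAdd m a)) := rfl
      rw [e, Matrix.mulVec_smul, Pi.smul_apply]

lemma MM_apply (R : Matrix (Fin m) (Fin m) ℂ) (p : Fin (m + m) → ℂ) : MM R p =
    Fin.append (R *ᵥ (fun a => p (Fin.castAdd m a))) (R *ᵥ (fun a => p (Fin.natAdd m a))) := rfl

lemma skew_dot {R : Matrix (Fin m) (Fin m) ℂ} (hR : Rᵀ = -R) (x y : Fin m → ℂ) :
    (R *ᵥ x) ⬝ᵥ y = -(x ⬝ᵥ (R *ᵥ y)) := by
  rw [Matrix.dotProduct_mulVec, ← Matrix.mulVec_transpose, hR, Matrix.neg_mulVec,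
    neg_dotProduct, neg_neg]

variable {A B : Fin m → Module.End ℂ V}

lemma mul_tau (hAA : ∀ a b, A a * A b + A b * A a = 0) (x y : Fin m → ℂ) :
    tau A x * tau A y + tau A y * tau A x = 0 := by
  rw [tau_apply, tau_apply, Finset.sum_mul_sum, Finset.sum_mul_sum, Finset.sum_comm (f := fun i j =>
    y i • A i * x j • A j), ← Finset.sum_add_distrib]
  refine Finset.sum_eq_zero fun d _ => ?_
  rw [← Finset.sum_add_distrib]
  refine Finset.sum_eq_zero fun e _ => ?_
  rw [smul_mul_smul_comm, smul_mul_smul_comm, mul_comm (y _), ← smul_add, hAA, smul_zero]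

lemma mul_tau2 (hAB : ∀ a b, A a * B b + B b * A a = (if a = b then 2 else 0 : ℂ) • 1)
    (x y : Fin m → ℂ) : tau A x * tau B y + tau B y * tau A x = (2 * (x ⬝ᵥ y)) • 1 := by
  rw [tau_apply, tau_apply, Finset.sum_mul_sum, Finset.sum_mul_sum, Finset.sum_comm (f := fun i j =>
    y i • B i * x j • A j), ← Finset.sum_add_distrib, dotProduct, Finset.mul_sum, Finset.sum_smul]
  refine Finset.sum_congr rfl fun d _ => ?_
  rw [← Finset.sum_add_distrib, Finset.sum_eq_single d]
  · rw [smul_mul_smul_comm, smul_mul_smul_comm, mul_comm (y _), ← smul_add, hAB, if_pos rfl,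
      smul_smul]
    congr 1
    ring
  · intro e _ he
    rw [smul_mul_smul_comm, smul_mul_smul_comm, mul_comm (y _), ← smul_add, hAB,
      if_neg (Ne.symm he), zero_smul, smul_zero]
  · intro h
    exact absurd (Finset.mem_univ _) h

/-- the volume element of the diagonal -/
theorem exists_om (hAA : ∀ a b, A a * A b + A b * A a = 0)
    (hBB : ∀ a b, B a * B b + B b * B a = 0)
    (hAB : ∀ a b, A a * B b + B b * A a = (if a = b then 2 else 0 : ℂ) • 1) :
    ∃ ω ω' : Module.End ℂ V, ω * ω' = 1 ∧ ω' * ω = 1 ∧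
      (∀ (Y : Module.End ℂ V) (R : Matrix (Fin m) (Fin m) ℂ), Rᵀ = -R →
        (∀ x, Y * tau A x - tau A x * Y = tau A (R *ᵥ x)) →
        (∀ x, Y * tau B x - tau B x * Y = tau B (R *ᵥ x)) → Y * ω = ω * Y) ∧
      ∀ a, (A a * B a - 1) * ω = -(ω * (A a * B a - 1)) := by
  have hcl : ∀ x y, tau (Fin.append A B) x * tau (Fin.append A B) y +
      tau (Fin.append A B) y * tau (Fin.append A B) x = (2 * qq m x y) • 1 := by
    intro x y
    simp only [tau_app]
    set x1 : Fin m → ℂ := fun a => x (Fin.castAdd m a)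
    set x2 : Fin m → ℂ := fun a => x (Fin.natAdd m a)
    set y1 : Fin m → ℂ := fun a => y (Fin.castAdd m a)
    set y2 : Fin m → ℂ := fun a => y (Fin.natAdd m a)
    have e : (tau A x1 + tau B x2) * (tau A y1 + tau B y2) +
        (tau A y1 + tau B y2) * (tau A x1 + tau B x2) =
        (tau A x1 * tau A y1 + tau A y1 * tau A x1) + (tau B x2 * tau B y2 + tau B y2 * tau B x2) +
        ((tau A x1 * tau B y2 + tau B y2 * tau A x1) +
          (tau A y1 * tau B x2 + tau B x2 * tau A y1)) := by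
      noncomm_ring
    rw [e, mul_tau hAA, mul_tau hBB, mul_tau2 hAB, mul_tau2 hAB, zero_add, zero_add, ← add_smul]
    congr 1
    rw [qq_apply, dotProduct_comm y1 x2]
    ring
  obtain ⟨ω, ω', h1, h2, h3, h4⟩ := volume (qq m) qq_symm qq_nd hcl (WW m) WW_nd
  refine ⟨ω, ω', h1, h2, ?_, ?_⟩
  · intro Y R hR hYA hYB
    refine h3 Y (MM R) ?_ ?_ ?_
    · intro x
      rw [tau_app, tau_app, MM_apply, append_l, append_r, ← hYA, ← hYB]
      noncomm_ring
    · intro x y
      rw [MM_apply, MM_apply, qq_apply, qq_apply, append_l, append_r, append_l, append_r,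
        skew_dot hR, skew_dot hR]
      ring
    · intro w hw a
      rw [MM_apply, Fin.append_left, Fin.append_right]
      congr 2
      funext b
      exact hw b
  · intro a
    have h5 := h4 (Fin.append (Pi.single a 1) (Pi.single a 1)) (by
      intro b
      rw [Fin.append_left, Fin.append_right]) (Fin.append (Pi.single a 1) (-Pi.single a 1)) (by
      intro w hw
      rw [qq_apply, append_l, append_r, dotProduct_neg, dotProduct_single, dotProduct_single,
        hw a]
      ring)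
    rw [tau_app, tau_app, append_l, append_r, append_l, append_r, map_neg] at h5
    have hta : ∀ C : Fin m → Module.End ℂ V, tau C (Pi.single a 1) = C a := by
      intro C
      rw [tau_apply, Finset.sum_eq_single a]
      · rw [Pi.single_eq_same, one_smul]
      · intro b _ hb
        rw [Pi.single_eq_of_ne hb, zero_smul]
      · intro h; exact absurd (Finset.mem_univ _) h
    rw [hta, hta] at h5
    have hA2 : A a * A a = 0 := by
      have h6 := hAA a a
      rw [← two_smul ℂ] at h6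
      exact (smul_eq_zero.mp h6).resolve_left two_ne_zero
    have hB2 : B a * B a = 0 := by
      have h6 := hBB a a
      rw [← two_smul ℂ] at h6
      exact (smul_eq_zero.mp h6).resolve_left two_ne_zero
    have hBA : B a * A a = (2 : ℂ) • 1 - A a * B a := by
      rw [← if_pos (c := a = a) rfl (t := (2 : ℂ)) (e := 0), ← hAB a a]
      abel
    have e1 : (A a + B a) * (A a + -B a) = (-2 : ℂ) • (A a * B a - 1) := by
      have e2 : (A a + B a) * (A a + -B a) = A a * A a - B a * B a - A a * B a + B a * A a := by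
        noncomm_ring
      rw [e2, hA2, hB2, hBA]
      module
    rw [e1, smul_mul_assoc, mul_smul_comm, ← smul_neg] at h5
    exact smul_right_injective _ (by norm_num : (-2 : ℂ) ≠ 0) h5

lemma N_sq (hAA : ∀ a b, A a * A b + A b * A a = 0)
    (hBB : ∀ a b, B a * B b + B b * B a = 0)
    (hAB : ∀ a b, A a * B b + B b * A a = (if a = b then 2 else 0 : ℂ) • 1) (a : Fin m) :
    A a * A a = 0 ∧ B a * B a = 0 ∧ B a * A a = (2 : ℂ) • 1 - A a * B a := by
  refine ⟨?_, ?_, ?_⟩
  · have h6 := hAA a a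
    rw [← two_smul ℂ] at h6
    exact (smul_eq_zero.mp h6).resolve_left two_ne_zero
  · have h6 := hBB a a
    rw [← two_smul ℂ] at h6
    exact (smul_eq_zero.mp h6).resolve_left two_ne_zero
  · rw [← if_pos (c := a = a) rfl (t := (2 : ℂ)) (e := 0), ← hAB a a]
    abel

/-- joint eigenvectors of the number operators -/
theorem exists_vec [Nontrivial V] (hAA : ∀ a b, A a * A b + A b * A a = 0)
    (hBB : ∀ a b, B a * B b + B b * B a = 0)
    (hAB : ∀ a b, A a * B b + B b * A a = (if a = b then 2 else 0 : ℂ) • 1)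
    (τ : Fin m → Prop) [DecidablePred τ] (s : Finset (Fin m)) :
    ∃ v : V, v ≠ 0 ∧ ∀ a ∈ s, (A a * B a) v = (if τ a then 2 else 0 : ℂ) • v := by
  induction s using Finset.induction_on with
  | empty =>
    obtain ⟨v, hv⟩ := exists_ne (0 : V)
    exact ⟨v, hv, fun a ha => absurd ha (Finset.notMem_empty a)⟩
  | insert a s ha ih =>
    obtain ⟨v, hv, hs⟩ := ih
    obtain ⟨hA2, hB2, hBA⟩ := N_sq hAA hBB hAB a
    have cA : ∀ b, b ≠ a → (A b * B b) * A a = A a * (A b * B b) := by
      intro b hb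
      have h1 : B b * A a = - (A a * B b) := by
        have h2 := hAB a b
        rw [if_neg (Ne.symm hb), zero_smul] at h2
        exact eq_neg_of_add_eq_zero_right h2
      have h3 : A b * A a = -(A a * A b) := eq_neg_of_add_eq_zero_left (hAA b a)
      rw [mul_assoc, h1, mul_neg, ← mul_assoc, h3, neg_mul, neg_neg, mul_assoc]
    have cB : ∀ b, b ≠ a → (A b * B b) * B a = B a * (A b * B b) := by
      intro b hb
      have h1 : A b * B a = - (B a * A b) := by
        have h2 := hAB b a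
        rw [if_neg hb, zero_smul] at h2
        exact eq_neg_of_add_eq_zero_left h2
      have h3 : B b * B a = -(B a * B b) := eq_neg_of_add_eq_zero_left (hBB b a)
      rw [mul_assoc, h3, mul_neg, ← mul_assoc, h1, neg_mul, neg_neg, mul_assoc]
    have key : ∀ (Z : Module.End ℂ V), (∀ b, b ≠ a → (A b * B b) * Z = Z * (A b * B b)) →
        ∀ b ∈ s, (A b * B b) (Z v) = (if τ b then 2 else 0 : ℂ) • Z v := by
      intro Z hZ b hb
      have hba : b ≠ a := fun h => ha (h ▸ hb)
      rw [← Module.End.mul_apply, hZ b hba, Module.End.mul_apply, hs b hb, map_smul]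
    have cN : ∀ b, b ≠ a → (A b * B b) * (A a * B a) = (A a * B a) * (A b * B b) := by
      intro b hb
      rw [← mul_assoc, cA b hb, mul_assoc, cB b hb, ← mul_assoc]
    have hNN : (A a * B a) * (A a * B a) = (2 : ℂ) • (A a * B a) := by
      have e : (A a * B a) * (A a * B a) = A a * (B a * A a) * B a := by noncomm_ring
      rw [e, hBA]
      have e2 : A a * ((2 : ℂ) • 1 - A a * B a) * B a = (2 : ℂ) • (A a * B a) -
          (A a * A a) * (B a * B a) := by
        rw [mul_sub, sub_mul, mul_smul_comm, mul_one, smul_mul_assoc]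
        congr 1
      rw [e2, hA2, zero_mul, sub_zero]
    have fin : ∀ w : V, w ≠ 0 → (A a * B a) w = (if τ a then 2 else 0 : ℂ) • w →
        (∀ b ∈ s, (A b * B b) w = (if τ b then 2 else 0 : ℂ) • w) →
        ∃ v : V, v ≠ 0 ∧ ∀ b ∈ insert a s, (A b * B b) v = (if τ b then 2 else 0 : ℂ) • v := by
      intro w hw h1 h2
      refine ⟨w, hw, fun b hb => ?_⟩
      rcases Finset.mem_insert.mp hb with rfl | hb
      · exact h1
      · exact h2 b hb
    by_cases hτ : τ a
    · by_cases h0 : (A a * B a) v = 0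
      · refine fin (A a v) ?_ ?_ (key _ cA)
        · intro h1
          have h2 : (B a * A a) v = (2 : ℂ) • v := by
            rw [hBA, LinearMap.sub_apply, h0, sub_zero]
            rfl
          rw [Module.End.mul_apply, h1, map_zero] at h2
          exact hv ((smul_eq_zero.mp h2.symm).resolve_left two_ne_zero)
        · rw [if_pos hτ, ← Module.End.mul_apply, mul_assoc, hBA, mul_sub, mul_smul_comm, mul_one,
            ← mul_assoc, hA2, zero_mul, sub_zero]
          rfl
      · refine fin ((A a * B a) v) h0 ?_ (key _ cN)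
        rw [if_pos hτ, ← Module.End.mul_apply, hNN]
        rfl
    · by_cases h0 : (A a * B a) v = (2 : ℂ) • v
      · refine fin (B a v) ?_ ?_ (key _ cB)
        · intro h1
          rw [Module.End.mul_apply, h1, map_zero] at h0
          exact hv ((smul_eq_zero.mp h0.symm).resolve_left two_ne_zero)
        · rw [if_neg hτ, ← Module.End.mul_apply, mul_assoc, hB2, mul_zero, zero_smul,
            LinearMap.zero_apply]
      · refine fin (((2 : ℂ) • 1 - A a * B a) v) ?_ ?_ (key _ ?_)
        · intro h1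
          apply h0
          rw [LinearMap.sub_apply, sub_eq_zero] at h1
          exact h1.symm
        · rw [if_neg hτ, ← Module.End.mul_apply, mul_sub, hNN, mul_smul_comm, mul_one, sub_self,
            zero_smul]
          rfl
        · intro b hb
          rw [mul_sub, sub_mul, cN b hb, mul_smul_comm, smul_mul_assoc, mul_one, one_mul]

lemma tau_comp (T : (Fin m → ℂ) →ₗ[ℂ] Module.End ℂ V) (U : Matrix (Fin m) (Fin m) ℂ)
    (x : Fin m → ℂ) : tau (fun a => T (U *ᵥ Pi.single a 1)) x = T (U *ᵥ x) := by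
  have e : U *ᵥ x = ∑ a, x a • (U *ᵥ Pi.single a 1) := by
    funext j
    rw [Finset.sum_apply, Matrix.mulVec, dotProduct]
    refine Finset.sum_congr rfl fun a _ => ?_
    rw [Pi.smul_apply, Matrix.mulVec_single_one, smul_eq_mul, mul_comm]
    rfl
  rw [tau_apply, e, map_sum]
  simp only [map_smul]

lemma tau_single (C : Fin m → Module.End ℂ V) (a : Fin m) : tau C (Pi.single a 1) = C a := by
  rw [tau_apply, Finset.sum_eq_single a]
  · rw [Pi.single_eq_same, one_smul]
  · intro b _ hb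
    rw [Pi.single_eq_of_ne hb, zero_smul]
  · intro h; exact absurd (Finset.mem_univ _) h

lemma tau_col (C : Fin m → Module.End ℂ V) (R : Matrix (Fin m) (Fin m) ℂ) (b : Fin m) :
    tau C (R *ᵥ Pi.single b 1) = ∑ a, R a b • C a := by
  rw [tau_apply, Matrix.mulVec_single_one]
  rfl

lemma Nt_A (hAA : ∀ a b, A a * A b + A b * A a = 0)
    (hAB : ∀ a b, A a * B b + B b * A a = (if a = b then 2 else 0 : ℂ) • 1) (x : Fin m → ℂ) :
    (∑ a, A a * B a) * tau A x - tau A x * (∑ a, A a * B a) = (2 : ℂ) • tau A x := by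
  have h1 : ∀ a b, A a * B a * A b - A b * (A a * B a) = (if b = a then 2 else 0 : ℂ) • A a := by
    intro a b
    have e : A a * B a * A b - A b * (A a * B a) =
        A a * (A b * B a + B a * A b) - (A a * A b + A b * A a) * B a := by noncomm_ring
    rw [e, hAB, hAA, zero_mul, sub_zero, mul_smul_comm, mul_one]
  rw [tau_apply, Finset.sum_mul_sum, Finset.sum_mul_sum, Finset.sum_comm (f := fun i j =>
    x i • A i * (A j * B j)), ← Finset.sum_sub_distrib, Finset.smul_sum]
  refine Finset.sum_congr rfl fun a _ => ?_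
  rw [← Finset.sum_sub_distrib, Finset.sum_eq_single a]
  · rw [mul_smul_comm, smul_mul_assoc, ← smul_sub, h1, if_pos rfl, smul_comm]
  · intro b _ hb
    rw [mul_smul_comm, smul_mul_assoc, ← smul_sub, h1, if_neg hb, zero_smul, smul_zero]
  · intro h; exact absurd (Finset.mem_univ _) h

lemma Nt_B (hBB : ∀ a b, B a * B b + B b * B a = 0)
    (hAB : ∀ a b, A a * B b + B b * A a = (if a = b then 2 else 0 : ℂ) • 1) (x : Fin m → ℂ) :
    (∑ a, A a * B a) * tau B x - tau B x * (∑ a, A a * B a) = (-2 : ℂ) • tau B x := by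
  have h1 : ∀ a b, A a * B a * B b - B b * (A a * B a) = (if a = b then -2 else 0 : ℂ) • B a := by
    intro a b
    have e : A a * B a * B b - B b * (A a * B a) =
        A a * (B a * B b + B b * B a) - (A a * B b + B b * A a) * B a := by noncomm_ring
    rw [e, hAB, hBB, mul_zero, zero_sub, smul_mul_assoc, one_mul, ← neg_smul]
    congr 1
    split_ifs <;> simp
  rw [tau_apply, Finset.sum_mul_sum, Finset.sum_mul_sum, Finset.sum_comm (f := fun i j =>
    x i • B i * (A j * B j)), ← Finset.sum_sub_distrib, Finset.smul_sum]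
  refine Finset.sum_congr rfl fun a _ => ?_
  rw [← Finset.sum_sub_distrib, Finset.sum_eq_single a]
  · rw [mul_smul_comm, smul_mul_assoc, ← smul_sub, h1, if_pos rfl, smul_comm]
  · intro b _ hb
    rw [mul_smul_comm, smul_mul_assoc, ← smul_sub, h1, if_neg (Ne.symm hb), zero_smul, smul_zero]
  · intro h; exact absurd (Finset.mem_univ _) h

lemma X_Nt {X : Module.End ℂ V} {R : Matrix (Fin m) (Fin m) ℂ} (hR : Rᵀ = -R) {z : ℂ}
    (hA : ∀ x, X * tau A x - tau A x * X = tau A (R *ᵥ x) + z • tau A x)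
    (hB : ∀ x, X * tau B x - tau B x * X = tau B (R *ᵥ x) - z • tau B x) :
    X * (∑ a, A a * B a) = (∑ a, A a * B a) * X := by
  rw [← sub_eq_zero, Finset.mul_sum, Finset.sum_mul, ← Finset.sum_sub_distrib]
  have h1 : ∀ b, X * (A b * B b) - A b * B b * X =
      ∑ a, R a b • (A a * B b) + ∑ a, R a b • (A b * B a) := by
    intro b
    have hA' := hA (Pi.single b 1)
    have hB' := hB (Pi.single b 1)
    rw [tau_single, tau_col] at hA' hB'
    have e : X * (A b * B b) - A b * B b * X = (X * A b - A b * X) * B b +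
        A b * (X * B b - B b * X) := by noncomm_ring
    rw [e, hA', hB', add_mul, mul_sub, smul_mul_assoc, mul_smul_comm, Finset.sum_mul,
      Finset.mul_sum]
    simp only [smul_mul_assoc, mul_smul_comm]
    abel
  rw [Finset.sum_congr rfl fun b _ => h1 b, Finset.sum_add_distrib, Finset.sum_comm,
    ← Finset.sum_add_distrib]
  refine Finset.sum_eq_zero fun a _ => ?_
  rw [← Finset.sum_add_distrib]
  refine Finset.sum_eq_zero fun b _ => ?_
  have h2 : R b a = - R a b := by
    have := congrFun (congrFun hR a) b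
    exact this
  rw [h2, neg_smul, add_neg_cancel]

end abs

end StarC

variable {I : Type} [Fintype I] [DecidableEq I] (n : I → ℕ) {κ : I → Type}
    [∀ i, Fintype (κ i)] [∀ i, DecidableEq (κ i)] {ϖ : ℂ} (hϖ : ϖ ≠ 0) (P : ∀ i, PData (κ i) ϖ)
    (i : I) {K : Type} [Field K] [NumberField K] {c : K →+* K} {m : ℕ}
    {h : Matrix (Fin m) (Fin m) K} {t : Fin m → K → Module.End ℂ (κ i → ℂ)}
    (S : MD (P i) c h t) {k : ℕ} (γ : MultilinearMap ℂ (fun _ : Fin (2 * k) => HW κ n) ℂ)
    (hB : ∀ v : Fin (2 * k) → HW κ n, (∀ r, IsRatP n P (v r)) → ∃ q : ℚ, γ v = ϖ ^ k * q)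
    (hA : ∀ v : Fin (2 * k) → HW κ n, (∀ r i m j, IsAlgebraic ℚ (v r i m j)) →
      IsAlgebraic ℚ (γ v))
    (hne : Nonempty (κ i))
    (hT : ∀ X : GG κ, IsInv n P γ X → ∃ M, ActM t (X.1 i) M)

include hϖ S hB hA hne hT in
theorem no_star (hP : HNd (P i)) (hm : 0 < m) (hme : Even m) (σ₀ : K →+* ℂ) (hσ : cj σ₀ ≠ σ₀)
    (U V : Matrix (Fin m) (Fin m) ℂ) (hUV : U * V = 1) (hVU : V * U = 1)
    (hs : ∀ M ∈ HH n P i t γ, ∃ a : ℂ, V * M σ₀ * U + (V * M σ₀ * U)ᵀ = a • 1) : False := by
  have hcon := S.conj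
  have hcl := S.cliff
  have hdet : IsUnit (h.map σ₀).det := by
    have e : (h.map σ₀).det = σ₀ h.det := (RingHom.map_det σ₀ h).symm
    rw [e]
    exact ((map_ne_zero σ₀).mpr S.nd).isUnit
  set F : Matrix (Fin m) (Fin m) ℂ := (h.map σ₀)⁻¹ * Vᵀ with hF
  have hhF : h.map σ₀ * F = Vᵀ := by
    rw [hF, ← Matrix.mul_assoc, Matrix.mul_nonsing_inv _ hdet, Matrix.one_mul]
  have hpr : ∀ x y : Fin m → ℂ, pr h σ₀ (U *ᵥ x) (F *ᵥ y) = x ⬝ᵥ y := by
    intro x y
    rw [pr, Matrix.mulVec_mulVec, hhF, Matrix.mulVec_transpose, dotProduct_comm,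
      ← Matrix.dotProduct_mulVec, Matrix.mulVec_mulVec, hVU, Matrix.one_mulVec, dotProduct_comm]
  set A : Fin m → Module.End ℂ (κ i → ℂ) := fun a => tau (ts t σ₀) (U *ᵥ Pi.single a 1) with hAdef
  set B : Fin m → Module.End ℂ (κ i → ℂ) := fun a => tau (ts t (cj σ₀)) (F *ᵥ Pi.single a 1)
    with hBdef
  have htA : ∀ x, tau A x = tau (ts t σ₀) (U *ᵥ x) := fun x => StarC.tau_comp _ U x
  have htB : ∀ x, tau B x = tau (ts t (cj σ₀)) (F *ᵥ x) := fun x => StarC.tau_comp _ F x
  have hAA : ∀ a b, A a * A b + A b * A a = 0 := fun a b =>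
    tau_anti hcon hcl (Ne.symm hσ) _ _
  have hBB : ∀ a b, B a * B b + B b * B a = 0 := fun a b =>
    tau_anti hcon hcl (by rw [cj_cj]; exact hσ) _ _
  have hAB : ∀ a b, A a * B b + B b * A a = (if a = b then 2 else 0 : ℂ) • 1 := by
    intro a b
    have h1 := tau_pair hcon hcl σ₀ (U *ᵥ Pi.single a 1) (F *ᵥ Pi.single b 1)
    rw [hpr, single_dotProduct, one_mul] at h1
    rw [h1]
    congr 1
    by_cases hab : a = b
    · subst hab
      rw [Pi.single_eq_same, if_pos rfl, mul_one]
    · rw [Pi.single_eq_of_ne hab, if_neg hab, mul_zero]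
  have hnt : Nontrivial (κ i → ℂ) := inferInstance
  obtain ⟨ω, ω', hω1, hω2, hω3, hω4⟩ := StarC.exists_om hAA hBB hAB
  set Nt : Module.End ℂ (κ i → ℂ) := ∑ a, A a * B a with hNt
  have hNm : Nt - (m : ℂ) • 1 = ∑ a, (A a * B a - 1) := by
    rw [Finset.sum_sub_distrib, hNt, Finset.sum_const, Finset.card_univ, Fintype.card_fin,
      ← Nat.cast_smul_eq_nsmul ℂ]
  have hNω : (Nt - (m : ℂ) • 1) * ω = -(ω * (Nt - (m : ℂ) • 1)) := by
    rw [hNm, Finset.sum_mul, Finset.mul_sum, ← Finset.sum_neg_distrib]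
    exact Finset.sum_congr rfl fun a _ => hω4 a
  -- the zero weight space
  set U0 : Submodule ℂ (κ i → ℂ) := LinearMap.ker (Nt - (m : ℂ) • 1) with hU0
  have hU0m : ∀ v, v ∈ U0 ↔ Nt v = (m : ℂ) • v := by
    intro v
    rw [hU0, LinearMap.mem_ker, LinearMap.sub_apply, sub_eq_zero]
    rfl
  have hU0ω : ∀ v ∈ U0, ω v ∈ U0 := by
    intro v hv
    rw [hU0, LinearMap.mem_ker] at hv ⊢
    rw [← Module.End.mul_apply, hNω, LinearMap.neg_apply, Module.End.mul_apply, hv, map_zero,
      neg_zero]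
  obtain ⟨r, hr⟩ := hme
  obtain ⟨v0, hv0, hv0s⟩ := StarC.exists_vec hAA hBB hAB (fun a : Fin m => (a : ℕ) < r)
    Finset.univ
  have hv0U : v0 ∈ U0 := by
    rw [hU0m, hNt, LinearMap.sum_apply, Finset.sum_congr rfl fun a _ => hv0s a (Finset.mem_univ a),
      ← Finset.sum_smul]
    congr 1
    rw [← Finset.sum_filter, Finset.sum_const, nsmul_eq_mul]
    have hcard : (Finset.univ.filter fun a : Fin m => (a : ℕ) < r).card = r := by
      rw [Fin.card_filter_val_lt]
      omega
    rw [hcard, hr]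
    push_cast
    ring
  have hU0nt : Nontrivial U0 := ⟨⟨⟨v0, hv0U⟩, 0, fun e => hv0 (congrArg Subtype.val e)⟩⟩
  obtain ⟨l, hl⟩ := Module.End.exists_eigenvalue (ω.restrict hU0ω)
  obtain ⟨v1, hv1, hv1ne⟩ := hl.exists_hasEigenvector
  rw [Module.End.mem_eigenspace_iff] at hv1
  have hv1ω : ω (v1 : κ i → ℂ) = l • (v1 : κ i → ℂ) := congrArg Subtype.val hv1
  have hv1ne' : (v1 : κ i → ℂ) ≠ 0 := fun e => hv1ne (Subtype.ext e)
  have hl0 : l ≠ 0 := by
    intro h0
    rw [h0, zero_smul] at hv1ω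
    apply hv1ne'
    have h1 : (ω' * ω) (v1 : κ i → ℂ) = v1 := by rw [hω2]; rfl
    rw [Module.End.mul_apply, hv1ω, map_zero] at h1
    exact h1.symm
  set U1 : Submodule ℂ (κ i → ℂ) := U0 ⊓ LinearMap.ker (ω - l • 1) with hU1
  have hU1m : ∀ v, v ∈ U1 ↔ Nt v = (m : ℂ) • v ∧ ω v = l • v := by
    intro v
    rw [hU1, Submodule.mem_inf, hU0m, LinearMap.mem_ker, LinearMap.sub_apply, sub_eq_zero]
    rfl
  have hstab0 : ∀ X : GG κ, IsInv n P γ X → X.2 = 0 → ∀ v ∈ U1, X.1 i v ∈ U1 := by
    intro X hX hX2 v hv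
    obtain ⟨M, hM⟩ := hT X hX
    obtain ⟨z', hz'⟩ := hs M ⟨X, hX, hX2, hM⟩
    obtain ⟨z, hz⟩ : ∃ z : ℂ, z' = 2 * z := ⟨z' / 2, by ring⟩
    set R : Matrix (Fin m) (Fin m) ℂ := V * M σ₀ * U - z • 1 with hR
    have hRs : Rᵀ = -R := by
      have e1 : Rᵀ = (V * M σ₀ * U)ᵀ - z • 1 := by
        rw [hR, Matrix.transpose_sub, Matrix.transpose_smul, Matrix.transpose_one]
      have e2 : (V * M σ₀ * U)ᵀ = z' • 1 - V * M σ₀ * U := by rw [← hz']; abel
      rw [e1, e2, hR, hz]
      module
    have hMU : ∀ x : Fin m → ℂ, M σ₀ *ᵥ (U *ᵥ x) = U *ᵥ (R *ᵥ x + z • x) := by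
      intro x
      have e1 : R *ᵥ x + z • x = (V * M σ₀ * U) *ᵥ x := by
        rw [hR, Matrix.sub_mulVec, Matrix.smul_mulVec, Matrix.one_mulVec, sub_add_cancel]
      rw [e1, Matrix.mulVec_mulVec, Matrix.mulVec_mulVec]
      congr 1
      rw [← Matrix.mul_assoc, ← Matrix.mul_assoc, hUV, Matrix.one_mul]
    have hXA : ∀ x, X.1 i * tau A x - tau A x * X.1 i = tau A (R *ᵥ x) + z • tau A x := by
      intro x
      rw [htA, htA, hM σ₀, hMU, ← map_smul, ← map_add, Matrix.mulVec_add, Matrix.mulVec_smul]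
    have hMF : ∀ y : Fin m → ℂ, M (cj σ₀) *ᵥ (F *ᵥ y) = F *ᵥ (R *ᵥ y - z • y) := by
      intro y
      rw [← sub_eq_zero]
      apply pr_nd' S.nd σ₀
      intro x
      obtain ⟨x', rfl⟩ : ∃ x', x = U *ᵥ x' := ⟨V *ᵥ x, by
        rw [Matrix.mulVec_mulVec, hUV, Matrix.one_mulVec]⟩
      have e1 := hM.skew hcon hcl σ₀ (U *ᵥ x') (F *ᵥ y)
      rw [hMU, hpr, add_dotProduct, smul_dotProduct, StarC.skew_dot hRs] at e1
      rw [sub_eq_add_neg, ← neg_one_smul ℂ (F *ᵥ _), pr_add_right, pr_smul_right, hpr,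
        dotProduct_sub, dotProduct_smul]
      linear_combination e1
    have hXB : ∀ x, X.1 i * tau B x - tau B x * X.1 i = tau B (R *ᵥ x) - z • tau B x := by
      intro x
      rw [htB, htB, hM (cj σ₀), hMF, ← map_smul, ← map_sub, Matrix.mulVec_sub, Matrix.mulVec_smul]
    have hXN := StarC.X_Nt hRs hXA hXB
    rw [← hNt] at hXN
    have hNA := StarC.Nt_A hAA hAB
    have hNB := StarC.Nt_B hBB hAB
    rw [← hNt] at hNA hNB
    have hY := hω3 (X.1 i - (z / 2) • Nt) R hRs (by
      intro x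
      have e : (X.1 i - (z / 2) • Nt) * tau A x - tau A x * (X.1 i - (z / 2) • Nt) =
          (X.1 i * tau A x - tau A x * X.1 i) - (z / 2) • (Nt * tau A x - tau A x * Nt) := by
        rw [sub_mul, mul_sub, smul_mul_assoc, mul_smul_comm, smul_sub]
        abel
      rw [e, hXA, hNA, smul_smul, div_mul_cancel₀ z two_ne_zero, add_sub_cancel_right]) (by
      intro x
      have e : (X.1 i - (z / 2) • Nt) * tau B x - tau B x * (X.1 i - (z / 2) • Nt) =
          (X.1 i * tau B x - tau B x * X.1 i) - (z / 2) • (Nt * tau B x - tau B x * Nt) := by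
        rw [sub_mul, mul_sub, smul_mul_assoc, mul_smul_comm, smul_sub]
        abel
      rw [e, hXB, hNB, smul_smul]
      module)
    rw [hU1m] at hv ⊢
    obtain ⟨hv1, hv2⟩ := hv
    have f1 : Nt (X.1 i v) = (m : ℂ) • X.1 i v := by
      rw [← Module.End.mul_apply, ← hXN, Module.End.mul_apply, hv1, map_smul]
    refine ⟨f1, ?_⟩
    have f2 := LinearMap.congr_fun hY v
    rw [Module.End.mul_apply, Module.End.mul_apply, LinearMap.sub_apply, LinearMap.sub_apply,
      LinearMap.smul_apply, LinearMap.smul_apply, hv2, hv1, map_smul, map_smul, hv1, map_sub,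
      map_smul, map_smul, hv2] at f2
    have f3 : ω (X.1 i v) = l • X.1 i v - (z / 2) • (l • ((m : ℂ) • v)) +
        (z / 2) • ((m : ℂ) • (l • v)) := by
      rw [f2]
      abel
    rw [f3]
    module
  have hstab : ∀ X : GG κ, IsInv n P γ X → ∀ v ∈ U1, X.1 i v ∈ U1 := by
    intro X hX v hv
    have h1 := hstab0 (X + (-X.2) • ((fun _ => (1 / 2 : ℂ) • (1 : Module.End ℂ _), 1) : GG κ))
      (hX.add _ _ _ ((Helper98.Ball.isInv_homothety _ _ _).smul _ _ _ _)) (by
        show X.2 + (-X.2) * 1 = 0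
        ring) v hv
    have h2 : (X + (-X.2) • ((fun _ => (1 / 2 : ℂ) • (1 : Module.End ℂ _), 1) : GG κ)).1 i v =
        X.1 i v + (-X.2) • ((1 / 2 : ℂ) • v) := rfl
    rw [h2] at h1
    have h3 : X.1 i v = (X.1 i v + (-X.2) • ((1 / 2 : ℂ) • v)) - ((-X.2) • ((1 / 2 : ℂ) • v)) := by
      abel
    rw [h3]
    exact U1.sub_mem h1 (U1.smul_mem _ (U1.smul_mem _ hv))
  have hprod : ∀ x y : Fin m → ℂ, ∀ v ∈ U1,
      tau (ts t σ₀) x (tau (ts t (cj σ₀)) y v) ∈ U1 := by
    intro x y v hv
    rw [tau_apply, tau_apply, LinearMap.sum_apply]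
    refine U1.sum_mem fun a _ => ?_
    rw [LinearMap.smul_apply, LinearMap.sum_apply, map_sum]
    refine U1.smul_mem _ (U1.sum_mem fun b _ => ?_)
    rw [LinearMap.smul_apply, map_smul]
    exact U1.smul_mem _ (stable_productsE n hϖ P i S γ hB hA hP U1 hstab σ₀ a b v hv)
  set a0 : Fin m := ⟨0, hm⟩
  have hv1U : (v1 : κ i → ℂ) ∈ U1 := (hU1m _).mpr ⟨(hU0m _).mp v1.2, hv1ω⟩
  obtain ⟨hA2, hB2, hBA⟩ := StarC.N_sq hAA hBB hAB a0
  have hw : (A a0 * B a0 - 1) (v1 : κ i → ℂ) ∈ U1 := by
    rw [LinearMap.sub_apply]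
    exact U1.sub_mem (hprod _ _ _ hv1U) hv1U
  have hw1 := ((hU1m _).mp hw).2
  have hw2 : ω ((A a0 * B a0 - 1) (v1 : κ i → ℂ)) = -(l • (A a0 * B a0 - 1) (v1 : κ i → ℂ)) := by
    have e := LinearMap.congr_fun (hω4 a0) (v1 : κ i → ℂ)
    rw [LinearMap.neg_apply, Module.End.mul_apply, Module.End.mul_apply, hv1ω, map_smul] at e
    rw [e, neg_neg]
  rw [hw1] at hw2
  have hw3 : (A a0 * B a0 - 1) (v1 : κ i → ℂ) = 0 := by
    have e : (2 * l) • (A a0 * B a0 - 1) (v1 : κ i → ℂ) = 0 := by
      rw [two_mul, add_smul]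
      nth_rw 1 [hw2]
      rw [neg_add_cancel]
    exact (smul_eq_zero.mp e).resolve_left (mul_ne_zero two_ne_zero hl0)
  rw [LinearMap.sub_apply, sub_eq_zero] at hw3
  have hN1 : (A a0 * B a0) (v1 : κ i → ℂ) = v1 := hw3
  have hNN : (A a0 * B a0) * (A a0 * B a0) = (2 : ℂ) • (A a0 * B a0) := by
    have e : (A a0 * B a0) * (A a0 * B a0) = A a0 * (B a0 * A a0) * B a0 := by noncomm_ring
    rw [e, hBA, mul_sub, sub_mul, mul_smul_comm, mul_one, smul_mul_assoc, ← mul_assoc, hA2,
      zero_mul, zero_mul, sub_zero]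
  have e := LinearMap.congr_fun hNN (v1 : κ i → ℂ)
  rw [Module.End.mul_apply, LinearMap.smul_apply, hN1, hN1, two_smul] at e
  exact hv1ne' (left_eq_add.mp e)

end Pool.Agent.KSE
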