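import Pool.Agent.KSE.Defs
import Pool.Agent.Helper8.B.Defs

/-!
Module SymDich. Matrices: an ideal `c` of `g` which contains the rotations contains all matrices of trace
zero, unless all elements of `g` are sums of an antisymmetric and a scalar matrix.

If `X ∈ g` has non-scalar `S = X + Xᵀ`, then `[rot i j, X] ∈ c` and `[rot i j, X - Xᵀ]` is a combination
of rotations, so `[rot i j, S] ∈ c`; `S` has `S i j ≠ 0` or `S i i ≠ S j j` for some `i ≠ j`, and brackets
with rotations (`3 ≤ m`) give a matrix `single i j 1 + single j i 1`, then all of them, then the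
`single i i 1 - single j j 1`.
-/

open scoped ComplexConjugate

namespace Pool.Agent.KSE

open Module Matrix NumberField Pool.Agent.Helper7 Pool.Agent.KS Pool.Agent.Ball
  Pool.Agent.Helper28.GPC

namespace SymDich

variable {m : ℕ}

/-- the iterated bracket with a rotation -/
lemma dd {A : Type*} [Ring A] (R P X : A) (h1 : R * R = -P) (h2 : P * R = R) (h3 : R * P = R) :
    ((((X * R - R * X) * R - R * (X * R - R * X)) * R -
      R * ((X * R - R * X) * R - R * (X * R - R * X))) * R -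
      R * (((X * R - R * X) * R - R * (X * R - R * X)) * R -
      R * ((X * R - R * X) * R - R * (X * R - R * X)))) +
      ((X * R - R * X) * R - R * (X * R - R * X)) =
      6 • (R * X * R + P * X * P) := by
  have h1' : ∀ Y, R * (R * Y) = -(P * Y) := fun Y => by rw [← mul_assoc, h1, neg_mul]
  have h3' : ∀ Y, R * (P * Y) = R * Y := fun Y => by rw [← mul_assoc, h3]
  simp only [mul_sub, sub_mul, mul_assoc, h1, h2, h1', h3', mul_neg, neg_mul, smul_add]
  abel

/-- the symmetric matrix units -/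
def sy (i j : Fin m) : Matrix (Fin m) (Fin m) ℂ := single i j 1 + single j i 1

lemma sy_comm (i j : Fin m) : sy i j = sy j i := by
  unfold sy
  exact add_comm _ _

lemma rot_eq (i j : Fin m) : (rot i j : Matrix (Fin m) (Fin m) ℂ) = single i j 1 - single j i 1 :=
  rfl

lemma ss_same (i j k : Fin m) :
    (single i j (1 : ℂ) * single j k (1 : ℂ) : Matrix (Fin m) (Fin m) ℂ) = single i k 1 := by
  rw [single_mul_single_same, mul_one]

lemma ss_ne (i j k l : Fin m) (h : j ≠ k) :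
    (single i j (1 : ℂ) * single k l (1 : ℂ) : Matrix (Fin m) (Fin m) ℂ) = 0 :=
  single_mul_single_of_ne _ _ _ _ h _

lemma rot_sq {i j : Fin m} (h : i ≠ j) :
    (rot i j * rot i j : Matrix (Fin m) (Fin m) ℂ) = -(single i i 1 + single j j 1) := by
  rw [rot_eq, mul_sub, sub_mul, sub_mul, ss_ne i j i j h.symm, ss_same, ss_same, ss_ne j i j i h]
  abel

lemma P_rot {i j : Fin m} (h : i ≠ j) :
    ((single i i 1 + single j j 1) * rot i j : Matrix (Fin m) (Fin m) ℂ) = rot i j := by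
  rw [rot_eq, mul_sub, add_mul, add_mul, ss_same, ss_ne j j i j h.symm, ss_ne i i j i h, ss_same]
  abel

lemma rot_P {i j : Fin m} (h : i ≠ j) :
    (rot i j * (single i i 1 + single j j 1) : Matrix (Fin m) (Fin m) ℂ) = rot i j := by
  rw [rot_eq, sub_mul, mul_add, mul_add, ss_ne i j i i h.symm, ss_same, ss_same, ss_ne j i j j h]
  abel

lemma sXs (X : Matrix (Fin m) (Fin m) ℂ) (a b c d : Fin m) :
    single a b (1 : ℂ) * X * single c d (1 : ℂ) = X b c • single a d (1 : ℂ) := by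
  rw [single_mul_mul_single, one_mul, mul_one, smul_single, smul_eq_mul, mul_one]

lemma RXR (X : Matrix (Fin m) (Fin m) ℂ) (i j : Fin m) :
    rot i j * X * rot i j + (single i i 1 + single j j 1) * X * (single i i 1 + single j j 1) =
      (X i i - X j j) • (single i i (1 : ℂ) - single j j (1 : ℂ)) + (X i j + X j i) • sy i j := by
  rw [rot_eq]
  simp only [sub_mul, mul_sub, add_mul, mul_add, sXs, sy]
  module

variable {g c : Submodule ℂ (Matrix (Fin m) (Fin m) ℂ)}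

/-- the plane component of a matrix of `g` -/
lemma plane (hcg : c ≤ g) (hc : ∀ X ∈ g, ∀ Y ∈ c, X * Y - Y * X ∈ c) (hrot : ∀ i j, rot i j ∈ c)
    {X : Matrix (Fin m) (Fin m) ℂ} (hX : X ∈ g) {i j : Fin m} (h : i ≠ j) :
    (X i i - X j j) • (single i i (1 : ℂ) - single j j (1 : ℂ)) + (X i j + X j i) • sy i j ∈ c := by
  have h1 := hc X hX _ (hrot i j)
  have h2 := hc _ (hcg h1) _ (hrot i j)
  have h3 := hc _ (hcg h2) _ (hrot i j)
  have h4 := hc _ (hcg h3) _ (hrot i j)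
  have h5 := c.add_mem h4 h2
  rw [dd (rot i j) (single i i 1 + single j j 1) X (rot_sq h) (P_rot h) (rot_P h), RXR] at h5
  have h6 : (6 : ℕ) • ((X i i - X j j) • (single i i (1 : ℂ) - single j j (1 : ℂ)) +
      (X i j + X j i) • sy i j) = (6 : ℂ) • ((X i i - X j j) • (single i i (1 : ℂ) -
      single j j (1 : ℂ)) + (X i j + X j i) • sy i j) := by
    rw [← Nat.cast_smul_eq_nsmul ℂ]
    norm_num
  rw [h6] at h5
  have h7 := c.smul_mem (6 : ℂ)⁻¹ h5
  rwa [smul_smul, inv_mul_cancel₀ (by norm_num), one_smul] at h7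

/-- spreading -/
lemma spread (hcg : c ≤ g) (hc : ∀ X ∈ g, ∀ Y ∈ c, X * Y - Y * X ∈ c) (hrot : ∀ i j, rot i j ∈ c)
    {a b d : Fin m} (hab : a ≠ b) (had : a ≠ d) (hbd : b ≠ d) (h : sy a b ∈ c) : sy a d ∈ c := by
  have h1 := hc _ (hcg h) _ (hrot b d)
  have h2 : sy a b * rot b d - rot b d * sy a b = sy a d := by
    rw [rot_eq]
    simp only [sy, add_mul, mul_add, mul_sub, sub_mul, ss_same, ss_ne a b d b hbd,
      ss_ne b a b d hab, ss_ne b a d b had, ss_ne b d a b had.symm, ss_ne b d b a hbd.symm,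
      ss_ne d b a b hab.symm]
    abel
  rwa [h2] at h1

lemma all_sy (hcg : c ≤ g) (hc : ∀ X ∈ g, ∀ Y ∈ c, X * Y - Y * X ∈ c)
    (hrot : ∀ i j, rot i j ∈ c) {a b : Fin m} (hab : a ≠ b) (h : sy a b ∈ c) :
    ∀ x y : Fin m, x ≠ y → sy x y ∈ c := by
  have h1 : ∀ y, a ≠ y → sy a y ∈ c := by
    intro y hy
    by_cases hby : b = y
    · rw [← hby]; exact h
    · exact spread hcg hc hrot hab hy hby h
  intro x y hxy
  by_cases hax : a = x
  · subst hax
    exact h1 y hxy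
  · have h2 := h1 x hax
    rw [sy_comm] at h2
    by_cases hay : a = y
    · subst hay
      exact h2
    · exact spread hcg hc hrot (Ne.symm hax) hxy hay h2

lemma diag_mem (hcg : c ≤ g) (hc : ∀ X ∈ g, ∀ Y ∈ c, X * Y - Y * X ∈ c)
    (hrot : ∀ i j, rot i j ∈ c) {a b : Fin m} (hab : a ≠ b) (h : sy a b ∈ c) :
    single a a (1 : ℂ) - single b b (1 : ℂ) ∈ c := by
  have h1 := hc _ (hcg h) _ (hrot a b)
  have h2 : sy a b * rot a b - rot a b * sy a b =
      (-2 : ℂ) • (single a a (1 : ℂ) - single b b (1 : ℂ)) := by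
    rw [rot_eq]
    simp only [sy, add_mul, mul_add, mul_sub, sub_mul, ss_same, ss_ne a b a b hab.symm,
      ss_ne b a b a hab]
    module
  rw [h2] at h1
  have h3 := c.smul_mem (-2 : ℂ)⁻¹ h1
  rwa [smul_smul, inv_mul_cancel₀ (by norm_num), one_smul] at h3

lemma off_mem (hrot : ∀ i j, rot i j ∈ c) {x y : Fin m} (h : sy x y ∈ c) :
    single x y (1 : ℂ) ∈ c := by
  have h1 := c.smul_mem (2 : ℂ)⁻¹ (c.add_mem h (hrot x y))
  have h2 : (2 : ℂ)⁻¹ • (sy x y + rot x y) = (single x y (1 : ℂ) : Matrix (Fin m) (Fin m) ℂ) := by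
    rw [rot_eq, sy]
    module
  rwa [h2] at h1

lemma top_of_units (o : Fin m) (hoff : ∀ x y : Fin m, x ≠ y → single x y (1 : ℂ) ∈ c)
    (hdiag : ∀ x y : Fin m, x ≠ y → single x x (1 : ℂ) - single y y (1 : ℂ) ∈ c)
    (Z : Matrix (Fin m) (Fin m) ℂ) (hZ : Z.trace = 0) : Z ∈ c := by
  have h1 : Z = ∑ i, ∑ j, Z i j • (single i j (1 : ℂ) - if i = j then single o o (1 : ℂ) else 0) := by
    have h2 : ∑ i, ∑ j, Z i j • (single i j (1 : ℂ) - if i = j then single o o (1 : ℂ) else 0) =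
        (∑ i, ∑ j, Z i j • (single i j (1 : ℂ))) -
        ∑ i, ∑ j, Z i j • (if i = j then single o o (1 : ℂ) else 0) := by
      simp only [smul_sub, Finset.sum_sub_distrib]
    have h3 : ∑ i, ∑ j, Z i j • (if i = j then single o o (1 : ℂ) else 0 :
        Matrix (Fin m) (Fin m) ℂ) = Z.trace • single o o (1 : ℂ) := by
      simp only [smul_ite, smul_zero, Finset.sum_ite_eq, Finset.mem_univ, if_true]
      rw [← Finset.sum_smul]
      rfl
    rw [h2, h3, hZ, zero_smul, sub_zero]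
    conv_lhs => rw [matrix_eq_sum_single Z]
    refine Finset.sum_congr rfl fun i _ => Finset.sum_congr rfl fun j _ => ?_
    rw [smul_single, smul_eq_mul, mul_one]
  rw [h1]
  refine c.sum_mem fun i _ => c.sum_mem fun j _ => c.smul_mem _ ?_
  by_cases hij : i = j
  · subst hij
    rw [if_pos rfl]
    by_cases ho : i = o
    · rw [ho, sub_self]
      exact c.zero_mem
    · exact hdiag i o ho
  · rw [if_neg hij, sub_zero]
    exact hoff i j hij

end SymDich

theorem sym_dich {m : ℕ} (hm : 3 ≤ m) (g c : Submodule ℂ (Matrix (Fin m) (Fin m) ℂ))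
    (hcg : c ≤ g) (hc : ∀ X ∈ g, ∀ Y ∈ c, X * Y - Y * X ∈ c)
    (hrot : ∀ i j, rot i j ∈ c) :
    (∀ X ∈ g, ∃ a : ℂ, X + Xᵀ = a • 1) ∨ ∀ Z : Matrix (Fin m) (Fin m) ℂ, Z.trace = 0 → Z ∈ c := by
  have o : Fin m := ⟨0, by omega⟩
  by_cases hall : ∀ X ∈ g, ∀ i j : Fin m, i ≠ j → X i i - X j j = 0 ∧ X i j + X j i = 0
  · left
    intro X hX
    refine ⟨2 * X o o, ?_⟩
    ext i j
    rw [Matrix.add_apply, Matrix.transpose_apply, Matrix.smul_apply, smul_eq_mul]
    by_cases hij : i = j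
    · subst hij
      rw [Matrix.one_apply_eq, mul_one]
      by_cases hio : i = o
      · rw [hio]; ring
      · have := (hall X hX i o hio).1
        linear_combination 2 * this
    · rw [Matrix.one_apply_ne hij, mul_zero]
      exact (hall X hX i j hij).2
  · right
    push Not at hall
    obtain ⟨X, hX, i, j, hij, hne⟩ := hall
    obtain ⟨k, hki, hkj⟩ : ∃ k : Fin m, k ≠ i ∧ k ≠ j := by
      have h1 : ({i, j} : Finset (Fin m)).card < Fintype.card (Fin m) := by
        rw [Fintype.card_fin]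
        exact lt_of_le_of_lt Finset.card_le_two (by omega)
      obtain ⟨k, hk⟩ := Finset.exists_mem_notMem_of_card_lt_card
        (s := ({i, j} : Finset (Fin m))) (t := Finset.univ) (by simpa using h1)
      have hk2 := hk.2
      simp only [Finset.mem_insert, Finset.mem_singleton, not_or] at hk2
      exact ⟨k, hk2⟩
    set α : ℂ := X i i - X j j with hα
    set β : ℂ := X i j + X j i with hβ
    have hQ := SymDich.plane hcg hc hrot hX hij
    rw [← hα, ← hβ] at hQ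
    have hY := hc _ (hcg hQ) _ (hrot i k)
    have hYeq : (α • (single i i (1 : ℂ) - single j j (1 : ℂ)) + β • SymDich.sy i j) * rot i k -
        rot i k * (α • (single i i (1 : ℂ) - single j j (1 : ℂ)) + β • SymDich.sy i j) =
        α • SymDich.sy i k + β • SymDich.sy k j := by
      rw [SymDich.rot_eq]
      simp only [SymDich.sy, add_mul, mul_add, mul_sub, sub_mul, smul_mul_assoc, mul_smul_comm,
        SymDich.ss_same, SymDich.ss_ne i i k i hki.symm, SymDich.ss_ne j j i k hij.symm,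
        SymDich.ss_ne j j k i hkj.symm, SymDich.ss_ne i j i k hij.symm,
        SymDich.ss_ne i j k i hkj.symm, SymDich.ss_ne j i k i hki.symm,
        SymDich.ss_ne i k i i hki, SymDich.ss_ne i k j j hkj, SymDich.ss_ne k i j j hij,
        SymDich.ss_ne i k i j hki, SymDich.ss_ne i k j i hkj, SymDich.ss_ne k i j i hij]
      module
    rw [hYeq] at hY
    have hkey : ∃ a b : Fin m, a ≠ b ∧ SymDich.sy a b ∈ c := by
      by_cases ha : α = 0
      · have hb : β ≠ 0 := hne ha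
        refine ⟨k, j, hkj, ?_⟩
        rw [ha, zero_smul, zero_add] at hY
        have h1 := c.smul_mem β⁻¹ hY
        rwa [smul_smul, inv_mul_cancel₀ hb, one_smul] at h1
      · refine ⟨i, k, hki.symm, ?_⟩
        have h1 := SymDich.plane hcg hc hrot (hcg hY) hki.symm
        have e1 : (α • SymDich.sy i k + β • SymDich.sy k j : Matrix (Fin m) (Fin m) ℂ) i i = 0 := by
          simp [SymDich.sy, hki, hij.symm]
        have e2 : (α • SymDich.sy i k + β • SymDich.sy k j : Matrix (Fin m) (Fin m) ℂ) k k = 0 := by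
          simp [SymDich.sy, hki.symm, hkj.symm]
        have e3 : (α • SymDich.sy i k + β • SymDich.sy k j : Matrix (Fin m) (Fin m) ℂ) i k = α := by
          simp [SymDich.sy, hki, hki.symm, hij.symm, hkj.symm]
        have e4 : (α • SymDich.sy i k + β • SymDich.sy k j : Matrix (Fin m) (Fin m) ℂ) k i = α := by
          simp [SymDich.sy, hki, hki.symm, hij.symm, hkj.symm]
        rw [e1, e2, e3, e4, sub_zero, zero_smul, zero_add] at h1
        have h2 : α + α ≠ 0 := by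
          rw [← two_mul]
          exact mul_ne_zero two_ne_zero ha
        have h3 := c.smul_mem (α + α)⁻¹ h1
        rwa [smul_smul, inv_mul_cancel₀ h2, one_smul] at h3
    obtain ⟨a, b, hab, hs⟩ := hkey
    have hall := SymDich.all_sy hcg hc hrot hab hs
    exact SymDich.top_of_units o (fun x y hxy => SymDich.off_mem hrot (hall x y hxy))
      (fun x y hxy => SymDich.diag_mem hcg hc hrot hxy (hall x y hxy))

namespace SymDich

lemma two_irr (g : Submodule ℂ (Matrix (Fin 2) (Fin 2) ℂ))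
    (hirr : ∀ U : Submodule ℂ (Fin 2 → ℂ), (∀ X ∈ g, ∀ v ∈ U, X *ᵥ v ∈ U) → U = ⊥ ∨ U = ⊤)
    (w0 w1 : Fin 2 → ℂ) (hdet : w0 0 * w1 1 - w0 1 * w1 0 ≠ 0) :
    ∃ X ∈ g, ¬ ∃ a : ℂ, X *ᵥ w0 = a • w0 := by
  by_contra hcon
  push Not at hcon
  have h1 := hirr (Submodule.span ℂ {w0}) (by
    intro X hX v hv
    obtain ⟨b, rfl⟩ := Submodule.mem_span_singleton.1 hv
    obtain ⟨a, ha⟩ := hcon X hX
    rw [Matrix.mulVec_smul, ha]
    exact Submodule.smul_mem _ _ (Submodule.smul_mem _ _ (Submodule.mem_span_singleton_self w0)))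
  rcases h1 with h1 | h1
  · rw [Submodule.span_singleton_eq_bot] at h1
    apply hdet
    rw [h1]
    simp
  · have h2 : w1 ∈ Submodule.span ℂ {w0} := by rw [h1]; exact Submodule.mem_top
    obtain ⟨a, ha⟩ := Submodule.mem_span_singleton.1 h2
    apply hdet
    rw [← ha]
    simp only [Pi.smul_apply, smul_eq_mul]
    ring

lemma two_vectors (B : Matrix (Fin 2) (Fin 2) ℂ) (hBs : ∀ a : ℂ, B ≠ a • 1)
    (hdiag : ∀ v : Fin 2 → ℂ, v ∈ Submodule.span ℂ {w | ∃ r : ℝ, B *ᵥ w = (r : ℂ) • w}) :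
    ∃ (w0 w1 : Fin 2 → ℂ) (r0 r1 : ℂ), r0 ≠ r1 ∧ w0 0 * w1 1 - w0 1 * w1 0 ≠ 0 ∧
      B *ᵥ w0 = r0 • w0 ∧ B *ᵥ w1 = r1 • w1 := by
  obtain ⟨w0, ⟨r0, hr0⟩, hw0⟩ : ∃ w ∈ {w | ∃ r : ℝ, B *ᵥ w = (r : ℂ) • w}, w ≠ 0 := by
    by_contra hcon
    push Not at hcon
    have h1 : Submodule.span ℂ {w | ∃ r : ℝ, B *ᵥ w = (r : ℂ) • w} ≤ ⊥ := by
      rw [Submodule.span_le]
      intro w hw
      exact (Submodule.mem_bot ℂ).2 (hcon w hw)
    have h2 := (Submodule.mem_bot ℂ).1 (h1 (hdiag (fun _ => 1)))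
    have h3 := congrFun h2 0
    simp at h3
  obtain ⟨w1, ⟨r1, hr1⟩, hw1⟩ : ∃ w ∈ {w | ∃ r : ℝ, B *ᵥ w = (r : ℂ) • w},
      w0 0 * w 1 - w0 1 * w 0 ≠ 0 := by
    by_contra hcon
    push Not at hcon
    set φ : (Fin 2 → ℂ) →ₗ[ℂ] ℂ :=
      w0 0 • LinearMap.proj 1 - w0 1 • LinearMap.proj 0 with hφ
    have hφv : ∀ v, φ v = w0 0 * v 1 - w0 1 * v 0 := fun v => by simp [hφ]
    have h1 : Submodule.span ℂ {w | ∃ r : ℝ, B *ᵥ w = (r : ℂ) • w} ≤ LinearMap.ker φ := by
      rw [Submodule.span_le]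
      intro w hw
      change φ w = 0
      rw [hφv]
      exact hcon w hw
    have h2 : ∀ v : Fin 2 → ℂ, w0 0 * v 1 - w0 1 * v 0 = 0 := fun v => by
      rw [← hφv]
      exact h1 (hdiag v)
    apply hw0
    have h3 := h2 ![1, 0]
    have h4 := h2 ![0, 1]
    simp at h3 h4
    ext i
    fin_cases i
    · exact h4
    · exact h3
  refine ⟨w0, w1, r0, r1, ?_, hw1, hr0, hr1⟩
  intro heq
  apply hBs r0
  rw [← heq] at hr1
  have e0 := congrFun hr0 0
  have e1 := congrFun hr0 1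
  have f0 := congrFun hr1 0
  have f1 := congrFun hr1 1
  simp only [Matrix.mulVec, dotProduct, Fin.sum_univ_two, Pi.smul_apply, smul_eq_mul] at e0 e1 f0 f1
  have key : ∀ a b : ℂ, a * w0 0 + b * w0 1 = 0 → a * w1 0 + b * w1 1 = 0 → a = 0 ∧ b = 0 := by
    intro a b h1 h2
    constructor
    · have h3 : a * (w0 0 * w1 1 - w0 1 * w1 0) = 0 := by linear_combination w1 1 * h1 - w0 1 * h2
      exact (mul_eq_zero.1 h3).resolve_right hw1
    · have h3 : b * (w0 0 * w1 1 - w0 1 * w1 0) = 0 := by linear_combination w0 0 * h2 - w1 0 * h1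
      exact (mul_eq_zero.1 h3).resolve_right hw1
  have k0 := key (B 0 0 - r0) (B 0 1) (by linear_combination e0) (by linear_combination f0)
  have k1 := key (B 1 0) (B 1 1 - r0) (by linear_combination e1) (by linear_combination f1)
  ext i j
  fin_cases i <;> fin_cases j
  · simp only [Fin.zero_eta, Fin.isValue, Matrix.smul_apply, Matrix.one_apply_eq, smul_eq_mul,
      mul_one]
    linear_combination k0.1
  · simp only [Fin.zero_eta, Fin.isValue, Fin.mk_one, Matrix.smul_apply, ne_eq, zero_ne_one,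
      not_false_eq_true, Matrix.one_apply_ne, smul_zero]
    exact k0.2
  · simp only [Fin.mk_one, Fin.isValue, Fin.zero_eta, Matrix.smul_apply, ne_eq, one_ne_zero,
      not_false_eq_true, Matrix.one_apply_ne, smul_zero]
    exact k1.1
  · simp only [Fin.mk_one, Fin.isValue, Matrix.smul_apply, Matrix.one_apply_eq, smul_eq_mul,
      mul_one]
    linear_combination k1.2

/-- the diagonal case -/
lemma two_diag (g c : Submodule ℂ (Matrix (Fin 2) (Fin 2) ℂ)) (hcg : c ≤ g)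
    (hc : ∀ X ∈ g, ∀ Y ∈ c, X * Y - Y * X ∈ c) (r0 r1 : ℂ) (hr : r0 ≠ r1)
    (hD : !![r0, 0; 0, r1] ∈ c) (X : Matrix (Fin 2) (Fin 2) ℂ) (hX : X ∈ g) (hX1 : X 1 0 ≠ 0)
    (Y : Matrix (Fin 2) (Fin 2) ℂ) (hY : Y ∈ g) (hY1 : Y 0 1 ≠ 0)
    (Z : Matrix (Fin 2) (Fin 2) ℂ) (hZ : Z.trace = 0) : Z ∈ c := by
  have hr' : r0 - r1 ≠ 0 := sub_ne_zero.2 hr
  have hstep : ∀ X ∈ g, !![0, -(r0 - r1) * X 0 1; (r0 - r1) * X 1 0, 0] ∈ c ∧
      !![0, -(r0 - r1) ^ 2 * X 0 1; -(r0 - r1) ^ 2 * X 1 0, 0] ∈ c := by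
    intro X hX
    have h1 := hc X hX _ hD
    have h2 : X * !![r0, 0; 0, r1] - !![r0, 0; 0, r1] * X =
        !![0, -(r0 - r1) * X 0 1; (r0 - r1) * X 1 0, 0] := by
      rw [Matrix.eta_fin_two X]
      ext i j
      fin_cases i <;> fin_cases j <;> simp <;> ring
    rw [h2] at h1
    have h3 := hc _ (hcg hD) _ h1
    have h4 : !![r0, 0; 0, r1] * !![0, -(r0 - r1) * X 0 1; (r0 - r1) * X 1 0, 0] -
        !![0, -(r0 - r1) * X 0 1; (r0 - r1) * X 1 0, 0] * !![r0, 0; 0, r1] =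
        !![0, -(r0 - r1) ^ 2 * X 0 1; -(r0 - r1) ^ 2 * X 1 0, 0] := by
      ext i j
      fin_cases i <;> fin_cases j <;> simp <;> ring
    rw [h4] at h3
    exact ⟨h1, h3⟩
  have hE10 : !![0, 0; 1, 0] ∈ c := by
    obtain ⟨h1, h2⟩ := hstep X hX
    have h3 := c.smul_mem (-(2 * (r0 - r1) ^ 2 * X 1 0))⁻¹
      (c.sub_mem h2 (c.smul_mem (r0 - r1) h1))
    have h4 : (-(2 * (r0 - r1) ^ 2 * X 1 0))⁻¹ •
        (!![0, -(r0 - r1) ^ 2 * X 0 1; -(r0 - r1) ^ 2 * X 1 0, 0] -
          (r0 - r1) • !![0, -(r0 - r1) * X 0 1; (r0 - r1) * X 1 0, 0]) =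
        (!![0, 0; 1, 0] : Matrix (Fin 2) (Fin 2) ℂ) := by
      ext i j
      fin_cases i <;> fin_cases j
      · simp
      · simp
        right
        ring
      · simp
        field_simp
        ring
      · simp
    rwa [h4] at h3
  have hE01 : !![0, 1; 0, 0] ∈ c := by
    obtain ⟨h1, h2⟩ := hstep Y hY
    have h3 := c.smul_mem (-(2 * (r0 - r1) ^ 2 * Y 0 1))⁻¹
      (c.add_mem h2 (c.smul_mem (r0 - r1) h1))
    have h4 : (-(2 * (r0 - r1) ^ 2 * Y 0 1))⁻¹ •
        (!![0, -(r0 - r1) ^ 2 * Y 0 1; -(r0 - r1) ^ 2 * Y 1 0, 0] +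
          (r0 - r1) • !![0, -(r0 - r1) * Y 0 1; (r0 - r1) * Y 1 0, 0]) =
        (!![0, 1; 0, 0] : Matrix (Fin 2) (Fin 2) ℂ) := by
      ext i j
      fin_cases i <;> fin_cases j
      · simp
      · simp
        field_simp
        ring
      · simp
        right
        ring
      · simp
    rwa [h4] at h3
  have hH : !![1, 0; 0, -1] ∈ c := by
    have h1 := hc _ (hcg hE01) _ hE10
    have h2 : !![0, 1; 0, 0] * !![0, 0; 1, 0] - !![0, 0; 1, 0] * !![0, 1; 0, 0] =
        (!![1, 0; 0, -1] : Matrix (Fin 2) (Fin 2) ℂ) := by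
      ext i j
      fin_cases i <;> fin_cases j <;> simp
    rwa [h2] at h1
  have hZ2 : Z = Z 0 1 • !![0, 1; 0, 0] + Z 1 0 • !![0, 0; 1, 0] + Z 0 0 • !![1, 0; 0, -1] := by
    rw [Matrix.trace_fin_two] at hZ
    ext i j
    fin_cases i <;> fin_cases j
    · simp
    · simp
    · simp
    · simp
      linear_combination hZ
  rw [hZ2]
  exact c.add_mem (c.add_mem (c.smul_mem _ hE01) (c.smul_mem _ hE10)) (c.smul_mem _ hH)

end SymDich

/-- the case of two by two matrices -/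
theorem two_top (g c : Submodule ℂ (Matrix (Fin 2) (Fin 2) ℂ)) (hcg : c ≤ g)
    (hc : ∀ X ∈ g, ∀ Y ∈ c, X * Y - Y * X ∈ c)
    (hirr : ∀ U : Submodule ℂ (Fin 2 → ℂ), (∀ X ∈ g, ∀ v ∈ U, X *ᵥ v ∈ U) → U = ⊥ ∨ U = ⊤)
    (B : Matrix (Fin 2) (Fin 2) ℂ) (hBc : B ∈ c) (hBs : ∀ a : ℂ, B ≠ a • 1)
    (hdiag : ∀ v : Fin 2 → ℂ, v ∈ Submodule.span ℂ {w | ∃ r : ℝ, B *ᵥ w = (r : ℂ) • w})
    (Z : Matrix (Fin 2) (Fin 2) ℂ) (hZ : Z.trace = 0) : Z ∈ c := by
  obtain ⟨w0, w1, r0, r1, hr, hdet, hw0, hw1⟩ := SymDich.two_vectors B hBs hdiag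
  set P : Matrix (Fin 2) (Fin 2) ℂ := !![w0 0, w1 0; w0 1, w1 1] with hP
  have hdetP : P.det ≠ 0 := by
    rw [hP, Matrix.det_fin_two_of]
    intro h
    apply hdet
    linear_combination h
  have hPu : IsUnit P.det := isUnit_iff_ne_zero.2 hdetP
  have hPP : P * P⁻¹ = 1 := Matrix.mul_nonsing_inv P hPu
  have hPP' : P⁻¹ * P = 1 := Matrix.nonsing_inv_mul P hPu
  have hBP : B * P = P * !![r0, 0; 0, r1] := by
    have e0 := congrFun hw0 0
    have e1 := congrFun hw0 1
    have f0 := congrFun hw1 0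
    have f1 := congrFun hw1 1
    simp only [Matrix.mulVec, dotProduct, Fin.sum_univ_two, Pi.smul_apply, smul_eq_mul] at e0 e1 f0 f1
    ext i j
    fin_cases i <;> fin_cases j
    · simp [hP, Matrix.mul_apply, Fin.sum_univ_two]
      linear_combination e0
    · simp [hP, Matrix.mul_apply, Fin.sum_univ_two]
      linear_combination f0
    · simp [hP, Matrix.mul_apply, Fin.sum_univ_two]
      linear_combination e1
    · simp [hP, Matrix.mul_apply, Fin.sum_univ_two]
      linear_combination f1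
  let L : Matrix (Fin 2) (Fin 2) ℂ →ₗ[ℂ] Matrix (Fin 2) (Fin 2) ℂ :=
    (LinearMap.mulRight ℂ P⁻¹).comp (LinearMap.mulLeft ℂ P)
  have hL : ∀ M, L M = P * M * P⁻¹ := fun M => rfl
  have hLi : ∀ M, L (P⁻¹ * M * P) = M := by
    intro M
    rw [hL]
    calc P * (P⁻¹ * M * P) * P⁻¹ = (P * P⁻¹) * M * (P * P⁻¹) := by noncomm_ring
      _ = M := by rw [hPP, one_mul, mul_one]
  have hLm : ∀ M N, L (M * N - N * M) = L M * L N - L N * L M := by
    intro M N
    rw [hL, hL, hL]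
    calc P * (M * N - N * M) * P⁻¹ = P * M * 1 * N * P⁻¹ - P * N * 1 * M * P⁻¹ := by noncomm_ring
      _ = P * M * (P⁻¹ * P) * N * P⁻¹ - P * N * (P⁻¹ * P) * M * P⁻¹ := by rw [hPP']
      _ = P * M * P⁻¹ * (P * N * P⁻¹) - P * N * P⁻¹ * (P * M * P⁻¹) := by noncomm_ring
  -- entries of the conjugates
  have hent : ∀ X : Matrix (Fin 2) (Fin 2) ℂ, ∀ i : Fin 2, (P⁻¹ * X * P) *ᵥ Pi.single i 1 =
      P⁻¹ *ᵥ (X *ᵥ (P *ᵥ Pi.single i 1)) := by
    intro X i
    rw [Matrix.mulVec_mulVec, Matrix.mulVec_mulVec, mul_assoc]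
  have hP0 : P *ᵥ Pi.single 0 1 = w0 := by
    ext i
    fin_cases i <;> simp [hP]
  have hP1 : P *ᵥ Pi.single 1 1 = w1 := by
    ext i
    fin_cases i <;> simp [hP]
  obtain ⟨X, hXg, hX⟩ := SymDich.two_irr g hirr w0 w1 hdet
  obtain ⟨Y, hYg, hY⟩ := SymDich.two_irr g hirr w1 w0 (by
    intro h
    apply hdet
    linear_combination -h)
  have hX1 : (P⁻¹ * X * P) 1 0 ≠ 0 := by
    intro h
    apply hX
    refine ⟨(P⁻¹ * X * P) 0 0, ?_⟩
    have h1 : (P⁻¹ * X * P) *ᵥ Pi.single 0 1 = (P⁻¹ * X * P) 0 0 • Pi.single 0 1 := by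
      ext i
      fin_cases i
      · simp
      · simp [h]
    rw [hent, hP0] at h1
    have h2 := congrArg (fun v => P *ᵥ v) h1
    simp only [Matrix.mulVec_mulVec, ← mul_assoc, hPP, one_mul, Matrix.mulVec_smul, hP0] at h2
    exact h2
  have hY1 : (P⁻¹ * Y * P) 0 1 ≠ 0 := by
    intro h
    apply hY
    refine ⟨(P⁻¹ * Y * P) 1 1, ?_⟩
    have h1 : (P⁻¹ * Y * P) *ᵥ Pi.single 1 1 = (P⁻¹ * Y * P) 1 1 • Pi.single 1 1 := by
      ext i
      fin_cases i
      · simp [h]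
      · simp
    rw [hent, hP1] at h1
    have h2 := congrArg (fun v => P *ᵥ v) h1
    simp only [Matrix.mulVec_mulVec, ← mul_assoc, hPP, one_mul, Matrix.mulVec_smul, hP1] at h2
    exact h2
  have hres := SymDich.two_diag (g.comap L) (c.comap L) (Submodule.comap_mono hcg)
    (fun X hX Y hY => by
      change L (X * Y - Y * X) ∈ c
      rw [hLm]
      exact hc _ hX _ hY) r0 r1 hr (by
      change L _ ∈ c
      rw [hL, ← hBP, mul_assoc, hPP, mul_one]
      exact hBc) (P⁻¹ * X * P) (by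
      change L _ ∈ g
      rw [hLi]
      exact hXg) hX1 (P⁻¹ * Y * P) (by
      change L _ ∈ g
      rw [hLi]
      exact hYg) hY1 (P⁻¹ * Z * P) (by
      rw [Matrix.trace_mul_comm, ← mul_assoc, hPP, one_mul]
      exact hZ)
  have hres2 : L (P⁻¹ * Z * P) ∈ c := hres
  rwa [hLi] at hres2

end Pool.Agent.KSE
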