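import Pool.Agent.KSE.HypE
import Pool.Agent.KSE.IrrE
import Pool.Agent.KSE.StarC
import Pool.Agent.KSE.SymDich
import Pool.Agent.Helper36.Ball.M5p

/-!
Module CoreC. The case of a unitary place: all matrices of trace zero at `σ₀`.

Let `g = {M σ₀ | M ∈ HH}` and `c = {M σ₀ | M ∈ HH, M σ = 0 for σ ≠ σ₀, cj σ₀}` (submodules: `HH_zero`,
`HH_add`, `HH_smul`; `c` is an ideal of `g`: `HH_bracket`). `g` is irreducible (`irrC`). `exists_hypE` gives
`B ∈ c`. Adjoints with respect to `H = h.map (cj σ₀)`: `hf H u v = pr h σ₀ v (star u)`, so by `HH_skew`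
(`skewM_iff`) `X' = - (twM conj M) σ₀ = - (M (cj σ₀)).map conj` (`HH_twist` for the complex
conjugation, `starRingAut`). For `m = 2` use `two_top` (`B` is not a scalar `a`: `a` would be real by `hdiag`
and imaginary by skewness for `H`, so `B = 0`). For `4 ≤ m` use `Helper36.Ball.M5'` (for `H` or `- H`):
`U * rot i j * V ∈ c`. Put `g' = V g U`, `c' = V c U` and apply `sym_dich`; the first alternative
contradicts `no_star`; the second one gives `V * Z * U ∈ c'`, so `Z ∈ c`.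
-/

open scoped ComplexConjugate

namespace Pool.Agent.KSE

open Module Matrix NumberField Pool.Agent.Helper7 Pool.Agent.KS Pool.Agent.Ball
  Pool.Agent.Helper28.GPC

section aux

variable {m : ℕ}

lemma CoreC.hf_neg (H : Matrix (Fin m) (Fin m) ℂ) (u v : Fin m → ℂ) : hf (-H) u v = - hf H u v := by
  rw [hf, hf, Matrix.neg_mulVec, dotProduct_neg]

lemma CoreC.hf_pr {K : Type} [Field K] [NumberField K] {c : K →+* K} {h : Matrix (Fin m) (Fin m) K}
    (hconj : ∀ (σ : K →+* ℂ) (x : K), cj σ x = σ (c x)) (hh : ∀ a b, c (h a b) = h b a)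
    (σ₀ : K →+* ℂ) (u v : Fin m → ℂ) : hf (h.map (cj σ₀)) u v = pr h σ₀ v (star u) := by
  rw [← pr_symm hconj hh]
  rfl

lemma CoreC.star_conj (M : Matrix (Fin m) (Fin m) ℂ) (u : Fin m → ℂ) :
    star (M.map conj *ᵥ u) = M *ᵥ star u := by
  funext j
  simp only [Pi.star_apply, Matrix.mulVec, dotProduct, Matrix.map_apply, star_sum, star_mul']
  refine Finset.sum_congr rfl fun a _ => ?_
  rw [Complex.star_def, Complex.conj_conj]

/-- the conjugate of a matrix, as a linear map -/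
noncomputable def CoreC.cjm (V U : Matrix (Fin m) (Fin m) ℂ) :
    Matrix (Fin m) (Fin m) ℂ →ₗ[ℂ] Matrix (Fin m) (Fin m) ℂ where
  toFun X := V * X * U
  map_add' X Y := by rw [mul_add, add_mul]
  map_smul' r X := by rw [RingHom.id_apply, mul_smul_comm, smul_mul_assoc]

lemma CoreC.cjm_bracket {V U : Matrix (Fin m) (Fin m) ℂ} (hUV : U * V = 1)
    (X Y : Matrix (Fin m) (Fin m) ℂ) : CoreC.cjm V U X * CoreC.cjm V U Y -
      CoreC.cjm V U Y * CoreC.cjm V U X = CoreC.cjm V U (X * Y - Y * X) := by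
  show V * X * U * (V * Y * U) - V * Y * U * (V * X * U) = V * (X * Y - Y * X) * U
  have e : ∀ A B : Matrix (Fin m) (Fin m) ℂ, V * A * U * (V * B * U) = V * (A * B) * U := by
    intro A B
    calc V * A * U * (V * B * U) = V * A * (U * V) * B * U := by noncomm_ring
      _ = V * (A * B) * U := by rw [hUV, mul_one]; noncomm_ring
  rw [e, e, mul_sub, sub_mul]

lemma CoreC.pos_neg {H : Matrix (Fin m) (Fin m) ℂ} (hm : 2 ≤ m) (hL : Lorentz H) :
    (∃ v, 0 < (hf H v v).re) ∧ ∃ v, (hf H v v).re < 0 := by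
  obtain ⟨-, e, he, hp⟩ := hL
  refine ⟨?_, e, he⟩
  have h1 : ∃ v, hf H e v = 0 ∧ v ≠ 0 := by
    let f : (Fin m → ℂ) →ₗ[ℂ] ℂ :=
      { toFun := fun v => hf H e v
        map_add' := fun u v => hf_add_right H e u v
        map_smul' := fun a v => hf_smul_right H a e v }
    by_contra hc
    push Not at hc
    have h2 : Function.Injective f := by
      rw [injective_iff_map_eq_zero]
      exact hc
    have h3 := LinearMap.finrank_le_finrank_of_injective h2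
    rw [Module.finrank_fin_fun, Module.finrank_self] at h3
    omega
  obtain ⟨v, h1, h2⟩ := h1
  exact ⟨v, hp v h1 h2⟩

end aux

variable {I : Type} [Fintype I] [DecidableEq I] (n : I → ℕ) {κ : I → Type}
    [∀ i, Fintype (κ i)] [∀ i, DecidableEq (κ i)] {ϖ : ℂ} (hϖ : ϖ ≠ 0) (P : ∀ i, PData (κ i) ϖ)
    (i : I) {K : Type} [Field K] [NumberField K] {c : K →+* K} {m : ℕ}
    {h : Matrix (Fin m) (Fin m) K} {t : Fin m → K → Module.End ℂ (κ i → ℂ)}
    (S : MD (P i) c h t) {k : ℕ} (γ : MultilinearMap ℂ (fun _ : Fin (2 * k) => HW κ n) ℂ)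
    (hB : ∀ v : Fin (2 * k) → HW κ n, (∀ r, IsRatP n P (v r)) → ∃ q : ℚ, γ v = ϖ ^ k * q)
    (hA : ∀ v : Fin (2 * k) → HW κ n, (∀ r i m j, IsAlgebraic ℚ (v r i m j)) →
      IsAlgebraic ℚ (γ v))
    (hP : HNd (P i)) (hne : Nonempty (κ i))
    (hT : ∀ X : GG κ, IsInv n P γ X → ∃ M, ActM t (X.1 i) M)
    (hTg : ∀ g : (i : I) → Module.End ℂ (κ i → ℂ), IsGrp n P γ g →
      ∃ A : (K →+* ℂ) → Matrix (Fin m) (Fin m) ℂ, ∀ σ x,
        g i * tau (ts t σ) x = tau (ts t σ) (A σ *ᵥ x) * g i)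

/-- the matrices of the symmetries at `σ₀` -/
noncomputable def CoreC.gS (σ₀ : K →+* ℂ) : Submodule ℂ (Matrix (Fin m) (Fin m) ℂ) where
  carrier := {X | ∃ M ∈ HH n P i t γ, M σ₀ = X}
  zero_mem' := ⟨0, HH_zero n P i γ, rfl⟩
  add_mem' := by
    rintro X Y ⟨M, hM, rfl⟩ ⟨N, hN, rfl⟩
    exact ⟨M + N, HH_add n P i γ hM hN, rfl⟩
  smul_mem' := by
    rintro r X ⟨M, hM, rfl⟩
    exact ⟨r • M, HH_smul n P i γ r hM, rfl⟩

/-- the matrices of the symmetries which are trivial at the other places -/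
noncomputable def CoreC.cS (σ₀ : K →+* ℂ) : Submodule ℂ (Matrix (Fin m) (Fin m) ℂ) where
  carrier := {X | ∃ M ∈ HH n P i t γ, M σ₀ = X ∧ ∀ σ, σ ≠ σ₀ → σ ≠ cj σ₀ → M σ = 0}
  zero_mem' := ⟨0, HH_zero n P i γ, rfl, fun _ _ _ => rfl⟩
  add_mem' := by
    rintro X Y ⟨M, hM, rfl, hM0⟩ ⟨N, hN, rfl, hN0⟩
    refine ⟨M + N, HH_add n P i γ hM hN, rfl, fun σ h1 h2 => ?_⟩
    rw [Pi.add_apply, hM0 σ h1 h2, hN0 σ h1 h2, add_zero]
  smul_mem' := by
    rintro r X ⟨M, hM, rfl, hM0⟩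
    refine ⟨r • M, HH_smul n P i γ r hM, rfl, fun σ h1 h2 => ?_⟩
    rw [Pi.smul_apply, hM0 σ h1 h2, smul_zero]

lemma CoreC.cS_le (σ₀ : K →+* ℂ) : CoreC.cS n P i (t := t) γ σ₀ ≤ CoreC.gS n P i (t := t) γ σ₀ := by
  rintro X ⟨M, hM, h1, -⟩
  exact ⟨M, hM, h1⟩

lemma CoreC.gS_br (σ₀ : K →+* ℂ) : ∀ X ∈ CoreC.gS n P i (t := t) γ σ₀,
    ∀ Y ∈ CoreC.gS n P i (t := t) γ σ₀, X * Y - Y * X ∈ CoreC.gS n P i (t := t) γ σ₀ := by
  rintro X ⟨M, hM, rfl⟩ Y ⟨N, hN, rfl⟩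
  exact ⟨M * N - N * M, HH_bracket n P i γ hM hN, rfl⟩

lemma CoreC.cS_br (σ₀ : K →+* ℂ) : ∀ X ∈ CoreC.gS n P i (t := t) γ σ₀,
    ∀ Y ∈ CoreC.cS n P i (t := t) γ σ₀, X * Y - Y * X ∈ CoreC.cS n P i (t := t) γ σ₀ := by
  rintro X ⟨M, hM, rfl⟩ Y ⟨N, hN, rfl, hN0⟩
  refine ⟨M * N - N * M, HH_bracket n P i γ hM hN, rfl, fun σ h1 h2 => ?_⟩
  rw [Pi.sub_apply, Pi.mul_apply, Pi.mul_apply, hN0 σ h1 h2, mul_zero, zero_mul, sub_zero]

include hϖ S hB hne in
lemma CoreC.gS_adj (σ₀ : K →+* ℂ) : ∀ X ∈ CoreC.gS n P i (t := t) γ σ₀,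
    ∃ X' ∈ CoreC.gS n P i (t := t) γ σ₀, ∀ u v,
      hf (h.map (cj σ₀)) (X' *ᵥ u) v = hf (h.map (cj σ₀)) u (X *ᵥ v) := by
  rintro X ⟨M, hM, rfl⟩
  have hM2 := HH_smul n P i γ (-1) (HH_twist n hϖ P i S γ hB hM starRingAut)
  refine ⟨_, ⟨_, hM2, rfl⟩, fun u v => ?_⟩
  have hsk := (skewM_iff M).mp (HH_skew n P i S γ hne hM) σ₀ v (star u)
  have e1 : ((-1 : ℂ) • twM starRingAut M) σ₀ = (-1 : ℂ) • (M (cj σ₀)).map conj := rfl
  rw [e1, Matrix.smul_mulVec, hf_smul_left, CoreC.hf_pr S.conj S.herm, CoreC.hf_pr S.conj S.herm,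
    CoreC.star_conj, map_neg, map_one]
  linear_combination -hsk

include hϖ S hB hA hP hne hT hTg in
theorem coreC (hm : 0 < m) (hme : Even m) (σ₀ : K →+* ℂ) (hσ : cj σ₀ ≠ σ₀)
    (hL : Lorentz (h.map (cj σ₀)) ∨ Lorentz (-(h.map (cj σ₀))))
    (hdef : ∀ σ : K →+* ℂ, σ ≠ σ₀ → σ ≠ cj σ₀ → Definite (h.map (cj σ)))
    (Z : Matrix (Fin m) (Fin m) ℂ) (hZ : Z.trace = 0) :
    ∃ M ∈ HH n P i t γ, M σ₀ = Z ∧ ∀ σ, σ ≠ σ₀ → σ ≠ cj σ₀ → M σ = 0 := by
  have hm2 : 2 ≤ m := by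
    obtain ⟨r, hr⟩ := hme
    omega
  have hposneg : (∃ v, 0 < (hf (h.map (cj σ₀)) v v).re) ∧
      ∃ v, (hf (h.map (cj σ₀)) v v).re < 0 := by
    rcases hL with hL | hL
    · exact CoreC.pos_neg hm2 hL
    · obtain ⟨⟨v, hv⟩, w, hw⟩ := CoreC.pos_neg hm2 hL
      rw [CoreC.hf_neg, Complex.neg_re] at hv hw
      exact ⟨⟨w, by linarith⟩, v, by linarith⟩
  have hirr : ∀ W : Submodule ℂ (Fin m → ℂ),
      (∀ M ∈ HH n P i t γ, ∀ v ∈ W, M σ₀ *ᵥ v ∈ W) → W = ⊥ ∨ W = ⊤ :=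
    fun W hW => irrC n hϖ P i S γ hB hA hP hne hT σ₀ hσ W hW
  have hdet : ∀ v, (∀ u, hf (h.map (cj σ₀)) u v = 0) → v = 0 := by
    intro v hv
    apply pr_nd S.nd σ₀
    intro y
    have h1 := hv (star y)
    rw [CoreC.hf_pr S.conj S.herm, star_star] at h1
    exact h1
  obtain ⟨B, hBH, hB0, hBz, -, hBs, hdiag⟩ := exists_hypE n hϖ P i S γ hB hne hT σ₀
    hposneg.1 hposneg.2 hdef hTg hirr
  have hBc : B σ₀ ∈ CoreC.cS n P i (t := t) γ σ₀ := ⟨B, hBH, rfl, hBz⟩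
  have hirr' : ∀ U : Submodule ℂ (Fin m → ℂ),
      (∀ X ∈ CoreC.gS n P i (t := t) γ σ₀, ∀ v ∈ U, X *ᵥ v ∈ U) → U = ⊥ ∨ U = ⊤ :=
    fun U hU => hirr U fun M hM v hv => hU _ ⟨M, hM, rfl⟩ v hv
  rcases Nat.lt_or_ge m 3 with hm3 | hm3
  · -- two by two matrices
    obtain rfl : m = 2 := by omega
    have hns : ∀ a : ℂ, B σ₀ ≠ a • 1 := by
      intro a ha
      have h1 : ∃ r : ℝ, a = r := by
        by_contra hc
        push Not at hc
        have h2 : Submodule.span ℂ {w : Fin 2 → ℂ | ∃ r : ℝ, B σ₀ *ᵥ w = (r : ℂ) • w} ≤ ⊥ := by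
          rw [Submodule.span_le]
          rintro w ⟨r, hr⟩
          rw [ha, Matrix.smul_mulVec, Matrix.one_mulVec] at hr
          have h3 : (a - r) • w = 0 := by rw [sub_smul, hr, sub_self]
          rcases smul_eq_zero.mp h3 with h4 | h4
          · exact absurd (sub_eq_zero.mp h4) (hc r)
          · exact h4
        have h5 := h2 (hdiag (Pi.single 0 1))
        rw [Submodule.mem_bot] at h5
        have h6 := congrFun h5 0
        rw [Pi.single_eq_same, Pi.zero_apply] at h6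
        exact one_ne_zero h6
      obtain ⟨r, rfl⟩ := h1
      have h2 : ∀ v, ((r : ℂ) • v : Fin 2 → ℂ) = 0 := by
        intro v
        apply hdet
        intro u
        have h3 := hBs u v
        rw [ha, Matrix.smul_mulVec, Matrix.smul_mulVec, Matrix.one_mulVec, Matrix.one_mulVec,
          hf_smul_left, Complex.conj_ofReal] at h3
        rw [hf_smul_right] at h3 ⊢
        linear_combination h3 / 2
      have h4 := congrFun (h2 (Pi.single 0 1)) 0
      rw [Pi.smul_apply, Pi.single_eq_same, smul_eq_mul, mul_one, Pi.zero_apply] at h4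
      apply hB0
      rw [ha, h4, zero_smul]
    have h1 := two_top (CoreC.gS n P i (t := t) γ σ₀) (CoreC.cS n P i (t := t) γ σ₀)
      (CoreC.cS_le n P i γ σ₀) (CoreC.cS_br n P i γ σ₀) hirr' (B σ₀) hBc hns hdiag Z hZ
    exact h1
  · have key : ∃ U V : Matrix (Fin m) (Fin m) ℂ, U * V = 1 ∧ V * U = 1 ∧
        ∀ i' j', U * rot i' j' * V ∈ CoreC.cS n P i (t := t) γ σ₀ := by
      rcases hL with hL | hL
      · exact Helper36.Ball.M5' hm3 (h.map (cj σ₀)) hL hdet (CoreC.gS n P i (t := t) γ σ₀)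
          (CoreC.cS n P i (t := t) γ σ₀) (CoreC.gS_br n P i γ σ₀) (CoreC.cS_le n P i γ σ₀)
          (CoreC.cS_br n P i γ σ₀) (CoreC.gS_adj n hϖ P i S γ hB hne σ₀) hirr' (B σ₀) hBc hBs
          hdiag hB0
      · refine Helper36.Ball.M5' hm3 (-(h.map (cj σ₀))) hL ?_ (CoreC.gS n P i (t := t) γ σ₀)
          (CoreC.cS n P i (t := t) γ σ₀) (CoreC.gS_br n P i γ σ₀) (CoreC.cS_le n P i γ σ₀)
          (CoreC.cS_br n P i γ σ₀) ?_ hirr' (B σ₀) hBc ?_ hdiag hB0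
        · intro v hv
          apply hdet
          intro u
          have h1 := hv u
          rw [CoreC.hf_neg, neg_eq_zero] at h1
          exact h1
        · intro X hX
          obtain ⟨X', hX', h1⟩ := CoreC.gS_adj n hϖ P i S γ hB hne σ₀ X hX
          refine ⟨X', hX', fun u v => ?_⟩
          rw [CoreC.hf_neg, CoreC.hf_neg, h1]
        · intro u v
          rw [CoreC.hf_neg, CoreC.hf_neg]
          linear_combination -hBs u v
    obtain ⟨U, V, hUV, hVU, hrot⟩ := key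
    have h1 := sym_dich hm3 ((CoreC.gS n P i (t := t) γ σ₀).map (CoreC.cjm V U))
      ((CoreC.cS n P i (t := t) γ σ₀).map (CoreC.cjm V U))
      (Submodule.map_mono (CoreC.cS_le n P i γ σ₀))
      (by
        rintro _ ⟨X, hX, rfl⟩ _ ⟨Y, hY, rfl⟩
        exact ⟨X * Y - Y * X, CoreC.cS_br n P i γ σ₀ X hX Y hY, (CoreC.cjm_bracket hUV X Y).symm⟩)
      (by
        intro i' j'
        refine ⟨_, hrot i' j', ?_⟩
        show V * (U * rot i' j' * V) * U = rot i' j'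
        calc V * (U * rot i' j' * V) * U = (V * U) * rot i' j' * (V * U) := by noncomm_ring
          _ = rot i' j' := by rw [hVU, one_mul, mul_one])
    rcases h1 with h1 | h1
    · exfalso
      refine no_star n hϖ P i S γ hB hA hne hT hP hm hme σ₀ hσ U V hUV hVU fun M hM => ?_
      exact h1 _ ⟨M σ₀, ⟨M, hM, rfl⟩, rfl⟩
    · have h2 := h1 (V * Z * U) (by
        rw [Matrix.trace_mul_comm, ← mul_assoc, hUV, one_mul]
        exact hZ)
      obtain ⟨Y, hY, h3⟩ := h2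
      have h4 : Y = Z := by
        have h5 : V * Y * U = V * Z * U := h3
        calc Y = (U * V) * Y * (U * V) := by rw [hUV, one_mul, mul_one]
          _ = U * (V * Y * U) * V := by noncomm_ring
          _ = U * (V * Z * U) * V := by rw [h5]
          _ = (U * V) * Z * (U * V) := by noncomm_ring
          _ = Z := by rw [hUV, one_mul, mul_one]
      rw [h4] at hY
      exact hY

end Pool.Agent.KSE
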