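import Pool.Agent.KSE.IrrE
import Pool.Agent.KS.Volume
import Pool.Agent.KS.Irr

/-!
Module IrrF. The eigenspaces of real places are irreducible.

`irrR` (`cj σ = σ`, `3 ≤ m`): first `W` totally isotropic, not zero: `U` as above is stable, not zero (it
contains `w_1 ⋯ w_r u`), so `0 = w x y v = 2 pr(w, x) y v - x (2 pr(w, y) - y w) v
= 2 pr(w, x) y v - 2 pr(w, y) x v`; choose `y` with `pr(w, y) = 0`, `pr(y, y) ≠ 0` (possible, `3 ≤ m`) and
`x` with `pr(w, x) ≠ 0`: `y v = 0`, `v = 0`, contradiction. So every stable `W` is nondegenerate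
(`W ⊓ W^⊥` is stable and totally isotropic). Then use `KS.volume` for `ts t σ` as in `KSP.irrF_nd`: the
volume element `ω` of `W` commutes with the symmetries, hence with `ts σ a * ts σ b`
(`comm_productsE`), but it anticommutes with products of an element of `W` and an element of `W^⊥`.
-/

open scoped ComplexConjugate

namespace Pool.Agent.KSE

open Module Matrix NumberField Pool.Agent.Helper7 Pool.Agent.KS Pool.Agent.Ball
  Pool.Agent.Helper28.GPC

namespace IrrF

section aux

variable {V : Type} [AddCommGroup V] [Module ℂ V] {m : ℕ} {s : Fin m → Module.End ℂ V}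
  {q : LinearMap.BilinForm ℂ (Fin m → ℂ)}

lemma anti_apply (hc : ∀ x y, tau s x * tau s y + tau s y * tau s x = (2 * q x y) • 1)
    (x y : Fin m → ℂ) (v : V) :
    tau s x (tau s y v) = (2 * q x y) • v - tau s y (tau s x v) := by
  have h1 := congrArg (fun f => f v) (hc x y)
  have h2 : tau s x (tau s y v) + tau s y (tau s x v) = (2 * q x y) • v := h1
  rw [← h2, add_sub_cancel_right]

lemma sq_apply (hc : ∀ x y, tau s x * tau s y + tau s y * tau s x = (2 * q x y) • 1)
    (x : Fin m → ℂ) (v : V) : tau s x (tau s x v) = q x x • v := by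
  have h1 := anti_apply hc x x v
  have h2 : (2 : ℂ) • tau s x (tau s x v) = (2 : ℂ) • (q x x • v) := by
    rw [two_smul]
    nth_rewrite 1 [h1]
    rw [sub_add_cancel, smul_smul]
  exact smul_right_injective _ (two_ne_zero (α := ℂ)) h2

/-- the common kernel of a totally isotropic subspace is not zero -/
lemma exists_ker [Nontrivial V]
    (hc : ∀ x y, tau s x * tau s y + tau s y * tau s x = (2 * q x y) • 1)
    (W : Submodule ℂ (Fin m → ℂ)) (hiso : ∀ x ∈ W, ∀ y ∈ W, q x y = 0) :
    ∃ w : V, w ≠ 0 ∧ ∀ x ∈ W, tau s x w = 0 := by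
  classical
  have h0 : ∀ T : Finset (Fin m → ℂ), (∀ x ∈ T, x ∈ W) →
      ∃ w : V, w ≠ 0 ∧ ∀ x ∈ T, tau s x w = 0 := by
    intro T
    induction T using Finset.induction_on with
    | empty =>
      intro _
      obtain ⟨w, hw⟩ := exists_ne (0 : V)
      exact ⟨w, hw, fun x hx => absurd hx (Finset.notMem_empty x)⟩
    | insert x T _ ih =>
      intro hs
      obtain ⟨w, hw0, hws⟩ := ih (fun y hy => hs y (Finset.mem_insert_of_mem hy))
      have hx := hs x (Finset.mem_insert_self x T)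
      by_cases hxw : tau s x w = 0
      · refine ⟨w, hw0, fun y hy => ?_⟩
        rcases Finset.mem_insert.mp hy with rfl | hy
        · exact hxw
        · exact hws y hy
      · refine ⟨tau s x w, hxw, fun y hy => ?_⟩
        rcases Finset.mem_insert.mp hy with rfl | hy
        · rw [sq_apply hc, hiso _ hx _ hx, zero_smul]
        · rw [anti_apply hc, hiso y (hs y (Finset.mem_insert_of_mem hy)) _ hx, mul_zero, zero_smul,
            hws y hy, map_zero, sub_zero]
  obtain ⟨T, hT⟩ := (IsNoetherian.noetherian W : W.FG)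
  obtain ⟨w, hw0, hws⟩ := h0 T (fun x hx => by rw [← hT]; exact Submodule.subset_span hx)
  refine ⟨w, hw0, fun x hx => ?_⟩
  rw [← hT] at hx
  induction hx using Submodule.span_induction with
  | mem x hx => exact hws x hx
  | zero => rw [map_zero, LinearMap.zero_apply]
  | add x y _ _ hx hy => rw [map_add, LinearMap.add_apply, hx, hy, add_zero]
  | smul c x _ hx => rw [map_smul, LinearMap.smul_apply, hx, smul_zero]

/-- the orthogonal of a vector contains an anisotropic vector -/
lemma exists_aniso (hs : ∀ x y, q x y = q y x) (hnd : ∀ x, (∀ y, q x y = 0) → x = 0)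
    (hm : 3 ≤ m) (x y : Fin m → ℂ) (hxy : q x y ≠ 0) : ∃ z, q x z = 0 ∧ q z z ≠ 0 := by
  by_contra hcon
  push Not at hcon
  have h1 : ∀ u v, q x u = 0 → q x v = 0 → q u v = 0 := by
    intro u v hu hv
    have h2 := hcon (u + v) (by rw [map_add, hu, hv, add_zero])
    simp only [map_add, LinearMap.add_apply] at h2
    rw [hcon u hu, hcon v hv, hs v u] at h2
    linear_combination h2 / 2
  have hf : LinearMap.ker (LinearMap.pi ![q x, q y] : (Fin m → ℂ) →ₗ[ℂ] (Fin 2 → ℂ)) ≠ ⊥ := by
    apply LinearMap.ker_ne_bot_of_finrank_lt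
    rw [finrank_fin_fun, finrank_fin_fun]
    omega
  obtain ⟨z, hz, hz0⟩ := Submodule.exists_mem_ne_zero_of_ne_bot hf
  rw [LinearMap.mem_ker] at hz
  have hzx : q x z = 0 := congrFun hz 0
  have hzy : q y z = 0 := congrFun hz 1
  apply hz0
  apply hnd
  intro w
  obtain ⟨c, hc⟩ : ∃ c : ℂ, c = q x w / q x y := ⟨_, rfl⟩
  have h2 : q x (w - c • y) = 0 := by
    rw [map_sub, map_smul, hc, smul_eq_mul, div_mul_cancel₀ _ hxy, sub_self]
  have h3 := h1 z (w - c • y) hzx h2
  rw [map_sub, map_smul, hs z y, hzy, smul_zero, sub_zero] at h3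
  exact h3

/-- a stable totally isotropic subspace is zero -/
lemma iso_bot [Nontrivial V] (hs : ∀ x y, q x y = q y x) (hnd : ∀ x, (∀ y, q x y = 0) → x = 0)
    (hm : 3 ≤ m) (hc : ∀ x y, tau s x * tau s y + tau s y * tau s x = (2 * q x y) • 1)
    (W : Submodule ℂ (Fin m → ℂ)) (hiso : ∀ x ∈ W, ∀ y ∈ W, q x y = 0)
    (hU : ∀ v : V, (∀ w ∈ W, tau s w v = 0) → ∀ x y, ∀ w ∈ W, tau s w (tau s x (tau s y v)) = 0) :
    W = ⊥ := by
  by_contra hbot
  obtain ⟨w, hw, hw0⟩ := Submodule.exists_mem_ne_zero_of_ne_bot hbot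
  obtain ⟨v, hv0, hv⟩ := exists_ker hc W hiso
  obtain ⟨x, hx⟩ : ∃ x, q w x ≠ 0 := by
    by_contra hcon
    push Not at hcon
    exact hw0 (hnd w hcon)
  obtain ⟨y, hy, hyy⟩ := exists_aniso hs hnd hm w x hx
  have h1 := hU v hv x y w hw
  rw [anti_apply hc, anti_apply hc w y, hy, hv w hw, mul_zero, zero_smul, map_zero, sub_zero,
    map_zero, sub_zero] at h1
  have h2 : tau s y v = 0 := by
    rcases smul_eq_zero.mp h1 with h3 | h3
    · exact absurd h3 (mul_ne_zero two_ne_zero hx)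
    · exact h3
  have h3 := sq_apply hc y v
  rw [h2, map_zero] at h3
  rcases smul_eq_zero.mp h3.symm with h4 | h4
  · exact hyy h4
  · exact hv0 h4

/-- the end of the proof: a stable nondegenerate subspace -/
lemma nd_bot_or_top [Nontrivial V] (hs : ∀ x y, q x y = q y x)
    (hnd : ∀ x, (∀ y, q x y = 0) → x = 0)
    (hc : ∀ x y, tau s x * tau s y + tau s y * tau s x = (2 * q x y) • 1)
    (W : Submodule ℂ (Fin m → ℂ)) (hW0 : ∀ x ∈ W, (∀ y ∈ W, q x y = 0) → x = 0)
    {ω ω' : Module.End ℂ V} (hω : ω * ω' = 1)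
    (hcomm : ∀ x y, ω * (tau s x * tau s y) = tau s x * tau s y * ω)
    (hanti : ∀ x ∈ W, ∀ y, (∀ w ∈ W, q w y = 0) →
        tau s x * tau s y * ω = - (ω * (tau s x * tau s y))) : W = ⊥ ∨ W = ⊤ := by
  classical
  by_contra hcon
  push Not at hcon
  obtain ⟨hbot, htop⟩ := hcon
  have hcompl := irr_isCompl q hs W hW0
  obtain ⟨x, hx, hxx⟩ : ∃ x ∈ W, q x x ≠ 0 := by
    by_contra h
    push Not at h
    apply hbot
    rw [eq_bot_iff]
    intro x hx
    exact hW0 x hx (fun y hy => irr_aniso q hs W h x hx y hy)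
  obtain ⟨y, hy, hyy⟩ : ∃ y ∈ q.orthogonal W, q y y ≠ 0 := by
    by_contra h
    push Not at h
    apply htop
    have h1 : q.orthogonal W = ⊥ := by
      rw [eq_bot_iff]
      intro y hy
      apply hnd
      intro z
      have hz : z ∈ W ⊔ q.orthogonal W := by rw [hcompl.sup_eq_top]; trivial
      obtain ⟨a, ha, b, hb, rfl⟩ := Submodule.mem_sup.mp hz
      rw [map_add, irr_aniso q hs _ h y hy b hb, add_zero, hs]
      exact (LinearMap.BilinForm.mem_orthogonal_iff.mp hy) a ha
    have h2 := hcompl.sup_eq_top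
    rwa [h1, sup_bot_eq] at h2
  have h3 := hanti x hx y (fun w hw => (LinearMap.BilinForm.mem_orthogonal_iff.mp hy) w hw)
  rw [hcomm] at h3
  have h4 : tau s x * tau s y * ω = 0 := by
    have h5 : (2 : ℂ) • (tau s x * tau s y * ω) = 0 := by
      rw [two_smul]
      nth_rewrite 1 [h3]
      exact neg_add_cancel _
    exact (smul_eq_zero.mp h5).resolve_left two_ne_zero
  have h5 : tau s x * tau s y = 0 := by
    have h6 := congrArg (fun z => z * ω') h4
    simp only [zero_mul] at h6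
    rwa [mul_assoc, hω, mul_one] at h6
  obtain ⟨v, hv⟩ := exists_ne (0 : V)
  have h6 : tau s x (tau s y v) = 0 := by
    have h7 := congrArg (fun f => f v) h5
    exact h7
  have h7 := sq_apply hc x (tau s y v)
  rw [h6, map_zero] at h7
  have h8 : tau s y v = 0 := (smul_eq_zero.mp h7.symm).resolve_left hxx
  have h9 := sq_apply hc y v
  rw [h8, map_zero] at h9
  exact hv ((smul_eq_zero.mp h9.symm).resolve_left hyy)

end aux

end IrrF

variable {I : Type} [Fintype I] [DecidableEq I] (n : I → ℕ) {κ : I → Type}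
    [∀ i, Fintype (κ i)] [∀ i, DecidableEq (κ i)] {ϖ : ℂ} (hϖ : ϖ ≠ 0) (P : ∀ i, PData (κ i) ϖ)
    (i : I) {K : Type} [Field K] [NumberField K] {c : K →+* K} {m : ℕ}
    {h : Matrix (Fin m) (Fin m) K} {t : Fin m → K → Module.End ℂ (κ i → ℂ)}
    (S : MD (P i) c h t) {k : ℕ} (γ : MultilinearMap ℂ (fun _ : Fin (2 * k) => HW κ n) ℂ)
    (hB : ∀ v : Fin (2 * k) → HW κ n, (∀ r, IsRatP n P (v r)) → ∃ q : ℚ, γ v = ϖ ^ k * q)
    (hA : ∀ v : Fin (2 * k) → HW κ n, (∀ r i m j, IsAlgebraic ℚ (v r i m j)) →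
      IsAlgebraic ℚ (γ v))
    (hP : HNd (P i)) (hne : Nonempty (κ i))
    (hT : ∀ X : GG κ, IsInv n P γ X → ∃ M, ActM t (X.1 i) M)

include hϖ S hB hA hP hne hT in
theorem irrR (hm : 3 ≤ m) (σ : K →+* ℂ) (hσ : cj σ = σ) (W : Submodule ℂ (Fin m → ℂ))
    (hW : ∀ M ∈ HH n P i t γ, ∀ v ∈ W, M σ *ᵥ v ∈ W) : W = ⊥ ∨ W = ⊤ := by
  classical
  have := hne
  obtain ⟨q, hq⟩ : ∃ q : LinearMap.BilinForm ℂ (Fin m → ℂ), ∀ x y, q x y = pr h σ x y :=
    ⟨Matrix.toBilin' (h.map σ), fun x y => Matrix.toBilin'_apply' _ _ _⟩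
  have hs : ∀ x y, q x y = q y x := by
    intro x y
    rw [hq, hq]
    have h1 := pr_symm (h := h) S.conj S.herm σ x y
    rw [hσ] at h1
    exact h1
  have hnd : ∀ x, (∀ y, q x y = 0) → x = 0 := by
    intro x hx
    apply pr_nd S.nd σ
    intro y
    rw [← hq]
    exact hx y
  have hndg : q.Nondegenerate := by
    refine ⟨fun x hx => hnd x hx, fun y hy => hnd y fun x => ?_⟩
    rw [hs]
    exact hy x
  have hc : ∀ x y, tau (ts t σ) x * tau (ts t σ) y + tau (ts t σ) y * tau (ts t σ) x =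
      (2 * q x y) • 1 := by
    intro x y
    have h1 := tau_pair S.conj S.cliff σ x y
    rw [hσ] at h1
    rw [hq]
    exact h1
  have hskew : ∀ X : GG κ, IsInv n P γ X → ∀ M, ActM t (X.1 i) M → ∀ x y,
      q (M σ *ᵥ x) y + q x (M σ *ᵥ y) = 0 := by
    intro X _ M hM x y
    have h1 := ActM.skew S.conj S.cliff hM σ x y
    rw [hσ] at h1
    rw [hq, hq]
    exact h1
  -- a stable totally isotropic subspace is zero
  have hiso : ∀ W : Submodule ℂ (Fin m → ℂ), (∀ M ∈ HH n P i t γ, ∀ v ∈ W, M σ *ᵥ v ∈ W) →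
      (∀ x ∈ W, ∀ y ∈ W, q x y = 0) → W = ⊥ := by
    intro W hW hWi
    apply IrrF.iso_bot hs hnd hm hc W hWi
    intro v hv x y w hw
    obtain ⟨U, hUd⟩ : ∃ U : Submodule ℂ (κ i → ℂ), ∀ v, v ∈ U ↔ ∀ w ∈ W, tau (ts t σ) w v = 0 := by
      refine ⟨{ carrier := {v | ∀ w ∈ W, tau (ts t σ) w v = 0}
                zero_mem' := fun w _ => map_zero _
                add_mem' := ?_
                smul_mem' := ?_ }, fun v => Iff.rfl⟩
      · intro a b ha hb w hw
        rw [map_add, ha w hw, hb w hw, add_zero]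
      · intro c a ha w hw
        rw [map_smul, ha w hw, smul_zero]
    have hUst : ∀ X : GG κ, IsInv n P γ X → ∀ v ∈ U, X.1 i v ∈ U := by
      intro X hX v hv
      rw [hUd] at hv ⊢
      intro w hw
      obtain ⟨M, hM⟩ := hT X hX
      have h1 := hW M (sub_aux n P i γ X hX M hM) w hw
      have h2 := congrArg (fun f => f v) (hM σ w)
      have h3 : X.1 i (tau (ts t σ) w v) - tau (ts t σ) w (X.1 i v) =
        tau (ts t σ) (M σ *ᵥ w) v := h2
      rw [hv w hw, hv _ h1, map_zero, zero_sub, neg_eq_zero] at h3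
      exact h3
    have hprod : ∀ a b, ∀ v ∈ U, ts t σ a (ts t σ b v) ∈ U := by
      intro a b v hv
      have h1 := stable_productsE n hϖ P i S γ hB hA hP U hUst σ a b v hv
      rw [hσ] at h1
      exact h1
    have h1 : tau (ts t σ) x (tau (ts t σ) y v) ∈ U := by
      rw [tau_apply, tau_apply, LinearMap.sum_apply]
      refine Submodule.sum_mem _ fun a _ => ?_
      rw [LinearMap.smul_apply, LinearMap.sum_apply, map_sum]
      refine Submodule.smul_mem _ _ (Submodule.sum_mem _ fun b _ => ?_)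
      rw [LinearMap.smul_apply, map_smul]
      exact Submodule.smul_mem _ _ (hprod a b v ((hUd v).mpr hv))
    exact (hUd _).mp h1 w hw
  -- `W` is nondegenerate
  have hW0 : ∀ x ∈ W, (∀ y ∈ W, q x y = 0) → x = 0 := by
    have h1 : W ⊓ q.orthogonal W = ⊥ := by
      apply hiso
      · intro M hM v hv
        rw [Submodule.mem_inf, LinearMap.BilinForm.mem_orthogonal_iff] at hv ⊢
        obtain ⟨hv1, hv2⟩ := hv
        refine ⟨hW M hM v hv1, ?_⟩
        intro u hu
        obtain ⟨X, hX, -, hXM⟩ := id hM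
        have h2 := hskew X hX M hXM u v
        have h3 : q (M σ *ᵥ u) v = 0 := hv2 _ (hW M hM u hu)
        rw [h3, zero_add] at h2
        exact h2
      · rintro x ⟨hx, -⟩ y ⟨-, hy⟩
        exact (LinearMap.BilinForm.mem_orthogonal_iff.mp hy) x hx
    intro x hx hxW
    have h2 : x ∈ W ⊓ q.orthogonal W := by
      rw [Submodule.mem_inf, LinearMap.BilinForm.mem_orthogonal_iff]
      refine ⟨hx, ?_⟩
      intro y hy
      show q y x = 0
      rw [hs]
      exact hxW y hy
    rw [h1] at h2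
    exact (Submodule.mem_bot ℂ).mp h2
  obtain ⟨ω, ω', hω, -, hcomm, hanti⟩ := volume q hs hndg hc W hW0
  have h1 : ∀ a b, ω * (ts t σ a * ts t σ b) = ts t σ a * ts t σ b * ω := by
    intro a b
    have h2 := comm_productsE n hϖ P i S γ hB hA ω (by
      intro X hX
      obtain ⟨M, hM⟩ := hT X hX
      refine hcomm (X.1 i) (Matrix.toLin' (M σ)) ?_ ?_ ?_
      · intro x
        rw [Matrix.toLin'_apply]
        exact hM σ x
      · intro x y
        rw [Matrix.toLin'_apply, Matrix.toLin'_apply]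
        exact hskew X hX M hM x y
      · intro w hw
        rw [Matrix.toLin'_apply]
        exact hW M (sub_aux n P i γ X hX M hM) w hw) σ a b
    rw [hσ] at h2
    exact h2
  exact IrrF.nd_bot_or_top hs hnd hc W hW0 hω (irr_comm_tau h1) hanti

end Pool.Agent.KSE
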