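import Pool.Agent.KSE.HypE
import Pool.Agent.KSE.IrrF
import Pool.Agent.KS.SOMain2
import Pool.Agent.KSP.Ideal

/-!
Module CoreR. The case of a real place: all skew matrices at `σ₀`.

Let `g = {M σ₀ | M ∈ HH}` and `c = {M σ₀ | M ∈ HH, M σ = 0 for σ ≠ σ₀}` (submodules: `HH_zero`,
`HH_add`, `HH_smul`; `c` is an ideal of `g`: `HH_bracket`), as endomorphisms (`Matrix.toLin'`). `g` is
irreducible (`irrR`), `exists_hypE` gives `B ∈ c`. Let `G a b = (σ₀ (h a b)).re`; `h.map σ₀` is real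
(`cj σ₀ = σ₀`), so `bil G x y = pr h σ₀ x y`. `so_main2'` for `g` (complex conjugation: `HH_twist` for
`starRingAut`) shows that `g` contains all skew endomorphisms. If `K` has only one place, `c = g`;
otherwise `c` is everything by `KSP.ideal_top` (`m = 3` or `5 ≤ m`).
-/

open scoped ComplexConjugate

namespace Pool.Agent.KSE

open Module Matrix NumberField Pool.Agent.Helper7 Pool.Agent.KS Pool.Agent.Ball
  Pool.Agent.Helper28.GPC

section aux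

variable {K : Type} [Field K] {c : K →+* K} {m : ℕ}
    {h : Matrix (Fin m) (Fin m) K}

/-- the real matrix of a real place -/
noncomputable abbrev CoreR.GR (h : Matrix (Fin m) (Fin m) K) (σ₀ : K →+* ℂ) :
    Matrix (Fin m) (Fin m) ℝ := Matrix.of fun a b => (σ₀ (h a b)).re

lemma CoreR.GR_apply (σ₀ : K →+* ℂ) (a b : Fin m) :
    CoreR.GR h σ₀ a b = (σ₀ (h a b)).re := rfl

lemma CoreR.real_val {σ₀ : K →+* ℂ} (hσ : cj σ₀ = σ₀) (x : K) : ((σ₀ x).re : ℂ) = σ₀ x := by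
  have h1 : conj (σ₀ x) = σ₀ x := by
    have := RingHom.congr_fun hσ x
    exact this
  exact Complex.conj_eq_iff_re.1 h1

lemma CoreR.bil_pr {σ₀ : K →+* ℂ} (hσ : cj σ₀ = σ₀) (x y : Fin m → ℂ) :
    bil (CoreR.GR h σ₀) x y = pr h σ₀ x y := by
  rw [bil_apply, pr, dotProduct]
  refine Finset.sum_congr rfl fun a _ => ?_
  rw [Matrix.mulVec, dotProduct, Finset.mul_sum]
  refine Finset.sum_congr rfl fun b _ => ?_
  rw [Matrix.map_apply, CoreR.GR_apply, CoreR.real_val hσ, mul_assoc]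

lemma CoreR.hf_pr (σ : K →+* ℂ) (x y : Fin m → ℂ) :
    hf (h.map σ) x y = pr h σ (star x) y := rfl

lemma CoreR.GR_tr (hconj : ∀ (σ : K →+* ℂ) (x : K), cj σ x = σ (c x))
    (hh : ∀ a b, c (h a b) = h b a) {σ₀ : K →+* ℂ} (hσ : cj σ₀ = σ₀) :
    (CoreR.GR h σ₀)ᵀ = CoreR.GR h σ₀ := by
  ext a b
  rw [Matrix.transpose_apply, CoreR.GR_apply, CoreR.GR_apply]
  have h1 : σ₀ (h b a) = σ₀ (h a b) := by
    rw [← hh a b, ← hconj, hσ]
  rw [h1]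

omit [Field K] in
lemma CoreR.exists_sign (hm : 3 ≤ m) (G : Matrix (Fin m) (Fin m) ℝ)
    (hG : Sig2 G) : (∃ v : Fin m → ℝ, 0 < v ⬝ᵥ (G *ᵥ v)) ∧ ∃ v : Fin m → ℝ, v ⬝ᵥ (G *ᵥ v) < 0 := by
  obtain ⟨W, W', h1, h2, h3, h4⟩ := hG
  constructor
  · obtain ⟨w, hw, hw0⟩ : ∃ w ∈ W, w ≠ 0 := by
      have : W ≠ ⊥ := by
        rintro rfl
        rw [finrank_bot] at h1
        omega
      exact (Submodule.ne_bot_iff W).1 this
    exact ⟨w, h3 w hw hw0⟩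
  · obtain ⟨w, hw, hw0⟩ : ∃ w ∈ W', w ≠ 0 := by
      have : W' ≠ ⊥ := by
        rintro rfl
        rw [finrank_bot] at h2
        omega
      exact (Submodule.ne_bot_iff W').1 this
    exact ⟨w, h4 w hw hw0⟩

lemma CoreR.hf_cx {σ₀ : K →+* ℂ} (hσ : cj σ₀ = σ₀) (v : Fin m → ℝ) :
    (hf (h.map (cj σ₀)) (cx v) (cx v)).re = v ⬝ᵥ (CoreR.GR h σ₀ *ᵥ v) := by
  rw [hσ, CoreR.hf_pr, star_cx, ← CoreR.bil_pr hσ, bil_cx, Complex.ofReal_re]

lemma CoreR.signs {σ₀ : K →+* ℂ} (hσ : cj σ₀ = σ₀) (hm : 3 ≤ m)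
    (hsig : Sig2 (CoreR.GR h σ₀) ∨ Sig2 (-(CoreR.GR h σ₀))) :
    (∃ v, 0 < (hf (h.map (cj σ₀)) v v).re) ∧ ∃ v, (hf (h.map (cj σ₀)) v v).re < 0 := by
  rcases hsig with hs | hs
  · obtain ⟨⟨v, hv⟩, w, hw⟩ := CoreR.exists_sign hm _ hs
    exact ⟨⟨cx v, by rw [CoreR.hf_cx hσ]; exact hv⟩, cx w, by rw [CoreR.hf_cx hσ]; exact hw⟩
  · obtain ⟨⟨v, hv⟩, w, hw⟩ := CoreR.exists_sign hm _ hs
    rw [Matrix.neg_mulVec, dotProduct_neg] at hv hw
    exact ⟨⟨cx w, by rw [CoreR.hf_cx hσ]; linarith⟩, cx v, by rw [CoreR.hf_cx hσ]; linarith⟩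

end aux

variable {I : Type} [Fintype I] [DecidableEq I] (n : I → ℕ) {κ : I → Type}
    [∀ i, Fintype (κ i)] [∀ i, DecidableEq (κ i)] {ϖ : ℂ} (hϖ : ϖ ≠ 0) (P : ∀ i, PData (κ i) ϖ)
    (i : I) {K : Type} [Field K] [NumberField K] {c : K →+* K} {m : ℕ}
    {h : Matrix (Fin m) (Fin m) K} {t : Fin m → K → Module.End ℂ (κ i → ℂ)}
    (S : MD (P i) c h t) {k : ℕ} (γ : MultilinearMap ℂ (fun _ : Fin (2 * k) => HW κ n) ℂ)
    (hB : ∀ v : Fin (2 * k) → HW κ n, (∀ r, IsRatP n P (v r)) → ∃ q : ℚ, γ v = ϖ ^ k * q)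
    (hA : ∀ v : Fin (2 * k) → HW κ n, (∀ r i m j, IsAlgebraic ℚ (v r i m j)) →
      IsAlgebraic ℚ (γ v))
    (hP : HNd (P i)) (hne : Nonempty (κ i))
    (hT : ∀ X : GG κ, IsInv n P γ X → ∃ M, ActM t (X.1 i) M)
    (hTg : ∀ g : (i : I) → Module.End ℂ (κ i → ℂ), IsGrp n P γ g →
      ∃ A : (K →+* ℂ) → Matrix (Fin m) (Fin m) ℂ, ∀ σ x,
        g i * tau (ts t σ) x = tau (ts t σ) (A σ *ᵥ x) * g i)

include hϖ S hB hA hP hne hT hTg in
theorem coreR (σ₀ : K →+* ℂ) (hσ : cj σ₀ = σ₀)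
    (hm : m = 3 ∨ 6 ≤ m ∨ m = 4 ∧ ∀ σ : K →+* ℂ, σ = σ₀)
    (hsig : Sig2 (Matrix.of fun a b => (σ₀ (h a b)).re) ∨
      Sig2 (-(Matrix.of fun a b => (σ₀ (h a b)).re)))
    (hdef : ∀ σ : K →+* ℂ, σ ≠ σ₀ → Definite (h.map (cj σ)))
    (Z : Matrix (Fin m) (Fin m) ℂ) (hZ : Zᵀ * h.map σ₀ + h.map σ₀ * Z = 0) :
    ∃ M ∈ HH n P i t γ, M σ₀ = Z ∧ ∀ σ, σ ≠ σ₀ → M σ = 0 := by
  have hm3 : 3 ≤ m := by omega
  have hnt : Nontrivial (κ i → ℂ) := inferInstance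
  set G := CoreR.GR h σ₀ with hGdef
  have hG : Gᵀ = G := CoreR.GR_tr S.conj S.herm hσ
  have hbp : ∀ x y, bil G x y = pr h σ₀ x y := CoreR.bil_pr hσ
  obtain ⟨hpos, hneg⟩ := CoreR.signs hσ hm3 hsig
  have hirr : ∀ W : Submodule ℂ (Fin m → ℂ),
      (∀ M ∈ HH n P i t γ, ∀ v ∈ W, M σ₀ *ᵥ v ∈ W) → W = ⊥ ∨ W = ⊤ := fun W hW =>
    irrR n hϖ P i S γ hB hA hP hne hT hm3 σ₀ hσ W hW
  obtain ⟨B, hBH, hB0, hBz, hBc, -, hBspan⟩ := exists_hypE n hϖ P i S γ hB hne hT σ₀ hpos hneg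
    (fun σ h1 _ => hdef σ h1) hTg hirr
  -- the Lie algebra and the ideal
  let g : Submodule ℂ (Module.End ℂ (Fin m → ℂ)) :=
    { carrier := {X | ∃ M ∈ HH n P i t γ, X = Matrix.toLin' (M σ₀)}
      add_mem' := by
        rintro _ _ ⟨M, hM, rfl⟩ ⟨N, hN, rfl⟩
        exact ⟨M + N, HH_add n P i γ hM hN, by rw [Pi.add_apply, map_add]⟩
      zero_mem' := ⟨0, HH_zero n P i γ, by rw [Pi.zero_apply, map_zero]⟩
      smul_mem' := by
        rintro r _ ⟨M, hM, rfl⟩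
        exact ⟨r • M, HH_smul n P i γ r hM, by rw [Pi.smul_apply, map_smul]⟩ }
  let cc : Submodule ℂ (Module.End ℂ (Fin m → ℂ)) :=
    { carrier := {X | ∃ M ∈ HH n P i t γ, X = Matrix.toLin' (M σ₀) ∧ ∀ σ, σ ≠ σ₀ → M σ = 0}
      add_mem' := by
        rintro _ _ ⟨M, hM, rfl, h1⟩ ⟨N, hN, rfl, h2⟩
        exact ⟨M + N, HH_add n P i γ hM hN, by rw [Pi.add_apply, map_add], fun σ h3 => by
          rw [Pi.add_apply, h1 σ h3, h2 σ h3, add_zero]⟩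
      zero_mem' := ⟨0, HH_zero n P i γ, by rw [Pi.zero_apply, map_zero], fun σ _ => rfl⟩
      smul_mem' := by
        rintro r _ ⟨M, hM, rfl, h1⟩
        exact ⟨r • M, HH_smul n P i γ r hM, by rw [Pi.smul_apply, map_smul], fun σ h3 => by
          rw [Pi.smul_apply, h1 σ h3, smul_zero]⟩ }
  have hmul : ∀ M N : Matrix (Fin m) (Fin m) ℂ,
      (Matrix.toLin' M : Module.End ℂ (Fin m → ℂ)) * Matrix.toLin' N -
        Matrix.toLin' N * Matrix.toLin' M = Matrix.toLin' (M * N - N * M) := by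
    intro M N
    rw [map_sub, Matrix.toLin'_mul, Matrix.toLin'_mul]
    rfl
  have hskw : ∀ M ∈ HH n P i t γ, ∀ u v,
      bil G (Matrix.toLin' (M σ₀) u) v + bil G u (Matrix.toLin' (M σ₀) v) = 0 := by
    intro M hM u v
    have h1 := (skewM_iff M).1 (HH_skew n P i S γ hne hM) σ₀ u v
    rw [hσ] at h1
    rw [hbp, hbp, Matrix.toLin'_apply, Matrix.toLin'_apply]
    exact h1
  have hBg : Matrix.toLin' (B σ₀) ∈ g := ⟨B, hBH, rfl⟩
  have hBcc : Matrix.toLin' (B σ₀) ∈ cc := ⟨B, hBH, rfl, fun σ h1 => hBz σ h1 (by rw [hσ]; exact h1)⟩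
  have hB0' : (Matrix.toLin' (B σ₀) : Module.End ℂ (Fin m → ℂ)) ≠ 0 := by
    intro h1
    exact hB0 ((LinearEquiv.map_eq_zero_iff _).1 h1)
  have hstar : ∀ (M : Matrix (Fin m) (Fin m) ℂ) (v : Fin m → ℂ),
      (M.map conj) *ᵥ v = star (M *ᵥ star v) := by
    intro M v
    funext a
    rw [Pi.star_apply, Matrix.mulVec, Matrix.mulVec, dotProduct, dotProduct, star_sum]
    refine Finset.sum_congr rfl fun b _ => ?_
    rw [Matrix.map_apply, Pi.star_apply, star_mul', star_star]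
    rfl
  have hall : ∀ X : Module.End ℂ (Fin m → ℂ),
      (∀ u v, bil G (X u) v + bil G u (X v) = 0) → X ∈ g := by
    intro X hX
    refine so_main2' hm3 (by omega) G hG hsig g ?_ ?_ ?_ ?_ (Matrix.toLin' (B σ₀)) hBg hB0' ?_ ?_
      X hX
    · rintro _ ⟨M, hM, rfl⟩ _ ⟨N, hN, rfl⟩
      exact ⟨M * N - N * M, HH_bracket n P i γ hM hN, hmul _ _⟩
    · rintro _ ⟨M, hM, rfl⟩
      exact hskw M hM
    · rintro _ ⟨M, hM, rfl⟩
      have htw := HH_twist n hϖ P i S γ hB hM (starRingAut : ℂ ≃+* ℂ)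
      refine ⟨_, ⟨_, htw, rfl⟩, fun v => ?_⟩
      rw [Matrix.toLin'_apply, Matrix.toLin'_apply]
      have h2 : twM (starRingAut : ℂ ≃+* ℂ) M σ₀ = (M σ₀).map conj := by
        unfold twM
        have h3 : ((starRingAut : ℂ ≃+* ℂ).symm : ℂ →+* ℂ).comp σ₀ = σ₀ := by
          refine Eq.trans ?_ hσ
          ext x
          rfl
        rw [h3]
        rfl
      rw [h2, hstar]
    · intro W hW
      exact hirr W fun M hM v hv => by
        have := hW _ ⟨M, hM, rfl⟩ v hv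
        rwa [Matrix.toLin'_apply] at this
    · intro v
      rw [Matrix.toLin'_apply, Matrix.toLin'_apply]
      have h1 := hBc σ₀
      rw [hσ] at h1
      conv_lhs => rw [h1]
      rw [hstar, star_star]
    · intro v
      have := hBspan v
      simpa only [Matrix.toLin'_apply] using this
  have hcc : ∀ X : Module.End ℂ (Fin m → ℂ),
      (∀ u v, bil G (X u) v + bil G u (X v) = 0) → X ∈ cc := by
    intro X hX
    rcases hm with h1 | h1 | h1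
    · refine KSP.ideal_top (Or.inl h1) (bil G) (bil_symm hG) (nondeg_of_sig G hG hsig) cc ?_ ?_
        _ hBcc hB0' X hX
      · rintro _ ⟨M, hM, rfl, -⟩
        exact hskw M hM
      · rintro _ ⟨M, hM, rfl, h2⟩ N hN
        obtain ⟨N', hN', rfl⟩ := hall N hN
        exact ⟨N' * M - M * N', HH_bracket n P i γ hN' hM, hmul _ _, fun σ h3 => by
          rw [Pi.sub_apply, Pi.mul_apply, Pi.mul_apply, h2 σ h3, mul_zero, zero_mul, sub_zero]⟩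
    · refine KSP.ideal_top (Or.inr (by omega)) (bil G) (bil_symm hG) (nondeg_of_sig G hG hsig) cc
        ?_ ?_ _ hBcc hB0' X hX
      · rintro _ ⟨M, hM, rfl, -⟩
        exact hskw M hM
      · rintro _ ⟨M, hM, rfl, h2⟩ N hN
        obtain ⟨N', hN', rfl⟩ := hall N hN
        exact ⟨N' * M - M * N', HH_bracket n P i γ hN' hM, hmul _ _, fun σ h3 => by
          rw [Pi.sub_apply, Pi.mul_apply, Pi.mul_apply, h2 σ h3, mul_zero, zero_mul, sub_zero]⟩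
    · obtain ⟨M, hM, hX'⟩ := hall X hX
      exact ⟨M, hM, hX', fun σ h3 => absurd (h1.2 σ) h3⟩
  obtain ⟨M, hM, h1, h2⟩ := hcc (Matrix.toLin' Z) (by
    intro u v
    rw [hbp, hbp, Matrix.toLin'_apply, Matrix.toLin'_apply]
    have e : pr h σ₀ (Z *ᵥ u) v + pr h σ₀ u (Z *ᵥ v) =
        u ⬝ᵥ ((Zᵀ * h.map σ₀ + h.map σ₀ * Z) *ᵥ v) := by
      have e1 : Z *ᵥ u ⬝ᵥ h.map ⇑σ₀ *ᵥ v = u ⬝ᵥ (Zᵀ * h.map ⇑σ₀) *ᵥ v := by
        rw [← Matrix.mulVec_mulVec, Matrix.dotProduct_mulVec u Zᵀ, Matrix.vecMul_transpose]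
      rw [pr, pr, Matrix.add_mulVec, dotProduct_add, Matrix.mulVec_mulVec, e1]
    rw [e, hZ, Matrix.zero_mulVec, dotProduct_zero])
  exact ⟨M, hM, (Matrix.toLin'.injective h1).symm, h2⟩

end Pool.Agent.KSE
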