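import Pool.Agent.KS.Basic
import Pool.Agent.Helper7.Eigen
import Pool.Agent.Helper28.GPC.TwistU

/-!
Kuga-Satake structures with real or complex multiplication: common definitions.

`T = K^m` is a vector space over the number field `K` (totally real: `c = id`, or CM: `c` is the
complex conjugation), with the quadratic form `q(x, y) = Tr(∑ x_a c(y_b) h_ab)`. The operator of the
vector `x e_a` is `t a x`. The eigenspace of `σ : K → ℂ` in `T ⊗ ℂ` has the basis given by the
operators `ts t σ a`, and the eigenspaces of `σ` and `cj σ` are dual.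
-/

namespace Pool.Agent.KSE

open Module Matrix NumberField Pool.Agent.Helper7 Pool.Agent.KS Pool.Agent.Ball

/-- the complex conjugate of an embedding -/
abbrev cj {K : Type} [Field K] (σ : K →+* ℂ) : K →+* ℂ := ComplexEmbedding.conjugate σ

section ts

variable {V : Type} [AddCommGroup V] [Module ℂ V] {K : Type} [Field K] [NumberField K] {m : ℕ}

/-- the operators at a place -/
noncomputable def ts (t : Fin m → K → Module.End ℂ V) (σ : K →+* ℂ) (a : Fin m) :
    Module.End ℂ V :=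
  ∑ b, σ (dbas K b) • t a (bas K b)

/-- the pairing of the eigenspaces of `σ` and `cj σ` -/
noncomputable def pr (h : Matrix (Fin m) (Fin m) K) (σ : K →+* ℂ) (x y : Fin m → ℂ) : ℂ :=
  x ⬝ᵥ (h.map σ *ᵥ y)

/-- the operator `X` acts on the eigenspaces by the matrices `M σ` -/
def ActM (t : Fin m → K → Module.End ℂ V) (X : Module.End ℂ V)
    (M : (K →+* ℂ) → Matrix (Fin m) (Fin m) ℂ) : Prop :=
  ∀ σ x, X * tau (ts t σ) x - tau (ts t σ) x * X = tau (ts t σ) (M σ *ᵥ x)

/-- skew families of matrices -/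
def SkewM (h : Matrix (Fin m) (Fin m) K) (M : (K →+* ℂ) → Matrix (Fin m) (Fin m) ℂ) : Prop :=
  ∀ σ, (M σ)ᵀ * h.map σ + h.map σ * M (cj σ) = 0

/-- the twist of a family of matrices by an automorphism of `ℂ` -/
def twM (τ : ℂ ≃+* ℂ) (M : (K →+* ℂ) → Matrix (Fin m) (Fin m) ℂ) :
    (K →+* ℂ) → Matrix (Fin m) (Fin m) ℂ :=
  fun σ => (M ((τ.symm : ℂ →+* ℂ).comp σ)).map τ

/-- the commutators of two vectors in dual eigenspaces -/
noncomputable def bvS (t : Fin m → K → Module.End ℂ V) : Submodule ℂ (Module.End ℂ V) :=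
  Submodule.span ℂ {Z | ∃ σ a b, Z = ts t σ a * ts t (cj σ) b - ts t (cj σ) b * ts t σ a}

end ts

section data

variable {κ : Type} [Fintype κ] [DecidableEq κ] {ϖ : ℂ} {K : Type} [Field K] [NumberField K]
  {m : ℕ}

/-- Kuga-Satake structures with multiplication by `K` -/
structure MD (P : PData κ ϖ) (c : K →+* K) (h : Matrix (Fin m) (Fin m) K)
    (t : Fin m → K → Module.End ℂ (κ → ℂ)) : Prop where
  conj : ∀ (σ : K →+* ℂ) (x : K), cj σ x = σ (c x)
  herm : ∀ a b, c (h a b) = h b a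
  nd : h.det ≠ 0
  add : ∀ a x y, t a (x + y) = t a x + t a y
  rat : ∀ a x, ∀ v ∈ P.Q, t a x v ∈ P.Q
  alg : ∀ σ : K →+* ℂ, ∃ g : Matrix (Fin m) (Fin m) ℂ, IsUnit g ∧
    ∀ b i j, IsAlgebraic ℚ ((∑ a, g a b • ts t σ a) (Pi.single i 1) j)
  cliff : ∀ a b x y, t a x * t b y + t b y * t a x =
    (2 * ((Algebra.trace ℚ K (x * c y * h a b) : ℚ) : ℂ)) • 1
  cent : ∀ f : Module.End ℂ (κ → ℂ), IsDRB P P f ↔
    (∀ v ∈ P.Q, f v ∈ P.Q) ∧ ∀ σ a b,
      f * (ts t σ a * ts t (cj σ) b) = ts t σ a * ts t (cj σ) b * f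

end data

section family

variable {I : Type} [Fintype I] [DecidableEq I] (n : I → ℕ) {κ : I → Type}
    [∀ i, Fintype (κ i)] [∀ i, DecidableEq (κ i)] {ϖ : ℂ} (P : ∀ i, PData (κ i) ϖ) (i : I)
    {K : Type} [Field K] [NumberField K] {m : ℕ} (t : Fin m → K → Module.End ℂ (κ i → ℂ)) {k : ℕ}
    (γ : MultilinearMap ℂ (fun _ : Fin (2 * k) => HW κ n) ℂ)

/-- the families of matrices of the symmetries without multiplier -/
def HH : Set ((K →+* ℂ) → Matrix (Fin m) (Fin m) ℂ) :=
  {M | ∃ X : GG κ, IsInv n P γ X ∧ X.2 = 0 ∧ ActM t (X.1 i) M}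

end family

end Pool.Agent.KSE
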