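import Pool.Agent.KSE.CentE
import Pool.Agent.KSE.ProjE

/-!
Module DenseE. Subspaces stable under the symmetries are stable under the products of two vectors in
dual eigenspaces.

Let `R` be the subalgebra of `Module.End ℚ (P i).Q` generated by the
restrictions of the rational symmetries (`IsInv` and `IsRatl`). By `exists_projE` every `R`-submodule of
`(P i).Q` has a complement (the kernel of `p`), so `(P i).Q` is a semisimple `R`-module. The operator
`T x = ∑ σ, σ x • (ts t σ a * ts t (cj σ) b)` is rational (`rat_products`) and commutes with the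
`R`-endomorphisms of `(P i).Q`: their complex linear extensions commute with all rational symmetries,
hence with all symmetries (`mem_span_of_isInv`), use `comm_productsE`. By the density theorem (as in
`Pool/Agent/Helper7/Burnside.lean`) `T x` is in `R`, so it is a combination of products of rational
symmetries and preserves `U`. Finally `ts t σ a * ts t (cj σ) b` is a combination of the `T (bas K d)`
(`sum_dbas_bas`).
-/

open scoped ComplexConjugate

namespace Pool.Agent.KSE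

open Module Matrix NumberField Pool.Agent.Helper7 Pool.Agent.KS Pool.Agent.Ball
  Pool.Agent.Helper28.GPC

namespace DenseE

section lin

variable {κ₀ : Type} [Fintype κ₀] [DecidableEq κ₀] {ϖ : ℂ} (P : PData κ₀ ϖ)
  {W : Type} [AddCommGroup W] [Module ℂ W] [Module ℚ W]

/-- the complex linear extension of a rational linear map -/
noncomputable def lext (φ : P.Q →ₗ[ℚ] W) : (κ₀ → ℂ) →ₗ[ℂ] W :=
  P.bB.constr ℂ fun j => φ ⟨P.bB j, P.basis_mem j⟩

lemma lext_basis (φ : P.Q →ₗ[ℚ] W) (j : P.ι) :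
    lext P φ (P.bB j) = φ ⟨P.bB j, P.basis_mem j⟩ := by
  rw [lext]
  exact Basis.constr_basis _ _ _ _

lemma lext_coe [IsScalarTower ℚ ℂ W] (φ : P.Q →ₗ[ℚ] W) (v : P.Q) :
    lext P φ (v : κ₀ → ℂ) = φ v := by
  obtain ⟨v, hv⟩ := v
  have hv' : v ∈ Submodule.span ℚ (Set.range P.bB) := hv
  have key : ∀ v ∈ Submodule.span ℚ (Set.range P.bB), ∀ hv : v ∈ P.Q,
      lext P φ v = φ ⟨v, hv⟩ := by
    intro v hv'
    induction hv' using Submodule.span_induction with
    | mem x hx =>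
      obtain ⟨j, rfl⟩ := hx
      intro hv
      exact lext_basis P φ j
    | zero =>
      intro hv
      rw [map_zero]
      have h1 : (⟨0, hv⟩ : P.Q) = 0 := rfl
      rw [h1, map_zero]
    | add x y hx' hy' hx hy =>
      intro hv
      rw [map_add, hx hx', hy hy']
      have h1 : (⟨x + y, hv⟩ : P.Q) = ⟨x, hx'⟩ + ⟨y, hy'⟩ := rfl
      rw [h1, map_add]
    | smul c x hx' hx =>
      intro hv
      have h2 : c • x = (c : ℂ) • x := by
        rw [← algebraMap_smul ℂ c x]; rfl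
      have h4 : c • lext P φ x = (c : ℂ) • lext P φ x := by
        rw [← algebraMap_smul ℂ c (lext P φ x)]; rfl
      have h1 : φ (⟨c • x, hv⟩ : P.Q) = c • φ ⟨x, hx'⟩ := by
        rw [← map_smul]; rfl
      rw [h1, ← hx hx', h4, h2, map_smul]
  exact key v hv' hv

/-- a rational vector in the complex span of a rational subspace is in the subspace -/
lemma mem_of_span (U : Submodule ℚ (κ₀ → ℂ)) (hU : U ≤ P.Q) {v : κ₀ → ℂ} (hv : v ∈ P.Q)
    (h : v ∈ Submodule.span ℂ (U : Set (κ₀ → ℂ))) : v ∈ U := by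
  by_contra hc
  have hc' : (⟨v, hv⟩ : P.Q) ∉ U.comap P.Q.subtype := fun h' => hc h'
  obtain ⟨f, hf, hle⟩ := Submodule.exists_le_ker_of_notMem hc'
  let φ : P.Q →ₗ[ℚ] ℂ := (Algebra.linearMap ℚ ℂ) ∘ₗ f
  have h1 : ∀ x ∈ Submodule.span ℂ (U : Set (κ₀ → ℂ)), lext P φ x = 0 := by
    intro x hx
    induction hx using Submodule.span_induction with
    | mem x hx =>
      have h2 := lext_coe P φ ⟨x, hU hx⟩
      have h3 : f ⟨x, hU hx⟩ = 0 := hle (show (⟨x, hU hx⟩ : P.Q) ∈ U.comap P.Q.subtype from hx)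
      have h4 : φ ⟨x, hU hx⟩ = 0 := by
        show (Algebra.linearMap ℚ ℂ) (f ⟨x, hU hx⟩) = 0
        rw [h3, map_zero]
      rw [h4] at h2
      exact h2
    | zero => rw [map_zero]
    | add x y _ _ hx hy => rw [map_add, hx, hy, add_zero]
    | smul c x _ hx => rw [map_smul, hx, smul_zero]
  have h2 := lext_coe P φ ⟨v, hv⟩
  have h3 : lext P φ v = 0 := h1 v h
  have h4 : φ ⟨v, hv⟩ = 0 := h2.symm.trans h3
  have h5 : (Algebra.linearMap ℚ ℂ) (f ⟨v, hv⟩) = 0 := h4
  apply hf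
  have h6 : ((f ⟨v, hv⟩ : ℚ) : ℂ) = 0 := h5
  exact_mod_cast h6

end lin

section density

variable {k₀ M : Type*} [Field k₀] [AddCommGroup M] [Module k₀ M]

/-- the density theorem for the algebra generated by a set of operators whose stable subspaces are
images of commuting projections -/
theorem density (S : Set (Module.End k₀ M))
    (proj : ∀ N : Submodule k₀ M, (∀ s ∈ S, ∀ v ∈ N, s v ∈ N) → ∃ p : Module.End k₀ M,
      (∀ s ∈ S, p * s = s * p) ∧ (∀ v ∈ N, p v = v) ∧ ∀ v, p v ∈ N)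
    (T : Module.End k₀ M)
    (hT : ∀ φ : Module.End k₀ M, (∀ s ∈ S, s * φ = φ * s) → T * φ = φ * T) (s : Finset M) :
    ∃ r ∈ Algebra.adjoin k₀ S, ∀ m ∈ s, T m = r m := by
  classical
  obtain ⟨𝒜, h𝒜⟩ : ∃ 𝒜 : Subalgebra k₀ (Module.End k₀ M), 𝒜 = Algebra.adjoin k₀ S := ⟨_, rfl⟩
  rw [← h𝒜]
  have hS : ∀ s ∈ S, s ∈ 𝒜 := fun s hs => by rw [h𝒜]; exact Algebra.subset_adjoin hs
  have hsemi : IsSemisimpleModule 𝒜 M := by
    refine { exists_isCompl := fun N => ?_ }
    obtain ⟨p, hps, hpid, hpN⟩ := proj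
      { carrier := N
        add_mem' := fun ha hb => N.add_mem ha hb
        zero_mem' := N.zero_mem
        smul_mem' := fun c x hx => by
          have h2 := N.smul_mem (algebraMap k₀ 𝒜 c) hx
          have h3 : (algebraMap k₀ 𝒜 c) • x = c • x := by
            rw [algebraMap_smul]
          rw [h3] at h2
          exact h2 } (fun s hs v hv => N.smul_mem (⟨s, hS s hs⟩ : 𝒜) hv)
    have hcomm : ∀ r ∈ 𝒜, p * r = r * p := by
      intro r hr
      rw [h𝒜] at hr
      induction hr using Algebra.adjoin_induction with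
      | mem r hr => exact hps r hr
      | algebraMap q => exact (Algebra.commutes q p).symm
      | add x y _ _ hx hy => rw [mul_add, add_mul, hx, hy]
      | mul x y _ _ hx hy => rw [← mul_assoc, hx, mul_assoc, hy, mul_assoc]
    let f : M →ₗ[𝒜] N :=
      { toFun := fun v => ⟨p v, hpN v⟩
        map_add' := fun x y => by
          apply Subtype.ext
          exact map_add p _ _
        map_smul' := fun r x => by
          apply Subtype.ext
          exact congrArg (fun g => g x) (hcomm r r.2) }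
    have hf : ∀ x : N, f x = x := by
      intro x
      apply Subtype.ext
      exact hpid _ x.2
    exact ⟨LinearMap.ker f, LinearMap.isCompl_of_proj hf⟩
  let F : Module.End (Module.End 𝒜 M) M :=
    { toFun := T
      map_add' := fun x y => map_add T x y
      map_smul' := fun φ x => by
        have h1 := hT
          { toFun := φ
            map_add' := fun x y => map_add φ x y
            map_smul' := fun c x => by
              have h1 := map_smul φ (algebraMap k₀ 𝒜 c) x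
              rw [algebraMap_smul, algebraMap_smul] at h1
              exact h1 } (fun s hs => by
            ext m
            exact (map_smul φ (⟨s, hS s hs⟩ : 𝒜) m).symm)
        exact congrArg (fun g => g x) h1 }
  obtain ⟨r, hr⟩ := jacobson_density (R := 𝒜) (M := M) F s
  exact ⟨r, r.2, hr⟩

end density

end DenseE

open DenseE

variable {I : Type} [Fintype I] [DecidableEq I] (n : I → ℕ) {κ : I → Type}
    [∀ i, Fintype (κ i)] [∀ i, DecidableEq (κ i)] {ϖ : ℂ} (hϖ : ϖ ≠ 0) (P : ∀ i, PData (κ i) ϖ)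
    (i : I) {K : Type} [Field K] [NumberField K] {c : K →+* K} {m : ℕ}
    {h : Matrix (Fin m) (Fin m) K} {t : Fin m → K → Module.End ℂ (κ i → ℂ)}
    (S : MD (P i) c h t) {k : ℕ} (γ : MultilinearMap ℂ (fun _ : Fin (2 * k) => HW κ n) ℂ)
    (hB : ∀ v : Fin (2 * k) → HW κ n, (∀ r, IsRatP n P (v r)) → ∃ q : ℚ, γ v = ϖ ^ k * q)
    (hA : ∀ v : Fin (2 * k) → HW κ n, (∀ r i m j, IsAlgebraic ℚ (v r i m j)) →
      IsAlgebraic ℚ (γ v))

namespace DenseE

include hϖ hB hA in
/-- the rational operators which commute with the rational commutant of the rational symmetries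
preserve the subspaces stable under the symmetries -/
theorem stable_of_comm (hP : HNd (P i)) (U : Submodule ℂ (κ i → ℂ))
    (hU : ∀ X : GG κ, IsInv n P γ X → ∀ v ∈ U, X.1 i v ∈ U)
    (T : Module.End ℂ (κ i → ℂ)) (hTQ : ∀ v ∈ (P i).Q, T v ∈ (P i).Q)
    (hT : ∀ f : Module.End ℂ (κ i → ℂ), (∀ X : GG κ, IsInv n P γ X → X.1 i * f = f * X.1 i) →
      f * T = T * f) : ∀ v ∈ U, T v ∈ U := by
  classical
  obtain ⟨Sset, hSset⟩ : ∃ Sset : Set (Module.End ℚ (P i).Q), ∀ r, r ∈ Sset ↔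
      ∃ Y : GG κ, IsInv n P γ Y ∧ IsRatl P Y ∧
        ∀ v : (P i).Q, ((r v : (P i).Q) : κ i → ℂ) = Y.1 i v :=
    ⟨{r | ∃ Y : GG κ, IsInv n P γ Y ∧ IsRatl P Y ∧
        ∀ v : (P i).Q, ((r v : (P i).Q) : κ i → ℂ) = Y.1 i v}, fun r => Iff.rfl⟩
  have hex : ∀ Y : GG κ, IsInv n P γ Y → IsRatl P Y → ∃ r ∈ Sset,
      ∀ v : (P i).Q, ((r v : (P i).Q) : κ i → ℂ) = Y.1 i v := by
    intro Y hY hYr
    have h1 : ∀ v ∈ (P i).Q, ((Y.1 i).restrictScalars ℚ) v ∈ (P i).Q := fun v hv => hYr.1 i v hv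
    refine ⟨((Y.1 i).restrictScalars ℚ).restrict h1, ?_, fun v => rfl⟩
    rw [hSset]
    exact ⟨Y, hY, hYr, fun v => rfl⟩
  -- the projections
  have hproj : ∀ N : Submodule ℚ (P i).Q, (∀ s ∈ Sset, ∀ v ∈ N, s v ∈ N) →
      ∃ p : Module.End ℚ (P i).Q, (∀ s ∈ Sset, p * s = s * p) ∧ (∀ v ∈ N, p v = v) ∧
        ∀ v, p v ∈ N := by
    intro N hN
    have hNU : ∀ v, v ∈ N.map (P i).Q.subtype ↔ ∃ hv : v ∈ (P i).Q, (⟨v, hv⟩ : (P i).Q) ∈ N := by
      intro v
      rw [Submodule.mem_map]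
      constructor
      · rintro ⟨w, hw, rfl⟩
        exact ⟨w.2, hw⟩
      · rintro ⟨hv, hv'⟩
        exact ⟨⟨v, hv⟩, hv', rfl⟩
    have hNUQ : N.map (P i).Q.subtype ≤ (P i).Q := fun v hv => ((hNU v).mp hv).1
    obtain ⟨p, hp, hpid, hpsp⟩ := exists_projE n hϖ P i γ hB hA hP _ hNUQ (by
      intro Y hY hYr v hv
      obtain ⟨hvQ, hvN⟩ := (hNU v).mp hv
      obtain ⟨r, hr, hrv⟩ := hex Y hY hYr
      have h1 := hN r hr _ hvN
      have h2 : Y.1 i v = ((r ⟨v, hvQ⟩ : (P i).Q) : κ i → ℂ) := (hrv ⟨v, hvQ⟩).symm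
      rw [h2, hNU]
      exact ⟨(r ⟨v, hvQ⟩).2, h1⟩)
    have hpres : ∀ v ∈ (P i).Q, (p.restrictScalars ℚ) v ∈ (P i).Q := hp.rat
    refine ⟨(p.restrictScalars ℚ).restrict hpres, ?_, ?_, ?_⟩
    · intro s hs
      obtain ⟨Y, hY, hYr, hrv⟩ := (hSset s).mp hs
      apply LinearMap.ext
      intro v
      apply Subtype.ext
      show p ((s v : (P i).Q) : κ i → ℂ) = ((s _ : (P i).Q) : κ i → ℂ)
      rw [hrv, hrv]
      exact (hY.comm i i p hp v).symm
    · intro v hv
      apply Subtype.ext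
      show p (v : κ i → ℂ) = v
      apply hpid
      rw [hNU]
      exact ⟨v.2, hv⟩
    · intro v
      have h1 : p v ∈ N.map (P i).Q.subtype :=
        mem_of_span (P i) _ hNUQ (hp.rat _ v.2) (hpsp v)
      obtain ⟨h2, h3⟩ := (hNU _).mp h1
      exact h3
  -- the rational operator
  have hTres : ∀ v ∈ (P i).Q, (T.restrictScalars ℚ) v ∈ (P i).Q := hTQ
  obtain ⟨TQ, hTQv⟩ : ∃ TQ : Module.End ℚ (P i).Q,
      ∀ v : (P i).Q, ((TQ v : (P i).Q) : κ i → ℂ) = T v :=
    ⟨(T.restrictScalars ℚ).restrict hTres, fun v => rfl⟩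
  have hTc : ∀ φ : Module.End ℚ (P i).Q, (∀ s ∈ Sset, s * φ = φ * s) → TQ * φ = φ * TQ := by
    intro φ hφs
    obtain ⟨φQ, hφQ⟩ : ∃ φQ : (P i).Q →ₗ[ℚ] (κ i → ℂ), φQ = (P i).Q.subtype ∘ₗ φ := ⟨_, rfl⟩
    have hφQv : ∀ v : (P i).Q, φQ v = ((φ v : (P i).Q) : κ i → ℂ) := fun v => by rw [hφQ]; rfl
    have hφ : ∀ v : (P i).Q, lext (P i) φQ v = ((φ v : (P i).Q) : κ i → ℂ) :=
      fun v => (lext_coe (P i) φQ v).trans (hφQv v)
    have hrat : ∀ Y : GG κ, IsInv n P γ Y → IsRatl P Y →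
        Y.1 i * lext (P i) φQ = lext (P i) φQ * Y.1 i := by
      intro Y hY hYr
      obtain ⟨r, hr, hrv⟩ := hex Y hY hYr
      apply (P i).bB.ext
      intro j
      show Y.1 i (lext (P i) φQ ((P i).bB j)) = lext (P i) φQ (Y.1 i ((P i).bB j))
      have h1 : lext (P i) φQ ((P i).bB j) =
          ((φ ⟨(P i).bB j, (P i).basis_mem j⟩ : (P i).Q) : κ i → ℂ) :=
        (lext_basis (P i) φQ j).trans (hφQv _)
      have h2 := hrv ⟨(P i).bB j, (P i).basis_mem j⟩
      have h3 : Y.1 i ((P i).bB j) =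
          ((r ⟨(P i).bB j, (P i).basis_mem j⟩ : (P i).Q) : κ i → ℂ) := h2.symm
      rw [h1, h3, hφ, ← hrv]
      have h4 := congrArg (fun g => g (⟨(P i).bB j, (P i).basis_mem j⟩ : (P i).Q)) (hφs r hr)
      exact congrArg Subtype.val h4
    have hkey : ∀ X ∈ Submodule.span ℂ {Y : GG κ | IsInv n P γ Y ∧ IsRatl P Y},
        X.1 i * lext (P i) φQ = lext (P i) φQ * X.1 i := by
      intro X hX
      induction hX using Submodule.span_induction with
      | mem Y hY => exact hrat Y hY.1 hY.2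
      | zero =>
        show (0 : Module.End ℂ (κ i → ℂ)) * _ = _ * (0 : Module.End ℂ (κ i → ℂ))
        rw [zero_mul, mul_zero]
      | add X Y _ _ h1 h2 =>
        show (X.1 i + Y.1 i) * _ = _ * (X.1 i + Y.1 i)
        rw [add_mul, mul_add, h1, h2]
      | smul r X _ h1 =>
        show (r • X.1 i) * _ = _ * (r • X.1 i)
        rw [smul_mul_assoc, mul_smul_comm, h1]
    have h5 := hT _ fun X hX => hkey X (mem_span_of_isInv n P γ hϖ hB X hX)
    apply LinearMap.ext
    intro x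
    have h6 := congrArg (fun g => g (x : κ i → ℂ)) h5
    have h7 : lext (P i) φQ (T x) = T (lext (P i) φQ x) := h6
    rw [hφ, ← hTQv, ← hTQv, hφ] at h7
    exact Subtype.ext h7.symm
  obtain ⟨r, hrA, hr⟩ := density Sset hproj TQ hTc
    (Finset.univ.image fun j : (P i).ι => (⟨(P i).bB j, (P i).basis_mem j⟩ : (P i).Q))
  -- elements of the algebra preserve the subspace
  have hpres : ∀ r ∈ Algebra.adjoin ℚ Sset, ∃ R : Module.End ℂ (κ i → ℂ),
      (∀ v : (P i).Q, R v = ((r v : (P i).Q) : κ i → ℂ)) ∧ ∀ v ∈ U, R v ∈ U := by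
    intro r hr
    induction hr using Algebra.adjoin_induction with
    | mem r hr =>
      obtain ⟨Y, hY, hYr, hrv⟩ := (hSset r).mp hr
      exact ⟨Y.1 i, fun v => (hrv v).symm, hU Y hY⟩
    | algebraMap q =>
      refine ⟨(q : ℂ) • 1, fun v => ?_, fun v hv => ?_⟩
      · show (q : ℂ) • (v : κ i → ℂ) = q • (v : κ i → ℂ)
        rw [← algebraMap_smul ℂ q (v : κ i → ℂ)]; rfl
      · exact U.smul_mem _ hv
    | add x y _ _ hx hy =>
      obtain ⟨X, hX1, hX2⟩ := hx
      obtain ⟨Y, hY1, hY2⟩ := hy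
      refine ⟨X + Y, fun v => ?_, fun v hv => U.add_mem (hX2 v hv) (hY2 v hv)⟩
      show X v + Y v = _
      rw [hX1, hY1]
      rfl
    | mul x y _ _ hx hy =>
      obtain ⟨X, hX1, hX2⟩ := hx
      obtain ⟨Y, hY1, hY2⟩ := hy
      refine ⟨X * Y, fun v => ?_, fun v hv => hX2 _ (hY2 v hv)⟩
      show X (Y v) = _
      rw [hY1, hX1]
      rfl
  obtain ⟨R, hR1, hR2⟩ := hpres r hrA
  have hTR : T = R := by
    apply (P i).bB.ext
    intro j
    have h1 := hr ⟨(P i).bB j, (P i).basis_mem j⟩ (Finset.mem_image_of_mem _ (Finset.mem_univ j))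
    have h2 := hTQv ⟨(P i).bB j, (P i).basis_mem j⟩
    have h3 := hR1 ⟨(P i).bB j, (P i).basis_mem j⟩
    rw [h1] at h2
    exact h2.symm.trans h3.symm
  rw [hTR]
  exact hR2

end DenseE

include hϖ S hB hA in
theorem stable_productsE (hP : HNd (P i)) (U : Submodule ℂ (κ i → ℂ))
    (hU : ∀ X : GG κ, IsInv n P γ X → ∀ v ∈ U, X.1 i v ∈ U) (σ : K →+* ℂ) (a b : Fin m) :
    ∀ v ∈ U, ts t σ a (ts t (cj σ) b v) ∈ U := by
  classical
  have h1 : ∀ x : K, ∀ v ∈ U, (∑ τ : K →+* ℂ, τ x • (ts t τ a * ts t (cj τ) b)) v ∈ U := by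
    intro x
    apply stable_of_comm n hϖ P i γ hB hA hP U hU
    · intro v hv
      exact rat_products P i S x a b v hv
    · intro f hf
      rw [Finset.mul_sum, Finset.sum_mul]
      refine Finset.sum_congr rfl fun τ _ => ?_
      rw [mul_smul_comm, smul_mul_assoc, comm_productsE n hϖ P i S γ hB hA f hf τ a b]
  have h2 : ts t σ a * ts t (cj σ) b = ∑ d, σ (dbas K d) •
      (∑ τ : K →+* ℂ, τ (bas K d) • (ts t τ a * ts t (cj τ) b)) := by
    simp only [Finset.smul_sum, smul_smul]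
    rw [Finset.sum_comm]
    simp only [← Finset.sum_smul, sum_dbas_bas]
    simp
  intro v hv
  have h3 : ts t σ a (ts t (cj σ) b v) = (ts t σ a * ts t (cj σ) b) v := rfl
  rw [h3, h2, LinearMap.sum_apply]
  refine U.sum_mem fun d _ => ?_
  exact U.smul_mem _ (h1 _ v hv)

end Pool.Agent.KSE
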