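import Pool.Agent.KSE.SWb
import Pool.Agent.KSE.Ts
import Pool.Agent.KSP.Fft

/-!
Module FftA. Invariant forms with fixed places.

`P σ` is the projection to the component `σ`. `F` depends only on the components `v r (s r)` (`hs`). The
slots `e₀ (a, 0)` are in the places `p a` and the slots `e₀ (a, 1)` in the places `cj (p a)`. For `w : Fin m → ℂ`
let `ι σ w` be the vector with component `w` at `σ` and zero elsewhere, and for a place `σ` let `f σ b` be
the vector of the eigenspace `cj σ` dual to the standard basis: `h.map σ *ᵥ f σ b = Pi.single b 1`. Put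
`T i' i = F v`, where `v (e₀ (a, 0)) = ι (p a) (Pi.single (i a) 1)`, `v (e₀ (a, 1)) = ι (cj (p a)) (f (p a) (i' a))`.
For `X : Matrix (Fin m) (Fin m) ℂ` and a place `σ = p a` take the skew family `M σ = X`,
`M (cj σ) = - (h.map σ)⁻¹ * Xᵀ * h.map σ`, zero elsewhere (`M (cj σ) *ᵥ f σ b = - ∑ b', X b b' • f σ b'`);
invariance (`hF`) says that `T` commutes with `dty p σ X` (`p a = cj σ` does not occur: `hp`). By
`schur_weyl` `T = ∑ π, c π • pmat π`, and the form with `T = pmat π` is the product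
`∏ a, pr h (p a) (v (e (a, 0)) (p a)) (v (e (a, 1)) (cj (p a)))` for `e (a, 0) = e₀ (a, 0)`,
`e (a, 1) = e₀ (π a, 1)` or `e₀ (π⁻¹ a, 1)` (compare both sides on the vectors `v` above, which are enough
because of `hs`).
-/

namespace Pool.Agent.KSE

open Module Matrix NumberField

namespace FftA

set_option linter.unusedSectionVars false

section mats

variable {l m : ℕ}

lemma mul_at1 (T : Matrix (Fin l → Fin m) (Fin l → Fin m) ℂ) (a : Fin l)
    (X : Matrix (Fin m) (Fin m) ℂ) (i' i : Fin l → Fin m) :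
    (T * at1 a X) i' i = ∑ d, T i' (Function.update i a d) * X d (i a) := by
  classical
  rw [Matrix.mul_apply]
  have hinj : Function.Injective fun d : Fin m => Function.update i a d :=
    Function.update_injective i a
  have h1 : ∀ d, T i' (Function.update i a d) * X d (i a) =
      T i' (Function.update i a d) * at1 a X (Function.update i a d) i := by
    intro d
    congr 1
    show X d (i a) = ∏ r, Function.update (fun _ => (1 : Matrix (Fin m) (Fin m) ℂ)) a X r
      (Function.update i a d r) (i r)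
    rw [Finset.prod_eq_single a]
    · rw [Function.update_self, Function.update_self]
    · intro r _ hr
      rw [Function.update_of_ne hr, Function.update_of_ne hr, Matrix.one_apply_eq]
    · intro hr; exact absurd (Finset.mem_univ _) hr
  rw [Finset.sum_congr rfl fun d _ => h1 d]
  rw [← Finset.sum_image (s := Finset.univ) (g := fun d : Fin m => Function.update i a d)
    (f := fun k => T i' k * at1 a X k i) (fun x _ y _ hxy => hinj hxy)]
  symm
  apply Finset.sum_subset (Finset.subset_univ _)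
  intro k _ hk
  have h2 : at1 a X k i = 0 := by
    show ∏ r, Function.update (fun _ => (1 : Matrix (Fin m) (Fin m) ℂ)) a X r (k r) (i r) = 0
    obtain ⟨s, hs, hks⟩ : ∃ s, s ≠ a ∧ k s ≠ i s := by
      by_contra hcon
      push Not at hcon
      apply hk
      rw [Finset.mem_image]
      refine ⟨k a, Finset.mem_univ _, ?_⟩
      funext s
      by_cases hs : s = a
      · rw [hs, Function.update_self]
      · rw [Function.update_of_ne hs, hcon s hs]
    refine Finset.prod_eq_zero (Finset.mem_univ s) ?_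
    rw [Function.update_of_ne hs, Matrix.one_apply_ne hks]
  rw [h2, mul_zero]

lemma at1_mul (T : Matrix (Fin l → Fin m) (Fin l → Fin m) ℂ) (a : Fin l)
    (X : Matrix (Fin m) (Fin m) ℂ) (i' i : Fin l → Fin m) :
    (at1 a X * T) i' i = ∑ d, X (i' a) d * T (Function.update i' a d) i := by
  classical
  rw [Matrix.mul_apply]
  have hinj : Function.Injective fun d : Fin m => Function.update i' a d :=
    Function.update_injective i' a
  have h1 : ∀ d, X (i' a) d * T (Function.update i' a d) i =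
      at1 a X i' (Function.update i' a d) * T (Function.update i' a d) i := by
    intro d
    congr 1
    show X (i' a) d = ∏ r, Function.update (fun _ => (1 : Matrix (Fin m) (Fin m) ℂ)) a X r
      (i' r) (Function.update i' a d r)
    rw [Finset.prod_eq_single a]
    · rw [Function.update_self, Function.update_self]
    · intro r _ hr
      rw [Function.update_of_ne hr, Function.update_of_ne hr, Matrix.one_apply_eq]
    · intro hr; exact absurd (Finset.mem_univ _) hr
  rw [Finset.sum_congr rfl fun d _ => h1 d]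
  rw [← Finset.sum_image (s := Finset.univ) (g := fun d : Fin m => Function.update i' a d)
    (f := fun k => at1 a X i' k * T k i) (fun x _ y _ hxy => hinj hxy)]
  symm
  apply Finset.sum_subset (Finset.subset_univ _)
  intro k _ hk
  have h2 : at1 a X i' k = 0 := by
    show ∏ r, Function.update (fun _ => (1 : Matrix (Fin m) (Fin m) ℂ)) a X r (i' r) (k r) = 0
    obtain ⟨s, hs, hks⟩ : ∃ s, s ≠ a ∧ k s ≠ i' s := by
      by_contra hcon
      push Not at hcon
      apply hk
      rw [Finset.mem_image]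
      refine ⟨k a, Finset.mem_univ _, ?_⟩
      funext s
      by_cases hs : s = a
      · rw [hs, Function.update_self]
      · rw [Function.update_of_ne hs, hcon s hs]
    refine Finset.prod_eq_zero (Finset.mem_univ s) ?_
    rw [Function.update_of_ne hs, Matrix.one_apply_ne (Ne.symm hks)]
  rw [h2, zero_mul]

end mats

section places

variable {K : Type} [Field K] [NumberField K] {c : K →+* K} {m : ℕ}
  (h : Matrix (Fin m) (Fin m) K)

lemma det_ne {h : Matrix (Fin m) (Fin m) K} (hnd : h.det ≠ 0) (σ : K →+* ℂ) :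
    IsUnit (h.map σ).det := by
  have e : (h.map σ).det = σ h.det := (RingHom.map_det σ h).symm
  rw [e, isUnit_iff_ne_zero]
  exact (map_ne_zero σ).mpr hnd

lemma map_cj {h : Matrix (Fin m) (Fin m) K}
    (hconj : ∀ (σ : K →+* ℂ) (x : K), cj σ x = σ (c x))
    (hh : ∀ a b, c (h a b) = h b a) (σ : K →+* ℂ) : h.map (cj σ) = (h.map σ)ᵀ := by
  ext a b
  rw [Matrix.map_apply, Matrix.transpose_apply, Matrix.map_apply, hconj, hh]

/-- the dual basis of the eigenspace -/
noncomputable def fv (σ : K →+* ℂ) (b : Fin m) : Fin m → ℂ := (h.map σ)⁻¹ *ᵥ Pi.single b 1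

lemma map_fv {h : Matrix (Fin m) (Fin m) K} (hnd : h.det ≠ 0) (σ : K →+* ℂ) (b : Fin m) :
    h.map σ *ᵥ fv h σ b = Pi.single b 1 := by
  rw [fv, Matrix.mulVec_mulVec, Matrix.mul_nonsing_inv _ (det_ne hnd σ), Matrix.one_mulVec]

variable [DecidableEq (K →+* ℂ)]

/-- the skew family of a matrix at a place -/
noncomputable def MS (σ : K →+* ℂ) (X : Matrix (Fin m) (Fin m) ℂ) :
    (K →+* ℂ) → Matrix (Fin m) (Fin m) ℂ :=
  fun ρ => if ρ = σ then X else if ρ = cj σ then -((h.map σ)⁻¹ * Xᵀ * h.map σ) else 0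

lemma skew_MS {h : Matrix (Fin m) (Fin m) K}
    (hconj : ∀ (σ : K →+* ℂ) (x : K), cj σ x = σ (c x)) (hcm : ∀ σ : K →+* ℂ, cj σ ≠ σ)
    (hh : ∀ a b, c (h a b) = h b a) (hnd : h.det ≠ 0) (σ : K →+* ℂ)
    (X : Matrix (Fin m) (Fin m) ℂ) : SkewM h (MS h σ X) := by
  intro ρ
  have hu := det_ne hnd σ
  by_cases h1 : ρ = σ
  · subst h1
    have e1 : MS h ρ X ρ = X := by rw [MS, if_pos rfl]
    have e2 : MS h ρ X (cj ρ) = -((h.map ρ)⁻¹ * Xᵀ * h.map ρ) := by
      rw [MS, if_neg (hcm ρ), if_pos rfl]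
    rw [e1, e2, mul_neg, Matrix.mul_assoc (h.map ρ)⁻¹, Matrix.mul_nonsing_inv_cancel_left _ _ hu,
      add_neg_cancel]
  · by_cases h2 : ρ = cj σ
    · subst h2
      have e1 : MS h σ X (cj σ) = -((h.map σ)⁻¹ * Xᵀ * h.map σ) := by
        rw [MS, if_neg (hcm σ), if_pos rfl]
      have e2 : MS h σ X (cj (cj σ)) = X := by
        rw [MS, if_pos (cj_cj σ)]
      rw [e1, e2, map_cj hconj hh, Matrix.transpose_neg, Matrix.transpose_mul,
        Matrix.transpose_mul, Matrix.transpose_transpose, neg_mul, Matrix.mul_assoc,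
        Matrix.mul_assoc, ← Matrix.transpose_mul, Matrix.mul_nonsing_inv _ hu,
        Matrix.transpose_one, Matrix.mul_one, neg_add_cancel]
    · have h3 : cj ρ ≠ σ := by
        intro h4; apply h2; rw [← h4, cj_cj]
      have h5 : cj ρ ≠ cj σ := by
        intro h4; apply h1; rw [← cj_cj ρ, h4, cj_cj]
      have e1 : MS h σ X ρ = 0 := by rw [MS, if_neg h1, if_neg h2]
      have e2 : MS h σ X (cj ρ) = 0 := by rw [MS, if_neg h3, if_neg h5]
      rw [e1, e2, Matrix.transpose_zero, Matrix.zero_mul, Matrix.mul_zero, add_zero]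

variable {l : ℕ} (p : Fin l → (K →+* ℂ))

/-- the place of a slot -/
def plc (x : Fin l × Fin 2) : K →+* ℂ := if x.2 = 0 then p x.1 else cj (p x.1)

/-- the basis vectors of a slot -/
noncomputable def bs (x : Fin l × Fin 2) (b : Fin m) : Fin m → ℂ :=
  if x.2 = 0 then Pi.single b 1 else fv h (p x.1) b

/-- the basis vectors of a slot, in the space -/
noncomputable def wv (x : Fin l × Fin 2) (b : Fin m) : (K →+* ℂ) → Fin m → ℂ :=
  Pi.single (plc p x) (bs h p x b)

/-- the coordinates at a slot -/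
noncomputable def co (x : Fin l × Fin 2) (b : Fin m) : ((K →+* ℂ) → Fin m → ℂ) →ₗ[ℂ] ℂ :=
  if x.2 = 0 then (LinearMap.proj b : (Fin m → ℂ) →ₗ[ℂ] ℂ) ∘ₗ
    (LinearMap.proj (p x.1) : ((K →+* ℂ) → Fin m → ℂ) →ₗ[ℂ] (Fin m → ℂ))
  else (LinearMap.proj b : (Fin m → ℂ) →ₗ[ℂ] ℂ) ∘ₗ (Matrix.mulVecLin (h.map (p x.1))) ∘ₗ
    (LinearMap.proj (cj (p x.1)) : ((K →+* ℂ) → Fin m → ℂ) →ₗ[ℂ] (Fin m → ℂ))

omit [NumberField K] [DecidableEq (K →+* ℂ)] in
lemma co_zero (a : Fin l) (b : Fin m) (u : (K →+* ℂ) → Fin m → ℂ) :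
    co h p (a, 0) b u = u (p a) b := rfl

omit [NumberField K] [DecidableEq (K →+* ℂ)] in
lemma co_one (a : Fin l) (b : Fin m) (u : (K →+* ℂ) → Fin m → ℂ) :
    co h p (a, 1) b u = (h.map (p a) *ᵥ u (cj (p a))) b := rfl

lemma plc_zero (a : Fin l) : plc p (a, 0) = p a := rfl
lemma plc_one (a : Fin l) : plc p (a, 1) = cj (p a) := rfl
lemma bs_zero (a : Fin l) (b : Fin m) : bs h p (a, 0) b = Pi.single b 1 := rfl
lemma bs_one (a : Fin l) (b : Fin m) : bs h p (a, 1) b = fv h (p a) b := rfl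

lemma sum_single (u : Fin m → ℂ) : ∑ b, u b • (Pi.single b (1 : ℂ) : Fin m → ℂ) = u := by
  funext x
  rw [Finset.sum_apply, Finset.sum_eq_single x]
  · rw [Pi.smul_apply, Pi.single_eq_same, smul_eq_mul, mul_one]
  · intro b _ hb
    rw [Pi.smul_apply, Pi.single_eq_of_ne (Ne.symm hb), smul_zero]
  · intro hx; exact absurd (Finset.mem_univ _) hx

lemma sum_fv (σ : K →+* ℂ) (u : Fin m → ℂ) :
    ∑ b, u b • fv h σ b = (h.map σ)⁻¹ *ᵥ u := by
  conv_rhs => rw [← sum_single u]
  rw [Matrix.mulVec_sum]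
  refine Finset.sum_congr rfl fun b _ => ?_
  rw [Matrix.mulVec_smul]
  rfl

lemma sum_wv {h : Matrix (Fin m) (Fin m) K} (hnd : h.det ≠ 0) (x : Fin l × Fin 2)
    (u : (K →+* ℂ) → Fin m → ℂ) :
    (∑ b, co h p x b u • wv h p x b) (plc p x) = u (plc p x) := by
  have h0 : (∑ b, co h p x b u • wv h p x b) (plc p x) = ∑ b, co h p x b u • bs h p x b := by
    rw [Finset.sum_apply]
    refine Finset.sum_congr rfl fun b _ => ?_
    rw [Pi.smul_apply, wv, Pi.single_eq_same]
  rw [h0]
  obtain ⟨a, y⟩ := x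
  have hy : y = 0 ∨ y = 1 := by omega
  rcases hy with rfl | rfl
  · rw [plc_zero]
    simp only [co_zero, bs_zero]
    exact sum_single _
  · rw [plc_one]
    simp only [co_one, bs_one]
    rw [sum_fv, Matrix.mulVec_mulVec, Matrix.nonsing_inv_mul _ (det_ne hnd (p a)),
      Matrix.one_mulVec]

end places

section form

variable {K : Type} [Field K] [NumberField K] {c : K →+* K} {m : ℕ}
  {h : Matrix (Fin m) (Fin m) K} [DecidableEq (K →+* ℂ)] {j l : ℕ}
  (e₀ : Fin l × Fin 2 ≃ Fin j) (p : Fin l → (K →+* ℂ))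

/-- the index functions -/
def gg (i i' : Fin l → Fin m) (r : Fin j) : Fin m :=
  if (e₀.symm r).2 = 0 then i (e₀.symm r).1 else i' (e₀.symm r).1

lemma gg_zero (i i' : Fin l → Fin m) (a : Fin l) : gg e₀ i i' (e₀ (a, 0)) = i a := by
  rw [gg, Equiv.symm_apply_apply, if_pos rfl]

lemma gg_one (i i' : Fin l → Fin m) (a : Fin l) : gg e₀ i i' (e₀ (a, 1)) = i' a := by
  rw [gg, Equiv.symm_apply_apply, if_neg (by simp)]

lemma slot_cases (r : Fin j) : ∃ a, r = e₀ (a, 0) ∨ r = e₀ (a, 1) := by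
  obtain ⟨⟨a, y⟩, rfl⟩ := e₀.surjective r
  have hy : y = 0 ∨ y = 1 := by omega
  rcases hy with rfl | rfl
  · exact ⟨a, Or.inl rfl⟩
  · exact ⟨a, Or.inr rfl⟩

lemma gg_surj (g : Fin j → Fin m) :
    gg e₀ (fun a => g (e₀ (a, 0))) (fun a => g (e₀ (a, 1))) = g := by
  funext r
  obtain ⟨a, rfl | rfl⟩ := slot_cases e₀ r
  · rw [gg_zero]
  · rw [gg_one]

lemma e₀_ne01 (a b : Fin l) : e₀ (a, 0) ≠ e₀ (b, 1) := by
  intro h1
  have h2 := e₀.injective h1
  rw [Prod.mk.injEq] at h2
  exact absurd h2.2 (by decide)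

lemma e₀_ne (a b : Fin l) (y : Fin 2) (hab : a ≠ b) : e₀ (a, y) ≠ e₀ (b, y) := by
  intro h1
  have h2 := e₀.injective h1
  rw [Prod.mk.injEq] at h2
  exact hab h2.1

lemma gg_update_zero (i i' : Fin l → Fin m) (a : Fin l) (d : Fin m) :
    gg e₀ (Function.update i a d) i' = Function.update (gg e₀ i i') (e₀ (a, 0)) d := by
  funext r
  obtain ⟨b, rfl | rfl⟩ := slot_cases e₀ r
  · rw [gg_zero]
    by_cases hb : b = a
    · subst hb; rw [Function.update_self, Function.update_self]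
    · rw [Function.update_of_ne hb, Function.update_of_ne (e₀_ne e₀ b a 0 hb), gg_zero]
  · rw [gg_one, Function.update_of_ne (Ne.symm (e₀_ne01 e₀ a b)), gg_one]

lemma gg_update_one (i i' : Fin l → Fin m) (a : Fin l) (d : Fin m) :
    gg e₀ i (Function.update i' a d) = Function.update (gg e₀ i i') (e₀ (a, 1)) d := by
  funext r
  obtain ⟨b, rfl | rfl⟩ := slot_cases e₀ r
  · rw [gg_zero, Function.update_of_ne (e₀_ne01 e₀ b a), gg_zero]
  · rw [gg_one]
    by_cases hb : b = a
    · subst hb; rw [Function.update_self, Function.update_self]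
    · rw [Function.update_of_ne hb, Function.update_of_ne (e₀_ne e₀ b a 1 hb), gg_one]

variable (h) in
/-- the basis vectors of the slots -/
noncomputable def vv (g : Fin j → Fin m) (r : Fin j) : (K →+* ℂ) → Fin m → ℂ :=
  wv h p (e₀.symm r) (g r)

lemma vv_update (g : Fin j → Fin m) (r : Fin j) (d : Fin m) :
    vv h e₀ p (Function.update g r d) =
      Function.update (vv h e₀ p g) r (wv h p (e₀.symm r) d) := by
  funext s
  by_cases hs : s = r
  · subst hs; rw [Function.update_self, vv, Function.update_self]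
  · rw [Function.update_of_ne hs, vv, Function.update_of_ne hs, vv]

variable (F : MultilinearMap ℂ (fun _ : Fin j => (K →+* ℂ) → Fin m → ℂ) ℂ)

variable (h) in
/-- the matrix of the form -/
noncomputable def TT : Matrix (Fin l → Fin m) (Fin l → Fin m) ℂ :=
  Matrix.of fun i' i => F (vv h e₀ p (gg e₀ i i'))

lemma TT_apply (i' i : Fin l → Fin m) : TT h e₀ p F i' i = F (vv h e₀ p (gg e₀ i i')) := rfl

/-- the elementary forms -/
noncomputable def EE (h : Matrix (Fin m) (Fin m) K) (g : Fin j → Fin m) :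
    MultilinearMap ℂ (fun _ : Fin j => (K →+* ℂ) → Fin m → ℂ) ℂ :=
  (MultilinearMap.mkPiAlgebra ℂ (Fin j) ℂ).compLinearMap fun r => co h p (e₀.symm r) (g r)

omit [NumberField K] [DecidableEq (K →+* ℂ)] in
lemma EE_apply (g : Fin j → Fin m) (v : Fin j → (K →+* ℂ) → Fin m → ℂ) :
    EE e₀ p h g v = ∏ r, co h p (e₀.symm r) (g r) (v r) := by
  rw [EE, MultilinearMap.compLinearMap_apply, MultilinearMap.mkPiAlgebra_apply]

/-- forms from matrices -/
noncomputable def GM (h : Matrix (Fin m) (Fin m) K) :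
    Matrix (Fin l → Fin m) (Fin l → Fin m) ℂ →ₗ[ℂ]
      MultilinearMap ℂ (fun _ : Fin j => (K →+* ℂ) → Fin m → ℂ) ℂ where
  toFun N := ∑ g : Fin j → Fin m,
    N (fun a => g (e₀ (a, 1))) (fun a => g (e₀ (a, 0))) • EE e₀ p h g
  map_add' M N := by
    rw [← Finset.sum_add_distrib]
    refine Finset.sum_congr rfl fun g _ => ?_
    rw [Matrix.add_apply, add_smul]
  map_smul' z N := by
    rw [Finset.smul_sum]
    refine Finset.sum_congr rfl fun g _ => ?_
    rw [Matrix.smul_apply, smul_assoc]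
    rfl

omit [NumberField K] [DecidableEq (K →+* ℂ)] in
lemma GM_apply (N : Matrix (Fin l → Fin m) (Fin l → Fin m) ℂ)
    (v : Fin j → (K →+* ℂ) → Fin m → ℂ) : GM e₀ p h N v = ∑ g : Fin j → Fin m,
      N (fun a => g (e₀ (a, 1))) (fun a => g (e₀ (a, 0))) *
        ∏ r, co h p (e₀.symm r) (g r) (v r) := by
  have h1 : GM e₀ p h N = ∑ g : Fin j → Fin m,
      N (fun a => g (e₀ (a, 1))) (fun a => g (e₀ (a, 0))) • EE e₀ p h g := rfl
  rw [h1, _root_.sum_apply]
  refine Finset.sum_congr rfl fun g _ => ?_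
  rw [_root_.smul_apply, EE_apply, smul_eq_mul]

/-- the form is the form of its matrix -/
lemma eq_GM (hnd : h.det ≠ 0)
    (hs0 : ∀ v w : Fin j → (K →+* ℂ) → Fin m → ℂ,
      (∀ a, v (e₀ (a, 0)) (p a) = w (e₀ (a, 0)) (p a)) →
      (∀ a, v (e₀ (a, 1)) (cj (p a)) = w (e₀ (a, 1)) (cj (p a))) → F v = F w) :
    F = GM e₀ p h (TT h e₀ p F) := by
  apply MultilinearMap.ext
  intro v
  rw [GM_apply]
  have h1 : F v = F (fun r => ∑ b, co h p (e₀.symm r) b (v r) • wv h p (e₀.symm r) b) := by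
    apply hs0
    · intro a
      rw [Equiv.symm_apply_apply]
      exact (sum_wv p hnd (a, 0) (v (e₀ (a, 0)))).symm
    · intro a
      rw [Equiv.symm_apply_apply]
      exact (sum_wv p hnd (a, 1) (v (e₀ (a, 1)))).symm
  rw [h1, MultilinearMap.map_sum]
  refine Finset.sum_congr rfl fun g _ => ?_
  rw [MultilinearMap.map_smul_univ, TT_apply, gg_surj, smul_eq_mul, mul_comm]
  rfl

/-- the permutations give products of pairings -/
lemma GM_pmat (π : Equiv.Perm (Fin l)) (hπ : ∀ r, p (π r) = p r) :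
    ∃ (l' : ℕ) (e : Fin l' × Fin 2 ≃ Fin j) (s : Fin l' → (K →+* ℂ)), ∀ v,
      GM e₀ p h (pmat π) v = ∏ a, pr h (s a) (v (e (a, 0)) (s a)) (v (e (a, 1)) (cj (s a))) := by
  have hπ' : ∀ b, p (π.symm b) = p b := by
    intro b
    have h1 := hπ (π.symm b)
    rw [Equiv.apply_symm_apply] at h1
    exact h1.symm
  let τ : Fin l × Fin 2 ≃ Fin l × Fin 2 :=
    { toFun := fun x => (if x.2 = 0 then π.symm x.1 else x.1, x.2)
      invFun := fun x => (if x.2 = 0 then π x.1 else x.1, x.2)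
      left_inv := by
        rintro ⟨a, y⟩
        have hy : y = 0 ∨ y = 1 := by omega
        rcases hy with rfl | rfl
        · simp
        · simp
      right_inv := by
        rintro ⟨a, y⟩
        have hy : y = 0 ∨ y = 1 := by omega
        rcases hy with rfl | rfl
        · simp
        · simp }
  refine ⟨l, τ.trans e₀, p, fun v => ?_⟩
  have hτ0 : ∀ a, (τ.trans e₀) (a, 0) = e₀ (π.symm a, 0) := fun a => rfl
  have hτ1 : ∀ a, (τ.trans e₀) (a, 1) = e₀ (a, 1) := fun a => rfl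
  rw [GM_apply]
  -- reindex the sum
  have h1 : ∑ g : Fin j → Fin m, (pmat π : Matrix (Fin l → Fin m) (Fin l → Fin m) ℂ)
      (fun a => g (e₀ (a, 1))) (fun a => g (e₀ (a, 0))) *
        ∏ r, co h p (e₀.symm r) (g r) (v r) =
      ∑ x : (Fin l → Fin m) × (Fin l → Fin m),
        (pmat π : Matrix (Fin l → Fin m) (Fin l → Fin m) ℂ) x.1 x.2 *
        ∏ r, co h p (e₀.symm r) (gg e₀ x.2 x.1 r) (v r) := by
    let E : (Fin j → Fin m) ≃ (Fin l → Fin m) × (Fin l → Fin m) :=
      { toFun := fun g => (fun a => g (e₀ (a, 1)), fun a => g (e₀ (a, 0)))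
        invFun := fun x => gg e₀ x.2 x.1
        left_inv := fun g => gg_surj e₀ g
        right_inv := fun x => by
          apply Prod.ext
          · funext a; exact gg_one e₀ x.2 x.1 a
          · funext a; exact gg_zero e₀ x.2 x.1 a }
    refine Fintype.sum_equiv E _ _ fun g => ?_
    show _ = (pmat π : Matrix (Fin l → Fin m) (Fin l → Fin m) ℂ)
      (fun a => g (e₀ (a, 1))) (fun a => g (e₀ (a, 0))) *
        ∏ r, co h p (e₀.symm r) (gg e₀ (fun a => g (e₀ (a, 0))) (fun a => g (e₀ (a, 1))) r) (v r)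
    rw [gg_surj]
  rw [h1, Fintype.sum_prod_type]
  have h2 : ∀ i' : Fin l → Fin m, ∑ i : Fin l → Fin m,
      (pmat π : Matrix (Fin l → Fin m) (Fin l → Fin m) ℂ) i' i *
        ∏ r, co h p (e₀.symm r) (gg e₀ i i' r) (v r) =
      ∏ b, (v (e₀ (π.symm b, 0)) (p b) (i' b) *
        (h.map (p b) *ᵥ v (e₀ (b, 1)) (cj (p b))) (i' b)) := by
    intro i'
    rw [Finset.sum_eq_single (i' ∘ π)]
    · have e1 : (pmat π : Matrix (Fin l → Fin m) (Fin l → Fin m) ℂ) i' (i' ∘ π) = 1 := by
        rw [pmat, Matrix.of_apply, if_pos rfl]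
      rw [e1, one_mul]
      have e2 : ∏ r, co h p (e₀.symm r) (gg e₀ (i' ∘ π) i' r) (v r) =
          ∏ x : Fin l × Fin 2, co h p x (gg e₀ (i' ∘ π) i' (e₀ x)) (v (e₀ x)) := by
        refine Fintype.prod_equiv e₀.symm _ _ fun r => ?_
        rw [Equiv.apply_symm_apply]
      rw [e2, Fintype.prod_prod_type]
      simp only [Fin.prod_univ_two, gg_zero, gg_one, co_zero, co_one, Function.comp_apply]
      rw [Finset.prod_mul_distrib, Finset.prod_mul_distrib]
      congr 1
      refine (Fintype.prod_equiv π _ _ fun a => ?_)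
      rw [Equiv.symm_apply_apply, hπ]
    · intro i _ hi
      have e1 : (pmat π : Matrix (Fin l → Fin m) (Fin l → Fin m) ℂ) i' i = 0 := by
        rw [pmat, Matrix.of_apply, if_neg hi]
      rw [e1, zero_mul]
    · intro hi; exact absurd (Finset.mem_univ _) hi
  rw [Finset.sum_congr rfl fun i' _ => h2 i']
  have h3 : ∑ i' : Fin l → Fin m, ∏ b, (v (e₀ (π.symm b, 0)) (p b) (i' b) *
        (h.map (p b) *ᵥ v (e₀ (b, 1)) (cj (p b))) (i' b)) =
      ∏ b, ∑ d, (v (e₀ (π.symm b, 0)) (p b) d *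
        (h.map (p b) *ᵥ v (e₀ (b, 1)) (cj (p b))) d) := by
    rw [Finset.prod_univ_sum, Fintype.piFinset_univ]
  rw [h3]
  refine Finset.prod_congr rfl fun b _ => ?_
  rw [hτ0, hτ1, pr, dotProduct]

lemma mulVec_wv (σ : K →+* ℂ) (X : Matrix (Fin m) (Fin m) ℂ) (x : Fin l × Fin 2) (b : Fin m) :
    (fun ρ => MS h σ X ρ *ᵥ wv h p x b ρ) =
      Pi.single (plc p x) (MS h σ X (plc p x) *ᵥ bs h p x b) := by
  funext ρ
  by_cases hρ : ρ = plc p x
  · subst hρ
    rw [wv, Pi.single_eq_same, Pi.single_eq_same]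
  · rw [wv, Pi.single_eq_of_ne hρ, Pi.single_eq_of_ne hρ, Matrix.mulVec_zero]

/-- invariance gives commutation -/
lemma TT_comm (hconj : ∀ (σ : K →+* ℂ) (x : K), cj σ x = σ (c x))
    (hcm : ∀ σ : K →+* ℂ, cj σ ≠ σ)
    (hh : ∀ a b, c (h a b) = h b a) (hnd : h.det ≠ 0)
    (hF : ∀ M : (K →+* ℂ) → Matrix (Fin m) (Fin m) ℂ, SkewM h M →
      ∀ v : Fin j → (K →+* ℂ) → Fin m → ℂ,
        ∑ r, F (Function.update v r fun σ => M σ *ᵥ v r σ) = 0)
    (hp : ∀ a b, p a ≠ cj (p b)) (σ : K →+* ℂ) (X : Matrix (Fin m) (Fin m) ℂ) :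
    TT h e₀ p F * dty p σ X = dty p σ X * TT h e₀ p F := by
  by_cases hσ : ∃ a₀, p a₀ = σ
  swap
  · push Not at hσ
    have h1 : dty p σ X = 0 := by
      rw [dty, Finset.filter_false_of_mem (fun r _ => hσ r), Finset.sum_empty]
    rw [h1, Matrix.mul_zero, Matrix.zero_mul]
  obtain ⟨a₀, ha₀⟩ := hσ
  ext i' i
  rw [dty, Matrix.mul_sum, Matrix.sum_mul, Matrix.sum_apply, Matrix.sum_apply, ← sub_eq_zero,
    ← Finset.sum_sub_distrib, Finset.sum_filter]
  have h1 := hF (MS h σ X) (skew_MS hconj hcm hh hnd σ X) (vv h e₀ p (gg e₀ i i'))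
  have h2 : ∑ r, F (Function.update (vv h e₀ p (gg e₀ i i')) r
      fun ρ => MS h σ X ρ *ᵥ (vv h e₀ p (gg e₀ i i')) r ρ) =
      ∑ x : Fin l × Fin 2, F (Function.update (vv h e₀ p (gg e₀ i i')) (e₀ x)
        (Pi.single (plc p x) (MS h σ X (plc p x) *ᵥ bs h p x (gg e₀ i i' (e₀ x))))) := by
    refine Fintype.sum_equiv e₀.symm _ _ fun r => ?_
    rw [Equiv.apply_symm_apply, ← mulVec_wv]
    rfl
  rw [h2, Fintype.sum_prod_type] at h1
  refine Eq.trans ?_ h1
  refine Finset.sum_congr rfl fun a _ => ?_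
  rw [Fin.sum_univ_two, plc_zero, plc_one, gg_zero, gg_one, bs_zero, bs_one]
  have hpa : p a ≠ cj σ := by rw [← ha₀]; exact hp a a₀
  have hpa' : cj (p a) ≠ σ := by rw [← ha₀]; exact Ne.symm (hp a₀ a)
  by_cases hpas : p a = σ
  · rw [if_pos hpas, mul_at1, at1_mul]
    have e1 : MS h σ X (p a) = X := by rw [MS, if_pos hpas]
    have e2 : MS h σ X (cj (p a)) = -((h.map σ)⁻¹ * Xᵀ * h.map σ) := by
      rw [MS, if_neg hpa', if_pos (by rw [hpas])]
    rw [e1, e2, sub_eq_add_neg]
    congr 1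
    · have e3 : (Pi.single (p a) (X *ᵥ Pi.single (i a) 1) : (K →+* ℂ) → Fin m → ℂ) =
          ∑ d, X d (i a) • wv h p (a, 0) d := by
        have e4 : X *ᵥ Pi.single (i a) 1 = ∑ d, X d (i a) • (Pi.single d (1 : ℂ) : Fin m → ℂ) := by
          rw [sum_single (fun d => X d (i a)), Matrix.mulVec_single_one]
          rfl
        rw [e4]
        funext ρ
        rw [Finset.sum_apply]
        by_cases hρ : ρ = p a
        · subst hρ
          rw [Pi.single_eq_same]
          refine Finset.sum_congr rfl fun d _ => ?_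
          rw [Pi.smul_apply, wv, plc_zero, bs_zero, Pi.single_eq_same]
        · rw [Pi.single_eq_of_ne hρ]
          symm
          apply Finset.sum_eq_zero
          intro d _
          rw [Pi.smul_apply, wv, plc_zero, Pi.single_eq_of_ne hρ, smul_zero]
      rw [e3, MultilinearMap.map_update_sum]
      refine Finset.sum_congr rfl fun d _ => ?_
      rw [MultilinearMap.map_update_smul, smul_eq_mul, mul_comm, TT_apply, gg_update_zero,
        vv_update, Equiv.symm_apply_apply]
    · have e3 : (Pi.single (cj (p a)) (-((h.map σ)⁻¹ * Xᵀ * h.map σ) *ᵥ fv h (p a) (i' a)) :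
          (K →+* ℂ) → Fin m → ℂ) = ∑ d, (-X (i' a) d) • wv h p (a, 1) d := by
        have e4 : -((h.map σ)⁻¹ * Xᵀ * h.map σ) *ᵥ fv h (p a) (i' a) =
            ∑ d, (-X (i' a) d) • fv h (p a) d := by
          rw [sum_fv h (p a) (fun d => -X (i' a) d), hpas, Matrix.neg_mulVec,
            ← Matrix.mulVec_mulVec, map_fv hnd, ← Matrix.mulVec_mulVec, ← Matrix.mulVec_neg]
          congr 1
          rw [Matrix.mulVec_single_one]
          rfl
        rw [e4]
        funext ρ
        rw [Finset.sum_apply]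
        by_cases hρ : ρ = cj (p a)
        · subst hρ
          rw [Pi.single_eq_same]
          refine Finset.sum_congr rfl fun d _ => ?_
          rw [Pi.smul_apply, wv, plc_one, bs_one, Pi.single_eq_same]
        · rw [Pi.single_eq_of_ne hρ]
          symm
          apply Finset.sum_eq_zero
          intro d _
          rw [Pi.smul_apply, wv, plc_one, Pi.single_eq_of_ne hρ, smul_zero]
      rw [e3, MultilinearMap.map_update_sum, ← Finset.sum_neg_distrib]
      refine Finset.sum_congr rfl fun d _ => ?_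
      rw [MultilinearMap.map_update_smul, smul_eq_mul, TT_apply, gg_update_one,
        vv_update, Equiv.symm_apply_apply, neg_mul]
  · rw [if_neg hpas]
    have e1 : MS h σ X (p a) = 0 := by rw [MS, if_neg hpas, if_neg hpa]
    have e2 : MS h σ X (cj (p a)) = 0 := by
      rw [MS, if_neg hpa', if_neg]
      intro h4
      apply hpas
      rw [← cj_cj (p a), h4, cj_cj]
    rw [e1, e2, Matrix.zero_mulVec, Matrix.zero_mulVec, Pi.single_zero, Pi.single_zero,
      MultilinearMap.map_update_zero, MultilinearMap.map_update_zero, add_zero]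

end form

end FftA

theorem fft_comp {K : Type} [Field K] [NumberField K] {c : K →+* K} {m : ℕ}
    {h : Matrix (Fin m) (Fin m) K}
    (hconj : ∀ (σ : K →+* ℂ) (x : K), cj σ x = σ (c x)) (hcm : ∀ σ : K →+* ℂ, cj σ ≠ σ)
    (hh : ∀ a b, c (h a b) = h b a) (hnd : h.det ≠ 0) {j : ℕ}
    (F : MultilinearMap ℂ (fun _ : Fin j => (K →+* ℂ) → Fin m → ℂ) ℂ)
    (hF : ∀ M : (K →+* ℂ) → Matrix (Fin m) (Fin m) ℂ, SkewM h M →
      ∀ v : Fin j → (K →+* ℂ) → Fin m → ℂ,
        ∑ r, F (Function.update v r fun σ => M σ *ᵥ v r σ) = 0)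
    {l : ℕ} (e₀ : Fin l × Fin 2 ≃ Fin j) (p : Fin l → (K →+* ℂ))
    (hp : ∀ a b, p a ≠ cj (p b))
    (hs0 : ∀ v w : Fin j → (K →+* ℂ) → Fin m → ℂ,
      (∀ a, v (e₀ (a, 0)) (p a) = w (e₀ (a, 0)) (p a)) →
      (∀ a, v (e₀ (a, 1)) (cj (p a)) = w (e₀ (a, 1)) (cj (p a))) → F v = F w) :
    F ∈ Submodule.span ℂ {ω : MultilinearMap ℂ (fun _ : Fin j => (K →+* ℂ) → Fin m → ℂ) ℂ |
      ∃ (l : ℕ) (e : Fin l × Fin 2 ≃ Fin j) (s : Fin l → (K →+* ℂ)), ∀ v, ω v =
        ∏ a, pr h (s a) (v (e (a, 0)) (s a)) (v (e (a, 1)) (cj (s a)))} := by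
  classical
  have h1 := schur_weyl p (FftA.TT h e₀ p F)
    (fun σ X => FftA.TT_comm e₀ p F hconj hcm hh hnd hF hp σ X)
  have h2 := FftA.eq_GM e₀ p F hnd hs0
  have h3 : ∀ N ∈ Submodule.span ℂ {N : Matrix (Fin l → Fin m) (Fin l → Fin m) ℂ |
      ∃ π : Equiv.Perm (Fin l), (∀ r, p (π r) = p r) ∧ N = pmat π},
      FftA.GM e₀ p h N ∈ Submodule.span ℂ
      {ω : MultilinearMap ℂ (fun _ : Fin j => (K →+* ℂ) → Fin m → ℂ) ℂ |
      ∃ (l : ℕ) (e : Fin l × Fin 2 ≃ Fin j) (s : Fin l → (K →+* ℂ)), ∀ v, ω v =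
        ∏ a, pr h (s a) (v (e (a, 0)) (s a)) (v (e (a, 1)) (cj (s a)))} := by
    intro N hN
    induction hN using Submodule.span_induction with
    | mem x hx =>
      obtain ⟨π, hπ, rfl⟩ := hx
      exact Submodule.subset_span (FftA.GM_pmat e₀ p π hπ)
    | zero => rw [map_zero]; exact Submodule.zero_mem _
    | add x y _ _ hx hy => rw [map_add]; exact Submodule.add_mem _ hx hy
    | smul a x _ hx => rw [map_smul]; exact Submodule.smul_mem _ _ hx
  rw [h2]
  exact h3 _ h1

end Pool.Agent.KSE
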