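import Pool.Agent.KSE.Ts
import Pool.Agent.KSE.CenC
import Pool.Agent.Helper84.AutC

/-!
Module HMainC. Unitary places: a space of skew families with the properties proved in the other modules is
the space of all skew families.

(1) For every `σ₁` and `Z` with trace zero there is `M ∈ H` with `M σ₁ = Z`, `M σ = 0` for `σ ≠ σ₁, cj σ₁`: choose
`τ : ℂ ≃+* ℂ` with `τ ∘ σ₀ = σ₁` (`Pool/Agent/Helper84/AutC.lean`), take `M₀ ∈ H` for `Z.map τ.symm` (`hcore`) and
`twM τ M₀`; `τ ∘ cj σ₀ = cj σ₁` by `hconj`. (2) A skew `M` with all `trace (M σ) = 0` is in `H`: let `N σ₁ ∈ H` be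
the element of (1) for `Z = M σ₁`; `(N σ₁) (cj σ₁) = M (cj σ₁)` since both are skew and `h.map σ₁` is invertible;
`∑ σ₁, N σ₁ = 2 • M` (`hcm`). (3) If `M ∈ H` then `fun σ => (trace (M σ) / m) • 1` is in `H`: `trace (M (cj σ)) =
- trace (M σ)` by skewness, so the scalar family is skew, and `M` minus it is in `H` by (2).
(4) Apply `center_mem` to `C = {z | (fun σ => z σ • 1) ∈ H}` (`C` is odd by skewness; `hvol`: for `M ∈ H`,
`z σ = trace (M σ) / m` is in `C` by (3)). So all odd scalar families are in `H`, and with (2) all skew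
families.
-/

namespace Pool.Agent.KSE

open Module Matrix NumberField Pool.Agent.GPC

namespace HMainC

variable {K : Type} [Field K] [NumberField K] {c : K →+* K} {m : ℕ}
    {h : Matrix (Fin m) (Fin m) K}

lemma det_ne (hnd : h.det ≠ 0) (σ : K →+* ℂ) : (h.map σ).det ≠ 0 := by
  have e : (h.map σ).det = σ h.det := (RingHom.map_det σ h).symm
  rw [e]
  exact (map_ne_zero σ).mpr hnd

lemma cjcj (σ : K →+* ℂ) : cj (cj σ) = σ := cj_cj σ

/-- the value at the dual place is determined by skewness -/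
lemma dual_eq (hnd : h.det ≠ 0) {M N : (K →+* ℂ) → Matrix (Fin m) (Fin m) ℂ}
    (hM : SkewM h M) (hN : SkewM h N) {σ : K →+* ℂ} (hσ : M σ = N σ) : M (cj σ) = N (cj σ) := by
  have h1 := hM σ
  have h2 := hN σ
  rw [hσ] at h1
  have h3 : h.map σ * M (cj σ) = h.map σ * N (cj σ) := by
    have h4 : (N σ)ᵀ * h.map σ + h.map σ * M (cj σ) = (N σ)ᵀ * h.map σ + h.map σ * N (cj σ) := by
      rw [h1, h2]
    exact add_left_cancel h4
  have hu : IsUnit (h.map σ) := (Matrix.isUnit_iff_isUnit_det _).2 (det_ne hnd σ).isUnit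
  exact hu.mul_left_cancel h3

lemma trace_dual (hnd : h.det ≠ 0) {M : (K →+* ℂ) → Matrix (Fin m) (Fin m) ℂ}
    (hM : SkewM h M) (σ : K →+* ℂ) : (M (cj σ)).trace = -(M σ).trace := by
  have h1 := hM σ
  have hu : IsUnit (h.map σ).det := (det_ne hnd σ).isUnit
  have h2 : M (cj σ) = -((h.map σ)⁻¹ * ((M σ)ᵀ * h.map σ)) := by
    have h3 : h.map σ * M (cj σ) = -((M σ)ᵀ * h.map σ) := (neg_eq_of_add_eq_zero_right h1).symm
    calc M (cj σ) = (h.map σ)⁻¹ * (h.map σ * M (cj σ)) := by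
          rw [← Matrix.mul_assoc, Matrix.nonsing_inv_mul _ hu, Matrix.one_mul]
      _ = -((h.map σ)⁻¹ * ((M σ)ᵀ * h.map σ)) := by rw [h3, Matrix.mul_neg]
  rw [h2, Matrix.trace_neg, Matrix.trace_mul_comm, Matrix.mul_assoc, Matrix.mul_nonsing_inv _ hu,
    Matrix.mul_one, Matrix.trace_transpose]

lemma skew_scalar {z : (K →+* ℂ) → ℂ} (hz : ∀ σ, z (cj σ) = -z σ) :
    SkewM h (fun σ => z σ • (1 : Matrix (Fin m) (Fin m) ℂ)) := by
  intro σ
  show (z σ • (1 : Matrix (Fin m) (Fin m) ℂ))ᵀ * h.map σ +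
    h.map σ * (z (cj σ) • (1 : Matrix (Fin m) (Fin m) ℂ)) = 0
  rw [hz, Matrix.transpose_smul, Matrix.transpose_one, Matrix.smul_mul, Matrix.one_mul,
    Matrix.mul_smul, Matrix.mul_one, neg_smul, add_neg_cancel]

lemma skew_sub {M N : (K →+* ℂ) → Matrix (Fin m) (Fin m) ℂ} (hM : SkewM h M) (hN : SkewM h N) :
    SkewM h (M - N) := by
  intro σ
  have h1 := hM σ
  have h2 := hN σ
  rw [Pi.sub_apply, Pi.sub_apply, Matrix.transpose_sub, Matrix.sub_mul, Matrix.mul_sub]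
  have h3 : (M σ)ᵀ * h.map σ - (N σ)ᵀ * h.map σ + (h.map σ * M (cj σ) - h.map σ * N (cj σ)) =
      ((M σ)ᵀ * h.map σ + h.map σ * M (cj σ)) - ((N σ)ᵀ * h.map σ + h.map σ * N (cj σ)) := by
    abel
  rw [h3, h1, h2, sub_zero]

end HMainC

theorem skew_memC {K : Type} [Field K] [NumberField K] {c : K →+* K} {m : ℕ} (hm : 0 < m)
    {h : Matrix (Fin m) (Fin m) K}
    (hconj : ∀ (σ : K →+* ℂ) (x : K), cj σ x = σ (c x)) (hcm : ∀ σ : K →+* ℂ, cj σ ≠ σ)
    (hh : ∀ a b, c (h a b) = h b a) (hnd : h.det ≠ 0)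
    (H : Set ((K →+* ℂ) → Matrix (Fin m) (Fin m) ℂ)) (h0 : 0 ∈ H)
    (hadd : ∀ M ∈ H, ∀ N ∈ H, M + N ∈ H) (hsmul : ∀ (r : ℂ), ∀ M ∈ H, r • M ∈ H)
    (hskew : ∀ M ∈ H, SkewM h M) (htw : ∀ M ∈ H, ∀ τ : ℂ ≃+* ℂ, twM τ M ∈ H) (σ₀ : K →+* ℂ)
    (hcore : ∀ Z : Matrix (Fin m) (Fin m) ℂ, Z.trace = 0 →
      ∃ M ∈ H, M σ₀ = Z ∧ ∀ σ, σ ≠ σ₀ → σ ≠ cj σ₀ → M σ = 0)
    (hrep : ∀ z : (K →+* ℂ) → ℂ, (fun σ => z σ • (1 : Matrix (Fin m) (Fin m) ℂ)) ∈ H →
      ∀ ρ : ℂ →+ ℂ, (fun σ => ρ (z σ) • (1 : Matrix (Fin m) (Fin m) ℂ)) ∈ H)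
    (hvol : ∀ F : Finset (K →+* ℂ), F.Nonempty → (∀ σ ∈ F, cj σ ∉ F) →
      ¬ ∀ M ∈ H, ∑ σ ∈ F, (M σ).trace = 0)
    (hodd : OddSparse K) (M : (K →+* ℂ) → Matrix (Fin m) (Fin m) ℂ) (hM : SkewM h M) : M ∈ H := by
  classical
  have hm0 : (m : ℂ) ≠ 0 := by exact_mod_cast hm.ne'
  -- the submodule
  let HS : Submodule ℂ ((K →+* ℂ) → Matrix (Fin m) (Fin m) ℂ) :=
    { carrier := H
      zero_mem' := h0
      add_mem' := fun {a b} ha hb => hadd a ha b hb
      smul_mem' := fun r a ha => hsmul r a ha }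
  have hHS : ∀ N, N ∈ HS ↔ N ∈ H := fun N => Iff.rfl
  -- (1)
  have step1 : ∀ (σ₁ : K →+* ℂ) (Z : Matrix (Fin m) (Fin m) ℂ), Z.trace = 0 →
      ∃ N ∈ H, N σ₁ = Z ∧ ∀ σ, σ ≠ σ₁ → σ ≠ cj σ₁ → N σ = 0 := by
    intro σ₁ Z hZ
    obtain ⟨τ, hτ⟩ := Pool.Agent.Helper84.exists_aut σ₀ σ₁
    have hτx : ∀ x, τ (σ₀ x) = σ₁ x := fun x => RingHom.congr_fun hτ x
    obtain ⟨M₀, hM₀, h1, h2⟩ := hcore (Z.map τ.symm) (by
      have : (Z.map τ.symm).trace = τ.symm Z.trace := by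
        simp [Matrix.trace]
      rw [this, hZ, map_zero])
    refine ⟨twM τ M₀, htw M₀ hM₀ τ, ?_, ?_⟩
    · have e : (τ.symm : ℂ →+* ℂ).comp σ₁ = σ₀ := by
        ext x
        show τ.symm (σ₁ x) = σ₀ x
        rw [← hτx, RingEquiv.symm_apply_apply]
      show (M₀ ((τ.symm : ℂ →+* ℂ).comp σ₁)).map τ = Z
      rw [e, h1]
      ext a b
      simp
    · intro σ hσ1 hσ2
      show (M₀ ((τ.symm : ℂ →+* ℂ).comp σ)).map τ = 0
      rw [h2]
      · ext a b
        simp
      · intro e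
        apply hσ1
        ext x
        have h3 : τ.symm (σ x) = σ₀ x := RingHom.congr_fun e x
        rw [← hτx, ← h3, RingEquiv.apply_symm_apply]
      · intro e
        apply hσ2
        ext x
        have h3 : τ.symm (σ x) = cj σ₀ x := RingHom.congr_fun e x
        rw [hconj] at h3
        rw [hconj, ← hτx, ← h3, RingEquiv.apply_symm_apply]
  -- (2)
  have step2 : ∀ M, SkewM h M → (∀ σ, (M σ).trace = 0) → M ∈ H := by
    intro M hM hMt
    choose N hNH hN1 hN2 using fun σ₁ : K →+* ℂ => step1 σ₁ (M σ₁) (hMt σ₁)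
    have h1 : ∑ σ₁, N σ₁ ∈ HS := Submodule.sum_mem _ fun σ₁ _ => (hHS _).2 (hNH σ₁)
    have h2 : ∑ σ₁, N σ₁ = (2 : ℂ) • M := by
      funext σ
      rw [Finset.sum_apply, Pi.smul_apply]
      have hne : cj σ ≠ σ := hcm σ
      have h3 : ∀ σ₁, N σ₁ σ = (if σ₁ = σ then M σ else 0) + (if σ₁ = cj σ then M σ else 0) := by
        intro σ₁
        by_cases e1 : σ₁ = σ
        · subst e1
          rw [if_pos rfl, if_neg (fun e => hne e.symm), add_zero, hN1]
        · by_cases e2 : σ₁ = cj σ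
          · rw [if_neg e1, if_pos e2, zero_add]
            have e3 : σ = cj σ₁ := by rw [e2, HMainC.cjcj]
            have h4 := HMainC.dual_eq hnd (hskew _ (hNH σ₁)) hM (hN1 σ₁)
            rw [← e3] at h4
            exact h4
          · rw [if_neg e1, if_neg e2, add_zero]
            apply hN2 σ₁ σ (fun e => e1 e.symm)
            intro e
            apply e2
            rw [e, HMainC.cjcj]
      rw [Finset.sum_congr rfl fun σ₁ _ => h3 σ₁, Finset.sum_add_distrib, Finset.sum_ite_eq',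
        Finset.sum_ite_eq', if_pos (Finset.mem_univ _), if_pos (Finset.mem_univ _), two_smul]
    have h3 : M = (1 / 2 : ℂ) • ∑ σ₁, N σ₁ := by
      rw [h2, smul_smul]
      norm_num
    rw [h3]
    exact (hHS _).1 (Submodule.smul_mem _ _ h1)
  -- (2')
  have step2' : ∀ M, SkewM h M → M - (fun σ => ((M σ).trace / m) • (1 : Matrix (Fin m) (Fin m) ℂ))
      ∈ H := by
    intro M hM
    apply step2
    · apply HMainC.skew_sub hM
      apply HMainC.skew_scalar
      intro σ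
      rw [HMainC.trace_dual hnd hM, neg_div]
    · intro σ
      rw [Pi.sub_apply, Matrix.trace_sub, Matrix.trace_smul, Matrix.trace_one, Fintype.card_fin,
        smul_eq_mul]
      field_simp
      ring
  -- (3)
  have step3 : ∀ M ∈ H, (fun σ => ((M σ).trace / m) • (1 : Matrix (Fin m) (Fin m) ℂ)) ∈ H := by
    intro M hMH
    have h1 := step2' M (hskew M hMH)
    have h2 : (fun σ => ((M σ).trace / m) • (1 : Matrix (Fin m) (Fin m) ℂ)) =
        M - (M - (fun σ => ((M σ).trace / m) • (1 : Matrix (Fin m) (Fin m) ℂ))) := by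
      rw [sub_sub_cancel]
    rw [h2]
    exact (hHS _).1 (Submodule.sub_mem _ ((hHS _).2 hMH) ((hHS _).2 h1))
  -- (4)
  have step4 : ∀ z : (K →+* ℂ) → ℂ, (∀ σ, z (cj σ) = - z σ) →
      (fun σ => z σ • (1 : Matrix (Fin m) (Fin m) ℂ)) ∈ H := by
    intro z hz
    refine center_mem hcm {z | (fun σ => z σ • (1 : Matrix (Fin m) (Fin m) ℂ)) ∈ H}
      ?_ ?_ ?_ ?_ ?_ ?_ ?_ hodd z hz
    · show (fun σ => (0 : (K →+* ℂ) → ℂ) σ • (1 : Matrix (Fin m) (Fin m) ℂ)) ∈ H
      have e : (fun σ => (0 : (K →+* ℂ) → ℂ) σ • (1 : Matrix (Fin m) (Fin m) ℂ)) = 0 := by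
        funext σ
        rw [Pi.zero_apply, Pi.zero_apply, zero_smul]
      rw [e]
      exact h0
    · intro z hz w hw
      show (fun σ => (z + w) σ • (1 : Matrix (Fin m) (Fin m) ℂ)) ∈ H
      have e : (fun σ => (z + w) σ • (1 : Matrix (Fin m) (Fin m) ℂ)) =
          (fun σ => z σ • (1 : Matrix (Fin m) (Fin m) ℂ)) +
          (fun σ => w σ • (1 : Matrix (Fin m) (Fin m) ℂ)) := by
        funext σ
        rw [Pi.add_apply, Pi.add_apply, add_smul]
      rw [e]
      exact hadd _ hz _ hw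
    · intro r z hz
      show (fun σ => (r • z) σ • (1 : Matrix (Fin m) (Fin m) ℂ)) ∈ H
      have e : (fun σ => (r • z) σ • (1 : Matrix (Fin m) (Fin m) ℂ)) =
          r • (fun σ => z σ • (1 : Matrix (Fin m) (Fin m) ℂ)) := by
        funext σ
        rw [Pi.smul_apply, Pi.smul_apply, smul_assoc]
      rw [e]
      exact hsmul _ _ hz
    · intro z hz σ
      have h1 := hskew _ hz σ
      have h2 : (z σ + z (cj σ)) • h.map σ = 0 := by
        rw [Matrix.transpose_smul, Matrix.transpose_one, Matrix.smul_mul, Matrix.one_mul,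
          Matrix.mul_smul, Matrix.mul_one, ← add_smul] at h1
        exact h1
      rcases smul_eq_zero.1 h2 with h3 | h3
      · linear_combination h3
      · exfalso
        have h4 := HMainC.det_ne hnd σ
        rw [h3] at h4
        have : Nonempty (Fin m) := ⟨⟨0, hm⟩⟩
        exact h4 Matrix.det_zero
    · intro z hz τ
      have h1 := htw _ hz τ
      have e : twM τ (fun σ => z σ • (1 : Matrix (Fin m) (Fin m) ℂ)) =
          fun σ => (τ (z ((τ.symm : ℂ →+* ℂ).comp σ))) • (1 : Matrix (Fin m) (Fin m) ℂ) := by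
        funext σ
        ext a b
        show τ ((z ((τ.symm : ℂ →+* ℂ).comp σ) • (1 : Matrix (Fin m) (Fin m) ℂ)) a b) = _
        rw [Matrix.smul_apply, Matrix.smul_apply, Matrix.one_apply, smul_eq_mul, smul_eq_mul,
          map_mul]
        split_ifs <;> simp
      rw [e] at h1
      exact h1
    · intro z hz ρ
      exact hrep z hz ρ
    · intro F hF0 hF hall
      apply hvol F hF0 hF
      intro M hMH
      have h1 := hall _ (step3 M hMH)
      rw [← Finset.sum_div] at h1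
      rcases div_eq_zero_iff.1 h1 with h2 | h2
      · exact h2
      · exact absurd h2 hm0
  -- conclusion
  have h1 := step4 (fun σ => (M σ).trace / m) (by
    intro σ
    show (M (cj σ)).trace / m = -((M σ).trace / m)
    rw [HMainC.trace_dual hnd hM, neg_div])
  have h2 := hadd _ (step2' M hM) _ h1
  rw [sub_add_cancel] at h2
  exact h2

end Pool.Agent.KSE
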