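import Pool.Agent.KSE.Ts
import Pool.Agent.Helper84.AutC

/-!
Module HMainR. Real places: a space of families with the properties proved in the other modules contains all
skew families.

For every `σ₁` and skew `Z` (for `h.map σ₁`) there is `M ∈ H` with `M σ₁ = Z`, `M σ = 0` for `σ ≠ σ₁`: choose
`τ : ℂ ≃+* ℂ` with `τ ∘ σ₀ = σ₁` (`Pool/Agent/Helper84/AutC.lean`), take `M₀` for `Z.map τ.symm` (`hcore`) and
`twM τ M₀`. A skew family is the sum of such families.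
-/

namespace Pool.Agent.KSE

open Module Matrix NumberField

/-- a skew matrix at one place -/
private lemma hmainR_one {K : Type} [Field K] [NumberField K] {m : ℕ}
    {h : Matrix (Fin m) (Fin m) K}
    (H : Set ((K →+* ℂ) → Matrix (Fin m) (Fin m) ℂ))
    (htw : ∀ M ∈ H, ∀ τ : ℂ ≃+* ℂ, twM τ M ∈ H) (σ₀ : K →+* ℂ)
    (hcore : ∀ Z : Matrix (Fin m) (Fin m) ℂ, Zᵀ * h.map σ₀ + h.map σ₀ * Z = 0 →
      ∃ M ∈ H, M σ₀ = Z ∧ ∀ σ, σ ≠ σ₀ → M σ = 0)
    (σ₁ : K →+* ℂ) (Z : Matrix (Fin m) (Fin m) ℂ) (hZ : Zᵀ * h.map σ₁ + h.map σ₁ * Z = 0) :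
    ∃ M ∈ H, M σ₁ = Z ∧ ∀ σ, σ ≠ σ₁ → M σ = 0 := by
  obtain ⟨τ, hτ⟩ := Pool.Agent.Helper84.exists_aut σ₀ σ₁
  have hτ' : (τ.symm : ℂ →+* ℂ).comp σ₁ = σ₀ := by
    rw [← hτ]
    ext x
    exact τ.symm_apply_apply (σ₀ x)
  have e1 : h.map σ₀ = (h.map σ₁).map (τ.symm : ℂ →+* ℂ) := by
    ext a b
    rw [Matrix.map_apply, Matrix.map_apply, Matrix.map_apply, ← hτ']
    rfl
  have e2 : (Z.map (τ.symm : ℂ →+* ℂ))ᵀ * h.map σ₀ + h.map σ₀ * Z.map (τ.symm : ℂ →+* ℂ) = 0 := by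
    have h1 : (Zᵀ * h.map σ₁ + h.map σ₁ * Z).map (τ.symm : ℂ →+* ℂ) =
        (0 : Matrix (Fin m) (Fin m) ℂ).map (τ.symm : ℂ →+* ℂ) := by rw [hZ]
    rw [Matrix.map_add (τ.symm : ℂ →+* ℂ) (map_add _), Matrix.map_mul, Matrix.map_mul,
      Matrix.map_zero (τ.symm : ℂ →+* ℂ) (map_zero _), Matrix.transpose_map, ← e1] at h1
    exact h1
  obtain ⟨M, hM, hM1, hM2⟩ := hcore _ e2
  refine ⟨twM τ M, htw M hM τ, ?_, fun σ hσ => ?_⟩
  · show (M ((τ.symm : ℂ →+* ℂ).comp σ₁)).map τ = Z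
    rw [hτ', hM1]
    ext a b
    rw [Matrix.map_apply, Matrix.map_apply]
    exact τ.apply_symm_apply (Z a b)
  · show (M ((τ.symm : ℂ →+* ℂ).comp σ)).map τ = 0
    rw [hM2]
    · exact Matrix.map_zero τ (map_zero τ)
    · intro h1
      apply hσ
      rw [← hτ, ← h1]
      ext x
      exact (τ.apply_symm_apply (σ x)).symm

theorem skew_memR {K : Type} [Field K] [NumberField K] {m : ℕ} {h : Matrix (Fin m) (Fin m) K}
    (hreal : ∀ σ : K →+* ℂ, cj σ = σ)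
    (H : Set ((K →+* ℂ) → Matrix (Fin m) (Fin m) ℂ)) (h0 : 0 ∈ H)
    (hadd : ∀ M ∈ H, ∀ N ∈ H, M + N ∈ H) (htw : ∀ M ∈ H, ∀ τ : ℂ ≃+* ℂ, twM τ M ∈ H)
    (σ₀ : K →+* ℂ)
    (hcore : ∀ Z : Matrix (Fin m) (Fin m) ℂ, Zᵀ * h.map σ₀ + h.map σ₀ * Z = 0 →
      ∃ M ∈ H, M σ₀ = Z ∧ ∀ σ, σ ≠ σ₀ → M σ = 0)
    (M : (K →+* ℂ) → Matrix (Fin m) (Fin m) ℂ) (hM : SkewM h M) : M ∈ H := by
  classical
  have key : ∀ s : Finset (K →+* ℂ), (fun σ => if σ ∈ s then M σ else 0) ∈ H := by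
    intro s
    induction s using Finset.induction_on with
    | empty =>
      have e : (fun σ : K →+* ℂ => if σ ∈ (∅ : Finset (K →+* ℂ)) then M σ else 0) = 0 := by
        funext σ
        rw [if_neg (Finset.notMem_empty σ)]
        rfl
      rw [e]
      exact h0
    | insert σ₁ s hs ih =>
      obtain ⟨N, hN, hN1, hN2⟩ := hmainR_one H htw σ₀ hcore σ₁ (M σ₁) (by
        have h1 := hM σ₁
        rwa [hreal σ₁] at h1)
      have h2 := hadd _ hN _ ih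
      have e : (fun σ : K →+* ℂ => if σ ∈ insert σ₁ s then M σ else 0) =
          N + fun σ => if σ ∈ s then M σ else 0 := by
        funext σ
        rw [Pi.add_apply]
        by_cases hσ : σ = σ₁
        · rw [hσ, if_pos (Finset.mem_insert_self _ _), if_neg hs, hN1, add_zero]
        · rw [hN2 σ hσ, zero_add]
          by_cases h3 : σ ∈ s
          · rw [if_pos h3, if_pos (Finset.mem_insert_of_mem h3)]
          · rw [if_neg h3, if_neg fun h4 => h3 (Finset.mem_of_mem_insert_of_ne h4 hσ)]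
      rw [e]
      exact h2
  have h1 := key Finset.univ
  have e : (fun σ : K →+* ℂ => if σ ∈ Finset.univ then M σ else 0) = M := by
    funext σ
    rw [if_pos (Finset.mem_univ σ)]
  rwa [e] at h1

end Pool.Agent.KSE
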