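import Pool.Agent.KSE.Ts
import Pool.Agent.Helper65.Ball.M1

/-!
Module RepE. Replicas: `Y j` acts on the generalised eigenspace of `X.1 j` for `μ` by `ρ μ`
(`Helper65.Ball.M1a`). Prove the additive version of `Helper65.Ball.M1b` (`∑ μ i = 0` instead of
`∏ μ i = 1`, `Pool/Agent/Helper65/Ball/M1ab.lean`), then `Y` is a symmetry as in `Helper65.Ball.M1`. If
`X` acts on `T_σ` by the scalar `z σ`, then `tau (ts t σ) x` maps the generalised eigenspace of `μ` to the one of
`μ + z σ`, so `Y` acts on `T_σ` by `ρ (z σ)`.
-/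

open scoped ComplexConjugate

namespace Pool.Agent.KSE

open Module Matrix NumberField Pool.Agent.Helper7 Pool.Agent.KS Pool.Agent.Ball
  Pool.Agent.Helper28.GPC

namespace RepE

/-- an infinitesimally invariant form vanishes on generalised eigenvectors whose eigenvalues have
sum different from zero -/
lemma vanish_add {V : Type} [AddCommGroup V] [Module ℂ V]
    (g : Module.End ℂ V) {p : ℕ}
    (α : MultilinearMap ℂ (fun _ : Fin p => V) ℂ)
    (hα : ∀ v : Fin p → V, ∑ i, α (Function.update v i (g (v i))) = 0)
    (μ : Fin p → ℂ) (hμ : ∑ i, μ i ≠ 0) :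
    ∀ (M : ℕ) (N : Fin p → ℕ), ∑ i, N i = M → ∀ v : Fin p → V,
      (∀ i, ((g - μ i • (1 : Module.End ℂ V)) ^ (N i)) (v i) = 0) → α v = 0 := by
  intro M
  induction M using Nat.strong_induction_on with
  | _ M ih =>
    intro N hN v hv
    by_cases h0 : ∃ i, N i = 0
    · obtain ⟨i, hi⟩ := h0
      have h1 := hv i
      rw [hi, pow_zero, Module.End.one_apply] at h1
      exact α.map_coord_zero i h1
    · push Not at h0
      have key : ∀ i, α (Function.update v i (g (v i))) = μ i * α v := by
        intro i
        have hg : g (v i) = μ i • v i + (g - μ i • (1 : Module.End ℂ V)) (v i) := by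
          rw [LinearMap.sub_apply, LinearMap.smul_apply, Module.End.one_apply]
          abel
        have hw : ((g - μ i • (1 : Module.End ℂ V)) ^ (N i - 1))
            ((g - μ i • (1 : Module.End ℂ V)) (v i)) = 0 := by
          have h1 := hv i
          have h2 : N i = (N i - 1) + 1 :=
            (Nat.succ_pred_eq_of_pos (Nat.pos_of_ne_zero (h0 i))).symm
          rw [h2, pow_succ, Module.End.mul_apply] at h1
          exact h1
        have h3 : α (Function.update v i ((g - μ i • (1 : Module.End ℂ V)) (v i))) = 0 := by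
          have hlt : ∑ j, Function.update N i (N i - 1) j < M := by
            rw [← hN]
            refine Finset.sum_lt_sum (fun j _ => ?_) ⟨i, Finset.mem_univ i, ?_⟩
            · by_cases hj : j = i
              · subst hj
                rw [Function.update_self]
                exact Nat.sub_le _ _
              · rw [Function.update_of_ne hj]
            · rw [Function.update_self]
              have := h0 i
              omega
          refine ih _ hlt (Function.update N i (N i - 1)) rfl _ fun j => ?_
          by_cases hj : j = i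
          · subst hj
            rw [Function.update_self, Function.update_self]
            exact hw
          · rw [Function.update_of_ne hj, Function.update_of_ne hj]
            exact hv j
        rw [hg, MultilinearMap.map_update_add, h3, add_zero, MultilinearMap.map_update_smul,
          Function.update_eq_self, smul_eq_mul]
      have h1 := hα v
      rw [Finset.sum_congr rfl (fun i _ => key i), ← Finset.sum_mul] at h1
      exact (mul_eq_zero.mp h1).resolve_left hμ

/-- replicas of infinitesimal symmetries kill the invariant forms -/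
theorem replica_add {V : Type} [AddCommGroup V] [Module ℂ V] [FiniteDimensional ℂ V]
    (g : Module.End ℂ V) (f : ℂ → ℂ) {p : ℕ}
    (hf : ∀ μ : Fin p → ℂ, ∑ i, μ i = 0 → ∑ i, f (μ i) = 0)
    (α : MultilinearMap ℂ (fun _ : Fin p => V) ℂ)
    (hα : ∀ v : Fin p → V, ∑ i, α (Function.update v i (g (v i))) = 0)
    (Y : Module.End ℂ V) (hY : ∀ μ, ∀ v ∈ g.maxGenEigenspace μ, Y v = f μ • v)
    (v : Fin p → V) : ∑ i, α (Function.update v i (Y (v i))) = 0 := by
  classical
  let β : MultilinearMap ℂ (fun _ : Fin p => V) ℂ :=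
    ∑ r, α.compLinearMap (fun r' => if r' = r then Y else LinearMap.id)
  have hβ : ∀ v, β v = ∑ i, α (Function.update v i (Y (v i))) := by
    intro v
    show (∑ r, α.compLinearMap (fun r' => if r' = r then Y else LinearMap.id)) v = _
    rw [_root_.sum_apply]
    refine Finset.sum_congr rfl fun r _ => ?_
    rw [MultilinearMap.compLinearMap_apply]
    congr 1
    funext r'
    by_cases h : r' = r
    · subst h; rw [if_pos rfl, Function.update_self]
    · rw [if_neg h, Function.update_of_ne h]; rfl
  let b := (Pool.Agent.Helper65.Ball.isInternal_maxGen g).collectedBasis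
    (fun μ => Module.Free.chooseBasis ℂ (g.maxGenEigenspace μ))
  have hb : ∀ a, b a ∈ g.maxGenEigenspace a.1 := by
    intro a
    exact DirectSum.IsInternal.collectedBasis_mem _ _ _
  have key : β = 0 := by
    refine Basis.ext_multilinear (fun _ => b) fun a => ?_
    rw [_root_.zero_apply, hβ]
    have h1 : ∀ i, α (Function.update (fun i => b (a i)) i (Y (b (a i)))) =
        f (a i).1 * α (fun i => b (a i)) := by
      intro i
      rw [hY _ _ (hb (a i)), MultilinearMap.map_update_smul, Function.update_eq_self, smul_eq_mul]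
    rw [Finset.sum_congr rfl (fun i _ => h1 i), ← Finset.sum_mul]
    by_cases h2 : ∑ i, (a i).1 = 0
    · rw [hf _ h2, zero_mul]
    · have h3 : α (fun i => b (a i)) = 0 := by
        have h4 : ∀ i, ∃ N : ℕ, ((g - (a i).1 • (1 : Module.End ℂ V)) ^ N) (b (a i)) = 0 :=
          fun i => (Module.End.mem_maxGenEigenspace _ _ _).mp (hb (a i))
        choose N hN using h4
        exact vanish_add g α hα (fun i => (a i).1) h2 _ N rfl _ hN
      rw [h3, mul_zero]
  rw [← hβ, key]
  rfl

lemma pow_shift {V : Type} [AddCommGroup V] [Module ℂ V] (g T : Module.End ℂ V) (z : ℂ)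
    (h : ∀ v, g (T v) = T (g v) + z • T v) (μ : ℂ) (N : ℕ) (v : V) :
    ((g - (μ + z) • (1 : Module.End ℂ V)) ^ N) (T v) =
      T (((g - μ • (1 : Module.End ℂ V)) ^ N) v) := by
  induction N generalizing v with
  | zero => rw [pow_zero, pow_zero, Module.End.one_apply, Module.End.one_apply]
  | succ N ih =>
    rw [pow_succ, pow_succ, Module.End.mul_apply, Module.End.mul_apply, ← ih]
    congr 1
    rw [LinearMap.sub_apply, LinearMap.sub_apply, LinearMap.smul_apply, LinearMap.smul_apply,
      Module.End.one_apply, Module.End.one_apply, h, map_sub, map_smul, add_smul]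
    abel

end RepE

variable {I : Type} [Fintype I] [DecidableEq I] (n : I → ℕ) {κ : I → Type}
    [∀ i, Fintype (κ i)] [∀ i, DecidableEq (κ i)] {ϖ : ℂ} (hϖ : ϖ ≠ 0) (P : ∀ i, PData (κ i) ϖ)
    (i : I) {K : Type} [Field K] [NumberField K] {c : K →+* K} {m : ℕ}
    {h : Matrix (Fin m) (Fin m) K} {t : Fin m → K → Module.End ℂ (κ i → ℂ)}
    (S : MD (P i) c h t) {k : ℕ} (γ : MultilinearMap ℂ (fun _ : Fin (2 * k) => HW κ n) ℂ)
    (hB : ∀ v : Fin (2 * k) → HW κ n, (∀ r, IsRatP n P (v r)) → ∃ q : ℚ, γ v = ϖ ^ k * q)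
    (hA : ∀ v : Fin (2 * k) → HW κ n, (∀ r i m j, IsAlgebraic ℚ (v r i m j)) →
      IsAlgebraic ℚ (γ v))

include hϖ hB in
theorem HH_rep (z : (K →+* ℂ) → ℂ)
    (hz : (fun σ => z σ • (1 : Matrix (Fin m) (Fin m) ℂ)) ∈ HH n P i t γ) (ρ : ℂ →+ ℂ) :
    (fun σ => ρ (z σ) • (1 : Matrix (Fin m) (Fin m) ℂ)) ∈ HH n P i t γ := by
  obtain ⟨X, hX, hX2, hM⟩ := hz
  choose Y hY using fun j => Pool.Agent.Helper65.Ball.M1a (X.1 j) ρ
  have hsum : ∀ {p : ℕ} (μ : Fin p → ℂ), ∑ i, μ i = 0 → ∑ i, ρ (μ i) = 0 := by
    intro p μ hμ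
    rw [← map_sum, hμ, map_zero]
  refine ⟨(Y, 0), ⟨?_, ?_, ?_⟩, rfl, ?_⟩
  · intro j j' f hf v
    have h1 : (Y j') ∘ₗ f = f ∘ₗ (Y j) := by
      refine Pool.Agent.Helper65.Ball.ext_maxGen (X.1 j) _ _ fun μ v hv => ?_
      rw [LinearMap.comp_apply, LinearMap.comp_apply, hY j μ v hv, map_smul]
      exact hY j' μ _ (Pool.Agent.Helper65.Ball.maxGen_map (X.1 j) (X.1 j') f
        (fun v => hX.comm j j' f hf v) μ v hv)
    exact LinearMap.congr_fun h1 v
  · intro j u v
    let β : MultilinearMap ℂ (fun _ : Fin 2 => (κ j → ℂ)) ℂ :=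
      { toFun := fun w => (P j).ψ (w 0) (w 1)
        map_update_add' := by
          intro inst w r x y
          have hinst : inst = instDecidableEqFin 2 := Subsingleton.elim _ _
          subst hinst
          fin_cases r <;> simp [Function.update]
        map_update_smul' := by
          intro inst w r c x
          have hinst : inst = instDecidableEqFin 2 := Subsingleton.elim _ _
          subst hinst
          fin_cases r <;> simp [Function.update] }
    have hβ0 : ∀ (Z : Module.End ℂ (κ j → ℂ)) (w : Fin 2 → (κ j → ℂ)),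
        β (Function.update w 0 (Z (w 0))) = (P j).ψ (Z (w 0)) (w 1) := by
      intro Z w
      show (P j).ψ _ _ = _
      simp [Function.update]
    have hβ1 : ∀ (Z : Module.End ℂ (κ j → ℂ)) (w : Fin 2 → (κ j → ℂ)),
        β (Function.update w 1 (Z (w 1))) = (P j).ψ (w 0) (Z (w 1)) := by
      intro Z w
      show (P j).ψ _ _ = _
      simp [Function.update]
    have hinv : ∀ w : Fin 2 → (κ j → ℂ), ∑ r, β (Function.update w r (X.1 j (w r))) = 0 := by
      intro w
      rw [Fin.sum_univ_two, hβ0, hβ1, hX.pol, hX2, zero_mul]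
    have h := RepE.replica_add (X.1 j) ρ (fun μ h => hsum μ h) β hinv (Y j) (hY j) ![u, v]
    rw [Fin.sum_univ_two, hβ0, hβ1] at h
    show (P j).ψ (Y j u) v + (P j).ψ u (Y j v) = 0 * _
    rw [zero_mul]
    exact h
  · show actForm (lift n Y) γ = ((k : ℂ) * 0) • γ
    rw [mul_zero, zero_smul]
    apply MultilinearMap.ext
    intro v
    rw [actForm_apply, _root_.zero_apply]
    refine RepE.replica_add (lift n X.1) ρ (fun μ h => hsum μ h) γ (fun v => ?_) (lift n Y) ?_ v
    · rw [← actForm_apply, hX.form, hX2, mul_zero, zero_smul]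
      rfl
    · intro μ v hv
      funext j r
      rw [lift_apply]
      refine hY j μ (v j r) ?_
      let pr : HW κ n →ₗ[ℂ] (κ j → ℂ) :=
        { toFun := fun w => w j r
          map_add' := fun _ _ => rfl
          map_smul' := fun _ _ => rfl }
      exact Pool.Agent.Helper65.Ball.maxGen_map (lift n X.1) (X.1 j) pr (fun v => rfl) μ v hv
  · intro σ x
    have hcomm : ∀ v, X.1 i (tau (ts t σ) x v) =
        tau (ts t σ) x (X.1 i v) + z σ • tau (ts t σ) x v := by
      intro v
      have h1 := LinearMap.congr_fun (hM σ x) v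
      rw [Matrix.smul_mulVec, Matrix.one_mulVec, map_smul] at h1
      rw [LinearMap.sub_apply, Module.End.mul_apply, Module.End.mul_apply,
        LinearMap.smul_apply] at h1
      rw [← h1]
      abel
    rw [Matrix.smul_mulVec, Matrix.one_mulVec, map_smul]
    refine Pool.Agent.Helper65.Ball.ext_maxGen (X.1 i) _ _ fun μ v hv => ?_
    rw [LinearMap.sub_apply, Module.End.mul_apply, Module.End.mul_apply, LinearMap.smul_apply]
    have h2 : tau (ts t σ) x v ∈ (X.1 i).maxGenEigenspace (μ + z σ) := by
      obtain ⟨N, hN⟩ := (Module.End.mem_maxGenEigenspace _ _ _).mp hv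
      refine (Module.End.mem_maxGenEigenspace _ _ _).mpr ⟨N, ?_⟩
      rw [RepE.pow_shift (X.1 i) (tau (ts t σ) x) (z σ) hcomm, hN, map_zero]
    show Y i (tau (ts t σ) x v) - tau (ts t σ) x (Y i v) = _
    rw [hY i _ _ h2, hY i _ _ hv, map_smul, map_add, add_smul]
    abel

end Pool.Agent.KSE
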