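import Pool.Agent.KSE.CentE

/-!
Module VolE. The traces of the symmetries at a set `F` of places without dual pairs are not related.

`vol σ = ts t σ 0 * ts t σ 1 * ⋯ * ts t σ (m - 1)` (`List.ofFn`, product). If `X` acts by `M` then
`[X, vol σ] = trace (M σ) • vol σ` (the other terms contain twice a factor; the `ts t σ a` anticommute and
have square zero as `cj σ ≠ σ`). Let `D` be the product of the `vol σ`, `σ ∈ F.toList`:
`[X, D] = (∑ σ ∈ F, trace (M σ)) • D = 0` (also for `X.2 ≠ 0`: subtract the homothety), so by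
`comm_productsE` `D` commutes with `N = ∑ a d, ((h.map σ)⁻¹) d a • ts t σ a * ts t (cj σ) d`, `σ ∈ F`.
But `[N, tau (ts t σ) x] = 2 tau (ts t σ) x`, and `N` commutes with the `ts t τ a`, `τ ∈ F`, `τ ≠ σ`, so
`[N, D] = 2 m D` and `D = 0`. But `D ≠ 0`: a product of anticommuting elements of square zero with dual
elements (multiply by the dual of the first factor, use the Clifford relation, induction).
-/

open scoped ComplexConjugate

namespace Pool.Agent.KSE

open Module Matrix NumberField Pool.Agent.Helper7 Pool.Agent.KS Pool.Agent.Ball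
  Pool.Agent.Helper28.GPC

namespace VolE

section gen

variable {A : Type*} [Ring A] [Algebra ℂ A] {ι : Type*} (x : ι → A)

lemma sq_zero (hx : ∀ i j, x i * x j + x j * x i = 0) (i : ι) : x i * x i = 0 := by
  have h1 := hx i i
  have h2 : (2 : ℂ) • (x i * x i) = 0 := by
    rw [two_smul]
    exact h1
  rcases smul_eq_zero.mp h2 with h3 | h3
  · norm_num at h3
  · exact h3

lemma mul_prod (y : A) (l : List ι) (hy : ∀ i ∈ l, y * x i = -(x i * y)) :
    y * (l.map x).prod = (-1 : ℂ) ^ l.length • ((l.map x).prod * y) := by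
  induction l with
  | nil => simp
  | cons i l ih =>
    have h1 := ih fun j hj => hy j (List.mem_cons_of_mem _ hj)
    have h2 := hy i List.mem_cons_self
    rw [List.map_cons, List.prod_cons, ← mul_assoc, h2, neg_mul, mul_assoc, h1,
      List.length_cons, pow_succ, mul_smul_comm, mul_assoc, mul_neg_one, neg_smul]

lemma mul_prod_mem (hx : ∀ i j, x i * x j + x j * x i = 0) (i : ι) (l : List ι) (hi : i ∈ l) :
    x i * (l.map x).prod = 0 := by
  induction l with
  | nil => simp at hi
  | cons j l ih =>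
    rw [List.map_cons, List.prod_cons, ← mul_assoc]
    rcases List.mem_cons.mp hi with h1 | h1
    · rw [← h1, sq_zero x hx, zero_mul]
    · rw [eq_neg_of_add_eq_zero_left (hx i j), neg_mul, mul_assoc, ih h1, mul_zero, neg_zero]

lemma prod_mul_mem (hx : ∀ i j, x i * x j + x j * x i = 0) (i : ι) (l : List ι) (hi : i ∈ l) :
    (l.map x).prod * x i = 0 := by
  have h1 := mul_prod x (x i) l fun j _ => eq_neg_of_add_eq_zero_left (hx i j)
  rw [mul_prod_mem x hx i l hi] at h1
  rcases smul_eq_zero.mp h1.symm with h2 | h2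
  · exact absurd h2 (pow_ne_zero _ (by norm_num))
  · exact h2

lemma deriv_aux [Fintype ι] [DecidableEq ι] (hx : ∀ i j, x i * x j + x j * x i = 0) (X : A)
    (C : ι → ι → ℂ) (hX : ∀ i, X * x i - x i * X = ∑ j, C i j • x j) (l : List ι)
    (hc : ∀ i, i ∈ l) (l₂ l₁ : List ι) (h12 : l₁ ++ l₂ = l) :
    (l₁.map x).prod * (X * (l₂.map x).prod - (l₂.map x).prod * X) =
      (l₂.map fun i => C i i).sum • (l.map x).prod := by
  induction l₂ generalizing l₁ with
  | nil => simp
  | cons i l₂ ih =>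
    have h1 := ih (l₁ ++ [i]) (by rw [← h12]; simp)
    rw [List.map_append, List.prod_append, List.map_singleton, List.prod_singleton] at h1
    have h2 : (l₁.map x).prod * (X * x i - x i * X) * (l₂.map x).prod =
        C i i • (l.map x).prod := by
      rw [hX, Finset.mul_sum, Finset.sum_mul, Finset.sum_eq_single i]
      · rw [mul_smul_comm, smul_mul_assoc, ← h12, List.map_append, List.prod_append,
          List.map_cons, List.prod_cons, mul_assoc]
      · intro j _ hj
        rw [mul_smul_comm, smul_mul_assoc]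
        have h3 : j ∈ l₁ ++ i :: l₂ := by
          rw [h12]
          exact hc j
        rcases List.mem_append.mp h3 with h4 | h4
        · rw [prod_mul_mem x hx j l₁ h4, zero_mul, smul_zero]
        · rcases List.mem_cons.mp h4 with h5 | h5
          · exact absurd h5 hj
          · rw [mul_assoc, mul_prod_mem x hx j l₂ h5, mul_zero, smul_zero]
      · intro h
        exact absurd (Finset.mem_univ _) h
    rw [List.map_cons, List.map_cons, List.sum_cons, List.prod_cons, add_smul, ← h1, ← h2]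
    noncomm_ring

lemma deriv_prod [Fintype ι] [DecidableEq ι] (hx : ∀ i j, x i * x j + x j * x i = 0) (X : A)
    (C : ι → ι → ℂ) (hX : ∀ i, X * x i - x i * X = ∑ j, C i j • x j) :
    X * (((Finset.univ : Finset ι).toList).map x).prod -
      (((Finset.univ : Finset ι).toList).map x).prod * X =
      (∑ i, C i i) • (((Finset.univ : Finset ι).toList).map x).prod := by
  have h1 := deriv_aux x hx X C hX (Finset.univ : Finset ι).toList
    (fun i => Finset.mem_toList.mpr (Finset.mem_univ i)) (Finset.univ : Finset ι).toList []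
    (List.nil_append _)
  rw [List.map_nil, List.prod_nil, one_mul, Finset.sum_map_toList] at h1
  exact h1

lemma prod_ne_zero [Nontrivial A] [DecidableEq ι]
    (y : ι → A) (hy : ∀ i j, y i * x j + x j * y i = if i = j then 1 else 0) (l : List ι)
    (hl : l.Nodup) : (l.map x).prod ≠ 0 := by
  induction l with
  | nil => simp
  | cons i l ih =>
    rw [List.nodup_cons] at hl
    intro h0
    apply ih hl.2
    rw [List.map_cons, List.prod_cons] at h0
    have h1 : y i * (l.map x).prod = (-1 : ℂ) ^ l.length • ((l.map x).prod * y i) := by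
      refine mul_prod x (y i) l fun j hj => ?_
      have h2 := hy i j
      have h4 : ¬ i = j := by
        intro h
        rw [h] at hl
        exact hl.1 hj
      rw [if_neg h4] at h2
      exact eq_neg_of_add_eq_zero_left h2
    have h3 := hy i i
    rw [if_pos rfl] at h3
    calc (l.map x).prod = (y i * x i + x i * y i) * (l.map x).prod := by rw [h3, one_mul]
      _ = y i * (x i * (l.map x).prod) + x i * (y i * (l.map x).prod) := by noncomm_ring
      _ = 0 := by
        rw [h0, h1, mul_zero, zero_add, mul_smul_comm, ← mul_assoc, h0, zero_mul, smul_zero]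

end gen

section ops

variable {V : Type} [AddCommGroup V] [Module ℂ V] {K : Type} [Field K] [NumberField K]
  {c : K →+* K} {m : ℕ}

/-- the operators at the places of `F` -/
noncomputable def xx (t : Fin m → K → Module.End ℂ V) (F : Finset (K →+* ℂ))
    (p : {σ // σ ∈ F} × Fin m) : Module.End ℂ V := ts t p.1.1 p.2

/-- the dual operators -/
noncomputable def yy (h : Matrix (Fin m) (Fin m) K) (t : Fin m → K → Module.End ℂ V)
    (F : Finset (K →+* ℂ)) (p : {σ // σ ∈ F} × Fin m) : Module.End ℂ V :=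
  ∑ d, ((1 / 2 : ℂ) * (h.map p.1.1)⁻¹ d p.2) • ts t (cj p.1.1) d

variable {h : Matrix (Fin m) (Fin m) K} {t : Fin m → K → Module.End ℂ V}
  (hconj : ∀ (σ : K →+* ℂ) (x : K), cj σ x = σ (c x))
  (hcl : ∀ a b x y, t a x * t b y + t b y * t a x =
    (2 * ((Algebra.trace ℚ K (x * c y * h a b) : ℚ) : ℂ)) • 1)

include hconj hcl in
lemma xx_anti (F : Finset (K →+* ℂ)) (hF : ∀ σ ∈ F, cj σ ∉ F)
    (p q : {σ // σ ∈ F} × Fin m) : xx t F p * xx t F q + xx t F q * xx t F p = 0 := by
  refine ts_anti hconj hcl ?_ p.2 q.2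
  intro h1
  apply hF p.1.1 p.1.2
  rw [← h1]
  exact q.1.2

include hconj hcl in
lemma yy_xx [DecidableEq (K →+* ℂ)] (hnd : h.det ≠ 0) (F : Finset (K →+* ℂ))
    (p q : {σ // σ ∈ F} × Fin m) :
    yy h t F p * xx t F q + xx t F q * yy h t F p = if p = q then 1 else 0 := by
  obtain ⟨⟨σ, hσ⟩, a⟩ := p
  obtain ⟨⟨τ, hτ⟩, b⟩ := q
  show (∑ d, ((1 / 2 : ℂ) * (h.map σ)⁻¹ d a) • ts t (cj σ) d) * ts t τ b +
    ts t τ b * (∑ d, ((1 / 2 : ℂ) * (h.map σ)⁻¹ d a) • ts t (cj σ) d) = _
  have h1 : (∑ d, ((1 / 2 : ℂ) * (h.map σ)⁻¹ d a) • ts t (cj σ) d) * ts t τ b +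
      ts t τ b * (∑ d, ((1 / 2 : ℂ) * (h.map σ)⁻¹ d a) • ts t (cj σ) d) =
      ∑ d, ((1 / 2 : ℂ) * (h.map σ)⁻¹ d a) •
        (ts t τ b * ts t (cj σ) d + ts t (cj σ) d * ts t τ b) := by
    rw [Finset.sum_mul, Finset.mul_sum, ← Finset.sum_add_distrib]
    refine Finset.sum_congr rfl fun d _ => ?_
    rw [smul_mul_assoc, mul_smul_comm, smul_add, add_comm]
  rw [h1]
  by_cases hστ : σ = τ
  · subst hστ
    simp only [ts_pair hconj hcl, smul_smul, ← Finset.sum_smul]
    have hdet : IsUnit (h.map σ).det := by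
      have e : (h.map σ).det = σ h.det := (RingHom.map_det σ h).symm
      rw [e]
      exact isUnit_iff_ne_zero.mpr ((map_ne_zero σ).mpr hnd)
    have h2 : ∑ d, (1 / 2 : ℂ) * (h.map σ)⁻¹ d a * (2 * σ (h b d)) =
        (h.map σ * (h.map σ)⁻¹) b a := by
      rw [Matrix.mul_apply]
      refine Finset.sum_congr rfl fun d _ => ?_
      rw [Matrix.map_apply]
      ring
    rw [h2, Matrix.mul_nonsing_inv _ hdet, Matrix.one_apply]
    by_cases hab : a = b
    · subst hab
      rw [if_pos rfl, if_pos rfl, one_smul]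
    · rw [if_neg (fun h => hab h.symm), if_neg (fun h => hab (congrArg Prod.snd h)), zero_smul]
  · have hne : cj σ ≠ cj τ := by
      intro h2
      apply hστ
      rw [← cj_cj σ, h2, cj_cj]
    rw [if_neg (fun h => hστ (congrArg (fun p => p.1.1) h))]
    refine Finset.sum_eq_zero fun d _ => ?_
    rw [ts_anti hconj hcl hne, smul_zero]

/-- the action on one of the operators -/
lemma act_xx [DecidableEq (K →+* ℂ)] {X : Module.End ℂ V}
    {M : (K →+* ℂ) → Matrix (Fin m) (Fin m) ℂ}
    (hX : ActM t X M) (F : Finset (K →+* ℂ)) (p : {σ // σ ∈ F} × Fin m) :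
    X * xx t F p - xx t F p * X =
      ∑ q : {σ // σ ∈ F} × Fin m, (if p.1 = q.1 then M p.1.1 q.2 p.2 else 0 : ℂ) • xx t F q := by
  have h1 := hX p.1.1 (Pi.single p.2 1)
  rw [tau_single, Matrix.mulVec_single_one, tau_apply] at h1
  have h2 : ∑ q : {σ // σ ∈ F} × Fin m,
      (if p.1 = q.1 then M p.1.1 q.2 p.2 else 0 : ℂ) • xx t F q =
      ∑ b, (M p.1.1).col p.2 b • ts t p.1.1 b := by
    rw [Fintype.sum_prod_type, Finset.sum_eq_single p.1]
    · refine Finset.sum_congr rfl fun b _ => ?_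
      rw [if_pos rfl]
      rfl
    · intro τ _ hτ
      refine Finset.sum_eq_zero fun b _ => ?_
      rw [if_neg (fun h => hτ h.symm), zero_smul]
    · intro h
      exact absurd (Finset.mem_univ _) h
  rw [h2]
  exact h1

end ops

end VolE

variable {I : Type} [Fintype I] [DecidableEq I] (n : I → ℕ) {κ : I → Type}
    [∀ i, Fintype (κ i)] [∀ i, DecidableEq (κ i)] {ϖ : ℂ} (hϖ : ϖ ≠ 0) (P : ∀ i, PData (κ i) ϖ)
    (i : I) {K : Type} [Field K] [NumberField K] {c : K →+* K} {m : ℕ}
    {h : Matrix (Fin m) (Fin m) K} {t : Fin m → K → Module.End ℂ (κ i → ℂ)}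
    (S : MD (P i) c h t) {k : ℕ} (γ : MultilinearMap ℂ (fun _ : Fin (2 * k) => HW κ n) ℂ)
    (hB : ∀ v : Fin (2 * k) → HW κ n, (∀ r, IsRatP n P (v r)) → ∃ q : ℚ, γ v = ϖ ^ k * q)
    (hA : ∀ v : Fin (2 * k) → HW κ n, (∀ r i m j, IsAlgebraic ℚ (v r i m j)) →
      IsAlgebraic ℚ (γ v))
    (hne : Nonempty (κ i))
    (hT : ∀ X : GG κ, IsInv n P γ X → ∃ M, ActM t (X.1 i) M)

omit [Fintype I] [DecidableEq I] in
/-- subtract the homothety -/
theorem VolE.mem_HH (X : GG κ) (hX : IsInv n P γ X)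
    (M : (K →+* ℂ) → Matrix (Fin m) (Fin m) ℂ) (hM : ActM t (X.1 i) M) : M ∈ HH n P i t γ := by
  refine ⟨X + (-X.2) • ((fun _ => (1 / 2 : ℂ) • (1 : Module.End ℂ _), 1) : GG κ),
    hX.add _ _ _ ((Helper98.Ball.isInv_homothety _ _ _).smul _ _ _ _), ?_, ?_⟩
  · show X.2 + (-X.2) * 1 = 0
    ring
  · intro σ x
    show (X.1 i + (-X.2) • ((1 / 2 : ℂ) • (1 : Module.End ℂ (κ i → ℂ)))) * tau (ts t σ) x -
      tau (ts t σ) x * (X.1 i + (-X.2) • ((1 / 2 : ℂ) • (1 : Module.End ℂ (κ i → ℂ)))) = _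
    rw [← hM σ x, add_mul, mul_add, smul_mul_assoc, smul_mul_assoc, mul_smul_comm, mul_smul_comm,
      one_mul, mul_one]
    abel

include hϖ S hB hA hne hT in
theorem no_vol (hm : 0 < m) (F : Finset (K →+* ℂ)) (hF0 : F.Nonempty)
    (hF : ∀ σ ∈ F, cj σ ∉ F) (htr : ∀ M ∈ HH n P i t γ, ∑ σ ∈ F, (M σ).trace = 0) : False := by
  classical
  have hnt : Nontrivial (κ i → ℂ) := Function.nontrivial
  have hx := VolE.xx_anti S.conj S.cliff F hF
  have hy := VolE.yy_xx S.conj S.cliff S.nd F
  obtain ⟨D, hD⟩ : ∃ D : Module.End ℂ (κ i → ℂ),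
      D = (((Finset.univ : Finset ({σ // σ ∈ F} × Fin m)).toList).map (VolE.xx t F)).prod :=
    ⟨_, rfl⟩
  have hD0 : D ≠ 0 := by
    rw [hD]
    exact VolE.prod_ne_zero (VolE.xx t F) (VolE.yy h t F) hy _ (Finset.nodup_toList _)
  have hf : ∀ X : GG κ, IsInv n P γ X → X.1 i * D = D * X.1 i := by
    intro X hX
    obtain ⟨M, hM⟩ := hT X hX
    have h1 := htr M (VolE.mem_HH n P i γ X hX M hM)
    have h2 := VolE.deriv_prod (VolE.xx t F) hx (X.1 i)
      (fun p q => if p.1 = q.1 then M p.1.1 q.2 p.2 else 0) (VolE.act_xx hM F)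
    have h3 : ∑ p : {σ // σ ∈ F} × Fin m,
        (if p.1 = p.1 then M p.1.1 p.2 p.2 else 0 : ℂ) = 0 := by
      rw [← h1, Fintype.sum_prod_type, ← Finset.sum_coe_sort F]
      refine Finset.sum_congr rfl fun σ _ => ?_
      rw [Matrix.trace]
      refine Finset.sum_congr rfl fun a _ => ?_
      rw [if_pos rfl, Matrix.diag_apply]
    rw [h3, zero_smul, ← hD] at h2
    exact sub_eq_zero.mp h2
  have hc := comm_productsE n hϖ P i S γ hB hA D hf
  have hcy : ∀ p : {σ // σ ∈ F} × Fin m,
      D * (VolE.xx t F p * VolE.yy h t F p) = VolE.xx t F p * VolE.yy h t F p * D := by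
    intro p
    have e : VolE.xx t F p * VolE.yy h t F p =
        ∑ d, ((1 / 2 : ℂ) * (h.map p.1.1)⁻¹ d p.2) • (ts t p.1.1 p.2 * ts t (cj p.1.1) d) := by
      rw [VolE.xx, VolE.yy, Finset.mul_sum]
      refine Finset.sum_congr rfl fun d _ => ?_
      rw [mul_smul_comm]
    rw [e, Finset.mul_sum, Finset.sum_mul]
    refine Finset.sum_congr rfl fun d _ => ?_
    rw [mul_smul_comm, hc, smul_mul_assoc]
  obtain ⟨N, hN⟩ : ∃ N : Module.End ℂ (κ i → ℂ), N = ∑ p, VolE.xx t F p * VolE.yy h t F p :=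
    ⟨_, rfl⟩
  have hND : N * D - D * N = 0 := by
    rw [hN, Finset.mul_sum, Finset.sum_mul, ← Finset.sum_sub_distrib]
    exact Finset.sum_eq_zero fun p _ => by rw [hcy p, sub_self]
  have hNx : ∀ q, N * VolE.xx t F q - VolE.xx t F q * N =
      ∑ p, (if p = q then 1 else 0 : ℂ) • VolE.xx t F p := by
    intro q
    rw [hN, Finset.mul_sum, Finset.sum_mul, ← Finset.sum_sub_distrib]
    refine Finset.sum_congr rfl fun p _ => ?_
    have e1 : VolE.xx t F p * VolE.yy h t F p * VolE.xx t F q -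
        VolE.xx t F q * (VolE.xx t F p * VolE.yy h t F p) =
        VolE.xx t F p * (VolE.yy h t F p * VolE.xx t F q + VolE.xx t F q * VolE.yy h t F p) -
        (VolE.xx t F p * VolE.xx t F q + VolE.xx t F q * VolE.xx t F p) * VolE.yy h t F p := by
      noncomm_ring
    rw [e1, hx p q, hy p q, zero_mul, sub_zero]
    split_ifs
    · rw [mul_one, one_smul]
    · rw [mul_zero, zero_smul]
  have h4 := VolE.deriv_prod (VolE.xx t F) hx N (fun q p => if p = q then 1 else 0) hNx
  rw [← hD, hND] at h4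
  rcases smul_eq_zero.mp h4.symm with h5 | h5
  · simp only [if_true, Finset.sum_const, Finset.card_univ, Fintype.card_prod, nsmul_eq_mul,
      mul_one, Fintype.card_coe, Fintype.card_fin] at h5
    have h6 : F.card * m = 0 := by exact_mod_cast h5
    rcases Nat.mul_eq_zero.mp h6 with h7 | h7
    · exact hF0.ne_empty (Finset.card_eq_zero.mp h7)
    · omega
  · exact hD0 h5

end Pool.Agent.KSE
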