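import Pool.Agent.KSE.CoreC
import Pool.Agent.KSE.CoreR
import Pool.Agent.KSE.BvE
import Pool.Agent.KSE.GamE
import Pool.Agent.KSE.VolE
import Pool.Agent.KSE.RepE
import Pool.Agent.KSE.HMainC
import Pool.Agent.KSE.HMainR

/-!
The Lie algebra of the Kuga-Satake structure kills the classes on the powers (one abelian variety).
-/

open scoped ComplexConjugate

namespace Pool.Agent.KSE

open Module Matrix NumberField Pool.Agent.Helper7 Pool.Agent.KS Pool.Agent.Ball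
  Pool.Agent.Helper28.GPC Pool.Agent.GPC

section

variable {κ : Type} [Fintype κ] [DecidableEq κ] {ϖ : ℂ} (hϖ : ϖ ≠ 0) (P : PData κ ϖ) (hP : HNd P)
    {K : Type} [Field K] [NumberField K] {c : K →+* K} {m : ℕ} {h : Matrix (Fin m) (Fin m) K}
    {t : Fin m → K → Module.End ℂ (κ → ℂ)} (S : MD P c h t) {n : Unit → ℕ} {k : ℕ}
    (α : MultilinearMap ℂ (fun _ : Fin (2 * k) => HW (fun _ : Unit => κ) n) ℂ)
    (hB : ∀ v : Fin (2 * k) → HW (fun _ : Unit => κ) n,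
      (∀ r, IsRatP n (fun _ : Unit => P) (v r)) → ∃ q : ℚ, α v = ϖ ^ k * q)
    (hA : ∀ v : Fin (2 * k) → HW (fun _ : Unit => κ) n,
      (∀ r i m j, IsAlgebraic ℚ (v r i m j)) → IsAlgebraic ℚ (α v))

include S hB hA in
/-- the final step: if all skew families belong to symmetries, the Lie algebra kills the class -/
theorem kill_of_all
    (hall : Nonempty κ → ∀ (n' : Unit → ℕ) (k' : ℕ)
      (γ : MultilinearMap ℂ (fun _ : Fin (2 * k') => HW (fun _ : Unit => κ) n') ℂ),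
      (∀ v : Fin (2 * k') → HW (fun _ : Unit => κ) n',
        (∀ r, IsRatP n' (fun _ : Unit => P) (v r)) → ∃ q : ℚ, γ v = ϖ ^ k' * q) →
      (∀ v : Fin (2 * k') → HW (fun _ : Unit => κ) n',
        (∀ r i m j, IsAlgebraic ℚ (v r i m j)) → IsAlgebraic ℚ (γ v)) →
      (∀ X : GG (fun _ : Unit => κ), IsInv n' (fun _ : Unit => P) γ X → ∃ M, ActM t (X.1 ()) M) →
      (∀ g : (i : Unit) → Module.End ℂ (κ → ℂ), IsGrp n' (fun _ : Unit => P) γ g →
        ∃ A : (K →+* ℂ) → Matrix (Fin m) (Fin m) ℂ, ∀ σ x,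
          g () * tau (ts t σ) x = tau (ts t σ) (A σ *ᵥ x) * g ()) →
      ∀ M, SkewM h M → M ∈ HH n' (fun _ : Unit => P) () t γ)
    (Z : Module.End ℂ (κ → ℂ)) (hZ : Z ∈ bvS t) : actForm (lift n (fun _ : Unit => Z)) α = 0 := by
  rcases Nat.eq_zero_or_pos k with rfl | hk
  · apply MultilinearMap.ext
    intro v
    rw [actForm_apply]
    exact Finset.sum_eq_zero fun r _ => Fin.elim0 r
  rcases isEmpty_or_nonempty κ with hκ | hκ
  · apply MultilinearMap.ext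
    intro v
    rw [actForm_apply]
    refine Finset.sum_eq_zero fun r _ => ?_
    have h0 : lift n (fun _ : Unit => Z) (v r) = (0 : HW (fun _ : Unit => κ) n) := by
      funext i m j
      exact hκ.elim j
    rw [h0]
    exact α.map_update_zero _ _
  obtain ⟨n', k', γ, hγB, hγA, hγ1, hγ2⟩ :=
    exists_gamE (fun _ : Unit => P) () S n hk α hB hA
  obtain ⟨M, hM1, hM2⟩ := exists_act_of_mem S.conj S.herm S.nd S.cliff Z hZ
  obtain ⟨X, hX, hX2, hXM⟩ := hall hκ n' k' γ hγB hγA (fun X hX => (hγ1 X hX).2)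
    (fun g hg => (hγ2 g hg).2) M hM2
  have h1 := mem_bvE n' (fun _ : Unit => P) () S γ X hX hX2 M hXM
  have h2 : X.1 () = Z := eq_of_act S.conj S.herm S.nd S.cliff h1 hZ hXM hM1
  have h3 := ((hγ1 X hX).1).form
  rw [hX2, mul_zero, zero_smul] at h3
  have h4 : X.1 = fun _ : Unit => Z := by
    funext u
    exact h2
  rw [h4] at h3
  exact h3

include hϖ hP S hB hA in
theorem killC (hcm : ∀ σ : K →+* ℂ, cj σ ≠ σ) (hm : m = 1 ∨ 0 < m ∧ Even m) (hodd : OddSparse K)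
    (σ₀ : K →+* ℂ) (hL : Lorentz (h.map (cj σ₀)) ∨ Lorentz (-(h.map (cj σ₀))))
    (hdef : ∀ σ : K →+* ℂ, σ ≠ σ₀ → σ ≠ cj σ₀ → Definite (h.map (cj σ)))
    (Z : Module.End ℂ (κ → ℂ)) (hZ : Z ∈ bvS t) : actForm (lift n (fun _ : Unit => Z)) α = 0 := by
  have hm0 : 0 < m := by omega
  refine kill_of_all P S α hB hA ?_ Z hZ
  intro hκ n' k' γ hγB hγA hT hTg M hM
  refine skew_memC hm0 S.conj hcm S.herm S.nd (HH n' (fun _ : Unit => P) () t γ)
    (HH_zero n' (fun _ : Unit => P) () γ)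
    (fun M hM N hN => HH_add n' (fun _ : Unit => P) () γ hM hN)
    (fun r M hM => HH_smul n' (fun _ : Unit => P) () γ r hM)
    (fun M hM => HH_skew n' (fun _ : Unit => P) () S γ hκ hM)
    (fun M hM τ => HH_twist n' hϖ (fun _ : Unit => P) () S γ hγB hM τ) σ₀ ?_
    (fun z hz ρ => HH_rep n' hϖ (fun _ : Unit => P) () γ hγB z hz ρ) ?_ hodd M hM
  · intro Z hZ
    rcases hm with hm1 | hm2
    · refine ⟨0, HH_zero n' (fun _ : Unit => P) () γ, ?_, fun σ _ _ => rfl⟩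
      subst hm1
      ext a b
      have ha : a = 0 := Subsingleton.elim _ _
      have hb : b = 0 := Subsingleton.elim _ _
      subst ha
      subst hb
      rw [Matrix.trace, Fin.sum_univ_one, Matrix.diag_apply] at hZ
      rw [hZ]
      rfl
    · exact coreC n' hϖ (fun _ : Unit => P) () S γ hγB hγA hP hκ hT hTg hm2.1 hm2.2 σ₀ (hcm σ₀)
        hL hdef Z hZ
  · intro F hF0 hF h1
    exact no_vol n' hϖ (fun _ : Unit => P) () S γ hγB hγA hκ hT hm0 F hF0 hF h1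

include hϖ hP S hB hA in
theorem killR (hreal : ∀ σ : K →+* ℂ, cj σ = σ) (σ₀ : K →+* ℂ)
    (hm : m = 3 ∨ 6 ≤ m ∨ m = 4 ∧ ∀ σ : K →+* ℂ, σ = σ₀)
    (hsig : Sig2 (Matrix.of fun a b => (σ₀ (h a b)).re) ∨
      Sig2 (-(Matrix.of fun a b => (σ₀ (h a b)).re)))
    (hdef : ∀ σ : K →+* ℂ, σ ≠ σ₀ → Definite (h.map (cj σ)))
    (Z : Module.End ℂ (κ → ℂ)) (hZ : Z ∈ bvS t) : actForm (lift n (fun _ : Unit => Z)) α = 0 := by
  refine kill_of_all P S α hB hA ?_ Z hZ
  intro hκ n' k' γ hγB hγA hT hTg M hM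
  exact skew_memR hreal (HH n' (fun _ : Unit => P) () t γ)
    (HH_zero n' (fun _ : Unit => P) () γ)
    (fun M hM N hN => HH_add n' (fun _ : Unit => P) () γ hM hN)
    (fun M hM τ => HH_twist n' hϖ (fun _ : Unit => P) () S γ hγB hM τ) σ₀
    (fun Z hZ => coreR n' hϖ (fun _ : Unit => P) () S γ hγB hγA hP hκ hT hTg σ₀ (hreal σ₀)
      hm hsig hdef Z hZ) M hM

end

end Pool.Agent.KSE
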