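import Pool.Agent.KSE.TwistE
import Pool.Agent.KSP.HypF

/-!
Module HypE. A hyperbolic symmetry, trivial at the definite places. Adapt `KSP.exists_hypF`
(`Pool/Agent/KSP/HypF.lean`): the matrices `A σ₀` of the elements of the group form a monoid with inverses
which preserves the Hermitian form `H = h.map (cj σ₀)` (`hf H u v = pr h σ₀ v (star u)`, use
`g (cB v) = cB (g v)` and `cB_tauE`: `A (cj σ) (star x) = star (A σ x)`) and acts irreducibly, so
`Helper20.Ball.M3` gives `g` with an eigenvalue of absolute value `≠ 1`; `Helper65.Ball.M1` gives `Y`. At a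
place `σ` with `Definite (h.map (cj σ))` all eigenvalues of `A σ` have absolute value one, so `Y` acts by zero
on the whole eigenspace (`Helper65.Ball.ext_maxGen`).
-/

open scoped ComplexConjugate

namespace Pool.Agent.KSE

open Module Matrix NumberField Pool.Agent.Helper7 Pool.Agent.KS Pool.Agent.Ball
  Pool.Agent.Helper28.GPC

namespace HypE

open Pool.Agent.Helper98.Ball

variable {I : Type} [Fintype I] [DecidableEq I] (n : I → ℕ) {κ : I → Type}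
    [∀ i, Fintype (κ i)] [∀ i, DecidableEq (κ i)] {ϖ : ℂ} (P : ∀ i, PData (κ i) ϖ)
    (i : I) {K : Type} [Field K] [NumberField K] {c : K →+* K} {m : ℕ}
    {h : Matrix (Fin m) (Fin m) K} (t : Fin m → K → Module.End ℂ (κ i → ℂ)) {k : ℕ}
    (γ : MultilinearMap ℂ (fun _ : Fin (2 * k) => HW κ n) ℂ)

/-- `g` acts on the eigenspaces by the matrices `A σ` -/
def GA (g : (j : I) → Module.End ℂ (κ j → ℂ)) (A : (K →+* ℂ) → Matrix (Fin m) (Fin m) ℂ) : Prop :=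
  ∀ σ x, g i * tau (ts t σ) x = tau (ts t σ) (A σ *ᵥ x) * g i

/-- the matrices of the elements of the group at a place -/
noncomputable def TT (σ₀ : K →+* ℂ) : Submonoid (Matrix (Fin m) (Fin m) ℂ) where
  carrier := {B | ∃ g : (j : I) → Module.End ℂ (κ j → ℂ), IsGrp n P γ g ∧
    ∃ A : (K →+* ℂ) → Matrix (Fin m) (Fin m) ℂ, GA i t g A ∧ A σ₀ = B}
  one_mem' := ⟨_, IsGrp.one _ _ γ, 1, fun σ x => by
    rw [Pi.one_apply, Matrix.one_mulVec, one_mul, mul_one], rfl⟩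
  mul_mem' := by
    rintro B C ⟨g, hg, A, hA, rfl⟩ ⟨g', hg', A', hA', rfl⟩
    refine ⟨_, hg.mul _ _ γ hg', A * A', fun σ x => ?_, rfl⟩
    show g i * g' i * tau (ts t σ) x = tau (ts t σ) ((A σ * A' σ) *ᵥ x) * (g i * g' i)
    rw [mul_assoc, hA', ← mul_assoc, hA, Matrix.mulVec_mulVec, mul_assoc]

variable {n P i t γ}

lemma inv (hinj : ∀ σ, Function.Injective (tau (ts t σ)))
    (hTg : ∀ g : (j : I) → Module.End ℂ (κ j → ℂ), IsGrp n P γ g →
      ∃ A : (K →+* ℂ) → Matrix (Fin m) (Fin m) ℂ, GA i t g A) (σ₀ : K →+* ℂ)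
    (B : Matrix (Fin m) (Fin m) ℂ) (hB : B ∈ TT n P i t γ σ₀) :
    ∃ B' ∈ TT n P i t γ σ₀, B * B' = 1 := by
  obtain ⟨g, hg, A, hgA, rfl⟩ := hB
  obtain ⟨g', hg', h1, -⟩ := hg.exists_inv _ _ γ
  obtain ⟨A', hA'⟩ := hTg g' hg'
  refine ⟨A' σ₀, ⟨g', hg', A', hA', rfl⟩, ?_⟩
  apply Matrix.toLin'.injective
  apply LinearMap.ext
  intro x
  rw [Matrix.toLin'_apply, Matrix.toLin'_one, LinearMap.id_apply, ← Matrix.mulVec_mulVec]
  apply hinj σ₀
  have h2 : g i * g' i = 1 := LinearMap.ext fun v => h1 i v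
  have h3 : g i * g' i * tau (ts t σ₀) x =
      tau (ts t σ₀) (A σ₀ *ᵥ (A' σ₀ *ᵥ x)) * (g i * g' i) := by
    rw [mul_assoc, hA', ← mul_assoc, hgA, mul_assoc]
  rw [h2, one_mul, mul_one] at h3
  exact h3.symm

/-- the symmetries commute with the complex conjugation -/
lemma real (S : MD (P i) c h t) (hinj : ∀ σ, Function.Injective (tau (ts t σ)))
    {g : (j : I) → Module.End ℂ (κ j → ℂ)} (hg : IsGrp n P γ g)
    {A : (K →+* ℂ) → Matrix (Fin m) (Fin m) ℂ} (hA : GA i t g A) (σ : K →+* ℂ)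
    (x : Fin m → ℂ) : A (cj σ) *ᵥ (star x) = star (A σ *ᵥ x) := by
  obtain ⟨g', -, h1, -⟩ := hg.exists_inv _ _ γ
  apply hinj (cj σ)
  apply LinearMap.ext
  intro w
  obtain ⟨v, hv⟩ : ∃ v, g i (cB (P i) v) = w :=
    ⟨cB (P i) (g' i w), by rw [cB_cB]; exact h1 i w⟩
  have e : ∀ ρ x v, g i (tau (ts t ρ) x v) = tau (ts t ρ) (A ρ *ᵥ x) (g i v) := fun ρ x v =>
    LinearMap.congr_fun (hA ρ x) v
  rw [← hv, ← e, ← cB_tauE S, hg.real, e, cB_tauE S, hg.real]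

/-- the symmetries preserve the pairing -/
lemma pair [Nonempty (κ i)] (S : MD (P i) c h t) {g : (j : I) → Module.End ℂ (κ j → ℂ)}
    (hg : IsGrp n P γ g) {A : (K →+* ℂ) → Matrix (Fin m) (Fin m) ℂ} (hA : GA i t g A)
    (σ : K →+* ℂ) (x y : Fin m → ℂ) : pr h σ (A σ *ᵥ x) (A (cj σ) *ᵥ y) = pr h σ x y := by
  have h1 := tau_pair S.conj S.cliff σ x y
  have h2 := tau_pair S.conj S.cliff σ (A σ *ᵥ x) (A (cj σ) *ᵥ y)
  have h3 : g i * (tau (ts t σ) x * tau (ts t (cj σ)) y + tau (ts t (cj σ)) y * tau (ts t σ) x) =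
      (tau (ts t σ) (A σ *ᵥ x) * tau (ts t (cj σ)) (A (cj σ) *ᵥ y) +
        tau (ts t (cj σ)) (A (cj σ) *ᵥ y) * tau (ts t σ) (A σ *ᵥ x)) * g i := by
    rw [mul_add, add_mul, ← mul_assoc, ← mul_assoc, hA, hA, mul_assoc, mul_assoc, hA, hA,
      ← mul_assoc, ← mul_assoc]
  rw [h1, h2, mul_smul_comm, smul_mul_assoc, mul_one, one_mul] at h3
  obtain ⟨v, hv⟩ := exists_ne (0 : κ i → ℂ)
  have h4 : (2 * pr h σ x y) • g i v = (2 * pr h σ (A σ *ᵥ x) (A (cj σ) *ᵥ y)) • g i v :=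
    LinearMap.congr_fun h3 v
  rw [← sub_eq_zero, ← sub_smul] at h4
  rcases smul_eq_zero.mp h4 with h5 | h5
  · linear_combination (-1 / 2 : ℂ) * h5
  · exact absurd (hg.injective _ _ γ i (h5.trans (map_zero _).symm)) hv

omit [DecidableEq I] in
lemma hf_pr (hconj : ∀ (σ : K →+* ℂ) (x : K), cj σ x = σ (c x)) (hh : ∀ a b, c (h a b) = h b a)
    (σ : K →+* ℂ) (u v : Fin m → ℂ) : hf (h.map (cj σ)) u v = pr h σ v (star u) := by
  rw [← pr_symm hconj hh]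
  rfl

/-- the Hermitian forms are preserved -/
lemma form [Nonempty (κ i)] (S : MD (P i) c h t) (hinj : ∀ σ, Function.Injective (tau (ts t σ)))
    {g : (j : I) → Module.End ℂ (κ j → ℂ)} (hg : IsGrp n P γ g)
    {A : (K →+* ℂ) → Matrix (Fin m) (Fin m) ℂ} (hA : GA i t g A) (σ : K →+* ℂ)
    (u v : Fin m → ℂ) : hf (h.map (cj σ)) (A σ *ᵥ u) (A σ *ᵥ v) = hf (h.map (cj σ)) u v := by
  rw [hf_pr S.conj S.herm, hf_pr S.conj S.herm, ← real S hinj hg hA σ u]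
  exact pair S hg hA σ v (star u)

omit [Fintype I] [DecidableEq I] [∀ i, Fintype (κ i)] [∀ i, DecidableEq (κ i)] in
/-- the action at a place -/
lemma act {X : Module.End ℂ (κ i → ℂ)} {M : (K →+* ℂ) → Matrix (Fin m) (Fin m) ℂ}
    (hX : ActM t X M) (σ : K →+* ℂ) : Act (ts t σ) X (Matrix.toLin' (M σ)) := by
  intro x
  rw [Matrix.toLin'_apply]
  exact hX σ x

/-- the group acts irreducibly -/
lemma irr (hϖ : ϖ ≠ 0)
    (hB : ∀ v : Fin (2 * k) → HW κ n, (∀ r, IsRatP n P (v r)) → ∃ q : ℚ, γ v = ϖ ^ k * q)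
    (hT : ∀ X : GG κ, IsInv n P γ X → ∃ M, ActM t (X.1 i) M) (σ₀ : K →+* ℂ)
    (hirr : ∀ W : Submodule ℂ (Fin m → ℂ),
      (∀ M ∈ HH n P i t γ, ∀ v ∈ W, M σ₀ *ᵥ v ∈ W) → W = ⊥ ∨ W = ⊤)
    (W : Submodule ℂ (Fin m → ℂ))
    (hW : ∀ B ∈ TT n P i t γ σ₀, ∀ w ∈ W, B *ᵥ w ∈ W) : W = ⊥ ∨ W = ⊤ := by
  apply hirr
  have hreal : ∀ (Y : GG κ) (M : (K →+* ℂ) → Matrix (Fin m) (Fin m) ℂ),
      IsInv n P γ Y → Y.2 = 0 →
      (∀ (j : I) v, Y.1 j (cB (P j) v) = cB (P j) (Y.1 j v)) → ActM t (Y.1 i) M →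
      ∀ v ∈ W, M σ₀ *ᵥ v ∈ W := by
    intro Y M hY hY2 hYr hM v hv
    rw [← Matrix.toLin'_apply]
    refine stable_of_ex (Matrix.toLin' (M σ₀)) W (fun s v hv => ?_) v hv
    have h1 : LinearMap.toMatrix' (ex (Matrix.toLin' (M σ₀)) s) ∈ TT n P i t γ σ₀ := by
      refine ⟨_, isGrp_ex n P γ Y hY hY2 hYr s,
        fun σ => LinearMap.toMatrix' (ex (Matrix.toLin' (M σ)) s), fun σ x => ?_, rfl⟩
      apply LinearMap.ext
      intro w
      have h2 := ex_tau (act hM σ) s x w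
      have h3 : LinearMap.toMatrix' (ex (Matrix.toLin' (M σ)) s) *ᵥ x =
          ex (Matrix.toLin' (M σ)) s x := by
        rw [← Matrix.toLin'_apply, Matrix.toLin'_toMatrix']
      rw [h3]
      exact h2
    have h4 := hW _ h1 v hv
    rw [← Matrix.toLin'_apply, Matrix.toLin'_toMatrix'] at h4
    exact h4
  rintro M ⟨X, hX, hX2, hM⟩ v hv
  obtain ⟨X', hX', hX'2, -, hX'c⟩ := exists_real n P γ hϖ hB X hX
  rw [hX2, map_zero] at hX'2
  obtain ⟨M', hM'⟩ := hT X' hX'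
  have h1 := hreal ((1 / 2 : ℂ) • (X + X')) ((1 / 2 : ℂ) • (M + M'))
    ((hX.add _ _ γ hX').smul _ _ γ _) (by
      show (1 / 2 : ℂ) * (X.2 + X'.2) = 0
      rw [hX2, hX'2]; ring) (fun j w => by
      show (1 / 2 : ℂ) • (X.1 j (cB (P j) w) + X'.1 j (cB (P j) w)) =
        cB (P j) ((1 / 2 : ℂ) • (X.1 j w + X'.1 j w))
      have e : conj (1 / 2 : ℂ) = 1 / 2 := by
        rw [map_div₀, map_one, map_ofNat]
      rw [hX'c, hX'c, cB_smul, cB_add, cB_cB, cB_cB, add_comm, e])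
    ((hM.add hM').smul _) v hv
  have h2 := hreal ((-Complex.I / 2 : ℂ) • (X + (-1 : ℂ) • X'))
    ((-Complex.I / 2 : ℂ) • (M + (-1 : ℂ) • M'))
    ((hX.add _ _ γ (hX'.smul _ _ γ _)).smul _ _ γ _) (by
      show (-Complex.I / 2 : ℂ) * (X.2 + (-1 : ℂ) * X'.2) = 0
      rw [hX2, hX'2]; ring) (fun j w => by
      show (-Complex.I / 2 : ℂ) • (X.1 j (cB (P j) w) + (-1 : ℂ) • X'.1 j (cB (P j) w)) =
        cB (P j) ((-Complex.I / 2 : ℂ) • (X.1 j w + (-1 : ℂ) • X'.1 j w))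
      rw [hX'c, hX'c, cB_smul, cB_add, cB_smul, cB_cB, cB_cB]
      have e : conj (-Complex.I / 2 : ℂ) = Complex.I / 2 := by
        rw [map_div₀, map_neg, Complex.conj_I, neg_neg, map_ofNat]
      rw [e, map_neg, map_one, smul_add, smul_add, smul_smul, smul_smul, add_comm]
      congr 1
      · congr 1; ring
      · congr 1; ring) ((hM.add (hM'.smul _)).smul _) v hv
  have h3 : M σ₀ *ᵥ v = ((1 / 2 : ℂ) • (M + M')) σ₀ *ᵥ v +
      Complex.I • (((-Complex.I / 2 : ℂ) • (M + (-1 : ℂ) • M')) σ₀ *ᵥ v) := by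
    rw [Pi.smul_apply, Pi.smul_apply, Pi.add_apply, Pi.add_apply, Pi.smul_apply,
      Matrix.smul_mulVec, Matrix.smul_mulVec, Matrix.add_mulVec, Matrix.add_mulVec,
      Matrix.smul_mulVec, smul_smul]
    have e : Complex.I * (-Complex.I / 2) = 1 / 2 := by
      linear_combination (-1 / 2 : ℂ) * Complex.I_sq
    rw [e, ← smul_add]
    have e2 : M σ₀ *ᵥ v + M' σ₀ *ᵥ v + (M σ₀ *ᵥ v + (-1 : ℂ) • M' σ₀ *ᵥ v) =
        (2 : ℂ) • M σ₀ *ᵥ v := by
      rw [neg_one_smul, two_smul]; abel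
    rw [e2, smul_smul]
    norm_num
  rw [h3]
  exact W.add_mem h1 (W.smul_mem _ h2)

/-- eigenvectors from generalised eigenvectors -/
lemma exists_eig {V : Type} [AddCommGroup V] [Module ℂ V] {A : Module.End ℂ V} {μ : ℂ} {x : V}
    (hx : x ∈ A.maxGenEigenspace μ) (hx0 : x ≠ 0) : ∃ y : V, y ≠ 0 ∧ A y = μ • y := by
  classical
  have h1 : ∃ p : ℕ, ((A - μ • (1 : Module.End ℂ V)) ^ p) x = 0 :=
    (Module.End.mem_maxGenEigenspace _ _ _).mp hx
  have h2 := Nat.find_spec h1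
  have h3 : Nat.find h1 ≠ 0 := by
    intro h4
    rw [h4, pow_zero, Module.End.one_apply] at h2
    exact hx0 h2
  obtain ⟨p, hp⟩ := Nat.exists_eq_succ_of_ne_zero h3
  have h5 : ((A - μ • (1 : Module.End ℂ V)) ^ p) x ≠ 0 := Nat.find_min h1 (by omega)
  refine ⟨_, h5, ?_⟩
  rw [hp, pow_succ', Module.End.mul_apply, LinearMap.sub_apply, LinearMap.smul_apply,
    Module.End.one_apply, sub_eq_zero] at h2
  exact h2

/-- eigenvalues of isometries of definite forms -/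
lemma norm_one {H A : Matrix (Fin m) (Fin m) ℂ} (hH : Definite H)
    (hA : ∀ v, hf H (A *ᵥ v) (A *ᵥ v) = hf H v v) {μ : ℂ} {v : Fin m → ℂ} (hv : v ≠ 0)
    (hμ : A *ᵥ v = μ • v) : ‖μ‖ = 1 := by
  have h1 : (hf H v v).re ≠ 0 := by
    rcases hH.2 with h2 | h2
    · exact (h2 v hv).ne'
    · exact (h2 v hv).ne
  have h2 := hA v
  rw [hμ, hf_smul_left, hf_smul_right, ← mul_assoc] at h2
  have h3 : conj μ * μ = ((‖μ‖ ^ 2 : ℝ) : ℂ) := by
    rw [Complex.conj_mul']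
    push_cast
    rfl
  rw [h3] at h2
  have h4 := congrArg Complex.re h2
  rw [Complex.re_ofReal_mul] at h4
  have h5 : ‖μ‖ ^ 2 = 1 := by
    have h6 : (‖μ‖ ^ 2 - 1) * (hf H v v).re = 0 := by linarith
    rcases mul_eq_zero.mp h6 with h7 | h7
    · linarith
    · exact absurd h7 h1
  nlinarith [norm_nonneg μ]

end HypE

variable {I : Type} [Fintype I] [DecidableEq I] (n : I → ℕ) {κ : I → Type}
    [∀ i, Fintype (κ i)] [∀ i, DecidableEq (κ i)] {ϖ : ℂ} (hϖ : ϖ ≠ 0) (P : ∀ i, PData (κ i) ϖ)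
    (i : I) {K : Type} [Field K] [NumberField K] {c : K →+* K} {m : ℕ}
    {h : Matrix (Fin m) (Fin m) K} {t : Fin m → K → Module.End ℂ (κ i → ℂ)}
    (S : MD (P i) c h t) {k : ℕ} (γ : MultilinearMap ℂ (fun _ : Fin (2 * k) => HW κ n) ℂ)
    (hB : ∀ v : Fin (2 * k) → HW κ n, (∀ r, IsRatP n P (v r)) → ∃ q : ℚ, γ v = ϖ ^ k * q)
    (hA : ∀ v : Fin (2 * k) → HW κ n, (∀ r i m j, IsAlgebraic ℚ (v r i m j)) →
      IsAlgebraic ℚ (γ v))
    (hne : Nonempty (κ i))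
    (hT : ∀ X : GG κ, IsInv n P γ X → ∃ M, ActM t (X.1 i) M)

include hϖ S hB hne hT in
theorem exists_hypE (σ₀ : K →+* ℂ)
    (hpos : ∃ v, 0 < (hf (h.map (cj σ₀)) v v).re) (hneg : ∃ v, (hf (h.map (cj σ₀)) v v).re < 0)
    (hdef : ∀ σ : K →+* ℂ, σ ≠ σ₀ → σ ≠ cj σ₀ → Definite (h.map (cj σ)))
    (hTg : ∀ g : (i : I) → Module.End ℂ (κ i → ℂ), IsGrp n P γ g →
      ∃ A : (K →+* ℂ) → Matrix (Fin m) (Fin m) ℂ, ∀ σ x,
        g i * tau (ts t σ) x = tau (ts t σ) (A σ *ᵥ x) * g i)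
    (hirr : ∀ W : Submodule ℂ (Fin m → ℂ),
      (∀ M ∈ HH n P i t γ, ∀ v ∈ W, M σ₀ *ᵥ v ∈ W) → W = ⊥ ∨ W = ⊤) :
    ∃ B ∈ HH n P i t γ, B σ₀ ≠ 0 ∧ (∀ σ, σ ≠ σ₀ → σ ≠ cj σ₀ → B σ = 0) ∧
      (∀ σ, B (cj σ) = (B σ).map conj) ∧
      (∀ u v, hf (h.map (cj σ₀)) (B σ₀ *ᵥ u) v + hf (h.map (cj σ₀)) u (B σ₀ *ᵥ v) = 0) ∧
      ∀ v, v ∈ Submodule.span ℂ {w | ∃ r : ℝ, B σ₀ *ᵥ w = (r : ℂ) • w} := by
  have hinj : ∀ σ, Function.Injective (tau (ts t σ)) := tau_injE S.conj S.cliff S.nd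
  have hH : (h.map (cj σ₀)).IsHermitian := by
    apply Matrix.IsHermitian.ext
    intro a b
    rw [Matrix.map_apply, Matrix.map_apply]
    have h1 : star (cj σ₀ (h b a)) = cj (cj σ₀) (h b a) := rfl
    rw [h1, cj_cj, S.conj, S.herm]
  obtain ⟨B, hBm, μ, v, hv0, hv, hμ⟩ := Helper20.Ball.M3 (h.map (cj σ₀)) hH hpos hneg
    (HypE.TT n P i t γ σ₀) (HypE.inv hinj hTg σ₀) (by
      rintro _ ⟨g, hg, A, hgA, rfl⟩
      apply eq_of_hf
      intro u v
      rw [hf_conjT]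
      exact HypE.form S hinj hg hgA σ₀ u v) (HypE.irr hϖ hB hT σ₀ hirr)
  obtain ⟨g, hg, A, hgA, rfl⟩ := hBm
  have hginj : Function.Injective (g i) := hg.injective _ _ γ i
  have hAinj : ∀ σ, Function.Injective (Matrix.toLin' (A σ)) := by
    intro σ
    rw [injective_iff_map_eq_zero]
    intro x hx
    rw [Matrix.toLin'_apply] at hx
    apply hinj σ
    rw [map_zero]
    apply LinearMap.ext
    intro w
    apply hginj
    have h1 := LinearMap.congr_fun (hgA σ x) w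
    rw [hx, map_zero, zero_mul, LinearMap.zero_apply, Module.End.mul_apply] at h1
    rw [h1, LinearMap.zero_apply, map_zero]
  obtain ⟨Y, hY, hY2, hr, hl⟩ := Helper65.Ball.M1 _ _ γ g hg
  obtain ⟨M, hM⟩ := hT Y hY
  have hMl : ∀ (σ : K →+* ℂ) (μ' : ℂ), ∀ x ∈ Module.End.maxGenEigenspace (Matrix.toLin' (A σ)) μ',
      M σ *ᵥ x = ((Real.log ‖μ'‖ : ℝ) : ℂ) • x := by
    intro σ μ' x hx
    have hgA' : ∀ x, g i * tau (ts t σ) x = tau (ts t σ) (Matrix.toLin' (A σ) x) * g i := by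
      intro x
      rw [Matrix.toLin'_apply]
      exact hgA σ x
    by_cases hμ0 : μ' = 0
    · rw [hμ0] at hx
      rw [maxGen_zero (hAinj σ) hx, Matrix.mulVec_zero, smul_zero]
    apply hinj σ
    rw [← hM σ x, map_smul]
    refine Helper65.Ball.ext_maxGen (g i) _ _ fun ν w hw => ?_
    by_cases hν0 : ν = 0
    · rw [hν0] at hw
      rw [maxGen_zero hginj hw, map_zero, map_zero]
    have h1 := hl i _ _ (tau_maxGen hgA' hx hw)
    have h2 := hl i _ _ hw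
    rw [LinearMap.sub_apply, Module.End.mul_apply, Module.End.mul_apply, h1, h2, map_smul,
      ← sub_smul, LinearMap.smul_apply, norm_mul, Real.log_mul (norm_ne_zero_iff.mpr hμ0)
        (norm_ne_zero_iff.mpr hν0)]
    congr 1
    push_cast
    ring
  have hMc : ∀ (σ : K →+* ℂ) (x : Fin m → ℂ), M (cj σ) *ᵥ (star x) = star (M σ *ᵥ x) := by
    intro σ x
    apply hinj (cj σ)
    apply LinearMap.ext
    intro w
    obtain ⟨u, rfl⟩ : ∃ u, cB (P i) u = w := ⟨cB (P i) w, cB_cB (P i) w⟩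
    have h1 := LinearMap.congr_fun (hM (cj σ) (star x)) (cB (P i) u)
    have h2 := LinearMap.congr_fun (hM σ x) u
    have hr' : ∀ v, Y.1 i (cB (P i) v) = cB (P i) (Y.1 i v) := hr i
    rw [LinearMap.sub_apply, Module.End.mul_apply, Module.End.mul_apply] at h1 h2
    rw [← h1, ← cB_tauE S, hr', hr', ← cB_tauE S, ← cB_sub, h2, cB_tauE S]
  refine ⟨M, ⟨Y, hY, hY2, hM⟩, ?_, ?_, ?_, ?_, ?_⟩
  · intro h0
    have h1 : v ∈ Module.End.maxGenEigenspace (Matrix.toLin' (A σ₀)) μ := by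
      rw [Module.End.mem_maxGenEigenspace]
      refine ⟨1, ?_⟩
      rw [pow_one, LinearMap.sub_apply, LinearMap.smul_apply, Module.End.one_apply,
        Matrix.toLin'_apply, hv, sub_self]
    have h2 := hMl σ₀ μ v h1
    rw [h0, Matrix.zero_mulVec] at h2
    rcases smul_eq_zero.mp h2.symm with h4 | h4
    · have h5 : Real.log ‖μ‖ = 0 := by exact_mod_cast h4
      rcases Real.log_eq_zero.mp h5 with h6 | h6 | h6
      · have h7 : μ = 0 := norm_eq_zero.mp h6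
        rw [h7, zero_smul] at hv
        exact hv0 (hAinj σ₀ ((Matrix.toLin'_apply _ _).trans (hv.trans (map_zero _).symm)))
      · exact hμ h6
      · have := norm_nonneg μ
        linarith
    · exact hv0 h4
  · intro σ h1 h2
    apply Matrix.toLin'.injective
    refine Helper65.Ball.ext_maxGen (Matrix.toLin' (A σ)) _ _ fun ν x hx => ?_
    rw [Matrix.toLin'_apply, map_zero, LinearMap.zero_apply, hMl σ ν x hx]
    by_cases hx0 : x = 0
    · rw [hx0, smul_zero]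
    obtain ⟨y, hy0, hy⟩ := HypE.exists_eig hx hx0
    rw [Matrix.toLin'_apply] at hy
    have h3 := HypE.norm_one (hdef σ h1 h2) (fun v => HypE.form S hinj hg hgA σ v v) hy0 hy
    rw [h3, Real.log_one, Complex.ofReal_zero, zero_smul]
  · intro σ
    apply Matrix.toLin'.injective
    apply LinearMap.ext
    intro x
    rw [Matrix.toLin'_apply, Matrix.toLin'_apply]
    have h4 := hMc σ (star x)
    rw [star_star] at h4
    rw [h4]
    funext a
    rw [Pi.star_apply, Matrix.mulVec, Matrix.mulVec, dotProduct, dotProduct, star_sum]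
    refine Finset.sum_congr rfl fun b _ => ?_
    rw [star_mul', Pi.star_apply, star_star]
    rfl
  · intro u v
    rw [HypE.hf_pr S.conj S.herm, HypE.hf_pr S.conj S.herm]
    rw [← hMc σ₀ u, add_comm]
    exact hM.skew S.conj S.cliff σ₀ v (star u)
  · intro x
    have h1 : (⊤ : Submodule ℂ (Fin m → ℂ)) ≤
        Submodule.span ℂ {w | ∃ r : ℝ, M σ₀ *ᵥ w = (r : ℂ) • w} := by
      rw [← Module.End.iSup_maxGenEigenspace_eq_top (Matrix.toLin' (A σ₀))]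
      exact iSup_le fun μ' y hy => Submodule.subset_span ⟨Real.log ‖μ'‖, hMl σ₀ μ' y hy⟩
    exact h1 Submodule.mem_top

end Pool.Agent.KSE
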