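import Mathlib

/-!
Schur-Weyl duality with types: definitions. The tensor power `(ℂ^m)^{⊗ k}` is the space of functions on
`Fin k → Fin m`.
-/

namespace Pool.Agent.KSE

open Matrix

variable {k m : ℕ}

/-- the tensor product of the matrices `Y r` -/
def tens (Y : Fin k → Matrix (Fin m) (Fin m) ℂ) : Matrix (Fin k → Fin m) (Fin k → Fin m) ℂ :=
  Matrix.of fun i i' => ∏ r, Y r (i r) (i' r)

/-- the matrix `X` acting on one factor -/
def at1 (r : Fin k) (X : Matrix (Fin m) (Fin m) ℂ) : Matrix (Fin k → Fin m) (Fin k → Fin m) ℂ :=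
  tens (Function.update (fun _ => 1) r X)

/-- the action of `X` on the factors of type `s` -/
def dty {Φ : Type} [DecidableEq Φ] (p : Fin k → Φ) (s : Φ) (X : Matrix (Fin m) (Fin m) ℂ) :
    Matrix (Fin k → Fin m) (Fin k → Fin m) ℂ :=
  ∑ r ∈ Finset.univ.filter fun r => p r = s, at1 r X

/-- the matrix of a permutation of the factors -/
def pmat (π : Equiv.Perm (Fin k)) : Matrix (Fin k → Fin m) (Fin k → Fin m) ℂ :=
  Matrix.of fun i i' => if i' = i ∘ π then 1 else 0

/-- symmetrization over the permutations preserving the types -/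
def symT {Φ : Type} [DecidableEq Φ] (p : Fin k → Φ) (Y : Fin k → Matrix (Fin m) (Fin m) ℂ) :
    Matrix (Fin k → Fin m) (Fin k → Fin m) ℂ :=
  ∑ π ∈ Finset.univ.filter fun π : Equiv.Perm (Fin k) => ∀ r, p (π r) = p r, tens (Y ∘ π)

end Pool.Agent.KSE
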