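import Pool.Agent.KSE.SWDefs

/-!
Module SWa. A matrix commuting with the `dty p s X` commutes with the symmetrized tensor products.

`tens Y * tens Y' = tens (fun r => Y r * Y' r)` (`Finset.prod_univ_sum`). Induction on the number of `r` with
`Y r ≠ 1`. If there is none, `symT p Y` is a multiple of the identity matrix. Otherwise take `r₀` with
`Y r₀ ≠ 1` and `Y' = Function.update Y r₀ 1`. Then
`dty p (p r₀) (Y r₀) * symT p Y' = ∑ r' with p r' = p r₀, symT p (Function.update Y' r' (Y r₀ * Y' r'))`
(the sum over `π` and `r` with `p r = p r₀`, put `r = π⁻¹ r'`). For `r' = r₀` the term is `symT p Y`; for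
`r' ≠ r₀` with `Y r' = 1` it is `symT p (Y ∘ swap r₀ r') = symT p Y` (`swap r₀ r'` preserves the types);
for the other `r'` the number of factors `≠ 1` is smaller. So `symT p Y` is a combination (with a positive
integer coefficient for `symT p Y`) of matrices commuting with `T`.
-/

namespace Pool.Agent.KSE

open Matrix

theorem tens_mul {k m : ℕ} (Y Y' : Fin k → Matrix (Fin m) (Fin m) ℂ) :
    tens Y * tens Y' = tens fun r => Y r * Y' r := by
  ext i i''
  rw [Matrix.mul_apply]
  simp only [tens, Matrix.of_apply, Matrix.mul_apply]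
  rw [Finset.prod_univ_sum]
  rw [Fintype.piFinset_univ]
  exact Finset.sum_congr rfl fun i' _ => Finset.prod_mul_distrib.symm

namespace SWa

variable {k m : ℕ} {Φ : Type} [DecidableEq Φ]

/-- the permutations preserving the types -/
def PP (p : Fin k → Φ) : Finset (Equiv.Perm (Fin k)) :=
  Finset.univ.filter fun π : Equiv.Perm (Fin k) => ∀ r, p (π r) = p r

theorem mem_PP {p : Fin k → Φ} {π : Equiv.Perm (Fin k)} : π ∈ PP p ↔ ∀ r, p (π r) = p r := by
  simp [PP]

theorem symT_eq (p : Fin k → Φ) (Y : Fin k → Matrix (Fin m) (Fin m) ℂ) :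
    symT p Y = ∑ π ∈ PP p, tens (Y ∘ π) := rfl

theorem tens_one : tens (fun _ : Fin k => (1 : Matrix (Fin m) (Fin m) ℂ)) = 1 := by
  ext i i'
  simp only [tens, Matrix.of_apply, Matrix.one_apply]
  by_cases h : i = i'
  · subst h
    simp
  · rw [if_neg h]
    obtain ⟨r, hr⟩ := Function.ne_iff.1 h
    exact Finset.prod_eq_zero (Finset.mem_univ r) (by simp [hr])

theorem symT_comp (p : Fin k → Φ) (Y : Fin k → Matrix (Fin m) (Fin m) ℂ)
    (σ : Equiv.Perm (Fin k)) (hσ : σ ∈ PP p) : symT p (Y ∘ σ) = symT p Y := by
  rw [symT_eq, symT_eq]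
  rw [mem_PP] at hσ
  refine Finset.sum_bij (fun π _ => σ * π) ?_ ?_ ?_ ?_
  · intro π hπ
    rw [mem_PP] at hπ ⊢
    intro r
    rw [Equiv.Perm.mul_apply, hσ, hπ]
  · intro π _ π' _ h
    exact mul_left_cancel h
  · intro π hπ
    rw [mem_PP] at hπ
    refine ⟨σ⁻¹ * π, ?_, by rw [mul_inv_cancel_left]⟩
    rw [mem_PP]
    intro r
    have h1 := hσ ((σ⁻¹ * π) r)
    rw [← Equiv.Perm.mul_apply, mul_inv_cancel_left, hπ] at h1
    exact h1.symm
  · intro π _
    rfl

theorem dty_symT (p : Fin k → Φ) (s : Φ) (A : Matrix (Fin m) (Fin m) ℂ)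
    (Y : Fin k → Matrix (Fin m) (Fin m) ℂ) :
    dty p s A * symT p Y =
      ∑ r ∈ Finset.univ.filter fun r => p r = s, symT p (Function.update Y r (A * Y r)) := by
  have h1 : ∀ π : Equiv.Perm (Fin k), ∀ r : Fin k,
      at1 r A * tens (Y ∘ π) = tens (Function.update Y (π r) (A * Y (π r)) ∘ π) := by
    intro π r
    unfold at1
    rw [tens_mul]
    congr 1
    funext q
    by_cases hq : q = r
    · subst hq
      simp
    · have hq' : π q ≠ π r := fun h => hq (π.injective h)
      simp [Function.update_of_ne hq, Function.update_of_ne hq']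
  unfold dty
  simp only [symT_eq]
  rw [Finset.sum_mul_sum, Finset.sum_comm]
  rw [Finset.sum_comm (s := Finset.univ.filter fun r => p r = s)]
  refine Finset.sum_congr rfl fun π hπ => ?_
  rw [mem_PP] at hπ
  refine Finset.sum_bij (fun r _ => π r) ?_ ?_ ?_ ?_
  · intro r hr
    rw [Finset.mem_filter] at hr ⊢
    exact ⟨Finset.mem_univ _, by rw [hπ]; exact hr.2⟩
  · intro r _ r' _ h
    exact π.injective h
  · intro r hr
    rw [Finset.mem_filter] at hr
    refine ⟨π⁻¹ r, ?_, by simp⟩
    rw [Finset.mem_filter]
    refine ⟨Finset.mem_univ _, ?_⟩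
    have := hπ (π⁻¹ r)
    rw [← this]
    simpa using hr.2
  · intro r _
    exact h1 π r

theorem main (p : Fin k → Φ) (T : Matrix (Fin k → Fin m) (Fin k → Fin m) ℂ)
    (hT : ∀ (s : Φ) (X : Matrix (Fin m) (Fin m) ℂ), Commute T (dty p s X)) (N : ℕ) :
    ∀ Y : Fin k → Matrix (Fin m) (Fin m) ℂ,
      (Finset.univ.filter fun r => Y r ≠ 1).card ≤ N → Commute T (symT p Y) := by
  classical
  induction N with
  | zero =>
    intro Y hY
    have h1 : Y = fun _ => 1 := by
      funext r
      by_contra hr
      have h2 : r ∈ Finset.univ.filter fun r => Y r ≠ 1 :=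
        Finset.mem_filter.2 ⟨Finset.mem_univ _, hr⟩
      have h3 := Finset.card_pos.2 ⟨r, h2⟩
      omega
    subst h1
    rw [symT_eq]
    refine Commute.sum_right _ _ _ fun π _ => ?_
    have h2 : (fun _ : Fin k => (1 : Matrix (Fin m) (Fin m) ℂ)) ∘ π = fun _ => 1 := rfl
    rw [h2, tens_one]
    exact Commute.one_right T
  | succ N ih =>
    intro Y hY
    by_cases hex : ∃ r, Y r ≠ 1
    swap
    · push Not at hex
      refine ih Y ?_
      have : (Finset.univ.filter fun r => Y r ≠ 1) = ∅ := by
        apply Finset.filter_eq_empty_iff.2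
        intro r _
        simpa using hex r
      rw [this]
      simp
    obtain ⟨r₀, hr₀⟩ := hex
    set Y' := Function.update Y r₀ 1 with hY'
    have hsub : (Finset.univ.filter fun r => Y' r ≠ 1) ⊆
        (Finset.univ.filter fun r => Y r ≠ 1).erase r₀ := by
      intro r hr
      rw [Finset.mem_filter] at hr
      have hne : r ≠ r₀ := by
        rintro rfl
        exact hr.2 (by rw [hY', Function.update_self])
      rw [Finset.mem_erase, Finset.mem_filter]
      refine ⟨hne, Finset.mem_univ _, ?_⟩
      have := hr.2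
      rw [hY', Function.update_of_ne hne] at this
      exact this
    have hcard : ((Finset.univ.filter fun r => Y r ≠ 1).erase r₀).card ≤ N := by
      have hmem : r₀ ∈ Finset.univ.filter fun r => Y r ≠ 1 :=
        Finset.mem_filter.2 ⟨Finset.mem_univ _, hr₀⟩
      rw [Finset.card_erase_of_mem hmem]
      omega
    have hY'c : Commute T (symT p Y') := ih Y' ((Finset.card_le_card hsub).trans hcard)
    have htot := (hT (p r₀) (Y r₀)).mul_right hY'c
    rw [dty_symT] at htot
    rw [← Finset.sum_filter_add_sum_filter_not (Finset.univ.filter fun r => p r = p r₀)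
      (fun r => r = r₀ ∨ Y r = 1)] at htot
    have h2 : Commute T (∑ r ∈ (Finset.univ.filter fun r => p r = p r₀).filter
        (fun r => ¬ (r = r₀ ∨ Y r = 1)), symT p (Function.update Y' r (Y r₀ * Y' r))) := by
      refine Commute.sum_right _ _ _ fun r hr => ?_
      rw [Finset.mem_filter, not_or] at hr
      obtain ⟨-, h3, h4⟩ := hr
      refine ih _ (le_trans (Finset.card_le_card ?_) hcard)
      intro q hq
      rw [Finset.mem_filter] at hq
      rw [Finset.mem_erase, Finset.mem_filter]
      by_cases hqr : q = r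
      · subst hqr
        exact ⟨h3, Finset.mem_univ _, h4⟩
      · have h5 := hq.2
        rw [Function.update_of_ne hqr] at h5
        have h6 := hsub (Finset.mem_filter.2 ⟨Finset.mem_univ q, h5⟩)
        rw [Finset.mem_erase, Finset.mem_filter] at h6
        exact h6
    have h3 : Commute T (∑ r ∈ (Finset.univ.filter fun r => p r = p r₀).filter
        (fun r => r = r₀ ∨ Y r = 1), symT p (Function.update Y' r (Y r₀ * Y' r))) := by
      have := htot.sub_right h2
      rwa [add_sub_cancel_right] at this
    have h4 : ∀ r ∈ (Finset.univ.filter fun r => p r = p r₀).filter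
        (fun r => r = r₀ ∨ Y r = 1), symT p (Function.update Y' r (Y r₀ * Y' r)) = symT p Y := by
      intro r hr
      rw [Finset.mem_filter, Finset.mem_filter] at hr
      obtain ⟨⟨-, hp⟩, hor⟩ := hr
      have hσ : Equiv.swap r₀ r ∈ PP p := by
        rw [mem_PP]
        intro q
        by_cases h5 : q = r₀
        · subst h5
          rw [Equiv.swap_apply_left, hp]
        · by_cases h6 : q = r
          · subst h6
            rw [Equiv.swap_apply_right, hp]
          · rw [Equiv.swap_apply_of_ne_of_ne h5 h6]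
      rw [← symT_comp p Y _ hσ]
      congr 1
      funext q
      rw [Function.comp_apply]
      by_cases h6 : q = r
      · subst h6
        rw [Function.update_self, Equiv.swap_apply_right]
        rcases hor with h7 | h7
        · rw [h7, hY', Function.update_self, mul_one]
        · by_cases h8 : q = r₀
          · rw [h8, hY', Function.update_self, mul_one]
          · rw [hY', Function.update_of_ne h8, h7, mul_one]
      · rw [Function.update_of_ne h6]
        by_cases h5 : q = r₀
        · subst h5
          rw [Equiv.swap_apply_left, hY', Function.update_self]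
          rcases hor with h7 | h7
          · exact absurd h7.symm h6
          · exact h7.symm
        · rw [Equiv.swap_apply_of_ne_of_ne h5 h6, hY', Function.update_of_ne h5]
    rw [Finset.sum_congr rfl h4, Finset.sum_const] at h3
    have hc : ((Finset.univ.filter fun r => p r = p r₀).filter
        (fun r => r = r₀ ∨ Y r = 1)).card ≠ 0 := by
      apply Finset.card_ne_zero_of_mem (a := r₀)
      rw [Finset.mem_filter, Finset.mem_filter]
      exact ⟨⟨Finset.mem_univ _, rfl⟩, Or.inl rfl⟩
    generalize ((Finset.univ.filter fun r => p r = p r₀).filter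
        (fun r => r = r₀ ∨ Y r = 1)).card = c at h3 hc
    have h5 : T * (c • symT p Y) = (c • symT p Y) * T := h3.eq
    rw [mul_smul_comm, smul_mul_assoc, ← Nat.cast_smul_eq_nsmul ℂ, ← Nat.cast_smul_eq_nsmul ℂ] at h5
    have hc' : (c : ℂ) ≠ 0 := Nat.cast_ne_zero.2 hc
    exact smul_right_injective _ hc' h5

end SWa

theorem comm_symT {k m : ℕ} {Φ : Type} [DecidableEq Φ] (p : Fin k → Φ)
    (T : Matrix (Fin k → Fin m) (Fin k → Fin m) ℂ)
    (hT : ∀ (s : Φ) (X : Matrix (Fin m) (Fin m) ℂ), T * dty p s X = dty p s X * T)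
    (Y : Fin k → Matrix (Fin m) (Fin m) ℂ) : T * symT p Y = symT p Y * T :=
  SWa.main p T hT _ Y le_rfl

end Pool.Agent.KSE
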