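import Pool.Agent.KSE.SWa

/-!
Module SWb. Schur-Weyl duality with types.

Let `G` be the group of the permutations `π` with `p (π r) = p r`. `π ↦ pmat π⁻¹` or `π ↦ pmat π` (find the
convention) is a representation of `G` on `(Fin k → Fin m) → ℂ`. A matrix `N` with
`N (i ∘ π) (i' ∘ π) = N i i'` for all `π ∈ G` is a combination of the `symT p Y` (`Y r = Matrix.single (i r) (i' r) 1`;
average over `G`), so `T` commutes with all `G`-equivariant matrices (`comm_symT`). The module
`(Fin k → Fin m) → ℂ` over the group algebra `MonoidAlgebra ℂ G` is semisimple (Maschke), and `T` is linear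
over `Module.End (MonoidAlgebra ℂ G) _`, so by `jacobson_density` (applied to a basis, see
`Pool/Agent/Helper7/Burnside.lean`) `T` is the action of an element of the group algebra.
-/

namespace Pool.Agent.KSE

open Matrix

namespace SWb

variable {k m : ℕ}

/-- the group of the permutations preserving the types -/
def Gp {Φ : Type} (p : Fin k → Φ) : Subgroup (Equiv.Perm (Fin k)) where
  carrier := {π | ∀ r, p (π r) = p r}
  mul_mem' := fun {a b} ha hb r => by
    show p (a (b r)) = p r
    rw [ha, hb]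
  one_mem' := fun _ => rfl
  inv_mem' := fun {a} ha r => by
    have h : p (a (a⁻¹ r)) = p (a⁻¹ r) := ha (a⁻¹ r)
    have h2 : a (a⁻¹ r) = r := Equiv.apply_symm_apply a r
    rw [h2] at h
    exact h.symm

theorem pmat_mulVec (π : Equiv.Perm (Fin k)) (v : (Fin k → Fin m) → ℂ) (i : Fin k → Fin m) :
    (pmat π).mulVec v i = v (i ∘ π) := by
  classical
  simp [pmat, Matrix.mulVec, dotProduct]

/-- the representation -/
noncomputable def rep {Φ : Type} (p : Fin k → Φ) (m : ℕ) :
    Representation ℂ (Gp p) ((Fin k → Fin m) → ℂ) where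
  toFun π := (pmat (m := m) (π : Equiv.Perm (Fin k))).mulVecLin
  map_one' := by
    refine LinearMap.ext fun v => ?_
    funext i
    rw [Matrix.mulVecLin_apply, pmat_mulVec]
    rfl
  map_mul' := fun a b => by
    refine LinearMap.ext fun v => ?_
    funext i
    rw [Matrix.mulVecLin_apply, pmat_mulVec]
    show _ = (pmat (m := m) (a : Equiv.Perm (Fin k))).mulVec
      ((pmat (m := m) (b : Equiv.Perm (Fin k))).mulVec v) i
    rw [pmat_mulVec, pmat_mulVec]
    rfl

theorem tens_single (i i' : Fin k → Fin m) :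
    tens (fun r => Matrix.single (i r) (i' r) (1 : ℂ)) = Matrix.single i i' 1 := by
  classical
  ext j j'
  simp only [tens, Matrix.of_apply, Matrix.single_apply]
  by_cases h : i = j ∧ i' = j'
  · obtain ⟨h1, h2⟩ := h
    subst h1
    subst h2
    simp
  · rw [if_neg h]
    have h1 : ∃ r, ¬ (i r = j r ∧ i' r = j' r) := by
      by_contra h2
      push Not at h2
      exact h ⟨funext fun r => (h2 r).1, funext fun r => (h2 r).2⟩
    obtain ⟨r, hr⟩ := h1
    exact Finset.prod_eq_zero (Finset.mem_univ r) (if_neg hr)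

theorem symT_single {Φ : Type} [DecidableEq Φ] (p : Fin k → Φ) (i i' : Fin k → Fin m) :
    symT p (fun r => Matrix.single (i r) (i' r) (1 : ℂ)) =
      ∑ π ∈ Finset.univ.filter fun π : Equiv.Perm (Fin k) => ∀ r, p (π r) = p r,
        Matrix.single (i ∘ π) (i' ∘ π) 1 := by
  refine Finset.sum_congr rfl fun π _ => ?_
  exact tens_single (i ∘ π) (i' ∘ π)

/-- averaging -/
theorem average {Φ : Type} [DecidableEq Φ] (p : Fin k → Φ)
    (N : Matrix (Fin k → Fin m) (Fin k → Fin m) ℂ)
    (hN : ∀ π : Equiv.Perm (Fin k), (∀ r, p (π r) = p r) → ∀ i i', N (i ∘ π) (i' ∘ π) = N i i') :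
    ∑ q : (Fin k → Fin m) × (Fin k → Fin m),
      N q.1 q.2 • symT p (fun r => Matrix.single (q.1 r) (q.2 r) (1 : ℂ)) =
      ((Finset.univ.filter fun π : Equiv.Perm (Fin k) => ∀ r, p (π r) = p r).card : ℂ) • N := by
  classical
  simp only [symT_single, Finset.smul_sum]
  rw [Finset.sum_comm]
  have h2 : ∀ π ∈ Finset.univ.filter fun π : Equiv.Perm (Fin k) => ∀ r, p (π r) = p r,
      ∑ q : (Fin k → Fin m) × (Fin k → Fin m),
        N q.1 q.2 • Matrix.single (q.1 ∘ π) (q.2 ∘ π) (1 : ℂ) = N := by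
    intro π hπ
    have hπ' := (Finset.mem_filter.1 hπ).2
    let e : ((Fin k → Fin m) × (Fin k → Fin m)) ≃ ((Fin k → Fin m) × (Fin k → Fin m)) :=
      (Equiv.arrowCongr π.symm (Equiv.refl _)).prodCongr (Equiv.arrowCongr π.symm (Equiv.refl _))
    have he : ∀ q, e q = (q.1 ∘ π, q.2 ∘ π) := fun q => rfl
    let g : ((Fin k → Fin m) × (Fin k → Fin m)) → Matrix (Fin k → Fin m) (Fin k → Fin m) ℂ :=
      fun q' => N q'.1 q'.2 • Matrix.single q'.1 q'.2 (1 : ℂ)
    have h3 : ∑ q : (Fin k → Fin m) × (Fin k → Fin m),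
        N q.1 q.2 • Matrix.single (q.1 ∘ π) (q.2 ∘ π) (1 : ℂ) = ∑ q, g (e q) := by
      refine Finset.sum_congr rfl fun q _ => ?_
      rw [he]
      show _ = N (q.1 ∘ π) (q.2 ∘ π) • Matrix.single (q.1 ∘ π) (q.2 ∘ π) (1 : ℂ)
      rw [hN π hπ']
    have h4 : ∑ q, g (e q) = ∑ q, g q := Equiv.sum_comp e g
    rw [h3, h4, Fintype.sum_prod_type]
    conv_rhs => rw [Matrix.matrix_eq_sum_single N]
    refine Finset.sum_congr rfl fun i _ => Finset.sum_congr rfl fun j _ => ?_
    show N i j • Matrix.single i j (1 : ℂ) = Matrix.single i j (N i j)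
    rw [Matrix.smul_single, smul_eq_mul, mul_one]
  rw [Finset.sum_congr rfl h2, Finset.sum_const, ← Nat.cast_smul_eq_nsmul ℂ]

theorem comm_equiv {Φ : Type} [DecidableEq Φ] (p : Fin k → Φ)
    (T : Matrix (Fin k → Fin m) (Fin k → Fin m) ℂ)
    (hT : ∀ (s : Φ) (X : Matrix (Fin m) (Fin m) ℂ), T * dty p s X = dty p s X * T)
    (N : Matrix (Fin k → Fin m) (Fin k → Fin m) ℂ)
    (hN : ∀ π : Equiv.Perm (Fin k), (∀ r, p (π r) = p r) → ∀ i i', N (i ∘ π) (i' ∘ π) = N i i') :
    T * N = N * T := by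
  classical
  have hc : ((Finset.univ.filter fun π : Equiv.Perm (Fin k) => ∀ r, p (π r) = p r).card : ℂ) ≠ 0 := by
    have h1 : 0 < (Finset.univ.filter fun π : Equiv.Perm (Fin k) => ∀ r, p (π r) = p r).card :=
      Finset.card_pos.2 ⟨1, Finset.mem_filter.2 ⟨Finset.mem_univ _, fun _ => rfl⟩⟩
    exact_mod_cast h1.ne'
  have h1 := average p N hN
  have h2 : T * (((Finset.univ.filter fun π : Equiv.Perm (Fin k) => ∀ r, p (π r) = p r).card : ℂ) •
      N) = (((Finset.univ.filter fun π : Equiv.Perm (Fin k) => ∀ r, p (π r) = p r).card : ℂ) •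
      N) * T := by
    rw [← h1, Finset.mul_sum, Finset.sum_mul]
    refine Finset.sum_congr rfl fun q _ => ?_
    rw [Matrix.mul_smul, Matrix.smul_mul, comm_symT p T hT]
  rw [Matrix.mul_smul, Matrix.smul_mul] at h2
  exact smul_right_injective _ hc h2

end SWb

open SWb in
theorem schur_weyl {k m : ℕ} {Φ : Type} [DecidableEq Φ] (p : Fin k → Φ)
    (T : Matrix (Fin k → Fin m) (Fin k → Fin m) ℂ)
    (hT : ∀ (s : Φ) (X : Matrix (Fin m) (Fin m) ℂ), T * dty p s X = dty p s X * T) :
    T ∈ Submodule.span ℂ {N | ∃ π : Equiv.Perm (Fin k), (∀ r, p (π r) = p r) ∧ N = pmat π} := by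
  classical
  set ρ := rep p m with hρ
  have : NeZero (Nat.card (Gp p) : ℂ) := ⟨by
    have h1 : Nat.card (Gp p) ≠ 0 := Nat.card_pos.ne'
    exact_mod_cast h1⟩
  have hρa : ∀ (g : Gp p) (v : (Fin k → Fin m) → ℂ) (i : Fin k → Fin m),
      ρ g v i = v (i ∘ (g : Equiv.Perm (Fin k))) := fun g v i => pmat_mulVec _ v i
  have hequiv : ∀ L : ((Fin k → Fin m) → ℂ) →ₗ[ℂ] ((Fin k → Fin m) → ℂ),
      (∀ (g : Gp p) v, L (ρ g v) = ρ g (L v)) → ∀ v, T.mulVec (L v) = L (T.mulVec v) := by
    intro L hL v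
    have h1 := comm_equiv p T hT (LinearMap.toMatrix' L) (by
      intro π hπ i i'
      rw [LinearMap.toMatrix'_apply, LinearMap.toMatrix'_apply]
      have h2 : ρ ⟨π, hπ⟩ (Pi.single (i' ∘ π) (1 : ℂ)) = Pi.single i' 1 := by
        funext j
        rw [hρa]
        by_cases h : j = i'
        · subst h
          simp
        · have h' : j ∘ π ≠ i' ∘ π := fun h3 => h (by
            funext x
            have h4 := congrFun h3 (π.symm x)
            simpa using h4)
          rw [Pi.single_eq_of_ne h, Pi.single_eq_of_ne h']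
      have h3 := congrFun (hL ⟨π, hπ⟩ (Pi.single (i' ∘ π) (1 : ℂ))) i
      rw [h2, hρa] at h3
      exact h3.symm)
    have h2 : ∀ w, (LinearMap.toMatrix' L).mulVec w = L w := fun w =>
      LinearMap.toMatrix'_mulVec L w
    rw [← h2, ← h2, Matrix.mulVec_mulVec, Matrix.mulVec_mulVec, h1]
  -- `T` is linear over the commutant
  let f : Module.End (Module.End (MonoidAlgebra ℂ (Gp p)) ρ.asModule) ρ.asModule :=
    { toFun := fun x => ρ.asModuleEquiv.symm (T.mulVec (ρ.asModuleEquiv x))
      map_add' := fun x y => by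
        rw [map_add, Matrix.mulVec_add, map_add]
      map_smul' := fun φ x => by
        show ρ.asModuleEquiv.symm (T.mulVec (ρ.asModuleEquiv (φ x))) =
          φ (ρ.asModuleEquiv.symm (T.mulVec (ρ.asModuleEquiv x)))
        have h1 := hequiv (ρ.asModuleEquiv.toLinearMap ∘ₗ (φ.restrictScalars ℂ) ∘ₗ
          ρ.asModuleEquiv.symm.toLinearMap) (by
            intro g v
            show ρ.asModuleEquiv (φ (ρ.asModuleEquiv.symm (ρ g v))) =
              ρ g (ρ.asModuleEquiv (φ (ρ.asModuleEquiv.symm v)))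
            rw [Representation.asModuleEquiv_symm_map_rho, map_smul,
              Representation.asModuleEquiv_map_smul, Representation.asAlgebraHom_of])
          (ρ.asModuleEquiv x)
        have h2 : T.mulVec (ρ.asModuleEquiv (φ x)) =
            ρ.asModuleEquiv (φ (ρ.asModuleEquiv.symm (T.mulVec (ρ.asModuleEquiv x)))) := by
          have h3 : (ρ.asModuleEquiv.toLinearMap ∘ₗ (φ.restrictScalars ℂ) ∘ₗ
            ρ.asModuleEquiv.symm.toLinearMap) (ρ.asModuleEquiv x) = ρ.asModuleEquiv (φ x) := by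
            show ρ.asModuleEquiv (φ (ρ.asModuleEquiv.symm (ρ.asModuleEquiv x))) = _
            rw [LinearEquiv.symm_apply_apply]
          rw [h3] at h1
          exact h1
        rw [h2, LinearEquiv.symm_apply_apply] }
  obtain ⟨r, hr⟩ := jacobson_density (R := MonoidAlgebra ℂ (Gp p)) (M := ρ.asModule) f
    (Finset.univ.image fun i => ρ.asModuleEquiv.symm (Pi.single i 1))
  have hT2 : T = LinearMap.toMatrix' (ρ.asAlgebraHom r) := by
    have h1 : ∀ i, T.mulVec (Pi.single i 1) = ρ.asAlgebraHom r (Pi.single i 1) := by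
      intro i
      have h2 := hr (ρ.asModuleEquiv.symm (Pi.single i 1))
        (Finset.mem_image_of_mem _ (Finset.mem_univ i))
      have h3 : ρ.asModuleEquiv.symm (T.mulVec (ρ.asModuleEquiv (ρ.asModuleEquiv.symm
        (Pi.single i 1)))) = r • ρ.asModuleEquiv.symm (Pi.single i 1) := h2
      rw [LinearEquiv.apply_symm_apply] at h3
      have h4 := congrArg ρ.asModuleEquiv h3
      rw [LinearEquiv.apply_symm_apply, Representation.asModuleEquiv_map_smul,
        LinearEquiv.apply_symm_apply] at h4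
      exact h4
    ext i j
    rw [LinearMap.toMatrix'_apply, ← h1 j]
    simp
  have hspan : ∀ r : MonoidAlgebra ℂ (Gp p), LinearMap.toMatrix' (ρ.asAlgebraHom r) ∈
      Submodule.span ℂ {N | ∃ π : Equiv.Perm (Fin k), (∀ r, p (π r) = p r) ∧ N = pmat π} := by
    intro r
    induction r using MonoidAlgebra.induction_on with
    | of g =>
      rw [Representation.asAlgebraHom_of]
      refine Submodule.subset_span ⟨g, g.2, ?_⟩
      show LinearMap.toMatrix' (Matrix.toLin' (pmat (m := m) (g : Equiv.Perm (Fin k)))) = _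
      rw [LinearMap.toMatrix'_toLin']
    | add a b ha hb =>
      rw [map_add, map_add]
      exact Submodule.add_mem _ ha hb
    | smul c a ha =>
      rw [map_smul, map_smul]
      exact Submodule.smul_mem _ _ ha
  rw [hT2]
  exact hspan r

end Pool.Agent.KSE
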