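import Pool.Agent.Helper8.D.Types
import Pool.Agent.KSE.Odd

/-!
Abelian varieties of Kuga-Satake type with real or complex multiplication.
-/

open scoped ComplexConjugate

namespace Pool.Agent.GPC

open NumberField

/-- Let `h` be a Hermitian (or, if `K` is totally real, symmetric) matrix of size `m` over the
number field `K`, and `q` the quadratic form `Tr (∑ h_ab x_a c(x_b))` on `T = K^m`. The space `T ⊗ ℂ`
is the sum of the eigenspaces `T_σ = ℂ^m` of the embeddings `σ : K → ℂ`, and its real elements are the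
families `y = (y_σ)` with `y_{conj σ} = conj y_σ`. The vector `x` of the eigenspace of `σ₀` is the period
of a polarized Hodge structure of K3 type on `T`: `q(x, conj x)` is not zero and `q` is definite, of the
opposite sign, on the vectors of `T ⊗ ℝ` orthogonal to `x`. -/
def IsK3Type {K : Type} [Field K] [NumberField K] {m : ℕ} (h : Matrix (Fin m) (Fin m) K)
    (σ₀ : K →+* ℂ) (x : Fin m → ℂ) : Prop :=
  ∃ s : ℝ, s * (∑ a, ∑ b, x a * σ₀ (h a b) * conj (x b)).re < 0 ∧
    ∀ y : (K →+* ℂ) → Fin m → ℂ,
      (∀ σ a, y (ComplexEmbedding.conjugate σ) a = conj (y σ a)) → y ≠ 0 →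
      ∑ a, ∑ b, x a * σ₀ (h a b) * y (ComplexEmbedding.conjugate σ₀) b = 0 →
        0 < s * (∑ σ : K →+* ℂ, ∑ a, ∑ b, y σ a * σ (h a b) * conj (y σ b)).re

/-- A Kuga-Satake structure with multiplication by the field `K` on `A`, for `K` totally real or a CM
field with complex conjugation `c`: an action on `H_1(A)` of the Clifford algebra of the rational
quadratic space `T = K^m`, `q(x, y) = Tr (∑ h_ab x_a c(y_b))`. Here `e σ a` is the operator of the
component in the eigenspace `T_σ` of the `a`-th basis vector of `T`, so the operator of the vector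
`(x_1, ..., x_m)` of `T` is `∑ σ a, σ(x_a) e σ a`. The operators are linear, the vectors of `T` respect
the Betti structure (`betti`), the Clifford relations hold (`clifford`, `orthogonal`), and every
eigenspace `T_σ` has a basis which acts by operators respecting the de Rham structure (`deRham`). The
Hodge structure on `H_1(A)` is the one given by a polarized Hodge structure of K3 type on `T` on which
`K` acts by endomorphisms: there is a vector `x` of an eigenspace `T_{σ₀}` which is the period of
such a Hodge structure, and the operator of `x` maps `H_1(A, ℂ)` to `F^0` and `F^0` to zero (`hodge`).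
The endomorphisms of `A` (tensor `ℚ`) are the operators of `H_1(A, ℚ)` which commute with the products
of the vectors of `T_σ` and `T_{conj σ}`, i.e. with the Lie algebra of the `K`-linear skew
endomorphisms of `T` (`endo`; `K` is the full algebra of endomorphisms of the Hodge structure `T`). -/
structure AbVar.KugaSatakeMul (A : AbVar) (K : Type) [Field K] [NumberField K] (c : K →+* K)
    (m : ℕ) where
  h : Matrix (Fin m) (Fin m) K
  e : (K →+* ℂ) → Fin m → A.H1 → A.H1
  conjugation : ∀ (σ : K →+* ℂ) (x : K), ComplexEmbedding.conjugate σ x = σ (c x)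
  hermitian : ∀ a b, c (h a b) = h b a
  linear : ∀ σ a, IsLinearMap ℂ (e σ a)
  betti : ∀ a (x : K) v, A.IsBetti v → A.IsBetti (∑ σ : K →+* ℂ, σ x • e σ a v)
  clifford : ∀ σ a b v, e σ a (e (ComplexEmbedding.conjugate σ) b v) +
    e (ComplexEmbedding.conjugate σ) b (e σ a v) = (2 * σ (h a b)) • v
  orthogonal : ∀ σ τ : K →+* ℂ, τ ≠ ComplexEmbedding.conjugate σ → ∀ a b v,
    e σ a (e τ b v) + e τ b (e σ a v) = 0
  deRham : ∀ σ : K →+* ℂ, ∃ g : Matrix (Fin m) (Fin m) ℂ, IsUnit g ∧
    ∀ b v, A.IsDeRham v → A.IsDeRham (∑ a, g a b • e σ a v)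
  hodge : ∃ (σ₀ : K →+* ℂ) (x : Fin m → ℂ), IsK3Type h σ₀ x ∧
    (∀ v, A.IsFil (∑ a, x a • e σ₀ a v)) ∧ ∀ v, A.IsFil v → ∑ a, x a • e σ₀ a v = 0
  endo : ∀ f : A.H1 → A.H1, A.IsEnd f ↔ IsLinearMap ℂ f ∧
    (∀ v, A.IsBetti v → A.IsBetti (f v)) ∧
    ∀ σ a b v, f (e σ a (e (ComplexEmbedding.conjugate σ) b v)) =
      e σ a (e (ComplexEmbedding.conjugate σ) b (f v))

end Pool.Agent.GPC
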