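import Pool.Agent.KSE.Ts
import Pool.Agent.KSE.Types
import Pool.Agent.Helper8.B.Defs

/-!
Module SigE. Local signatures from a Hodge structure of K3 type.

`pr h σ u v = ∑ a b, u a * σ (h a b) * v b`; if `H = h.map (cj σ)` then `hf H v v = pr h σ v (star v)` and
`pr h σ₀ x (star v) = conj (hf (h.map (cj σ₀)) x v)` (`hconj`, `hh`). Let `s` be the number of `IsK3Type`
(`s ≠ 0`; the sign of `s` decides the alternatives).
`k3_nd`: otherwise there is `w : Fin m → K`, `w ≠ 0`, with `∑ b, h a b * c (w b) = 0`; take `y σ = σ ∘ w`.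
`k3_def`: for `v ≠ 0` take `y σ = v`, `y (cj σ) = star v`, zero at the other places (if `cj σ = σ` write `v`
as the sum of a real vector and `I` times a real vector; `hf` is real symmetric).
`k3_lor`: the negative vector is `x`, and for `v` orthogonal to `x` take `y σ₀ = v`, `y (cj σ₀) = star v`.
-/

open scoped ComplexConjugate

namespace Pool.Agent.KSE

open Module Matrix NumberField Pool.Agent.Helper7 Pool.Agent.KS Pool.Agent.Ball
  Pool.Agent.Helper28.GPC Pool.Agent.GPC

variable {K : Type} [Field K] [NumberField K] {c : K →+* K} {m : ℕ}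
  {h : Matrix (Fin m) (Fin m) K} (hconj : ∀ (σ : K →+* ℂ) (x : K), cj σ x = σ (c x))
  (hh : ∀ a b, c (h a b) = h b a) {σ₀ : K →+* ℂ} {x : Fin m → ℂ} (hx : IsK3Type h σ₀ x)

/-- the Hermitian form at a place -/
noncomputable def SigE.qf (h : Matrix (Fin m) (Fin m) K) (σ : K →+* ℂ) (v : Fin m → ℂ) : ℂ :=
  ∑ a, ∑ b, v a * σ (h a b) * conj (v b)

lemma SigE.cj_apply (σ : K →+* ℂ) (z : K) : cj σ z = conj (σ z) := rfl

lemma SigE.qf_conj (σ : K →+* ℂ) (v : Fin m → ℂ) :
    SigE.qf h (cj σ) (star v) = conj (SigE.qf h σ v) := by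
  unfold SigE.qf
  rw [map_sum]
  refine Finset.sum_congr rfl fun a _ => ?_
  rw [map_sum]
  refine Finset.sum_congr rfl fun b _ => ?_
  rw [map_mul, map_mul, SigE.cj_apply]
  rfl

lemma SigE.hf_qf (σ : K →+* ℂ) (v : Fin m → ℂ) :
    hf (h.map (cj σ)) v v = conj (SigE.qf h σ v) := by
  unfold SigE.qf hf
  rw [map_sum, dotProduct]
  refine Finset.sum_congr rfl fun a _ => ?_
  rw [map_sum, Matrix.mulVec, dotProduct, Finset.mul_sum]
  refine Finset.sum_congr rfl fun b _ => ?_
  rw [map_mul, map_mul, Complex.conj_conj, Matrix.map_apply, SigE.cj_apply, ← mul_assoc]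
  rfl

lemma SigE.hf_re (σ : K →+* ℂ) (v : Fin m → ℂ) :
    (hf (h.map (cj σ)) v v).re = (SigE.qf h σ v).re := by
  rw [SigE.hf_qf, Complex.conj_re]

lemma SigE.hf_cross (σ : K →+* ℂ) (u v : Fin m → ℂ) :
    hf (h.map (cj σ)) u v = conj (∑ a, ∑ b, u a * σ (h a b) * (star v) b) := by
  unfold hf
  rw [map_sum, dotProduct]
  refine Finset.sum_congr rfl fun a _ => ?_
  rw [map_sum, Matrix.mulVec, dotProduct, Finset.mul_sum]
  refine Finset.sum_congr rfl fun b _ => ?_
  have e : conj ((star v) b) = v b := by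
    rw [Pi.star_apply]
    exact star_star (v b)
  rw [map_mul, map_mul, e, Matrix.map_apply, SigE.cj_apply, ← mul_assoc]
  rfl

include hconj hh in
lemma SigE.herm (σ : K →+* ℂ) : (h.map (cj σ)).IsHermitian := by
  ext a b
  rw [Matrix.conjTranspose_apply, Matrix.map_apply, Matrix.map_apply, hconj σ (h a b), hh,
    SigE.cj_apply]
  exact star_star _

/-- the positivity of `IsK3Type`, restated -/
def SigE.Pos (h : Matrix (Fin m) (Fin m) K) (σ₀ : K →+* ℂ) (x : Fin m → ℂ) (s : ℝ) : Prop :=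
  ∀ y : (K →+* ℂ) → Fin m → ℂ, (∀ σ a, y (cj σ) a = conj (y σ a)) → y ≠ 0 →
    ∑ a, ∑ b, x a * σ₀ (h a b) * y (cj σ₀) b = 0 → 0 < s * (∑ σ : K →+* ℂ, SigE.qf h σ (y σ)).re

/-- a complex place -/
lemma SigE.pos_cpx {s : ℝ} (H : SigE.Pos h σ₀ x s) (σ : K →+* ℂ) (hσ : cj σ ≠ σ)
    (v : Fin m → ℂ) (hv : v ≠ 0)
    (hc : (cj σ₀ = σ → ∑ a, ∑ b, x a * σ₀ (h a b) * v b = 0) ∧
      (cj σ₀ = cj σ → ∑ a, ∑ b, x a * σ₀ (h a b) * (star v) b = 0)) :
    0 < s * (SigE.qf h σ v).re := by
  classical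
  let y : (K →+* ℂ) → Fin m → ℂ := fun τ => if τ = σ then v else if τ = cj σ then star v else 0
  have y1 : y σ = v := if_pos rfl
  have y2 : y (cj σ) = star v := by
    show (if cj σ = σ then v else if cj σ = cj σ then star v else 0) = star v
    rw [if_neg hσ, if_pos rfl]
  have y3 : ∀ τ, τ ≠ σ → τ ≠ cj σ → y τ = 0 := by
    intro τ h1 h2
    show (if τ = σ then v else if τ = cj σ then star v else 0) = 0
    rw [if_neg h1, if_neg h2]
  have hreal : ∀ τ a, y (cj τ) a = conj (y τ a) := by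
    intro τ a
    by_cases h1 : τ = σ
    · rw [h1, y1, y2]; rfl
    by_cases h2 : τ = cj σ
    · rw [h2, cj_cj, y1, y2]
      exact (star_star (v a)).symm
    · have h3 : cj τ ≠ σ := fun h => h2 (by rw [← h, cj_cj])
      have h4 : cj τ ≠ cj σ := fun h => h1 (by rw [← cj_cj τ, h, cj_cj])
      rw [y3 τ h1 h2, y3 _ h3 h4]
      simp
  have hy0 : y ≠ 0 := by
    intro h0
    apply hv
    rw [← y1, h0]
    rfl
  have hcond : ∑ a, ∑ b, x a * σ₀ (h a b) * y (cj σ₀) b = 0 := by
    by_cases h1 : cj σ₀ = σ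
    · rw [h1, y1]; exact hc.1 h1
    by_cases h2 : cj σ₀ = cj σ
    · rw [h2, y2]; exact hc.2 h2
    · rw [y3 _ h1 h2]
      simp
  have hsum : ∑ τ : K →+* ℂ, SigE.qf h τ (y τ) = SigE.qf h σ v + conj (SigE.qf h σ v) := by
    rw [Finset.sum_eq_add σ (cj σ) (Ne.symm hσ) (fun τ _ hτ => ?_)
      (fun hn => absurd (Finset.mem_univ _) hn) (fun hn => absurd (Finset.mem_univ _) hn), y1, y2,
      SigE.qf_conj]
    rw [y3 τ hτ.1 hτ.2]
    unfold SigE.qf
    simp
  have h5 := H y hreal hy0 hcond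
  rw [hsum, Complex.add_re, Complex.conj_re] at h5
  nlinarith

/-- a real place -/
lemma SigE.pos_real {s : ℝ} (H : SigE.Pos h σ₀ x s) (σ : K →+* ℂ) (hσ : cj σ = σ)
    (v : Fin m → ℂ) (hv : v ≠ 0) (hr : ∀ a, conj (v a) = v a) (hc : cj σ₀ ≠ σ) :
    0 < s * (SigE.qf h σ v).re := by
  classical
  let y : (K →+* ℂ) → Fin m → ℂ := fun τ => if τ = σ then v else 0
  have y1 : y σ = v := if_pos rfl
  have y3 : ∀ τ, τ ≠ σ → y τ = 0 := by
    intro τ h1
    show (if τ = σ then v else 0) = 0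
    rw [if_neg h1]
  have hreal : ∀ τ a, y (cj τ) a = conj (y τ a) := by
    intro τ a
    by_cases h1 : τ = σ
    · rw [h1, hσ, y1, hr]
    · have h4 : cj τ ≠ σ := fun h => h1 (by rw [← cj_cj τ, h, hσ])
      rw [y3 τ h1, y3 _ h4]
      simp
  have hy0 : y ≠ 0 := by
    intro h0
    apply hv
    rw [← y1, h0]
    rfl
  have hcond : ∑ a, ∑ b, x a * σ₀ (h a b) * y (cj σ₀) b = 0 := by
    rw [y3 _ hc]
    simp
  have hsum : ∑ τ : K →+* ℂ, SigE.qf h τ (y τ) = SigE.qf h σ v := by
    rw [Finset.sum_eq_single σ (fun τ _ hτ => ?_) (fun hn => absurd (Finset.mem_univ _) hn), y1]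
    rw [y3 τ hτ]
    unfold SigE.qf
    simp
  have h5 := H y hreal hy0 hcond
  rw [hsum] at h5
  exact h5

/-- at a real place the form is the sum of the forms of the real and imaginary part -/
lemma SigE.qf_split (σ : K →+* ℂ) (hσ : cj σ = σ) (v : Fin m → ℂ) :
    (SigE.qf h σ v).re = (SigE.qf h σ (fun a => ((v a).re : ℂ))).re +
      (SigE.qf h σ (fun a => ((v a).im : ℂ))).re := by
  have hre : ∀ a b, (σ (h a b)).im = 0 := by
    intro a b
    have h1 : conj (σ (h a b)) = σ (h a b) := by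
      rw [← SigE.cj_apply, hσ]
    exact Complex.conj_eq_iff_im.mp h1
  have key : ∀ a b, (v a * σ (h a b) * conj (v b)).re =
      (((v a).re : ℂ) * σ (h a b) * conj ((v b).re : ℂ)).re +
      (((v a).im : ℂ) * σ (h a b) * conj ((v b).im : ℂ)).re := by
    intro a b
    simp only [Complex.mul_re, Complex.mul_im, Complex.conj_re, Complex.conj_im, hre,
      Complex.ofReal_re, Complex.ofReal_im]
    ring
  unfold SigE.qf
  simp only [Complex.re_sum, key, Finset.sum_add_distrib]

include hconj hh hx in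
theorem k3_nd : h.det ≠ 0 := by
  intro hdet
  obtain ⟨s, -, H⟩ := hx
  obtain ⟨w, hw0, hw⟩ := Matrix.exists_mulVec_eq_zero_iff.mpr hdet
  have hcc : ∀ z, c (c z) = z := by
    intro z
    apply σ₀.injective
    rw [← hconj, ← cj_cj σ₀, ← hconj, cj_cj]
  have hsum0 : ∀ a, ∑ b, h a b * w b = 0 := fun a => congrFun hw a
  have e : ∀ (σ : K →+* ℂ) a, ∑ b, σ (h a b) * (cj σ (c (w b))) = 0 := by
    intro σ a
    rw [← map_zero σ, ← hsum0 a, map_sum]
    refine Finset.sum_congr rfl fun b _ => ?_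
    rw [hconj, hcc, map_mul]
  have h1 := H (fun σ b => σ (c (w b))) (fun σ a => rfl) ?_ ?_
  · have h2 : ∑ σ : K →+* ℂ, ∑ a, ∑ b, σ (c (w a)) * σ (h a b) * conj (σ (c (w b))) = 0 := by
      refine Finset.sum_eq_zero fun σ _ => Finset.sum_eq_zero fun a _ => ?_
      have e2 : ∑ b, σ (c (w a)) * σ (h a b) * conj (σ (c (w b))) =
          σ (c (w a)) * ∑ b, σ (h a b) * (cj σ (c (w b))) := by
        rw [Finset.mul_sum]
        refine Finset.sum_congr rfl fun b _ => ?_
        rw [mul_assoc]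
        rfl
      rw [e2, e, mul_zero]
    rw [h2] at h1
    simp at h1
  · intro h0
    apply hw0
    funext b
    have h3 := congrFun (congrFun h0 σ₀) b
    have h4 : σ₀ (c (w b)) = 0 := h3
    rw [map_eq_zero, map_eq_zero] at h4
    exact h4
  · refine Finset.sum_eq_zero fun a _ => ?_
    have e2 : ∑ b, x a * σ₀ (h a b) * (cj σ₀ (c (w b))) =
        x a * ∑ b, σ₀ (h a b) * (cj σ₀ (c (w b))) := by
      rw [Finset.mul_sum]
      refine Finset.sum_congr rfl fun b _ => ?_
      rw [mul_assoc]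
    exact e2.trans (by rw [e, mul_zero])

include hconj hh hx in
theorem k3_def (σ : K →+* ℂ) (h1 : σ ≠ σ₀) (h2 : σ ≠ cj σ₀) : Definite (h.map (cj σ)) := by
  obtain ⟨s, hs, H⟩ := hx
  have H' : SigE.Pos h σ₀ x s := H
  have hs0 : s ≠ 0 := by
    rintro rfl
    rw [zero_mul] at hs
    exact lt_irrefl _ hs
  have h3 : cj σ₀ ≠ σ := Ne.symm h2
  have h4 : cj σ₀ ≠ cj σ := fun h => h1 (by rw [← cj_cj σ, ← h, cj_cj])
  have key : ∀ v : Fin m → ℂ, v ≠ 0 → 0 < s * (SigE.qf h σ v).re := by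
    intro v hv
    by_cases hσ : cj σ = σ
    · rw [SigE.qf_split σ hσ v, mul_add]
      have hre0 : ∀ w : Fin m → ℂ, (∀ a, conj (w a) = w a) → 0 ≤ s * (SigE.qf h σ w).re := by
        intro w hw
        by_cases hw0 : w = 0
        · rw [hw0]
          unfold SigE.qf
          simp
        · exact (SigE.pos_real H' σ hσ w hw0 hw h3).le
      have r1 : ∀ a, conj (((v a).re : ℂ)) = ((v a).re : ℂ) := fun a => Complex.conj_ofReal _
      have r2 : ∀ a, conj (((v a).im : ℂ)) = ((v a).im : ℂ) := fun a => Complex.conj_ofReal _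
      by_cases hv1 : (fun a => ((v a).re : ℂ)) = 0
      · have hv2 : (fun a => ((v a).im : ℂ)) ≠ 0 := by
          intro hv2
          apply hv
          funext a
          apply Complex.ext
          · have := congrFun hv1 a
            simpa using this
          · have := congrFun hv2 a
            simpa using this
        have p1 := hre0 _ r1
        have p2 := SigE.pos_real H' σ hσ _ hv2 r2 h3
        linarith
      · have p1 := SigE.pos_real H' σ hσ _ hv1 r1 h3
        have p2 := hre0 _ r2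
        linarith
    · exact SigE.pos_cpx H' σ hσ v hv ⟨fun h => absurd h h3, fun h => absurd h h4⟩
  refine ⟨SigE.herm hconj hh σ, ?_⟩
  rcases lt_or_gt_of_ne hs0 with hneg | hpos
  · right
    intro v hv
    rw [SigE.hf_re]
    have := key v hv
    by_contra hcon
    push Not at hcon
    nlinarith
  · left
    intro v hv
    rw [SigE.hf_re]
    have := key v hv
    by_contra hcon
    push Not at hcon
    nlinarith

include hconj hh hx in
theorem k3_lor (hσ : cj σ₀ ≠ σ₀) :
    Lorentz (h.map (cj σ₀)) ∨ Lorentz (-(h.map (cj σ₀))) := by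
  obtain ⟨s, hs, H⟩ := hx
  have H' : SigE.Pos h σ₀ x s := H
  have hs' : s * (SigE.qf h σ₀ x).re < 0 := hs
  have hs0 : s ≠ 0 := by
    rintro rfl
    rw [zero_mul] at hs
    exact lt_irrefl _ hs
  have key : ∀ v : Fin m → ℂ, hf (h.map (cj σ₀)) x v = 0 → v ≠ 0 →
      0 < s * (SigE.qf h σ₀ v).re := by
    intro v hxv hv
    refine SigE.pos_cpx H' σ₀ hσ v hv ⟨fun h => absurd h hσ, fun _ => ?_⟩
    rw [SigE.hf_cross] at hxv
    exact (map_eq_zero _).mp hxv
  have hneg : ∀ u v : Fin m → ℂ, hf (-(h.map (cj σ₀))) u v = -(hf (h.map (cj σ₀)) u v) := by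
    intro u v
    unfold hf
    rw [Matrix.neg_mulVec, dotProduct_neg]
  rcases lt_or_gt_of_ne hs0 with hn | hp
  · right
    refine ⟨(SigE.herm hconj hh σ₀).neg, x, ?_, ?_⟩
    · rw [hneg, Complex.neg_re, SigE.hf_re]
      by_contra hcon
      push Not at hcon
      nlinarith
    · intro v h1 hv
      rw [hneg, neg_eq_zero] at h1
      rw [hneg, Complex.neg_re, SigE.hf_re]
      have := key v h1 hv
      by_contra hcon
      push Not at hcon
      nlinarith
  · left
    refine ⟨SigE.herm hconj hh σ₀, x, ?_, ?_⟩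
    · rw [SigE.hf_re]
      by_contra hcon
      push Not at hcon
      nlinarith
    · intro v h1 hv
      rw [SigE.hf_re]
      have := key v h1 hv
      by_contra hcon
      push Not at hcon
      nlinarith

include hx in
theorem k3_ne : pr h σ₀ x (star x) ≠ 0 := by
  obtain ⟨s, hs, -⟩ := hx
  intro h0
  have e : ∑ a, ∑ b, x a * σ₀ (h a b) * conj (x b) = pr h σ₀ x (star x) := by
    rw [pr, dotProduct]
    refine Finset.sum_congr rfl fun a _ => ?_
    rw [Matrix.mulVec, dotProduct, Finset.mul_sum]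
    refine Finset.sum_congr rfl fun b _ => ?_
    rw [Matrix.map_apply, mul_assoc]
    rfl
  rw [e, h0, Complex.zero_re, mul_zero] at hs
  exact lt_irrefl _ hs

end Pool.Agent.KSE
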