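import Pool.Agent.KSE.Ts
import Pool.Agent.KSP.TenA

/-!
Module TenE. From forms on `T` to forms on `H_1`. Adapt `Pool/Agent/KSP/TenA.lean` (use its `TenA.ee`,
`TenA.pairForm`, `TenA.act_zero`).

For `u, v : κ → ℂ` let `p u v : (K →+* ℂ) → Fin m → ℂ` be
`p u v σ a = ∑ b, ((h.map σ)⁻¹) b a * P.ψ (ts t (cj σ) b u) v`, so that
`pr h σ (p u v σ) y = P.ψ (tau (ts t (cj σ)) y u) v`. Put `α = pairForm F p` (with `w () 0` for `w : HW _ _`).
Rational: for `u, v ∈ P.Q`, `P.ψ (ts t (cj σ) b u) v = ∑ d, cj σ (dbas K d) * (ϖ * q b d) = ϖ * σ (c (w b))` with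
`w b = ∑ d, q b d • dbas K d`, so `p u v σ a = ϖ * σ (z a)` with `z a = ∑ b, h⁻¹ b a * c (w b)`.
Algebraic: with `g σ` as in `S.alg σ` the operators `f σ b = ∑ a, g σ a b • ts t σ a` have algebraic entries,
their Clifford pairings `C σ = (g σ)ᵀ * h.map σ * g (cj σ)` are algebraic and invertible, and
`tau (ts t σ) (p u v σ) = ∑ b b', (C σ)⁻¹ b' b * ψ (f (cj σ) b' u) v • f σ b` (check the indices).
Invariance: `pr h σ (p (B u) v σ + p u (B v) σ) y = ψ (y (B u)) v + ψ (y u) (B v) = ψ (y B u - B y u) v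
= - ψ ((M (cj σ) y) u) v = - pr h σ (p u v σ) (M (cj σ) y) = pr h σ (M σ (p u v σ)) y` (`skewM_iff`), so
`p (B u) v σ + p u (B v) σ = M σ *ᵥ p u v σ` (`pr_nd`). The vectors `p u v` span: if `∑ σ, pr h σ (p u v σ) (x (cj σ)) = 0` for
all `u, v`, then `ψ ((∑ σ, tau (ts t σ) (x σ)) u) v = 0`, so `∑ σ, tau (ts t σ) (x σ) = 0` and `x = 0` (anticommutator
with `tau (ts t (cj σ)) y`: `tau_pair`, `tau_anti`, `pr_nd`).
-/

namespace Pool.Agent.KSE

open Module Matrix NumberField Pool.Agent.Helper7 Pool.Agent.KS Pool.Agent.Ball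

namespace TenE

variable {κ : Type} [Fintype κ] [DecidableEq κ] {ϖ : ℂ} {K : Type} [Field K] [NumberField K]
  {m : ℕ}

/-- the vector attached to a pair -/
noncomputable def pv (P : PData κ ϖ) (h : Matrix (Fin m) (Fin m) K)
    (t : Fin m → K → Module.End ℂ (κ → ℂ)) :
    (κ → ℂ) →ₗ[ℂ] (κ → ℂ) →ₗ[ℂ] ((K →+* ℂ) → Fin m → ℂ) :=
  LinearMap.mk₂ ℂ (fun u v σ a => ∑ b, ((h.map σ)⁻¹) b a * P.ψ (ts t (cj σ) b u) v)
    (by
      intro u u' v
      funext σ a
      simp only [map_add, LinearMap.add_apply, mul_add, Finset.sum_add_distrib, Pi.add_apply])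
    (by
      intro c u v
      funext σ a
      simp only [map_smul, LinearMap.smul_apply, smul_eq_mul, Pi.smul_apply, Finset.mul_sum]
      refine Finset.sum_congr rfl fun a _ => ?_
      ring)
    (by
      intro u v v'
      funext σ a
      simp only [map_add, mul_add, Finset.sum_add_distrib, Pi.add_apply])
    (by
      intro c u v
      funext σ a
      simp only [map_smul, smul_eq_mul, Pi.smul_apply, Finset.mul_sum]
      refine Finset.sum_congr rfl fun a _ => ?_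
      ring)

lemma pv_apply (P : PData κ ϖ) (h : Matrix (Fin m) (Fin m) K)
    (t : Fin m → K → Module.End ℂ (κ → ℂ)) (u v : κ → ℂ) (σ : K →+* ℂ) (a : Fin m) :
    pv P h t u v σ a = ∑ b, ((h.map σ)⁻¹) b a * P.ψ (ts t (cj σ) b u) v := rfl

lemma det_map {h : Matrix (Fin m) (Fin m) K} (hnd : h.det ≠ 0) (σ : K →+* ℂ) :
    (h.map σ).det ≠ 0 := by
  have e : (h.map σ).det = σ h.det := (RingHom.map_det σ h).symm
  rw [e]
  exact (map_ne_zero σ).mpr hnd

lemma inv_map {h : Matrix (Fin m) (Fin m) K} (hnd : h.det ≠ 0) (σ : K →+* ℂ) :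
    (h.map σ)⁻¹ = (h⁻¹).map σ := by
  apply Matrix.inv_eq_right_inv
  have h1 : (σ.mapMatrix h) * (σ.mapMatrix h⁻¹) = 1 := by
    rw [← map_mul, Matrix.mul_nonsing_inv _ (isUnit_iff_ne_zero.2 hnd), map_one]
  exact h1

lemma inv_mul_entry {h : Matrix (Fin m) (Fin m) K} (hnd : h.det ≠ 0) (σ : K →+* ℂ)
    (b d : Fin m) : ∑ a, ((h.map σ)⁻¹) b a * (h.map σ) a d = if b = d then 1 else 0 := by
  have h1 := congrFun (congrFun (Matrix.nonsing_inv_mul (h.map σ)
    (isUnit_iff_ne_zero.2 (det_map hnd σ))) b) d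
  rw [Matrix.mul_apply, Matrix.one_apply] at h1
  exact h1

lemma mul_inv_entry {h : Matrix (Fin m) (Fin m) K} (hnd : h.det ≠ 0) (σ : K →+* ℂ)
    (b d : Fin m) : ∑ a, (h.map σ) b a * ((h.map σ)⁻¹) a d = if b = d then 1 else 0 := by
  have h1 := congrFun (congrFun (Matrix.mul_nonsing_inv (h.map σ)
    (isUnit_iff_ne_zero.2 (det_map hnd σ))) b) d
  rw [Matrix.mul_apply, Matrix.one_apply] at h1
  exact h1

lemma tau_psi {n : ℕ} (P : PData κ ϖ) (s : Fin n → Module.End ℂ (κ → ℂ)) (x : Fin n → ℂ)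
    (u v : κ → ℂ) : P.ψ (tau s x u) v = ∑ j, x j * P.ψ (s j u) v := by
  rw [tau_apply]
  simp only [LinearMap.sum_apply, map_sum, LinearMap.smul_apply, map_smul, smul_eq_mul]

lemma pv_pr (P : PData κ ϖ) {h : Matrix (Fin m) (Fin m) K} (hnd : h.det ≠ 0)
    (t : Fin m → K → Module.End ℂ (κ → ℂ)) (u v : κ → ℂ) (σ : K →+* ℂ) (y : Fin m → ℂ) :
    pr h σ (pv P h t u v σ) y = P.ψ (tau (ts t (cj σ)) y u) v := by
  rw [pr, tau_psi, Matrix.dotProduct_mulVec, dotProduct]
  refine Finset.sum_congr rfl fun d _ => ?_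
  rw [Matrix.vecMul, dotProduct]
  have h1 : ∀ a, pv P h t u v σ a * (h.map σ) a d =
      ∑ b, P.ψ (ts t (cj σ) b u) v * (((h.map σ)⁻¹) b a * (h.map σ) a d) := by
    intro a
    rw [pv_apply, Finset.sum_mul]
    refine Finset.sum_congr rfl fun b _ => ?_
    ring
  rw [Finset.sum_congr rfl fun a _ => h1 a, Finset.sum_comm]
  have h2 : ∀ b, ∑ a, P.ψ (ts t (cj σ) b u) v * (((h.map σ)⁻¹) b a * (h.map σ) a d) =
      if b = d then P.ψ (ts t (cj σ) b u) v else 0 := by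
    intro b
    rw [← Finset.mul_sum, inv_mul_entry hnd]
    split_ifs <;> simp
  rw [Finset.sum_congr rfl fun b _ => h2 b, Finset.sum_ite_eq' Finset.univ d,
    if_pos (Finset.mem_univ d), mul_comm]

lemma ts_psi (P : PData κ ϖ) (t : Fin m → K → Module.End ℂ (κ → ℂ)) (σ : K →+* ℂ) (a : Fin m)
    (u v : κ → ℂ) : P.ψ (ts t σ a u) v = ∑ b, σ (dbas K b) * P.ψ (t a (bas K b) u) v := by
  rw [ts]
  simp only [LinearMap.sum_apply, map_sum, LinearMap.smul_apply, map_smul, smul_eq_mul]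

lemma pv_rat {P : PData κ ϖ} {c : K →+* K} {h : Matrix (Fin m) (Fin m) K}
    {t : Fin m → K → Module.End ℂ (κ → ℂ)} (S : MD P c h t) (u v : κ → ℂ) (hu : u ∈ P.Q)
    (hv : v ∈ P.Q) : ∃ z : Fin m → K, ∀ σ a, pv P h t u v σ a = ϖ * σ (z a) := by
  have h1 : ∀ a b, ∃ q : ℚ, P.ψ (t a (bas K b) u) v = ϖ * q :=
    fun a b => P.hψQ _ (S.rat a _ _ hu) _ hv
  choose q hq using h1
  refine ⟨fun a => ∑ b, h⁻¹ b a * c (∑ d, (algebraMap ℚ K (q b d)) * dbas K d), fun σ a => ?_⟩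
  rw [pv_apply, inv_map S.nd, map_sum, Finset.mul_sum]
  refine Finset.sum_congr rfl fun b _ => ?_
  rw [ts_psi, map_mul, ← S.conj, map_sum, Matrix.map_apply]
  have h2 : ∑ d, cj σ (dbas K d) * P.ψ (t b (bas K d) u) v =
      ϖ * ∑ d, cj σ (algebraMap ℚ K (q b d) * dbas K d) := by
    rw [Finset.mul_sum]
    refine Finset.sum_congr rfl fun d _ => ?_
    rw [hq, map_mul]
    have h3 : cj σ (algebraMap ℚ K (q b d)) = (q b d : ℂ) := by
      rw [eq_ratCast, map_ratCast]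
    rw [h3]
    ring
  rw [h2]
  ring

lemma pv_act {P : PData κ ϖ} {h : Matrix (Fin m) (Fin m) K} (hnd : h.det ≠ 0)
    {t : Fin m → K → Module.End ℂ (κ → ℂ)} {B : Module.End ℂ (κ → ℂ)}
    {M : (K →+* ℂ) → Matrix (Fin m) (Fin m) ℂ} (hA : ActM t B M)
    (hψ : ∀ u v, P.ψ (B u) v + P.ψ u (B v) = 0) (hM : SkewM h M) (u v : κ → ℂ) (σ : K →+* ℂ) :
    pv P h t (B u) v σ + pv P h t u (B v) σ = M σ *ᵥ pv P h t u v σ := by
  rw [← sub_eq_zero]
  apply pr_nd hnd σ
  intro y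
  have h0 : pr h σ (pv P h t (B u) v σ + pv P h t u (B v) σ - M σ *ᵥ pv P h t u v σ) y =
      pr h σ (pv P h t (B u) v σ) y + pr h σ (pv P h t u (B v) σ) y -
        pr h σ (M σ *ᵥ pv P h t u v σ) y := by
    rw [sub_eq_add_neg, pr_add_left, pr_add_left, ← neg_one_smul ℂ (M σ *ᵥ pv P h t u v σ),
      pr_smul_left]
    ring
  rw [h0, pv_pr P hnd, pv_pr P hnd]
  have h1 := (skewM_iff M).mp hM σ (pv P h t u v σ) y
  rw [pv_pr P hnd, ← hA (cj σ) y] at h1
  have h2 := hψ (tau (ts t (cj σ)) y u) v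
  rw [LinearMap.sub_apply, map_sub, LinearMap.sub_apply, Module.End.mul_apply,
    Module.End.mul_apply] at h1
  linear_combination h2 - h1

lemma sum_tau_zero [Nonempty κ] {P : PData κ ϖ} {c : K →+* K} {h : Matrix (Fin m) (Fin m) K}
    {t : Fin m → K → Module.End ℂ (κ → ℂ)} (S : MD P c h t) (g : (K →+* ℂ) → Fin m → ℂ)
    (hg : ∑ σ : K →+* ℂ, tau (ts t (cj σ)) (g σ) = 0) (σ : K →+* ℂ) : g σ = 0 := by
  apply pr_nd' S.nd σ
  intro y
  have h1 : ∑ τ : K →+* ℂ, (tau (ts t σ) y * tau (ts t (cj τ)) (g τ) +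
      tau (ts t (cj τ)) (g τ) * tau (ts t σ) y) = 0 := by
    rw [Finset.sum_add_distrib, ← Finset.mul_sum, ← Finset.sum_mul, hg, mul_zero, zero_mul,
      add_zero]
  rw [Finset.sum_eq_single σ] at h1
  · rw [tau_pair S.conj S.cliff] at h1
    rcases smul_eq_zero.mp h1 with h2 | h2
    · simpa using h2
    · exact absurd h2 one_ne_zero
  · intro τ _ hτ
    apply tau_anti S.conj S.cliff
    intro hc
    apply hτ
    rw [← cj_cj τ, hc, cj_cj]
  · intro hn
    exact absurd (Finset.mem_univ _) hn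

lemma pv_span [Nonempty κ] {P : PData κ ϖ} {c : K →+* K} {h : Matrix (Fin m) (Fin m) K}
    {t : Fin m → K → Module.End ℂ (κ → ℂ)} (S : MD P c h t) :
    Submodule.span ℂ {y : (K →+* ℂ) → Fin m → ℂ | ∃ u v, pv P h t u v = y} = ⊤ := by
  classical
  by_contra hne
  obtain ⟨y, hy⟩ : ∃ y, y ∉ Submodule.span ℂ
      {y : (K →+* ℂ) → Fin m → ℂ | ∃ u v, pv P h t u v = y} := by
    by_contra hcon
    push Not at hcon
    exact hne (eq_top_iff.2 fun y _ => hcon y)
  obtain ⟨μ, hμ1, hμ2⟩ := Submodule.exists_dual_map_eq_bot_of_notMem hy inferInstance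
  have hμS : ∀ u v, μ (pv P h t u v) = 0 := by
    intro u v
    have : μ (pv P h t u v) ∈ Submodule.map μ
        (Submodule.span ℂ {y : (K →+* ℂ) → Fin m → ℂ | ∃ u v, pv P h t u v = y}) :=
      Submodule.mem_map_of_mem (Submodule.subset_span ⟨u, v, rfl⟩)
    rw [hμ2] at this
    exact (Submodule.mem_bot ℂ).1 this
  have hμx : ∀ x : (K →+* ℂ) → Fin m → ℂ,
      μ x = ∑ σ, ∑ a, x σ a * μ (Pi.single σ (Pi.single a 1)) := by
    intro x
    have h1 : x = ∑ σ, ∑ a, x σ a •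
        (Pi.single σ (Pi.single a (1 : ℂ)) : (K →+* ℂ) → Fin m → ℂ) := by
      funext τ b
      rw [Finset.sum_apply, Finset.sum_apply, Finset.sum_eq_single τ]
      · rw [Finset.sum_apply, Finset.sum_apply, Finset.sum_eq_single b]
        · rw [Pi.smul_apply, Pi.smul_apply, Pi.single_eq_same, Pi.single_eq_same, smul_eq_mul,
            mul_one]
        · intro a _ ha
          rw [Pi.smul_apply, Pi.smul_apply, Pi.single_eq_same, Pi.single_eq_of_ne ha.symm,
            smul_zero]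
        · intro hn
          exact absurd (Finset.mem_univ _) hn
      · intro σ _ hσ
        rw [Finset.sum_apply, Finset.sum_apply]
        refine Finset.sum_eq_zero fun a _ => ?_
        rw [Pi.smul_apply, Pi.smul_apply, Pi.single_eq_of_ne hσ.symm, Pi.zero_apply, smul_zero]
      · intro hn
        exact absurd (Finset.mem_univ _) hn
    conv_lhs => rw [h1]
    rw [map_sum]
    refine Finset.sum_congr rfl fun σ _ => ?_
    rw [map_sum]
    exact Finset.sum_congr rfl fun a _ => by rw [map_smul, smul_eq_mul]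
  set g : (K →+* ℂ) → Fin m → ℂ := fun σ b =>
    ∑ a, ((h.map σ)⁻¹) b a * μ (Pi.single σ (Pi.single a 1)) with hg
  have h3 : ∑ σ : K →+* ℂ, tau (ts t (cj σ)) (g σ) = 0 := by
    apply beta_op_zero P.hψnd
    intro u v
    rw [← hμS u v, hμx, LinearMap.sum_apply, map_sum, LinearMap.sum_apply]
    refine Finset.sum_congr rfl fun σ _ => ?_
    rw [tau_psi]
    simp only [hg, pv_apply, Finset.sum_mul]
    rw [Finset.sum_comm]
    refine Finset.sum_congr rfl fun b _ => Finset.sum_congr rfl fun a _ => ?_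
    ring
  have h4 : ∀ σ, g σ = 0 := sum_tau_zero S g h3
  apply hμ1
  rw [hμx]
  refine Finset.sum_eq_zero fun σ _ => Finset.sum_eq_zero fun b _ => ?_
  have h5 : μ (Pi.single σ (Pi.single b 1)) = ∑ a, (h.map σ) b a * g σ a := by
    simp only [hg, Finset.mul_sum]
    rw [Finset.sum_comm]
    have h10 : ∀ d, ∑ a, (h.map σ) b a * (((h.map σ)⁻¹) a d *
        μ (Pi.single σ (Pi.single d 1))) =
        if b = d then μ (Pi.single σ (Pi.single d 1)) else 0 := by
      intro d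
      have : ∑ a, (h.map σ) b a * (((h.map σ)⁻¹) a d * μ (Pi.single σ (Pi.single d 1))) =
          (∑ a, (h.map σ) b a * ((h.map σ)⁻¹) a d) * μ (Pi.single σ (Pi.single d 1)) := by
        rw [Finset.sum_mul]
        exact Finset.sum_congr rfl fun a _ => by ring
      rw [this, mul_inv_entry S.nd]
      split_ifs <;> simp
    rw [Finset.sum_congr rfl fun d _ => h10 d, Finset.sum_ite_eq Finset.univ b,
      if_pos (Finset.mem_univ b)]
  rw [h5, h4]
  simp

lemma reorder {n : ℕ} (c' c D : Matrix (Fin n) (Fin n) ℂ) (A B : Fin n → ℂ) :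
    ∑ a, ∑ b, (∑ e, ∑ e', c' a e * D e e' * c b e') * (A a * B b) =
      ∑ e, ∑ e', D e e' * ((∑ a, c' a e * A a) * (∑ b, c b e' * B b)) := by
  have h1 : ∀ a b, (∑ e, ∑ e', c' a e * D e e' * c b e') * (A a * B b) =
      ∑ e, ∑ e', (D e e' * (c' a e * A a * (c b e' * B b))) := by
    intro a b
    rw [Finset.sum_mul]
    refine Finset.sum_congr rfl fun e _ => ?_
    rw [Finset.sum_mul]
    refine Finset.sum_congr rfl fun e' _ => ?_
    ring
  have h2 : ∀ e e', D e e' * ((∑ a, c' a e * A a) * (∑ b, c b e' * B b)) =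
      ∑ a, ∑ b, (D e e' * (c' a e * A a * (c b e' * B b))) := by
    intro e e'
    rw [Finset.sum_mul_sum, Finset.mul_sum]
    refine Finset.sum_congr rfl fun a _ => ?_
    rw [Finset.mul_sum]
  rw [Finset.sum_congr rfl fun a _ => Finset.sum_congr rfl fun b _ => h1 a b,
    Finset.sum_congr rfl fun e _ => Finset.sum_congr rfl fun e' _ => h2 e e']
  have h3 : ∀ a, ∑ b, ∑ e, ∑ e', (D e e' * (c' a e * A a * (c b e' * B b))) =
      ∑ e, ∑ e', ∑ b, (D e e' * (c' a e * A a * (c b e' * B b))) := by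
    intro a
    rw [Finset.sum_comm]
    refine Finset.sum_congr rfl fun e _ => ?_
    rw [Finset.sum_comm]
  rw [Finset.sum_congr rfl fun a _ => h3 a, Finset.sum_comm]
  refine Finset.sum_congr rfl fun e _ => ?_
  rw [Finset.sum_comm]

lemma alg_decomp [Nonempty κ] {P : PData κ ϖ} {c : K →+* K} {h : Matrix (Fin m) (Fin m) K}
    {t : Fin m → K → Module.End ℂ (κ → ℂ)} (S : MD P c h t) (σ : K →+* ℂ) :
    ∃ g' g D : Matrix (Fin m) (Fin m) ℂ,
      (∀ b i j, IsAlgebraic ℚ ((∑ a, g' a b • ts t (cj σ) a) (Pi.single i 1) j)) ∧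
      (∀ b i j, IsAlgebraic ℚ ((∑ a, g a b • ts t σ a) (Pi.single i 1) j)) ∧
      (∀ e e', IsAlgebraic ℚ (D e e')) ∧
      ∀ b a, ((h.map σ)⁻¹) b a = ∑ e, ∑ e', g' b e * D e e' * g a e' := by
  classical
  obtain ⟨g, hgu, hg⟩ := S.alg σ
  obtain ⟨g', hgu', hg'⟩ := S.alg (cj σ)
  set Gc : Matrix (Fin m) (Fin m) ℂ := h.map σ with hGc
  have hdet : Gc.det ≠ 0 := det_map S.nd σ
  set f : Fin m → Module.End ℂ (κ → ℂ) := fun b => ∑ a, g a b • ts t σ a with hf
  set f' : Fin m → Module.End ℂ (κ → ℂ) := fun b => ∑ a, g' a b • ts t (cj σ) a with hf'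
  set C : Matrix (Fin m) (Fin m) ℂ := gᵀ * Gc * g' with hCdef
  have hgdet : g.det ≠ 0 := isUnit_iff_ne_zero.1 ((Matrix.isUnit_iff_isUnit_det g).1 hgu)
  have hgdet' : g'.det ≠ 0 := isUnit_iff_ne_zero.1 ((Matrix.isUnit_iff_isUnit_det g').1 hgu')
  have hCdet : C.det ≠ 0 := by
    rw [hCdef, Matrix.det_mul, Matrix.det_mul, Matrix.det_transpose]
    exact mul_ne_zero (mul_ne_zero hgdet hdet) hgdet'
  have hff : ∀ b b', f b * f' b' + f' b' * f b = (2 * C b b') • 1 := by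
    intro b b'
    have hfb : ∀ b, f b = tau (ts t σ) (fun a => g a b) := fun b => by rw [tau_apply]
    have hfb' : ∀ b, f' b = tau (ts t (cj σ)) (fun a => g' a b) := fun b => by rw [tau_apply]
    rw [hfb, hfb', tau_pair S.conj S.cliff]
    congr 2
    rw [hCdef, pr, Matrix.dotProduct_mulVec, Matrix.mul_apply, dotProduct]
    refine Finset.sum_congr rfl fun d _ => ?_
    rw [Matrix.mul_apply, Matrix.vecMul, dotProduct]
    rfl
  obtain ⟨k⟩ := (inferInstance : Nonempty κ)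
  have hsingle : ∀ i j : κ, IsAlgebraic ℚ ((Pi.single i (1 : ℂ) : κ → ℂ) j) := by
    intro i j
    by_cases h : j = i
    · subst h; rw [Pi.single_eq_same]; exact isAlgebraic_one
    · rw [Pi.single_eq_of_ne h]; exact isAlgebraic_zero
  have hCalg : ∀ b b', IsAlgebraic ℚ (C b b') := by
    intro b b'
    have h1 := congrFun (LinearMap.congr_fun (hff b b') (Pi.single k 1)) k
    rw [LinearMap.add_apply, Pi.add_apply, LinearMap.smul_apply, Pi.smul_apply, smul_eq_mul,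
      Module.End.one_apply, Pi.single_eq_same, mul_one, Module.End.mul_apply,
      Module.End.mul_apply] at h1
    have h2 : IsAlgebraic ℚ (2 * C b b') := by
      rw [← h1]
      exact (beta_apply_alg (f b) (hg b) _ (fun i => beta_apply_alg (f' b') (hg' b') _
        (hsingle k) i) k).add (beta_apply_alg (f' b') (hg' b') _
          (fun i => beta_apply_alg (f b) (hg b) _ (hsingle k) i) k)
    have h3 : C b b' = (2 : ℂ)⁻¹ * (2 * C b b') := by ring
    rw [h3]
    have h4 : IsAlgebraic ℚ (2 : ℂ) := by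
      have := isAlgebraic_algebraMap (R := ℚ) (A := ℂ) 2
      simpa using this
    exact h4.inv.mul h2
  have hCu : IsUnit C.det := isUnit_iff_ne_zero.2 hCdet
  have hCinv : ∀ b b', IsAlgebraic ℚ (C⁻¹ b b') := by
    intro b b'
    refine beta_alg_solve C hCalg hCdet (fun i => (1 : Matrix (Fin m) (Fin m) ℂ) i b')
      (fun l => C⁻¹ l b') ?_ ?_ b
    · intro i
      by_cases h : i = b'
      · subst h; rw [Matrix.one_apply_eq]; exact isAlgebraic_one
      · rw [Matrix.one_apply_ne h]; exact isAlgebraic_zero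
    · intro i
      rw [← Matrix.mul_nonsing_inv C hCu, Matrix.mul_apply]
  have hgu1 : IsUnit gᵀ.det := by
    rw [Matrix.det_transpose]
    exact isUnit_iff_ne_zero.2 hgdet
  have hgu2 : IsUnit g'.det := isUnit_iff_ne_zero.2 hgdet'
  have hH : Gc⁻¹ = g' * C⁻¹ * gᵀ := by
    apply Matrix.inv_eq_right_inv
    have h1 : Gc = (gᵀ)⁻¹ * C * g'⁻¹ := by
      rw [hCdef, Matrix.mul_assoc gᵀ Gc g', ← Matrix.mul_assoc (gᵀ)⁻¹ gᵀ,
        Matrix.nonsing_inv_mul _ hgu1, Matrix.one_mul, Matrix.mul_assoc,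
        Matrix.mul_nonsing_inv _ hgu2, Matrix.mul_one]
    rw [h1]
    calc (gᵀ)⁻¹ * C * g'⁻¹ * (g' * C⁻¹ * gᵀ)
        = (gᵀ)⁻¹ * C * (g'⁻¹ * g') * C⁻¹ * gᵀ := by simp only [Matrix.mul_assoc]
      _ = (gᵀ)⁻¹ * (C * C⁻¹) * gᵀ := by
          rw [Matrix.nonsing_inv_mul _ hgu2, Matrix.mul_one]
          simp only [Matrix.mul_assoc]
      _ = 1 := by
          rw [Matrix.mul_nonsing_inv _ hCu, Matrix.mul_one, Matrix.nonsing_inv_mul _ hgu1]
  refine ⟨g', g, C⁻¹, hg', hg, hCinv, ?_⟩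
  intro b a
  rw [hH, Matrix.mul_apply]
  simp only [Matrix.mul_apply, Matrix.transpose_apply, Finset.sum_mul]
  rw [Finset.sum_comm]

lemma pv_alg [Nonempty κ] {P : PData κ ϖ} {c : K →+* K} {h : Matrix (Fin m) (Fin m) K}
    {t : Fin m → K → Module.End ℂ (κ → ℂ)} (S : MD P c h t) (u v : κ → ℂ)
    (hu : ∀ i, IsAlgebraic ℚ (u i)) (hv : ∀ i, IsAlgebraic ℚ (v i)) (k l : κ) :
    IsAlgebraic ℚ ((∑ σ : K →+* ℂ, tau (ts t σ) (pv P h t u v σ)) (Pi.single k 1) l) := by
  rw [LinearMap.sum_apply, Finset.sum_apply]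
  refine isAlg_sum _ _ fun σ _ => ?_
  obtain ⟨g', g, D, hg', hg, hD, hG⟩ := alg_decomp S σ
  have h1 : tau (ts t σ) (pv P h t u v σ) (Pi.single k 1) l =
      ∑ b, ∑ a, (∑ e, ∑ e', g' b e * D e e' * g a e') *
        (P.ψ (ts t (cj σ) b u) v * ts t σ a (Pi.single k 1) l) := by
    rw [tau_apply, LinearMap.sum_apply, Finset.sum_apply, Finset.sum_comm]
    refine Finset.sum_congr rfl fun a _ => ?_
    rw [LinearMap.smul_apply, Pi.smul_apply, smul_eq_mul, pv_apply, Finset.sum_mul]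
    refine Finset.sum_congr rfl fun b _ => ?_
    rw [hG b a]
    ring
  rw [h1, reorder g' g D (fun b => P.ψ (ts t (cj σ) b u) v)
    (fun a => ts t σ a (Pi.single k 1) l)]
  refine isAlg_sum _ _ fun e _ => isAlg_sum _ _ fun e' _ => ?_
  have h2 : ∑ b, g' b e * P.ψ (ts t (cj σ) b u) v =
      P.ψ ((∑ b, g' b e • ts t (cj σ) b) u) v := by
    simp only [LinearMap.sum_apply, map_sum, LinearMap.smul_apply, map_smul, smul_eq_mul]
  have h3 : ∑ a, g a e' * ts t σ a (Pi.single k 1) l =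
      (∑ a, g a e' • ts t σ a) (Pi.single k 1) l := by
    simp only [LinearMap.sum_apply, Finset.sum_apply, LinearMap.smul_apply, Pi.smul_apply,
      smul_eq_mul]
  rw [h2, h3]
  exact (hD e e').mul ((psi_alg P.ψ P.hψalg _ _ (beta_apply_alg _ (hg' e) _ hu) hv).mul
    (hg e' k l))

/-- the vectors attached to a pair of elements of `H_1` -/
noncomputable def pp (P : PData κ ϖ) (h : Matrix (Fin m) (Fin m) K)
    (t : Fin m → K → Module.End ℂ (κ → ℂ)) :
    HW (fun _ : Unit => κ) (fun _ => 1) →ₗ[ℂ] HW (fun _ : Unit => κ) (fun _ => 1) →ₗ[ℂ]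
      ((K →+* ℂ) → Fin m → ℂ) :=
  LinearMap.mk₂ ℂ (fun w w' => pv P h t (w () 0) (w' () 0))
    (by
      intro u u' v
      simp only [Pi.add_apply, map_add, LinearMap.add_apply])
    (by
      intro c u v
      simp only [Pi.smul_apply, map_smul, LinearMap.smul_apply])
    (by
      intro u v v'
      simp only [Pi.add_apply, map_add])
    (by
      intro c u v
      simp only [Pi.smul_apply, map_smul])

lemma pp_apply (P : PData κ ϖ) (h : Matrix (Fin m) (Fin m) K)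
    (t : Fin m → K → Module.End ℂ (κ → ℂ)) (w w' : HW (fun _ : Unit => κ) (fun _ => 1)) :
    pp P h t w w' = pv P h t (w () 0) (w' () 0) := rfl

lemma pp_span [Nonempty κ] {P : PData κ ϖ} {c : K →+* K} {h : Matrix (Fin m) (Fin m) K}
    {t : Fin m → K → Module.End ℂ (κ → ℂ)} (S : MD P c h t) :
    Submodule.span ℂ {y : (K →+* ℂ) → Fin m → ℂ | ∃ w w', pp P h t w w' = y} = ⊤ := by
  rw [eq_top_iff, ← pv_span S]
  apply Submodule.span_mono
  rintro y ⟨u, v, rfl⟩
  exact ⟨fun _ _ => u, fun _ _ => v, rfl⟩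

end TenE

theorem tensor_formE {κ : Type} [Fintype κ] [DecidableEq κ] [Nonempty κ] {ϖ : ℂ}
    (P : PData κ ϖ) {K : Type} [Field K] [NumberField K] {c : K →+* K} {m : ℕ}
    {h : Matrix (Fin m) (Fin m) K} {t : Fin m → K → Module.End ℂ (κ → ℂ)} (S : MD P c h t) {j : ℕ}
    (F : MultilinearMap ℂ (fun _ : Fin j => (K →+* ℂ) → Fin m → ℂ) ℂ)
    (hFQ : ∀ v : Fin j → Fin m → K, ∃ q : ℚ, F (fun r σ a => σ (v r a)) = q)
    (hFA : ∀ v : Fin j → (K →+* ℂ) → Fin m → ℂ,
      (∀ r a b, IsAlgebraic ℚ ((∑ σ : K →+* ℂ, tau (ts t σ) (v r σ)) (Pi.single a 1) b)) →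
        IsAlgebraic ℚ (F v)) :
    ∃ α : MultilinearMap ℂ (fun _ : Fin (2 * j) => HW (fun _ : Unit => κ) (fun _ => 1)) ℂ,
      (∀ v : Fin (2 * j) → HW (fun _ : Unit => κ) (fun _ => 1),
        (∀ r, IsRatP (fun _ => 1) (fun _ : Unit => P) (v r)) → ∃ q : ℚ, α v = ϖ ^ j * q) ∧
      (∀ v : Fin (2 * j) → HW (fun _ : Unit => κ) (fun _ => 1),
        (∀ r i m j, IsAlgebraic ℚ (v r i m j)) → IsAlgebraic ℚ (α v)) ∧
      ∀ (B : Module.End ℂ (κ → ℂ)) (M : (K →+* ℂ) → Matrix (Fin m) (Fin m) ℂ), ActM t B M →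
        (∀ u v, P.ψ (B u) v + P.ψ u (B v) = 0) → SkewM h M →
        actForm (lift (fun _ => 1) (fun _ : Unit => B)) α = 0 →
        ∀ v : Fin j → (K →+* ℂ) → Fin m → ℂ,
          ∑ r, F (Function.update v r fun σ => M σ *ᵥ v r σ) = 0 := by
  refine ⟨KSP.TenA.pairForm F (TenE.pp P h t), ?_, ?_, ?_⟩
  · intro v hv
    have h1 : ∀ r : Fin j, ∃ z : Fin m → K, ∀ σ a,
        TenE.pv P h t (v (KSP.TenA.ee j (r, 0)) () 0) (v (KSP.TenA.ee j (r, 1)) () 0) σ a =
          ϖ * σ (z a) := fun r => TenE.pv_rat S _ _ (hv _ () 0) (hv _ () 0)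
    choose z hz using h1
    obtain ⟨q, hq⟩ := hFQ z
    refine ⟨q, ?_⟩
    rw [KSP.TenA.pairForm_apply]
    have h2 : (fun r => TenE.pp P h t (v (KSP.TenA.ee j (r, 0))) (v (KSP.TenA.ee j (r, 1)))) =
        fun r => ϖ • (fun σ a => σ (z r a)) := by
      funext r σ a
      rw [TenE.pp_apply, hz]
      rfl
    rw [h2, F.map_smul_univ (fun _ => ϖ), hq, Finset.prod_const, Finset.card_univ,
      Fintype.card_fin, smul_eq_mul]
  · intro v hv
    rw [KSP.TenA.pairForm_apply]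
    apply hFA
    intro r a b
    exact TenE.pv_alg S _ _ (fun k => hv _ () 0 k) (fun k => hv _ () 0 k) a b
  · intro B M hA hψ hM hα v
    let N : Module.End ℂ ((K →+* ℂ) → Fin m → ℂ) :=
      { toFun := fun x σ => M σ *ᵥ x σ
        map_add' := by
          intro x y
          funext σ
          rw [Pi.add_apply, Matrix.mulVec_add]
          rfl
        map_smul' := by
          intro r x
          funext σ
          rw [Pi.smul_apply, Matrix.mulVec_smul]
          rfl }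
    have h1 := KSP.TenA.act_zero F (TenE.pp P h t) (lift (fun _ => 1) (fun _ : Unit => B)) N (by
      intro x y
      funext σ
      rw [Pi.add_apply, TenE.pp_apply, TenE.pp_apply, lift_apply, lift_apply]
      exact TenE.pv_act S.nd hA hψ hM _ _ σ) (TenE.pp_span S) hα
    have h2 := congrArg (fun f : MultilinearMap ℂ
      (fun _ : Fin j => (K →+* ℂ) → Fin m → ℂ) ℂ => f v) h1
    simp only [actForm_apply] at h2
    exact h2

end Pool.Agent.KSE
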