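import Pool.Agent.KSE.Ts

/-!
Module TwistE. Twists by automorphisms of `ℂ`.

`S` acts on `V` coefficientwise in the basis `(P i).bB`: `twV τ v = ∑ j, τ (repr v j) • bB j`. Then
`twV τ (ts t σ a v) = ts t (τ ∘ σ) a (twV τ v)` and `(tw P τ X).1 i (twV τ v) = twV τ (X.1 i v)`
(`tw_basis`), see `tw_star`, `isInv_tw` in `Pool/Agent/Helper28/GPC/TwistU.lean`.
-/

open scoped ComplexConjugate

namespace Pool.Agent.KSE

open Module Matrix NumberField Pool.Agent.Helper7 Pool.Agent.KS Pool.Agent.Ball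
  Pool.Agent.Helper28.GPC

namespace TwistE

section twV

variable {κ : Type} [Fintype κ] [DecidableEq κ] {ϖ : ℂ} (P : PData κ ϖ) (τ : ℂ ≃+* ℂ)

/-- the coefficientwise action in the rational basis -/
noncomputable def twV (v : κ → ℂ) : κ → ℂ := ∑ j, τ (P.bB.repr v j) • P.bB j

lemma twV_add (v w : κ → ℂ) : twV P τ (v + w) = twV P τ v + twV P τ w := by
  rw [twV, twV, twV, ← Finset.sum_add_distrib]
  refine Finset.sum_congr rfl fun j _ => ?_
  rw [map_add, Finsupp.add_apply, map_add, add_smul]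

lemma twV_smul (z : ℂ) (v : κ → ℂ) : twV P τ (z • v) = τ z • twV P τ v := by
  rw [twV, twV, Finset.smul_sum]
  refine Finset.sum_congr rfl fun j _ => ?_
  rw [map_smul, Finsupp.smul_apply, smul_eq_mul, map_mul, mul_smul]

lemma twV_zero : twV P τ (0 : κ → ℂ) = 0 := by
  have h := twV_smul P τ 0 (0 : κ → ℂ)
  rw [zero_smul, map_zero, zero_smul] at h
  exact h

lemma twV_sum {α : Type*} (s : Finset α) (f : α → κ → ℂ) :
    twV P τ (∑ a ∈ s, f a) = ∑ a ∈ s, twV P τ (f a) := by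
  classical
  induction s using Finset.induction_on with
  | empty => rw [Finset.sum_empty, Finset.sum_empty, twV_zero]
  | insert a s ha ih => rw [Finset.sum_insert ha, Finset.sum_insert ha, twV_add, ih]

lemma twV_sub (v w : κ → ℂ) : twV P τ (v - w) = twV P τ v - twV P τ w := by
  have h1 : v - w = v + (-1 : ℂ) • w := by rw [neg_one_smul, sub_eq_add_neg]
  rw [h1, twV_add, twV_smul, map_neg, map_one, neg_one_smul, sub_eq_add_neg]

lemma twV_of_mem {v : κ → ℂ} (hv : v ∈ P.Q) : twV P τ v = v := by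
  have h1 : twV P τ v = ∑ j, P.bB.repr v j • P.bB j := by
    rw [twV]
    refine Finset.sum_congr rfl fun j _ => ?_
    obtain ⟨q, hq⟩ := P.repr_rat v hv j
    rw [hq, map_ratCast]
  rw [h1, P.bB.sum_repr]

lemma twV_symm (v : κ → ℂ) : twV P τ (twV P τ.symm v) = v := by
  have h1 : twV P τ.symm v = ∑ j, τ.symm (P.bB.repr v j) • P.bB j := rfl
  rw [h1, twV_sum]
  have h2 : ∀ j, twV P τ (τ.symm (P.bB.repr v j) • P.bB j) = P.bB.repr v j • P.bB j := by
    intro j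
    rw [twV_smul, RingEquiv.apply_symm_apply, twV_of_mem P τ (P.basis_mem j)]
  rw [Finset.sum_congr rfl fun j _ => h2 j, P.bB.sum_repr]

/-- rational operators commute with the twist -/
lemma twV_comm (f : Module.End ℂ (κ → ℂ)) (hf : ∀ v ∈ P.Q, f v ∈ P.Q) (v : κ → ℂ) :
    twV P τ (f v) = f (twV P τ v) := by
  have h1 : f v = ∑ j, P.bB.repr v j • f (P.bB j) := by
    conv_lhs => rw [← P.bB.sum_repr v]
    rw [map_sum]
    refine Finset.sum_congr rfl fun j _ => ?_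
    rw [map_smul]
  have h2 : f (twV P τ v) = ∑ j, τ (P.bB.repr v j) • f (P.bB j) := by
    rw [twV, map_sum]
    refine Finset.sum_congr rfl fun j _ => ?_
    rw [map_smul]
  rw [h1, h2, twV_sum]
  refine Finset.sum_congr rfl fun j _ => ?_
  rw [twV_smul, twV_of_mem P τ (hf _ (P.basis_mem j))]

variable {K : Type} [Field K] [NumberField K] {c : K →+* K} {m : ℕ}
    {h : Matrix (Fin m) (Fin m) K} {t : Fin m → K → Module.End ℂ (κ → ℂ)}

lemma twV_ts (S : MD P c h t) (σ : K →+* ℂ) (a : Fin m) (v : κ → ℂ) :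
    twV P τ (ts t σ a v) = ts t ((τ : ℂ →+* ℂ).comp σ) a (twV P τ v) := by
  rw [ts, ts, LinearMap.sum_apply, LinearMap.sum_apply, twV_sum]
  refine Finset.sum_congr rfl fun b _ => ?_
  rw [LinearMap.smul_apply, LinearMap.smul_apply, twV_smul, twV_comm P τ _ (S.rat a _)]
  rfl

lemma twV_tau (S : MD P c h t) (σ : K →+* ℂ) (x : Fin m → ℂ) (v : κ → ℂ) :
    twV P τ (tau (ts t σ) x v) =
      tau (ts t ((τ : ℂ →+* ℂ).comp σ)) (fun a => τ (x a)) (twV P τ v) := by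
  rw [tau_apply, tau_apply, LinearMap.sum_apply, LinearMap.sum_apply, twV_sum]
  refine Finset.sum_congr rfl fun a _ => ?_
  rw [LinearMap.smul_apply, LinearMap.smul_apply, twV_smul, twV_ts P τ S]

end twV

lemma twV_tw {I : Type} [Fintype I] [DecidableEq I] {κ : I → Type}
    [∀ i, Fintype (κ i)] [∀ i, DecidableEq (κ i)] {ϖ : ℂ} (P : ∀ i, PData (κ i) ϖ)
    (τ : ℂ ≃+* ℂ) (X : GG κ) (i : I) (v : κ i → ℂ) :
    (tw P τ X).1 i (twV (P i) τ v) = twV (P i) τ (X.1 i v) := by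
  have h1 : X.1 i v = ∑ j, (P i).bB.repr v j • X.1 i ((P i).bB j) := by
    conv_lhs => rw [← (P i).bB.sum_repr v]
    rw [map_sum]
    refine Finset.sum_congr rfl fun j _ => ?_
    rw [map_smul]
  have h2 : (tw P τ X).1 i (twV (P i) τ v) =
      ∑ j, τ ((P i).bB.repr v j) • (tw P τ X).1 i ((P i).bB j) := by
    rw [twV, map_sum]
    refine Finset.sum_congr rfl fun j _ => ?_
    rw [map_smul]
  rw [h1, h2, twV_sum]
  refine Finset.sum_congr rfl fun j _ => ?_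
  rw [twV_smul, tw_basis]
  rfl

end TwistE

open TwistE

set_option linter.unusedSectionVars false

variable {I : Type} [Fintype I] [DecidableEq I] (n : I → ℕ) {κ : I → Type}
    [∀ i, Fintype (κ i)] [∀ i, DecidableEq (κ i)] {ϖ : ℂ} (hϖ : ϖ ≠ 0) (P : ∀ i, PData (κ i) ϖ)
    (i : I) {K : Type} [Field K] [NumberField K] {c : K →+* K} {m : ℕ}
    {h : Matrix (Fin m) (Fin m) K} {t : Fin m → K → Module.End ℂ (κ i → ℂ)}
    (S : MD (P i) c h t) {k : ℕ} (γ : MultilinearMap ℂ (fun _ : Fin (2 * k) => HW κ n) ℂ)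
    (hB : ∀ v : Fin (2 * k) → HW κ n, (∀ r, IsRatP n P (v r)) → ∃ q : ℚ, γ v = ϖ ^ k * q)
    (hA : ∀ v : Fin (2 * k) → HW κ n, (∀ r i m j, IsAlgebraic ℚ (v r i m j)) →
      IsAlgebraic ℚ (γ v))

lemma HH_zero : (0 : (K →+* ℂ) → Matrix (Fin m) (Fin m) ℂ) ∈ HH n P i t γ :=
  ⟨0, IsInv.zero n P γ, rfl, ActM.zero⟩

lemma HH_add {M N : (K →+* ℂ) → Matrix (Fin m) (Fin m) ℂ} (hM : M ∈ HH n P i t γ)
    (hN : N ∈ HH n P i t γ) : M + N ∈ HH n P i t γ := by
  obtain ⟨X, hX, hX0, hXM⟩ := hM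
  obtain ⟨Y, hY, hY0, hYN⟩ := hN
  refine ⟨X + Y, hX.add n P γ hY, ?_, hXM.add hYN⟩
  show X.2 + Y.2 = 0
  rw [hX0, hY0, add_zero]

lemma HH_smul {M : (K →+* ℂ) → Matrix (Fin m) (Fin m) ℂ} (r : ℂ) (hM : M ∈ HH n P i t γ) :
    r • M ∈ HH n P i t γ := by
  obtain ⟨X, hX, hX0, hXM⟩ := hM
  refine ⟨r • X, hX.smul n P γ r, ?_, hXM.smul r⟩
  show r * X.2 = 0
  rw [hX0, mul_zero]

lemma HH_bracket {M N : (K →+* ℂ) → Matrix (Fin m) (Fin m) ℂ} (hM : M ∈ HH n P i t γ)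
    (hN : N ∈ HH n P i t γ) : M * N - N * M ∈ HH n P i t γ := by
  obtain ⟨X, hX, hX0, hXM⟩ := hM
  obtain ⟨Y, hY, hY0, hYN⟩ := hN
  refine ⟨X * Y - Y * X, hX.bracket n P γ hY, ?_, hXM.bracket hYN⟩
  show X.2 * Y.2 - Y.2 * X.2 = 0
  rw [hX0, hY0, mul_zero, sub_zero]

include S in
lemma HH_skew (hne : Nonempty (κ i)) {M : (K →+* ℂ) → Matrix (Fin m) (Fin m) ℂ}
    (hM : M ∈ HH n P i t γ) : SkewM h M := by
  obtain ⟨X, hX, hX0, hXM⟩ := hM
  rw [skewM_iff]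
  intro σ x y
  exact ActM.skew S.conj S.cliff hXM σ x y

include hϖ S hB in
lemma HH_twist {M : (K →+* ℂ) → Matrix (Fin m) (Fin m) ℂ} (hM : M ∈ HH n P i t γ)
    (τ : ℂ ≃+* ℂ) : twM τ M ∈ HH n P i t γ := by
  obtain ⟨X, hX, hX0, hXM⟩ := hM
  refine ⟨tw P τ X, isInv_tw n P γ hϖ hB τ X hX, ?_, ?_⟩
  · rw [tw_snd, hX0, map_zero]
  · intro σ x
    apply LinearMap.ext
    intro w
    obtain ⟨σ', hσ'⟩ : ∃ σ' : K →+* ℂ, σ' = (τ.symm : ℂ →+* ℂ).comp σ := ⟨_, rfl⟩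
    have hσ : σ = (τ : ℂ →+* ℂ).comp σ' := by
      rw [hσ']
      ext z
      show σ z = τ (τ.symm (σ z))
      rw [RingEquiv.apply_symm_apply]
    obtain ⟨x', hx'⟩ : ∃ x' : Fin m → ℂ, x' = fun a => τ.symm (x a) := ⟨_, rfl⟩
    have hx : x = fun a => τ (x' a) := by
      rw [hx']
      funext a
      rw [RingEquiv.apply_symm_apply]
    obtain ⟨v, hv⟩ : ∃ v, v = twV (P i) τ.symm w := ⟨_, rfl⟩
    have hw : w = twV (P i) τ v := by rw [hv, twV_symm]
    have e2 : twM τ M σ *ᵥ x = fun a => τ ((M σ' *ᵥ x') a) := by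
      funext a
      rw [twM, ← hσ', Matrix.mulVec, Matrix.mulVec, dotProduct, dotProduct, map_sum]
      refine Finset.sum_congr rfl fun b _ => ?_
      rw [Matrix.map_apply, map_mul, hx]
    rw [e2]
    have h1 := LinearMap.congr_fun (hXM σ' x') v
    rw [LinearMap.sub_apply, Module.End.mul_apply, Module.End.mul_apply] at h1
    rw [LinearMap.sub_apply, Module.End.mul_apply, Module.End.mul_apply]
    have h2 := congrArg (twV (P i) τ) h1
    rw [twV_sub, ← twV_tw, twV_tau _ _ S, twV_tau _ _ S, twV_tau _ _ S, ← twV_tw] at h2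
    rw [hw, hσ, hx]
    exact h2

end Pool.Agent.KSE
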